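import Pool.Agent.Helper58.PLK.Fam

/-!
# The assumptions of the cases

Trees of clause families which state the assumptions of the cases: `exA1`, ..., `exB`, `exC`.
-/

namespace Pool.Agent.Helper58.PLK

noncomputable section

/-- At most four of the `N` inputs of the cardinality constraint are true. -/
def fTOP (ht : DT) (N : Nat) : List Nat := [neg (totv ht (nat_lit 0) N (nat_lit 4))]

/-- No four lines through a point. -/
def fNO4 (i j k l : Nat) : List Nat :=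
  okc (eqN k l) [neg (enc (nat_lit 3) i j k (nat_lit 0)), neg (enc (nat_lit 3) i j l (nat_lit 0))]

/-- No five lines through a point. -/
def fNO5 (i j k l m : Nat) : List Nat :=
  okc (Nat.add (eqN k l) (Nat.add (eqN k m) (eqN l m)))
    [neg (enc (nat_lit 3) i j k (nat_lit 0)), neg (enc (nat_lit 3) i j l (nat_lit 0)), neg (enc (nat_lit 3) i j m (nat_lit 0))]

/-- No waste of the first kind at the vertices on line `m`. -/
def fZW1 (m i a e : Nat) : List Nat :=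
  okc (Nat.mul (Nat.sub (nat_lit 1) (eqN i m)) (Nat.sub (nat_lit 1) (eqN a m))) [neg (enc (nat_lit 16) i a e (nat_lit 0))]

/-- No waste of the other kinds at the vertices on line `m`. -/
def fZW2 (m k j : Nat) : List Nat := okc (Nat.sub k (nat_lit 3)) [neg (enc (Nat.add (nat_lit 24) k) m j (nat_lit 0) (nat_lit 0))]

/-- No vertex of type `21` on the lines `0, ..., m`. -/
def fNTY (m i j s : Nat) : List Nat := okc (Nat.sub i m) [neg (enc (nat_lit 9) i j s (nat_lit 0))]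

/-- No full vertex on the lines `0, ..., m`. -/
def fNFU (m i j : Nat) : List Nat := okc (Nat.sub i m) [neg (enc (nat_lit 8) i j (nat_lit 0) (nat_lit 0))]

/-- All vertices on the lines `0, ..., m` lie on two lines. -/
def fDD (m i j : Nat) : List Nat := okc (Nat.add (Nat.sub i m) (bad2 i j)) [pos (enc (nat_lit 7) i j (nat_lit 0) (nat_lit 0))]

/-- The literals `Z i j k` for all packed triples below `n`. -/
def zall : Nat → List Nat :=
  Nat.rec (motive := fun _ => List Nat) []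
    (fun m ih => sel (bad3 (n0 m) (n1 m) (n2 m)) (pos (Nat.add (nat_lit 3) (Nat.mul (nat_lit 64) m)) :: ih) ih)

/-- The slack counters are monotone. -/
def fWSM (a b q : Nat) : List Nat :=
  okc (Nat.sub (nat_lit 1) q) [neg (enc (nat_lit 28) a b q (nat_lit 0)), pos (enc (nat_lit 28) a b (Nat.sub q (nat_lit 1)) (nat_lit 0))]

/-- Violation of `a < b < c < d < 14`. -/
def bad4 (a b c d : Nat) : Nat := Nat.add (bad3 a b c) (bad3 b c d)

/-- The load inputs of a vertex on four lines. -/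
def fLOD (a b c d : Nat) : List Nat :=
  okc (bad4 a b c d)
    [pos (ldv (Nat.add (pk3 a b c) (Nat.mul (nat_lit 4096) d)) (nat_lit 0) (nat_lit 60) (nat_lit 7)), neg (enc (nat_lit 3) a b c (nat_lit 0)), neg (enc (nat_lit 3) a b d (nat_lit 0))]

/-- The slack of the first vertex is minimal. -/
def fWSC (a b c d q : Nat) : List Nat :=
  okc (bad4 a b c d)
    [neg (enc (nat_lit 28) (nat_lit 0) (nat_lit 1) q (nat_lit 0)), pos (enc (nat_lit 28) a b q (nat_lit 0)), neg (enc (nat_lit 3) a b c (nat_lit 0)), neg (enc (nat_lit 3) a b d (nat_lit 0))]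

/-- The pattern of the full neighbours of the first vertex. -/
def fPAT (pat q : Nat) : List Nat :=
  okc (Nat.sub q (nat_lit 7))
    [lit (Nat.sub (nat_lit 1) (Nat.land (Nat.shiftRight pat q) (nat_lit 1)))
      (ryN (nat_lit 11) (Nat.land q (nat_lit 3)) (Nat.sub (nat_lit 1) (Nat.land q (nat_lit 3))) (Nat.shiftRight q (nat_lit 2)))]

/-- The four clauses from the final polynomials. -/
def fFP : Nat → List Nat :=
  nthC [
   [neg (enc (nat_lit 3) (nat_lit 0) (nat_lit 1) (nat_lit 2) (nat_lit 0)), neg (enc (nat_lit 3) (nat_lit 0) (nat_lit 5) (nat_lit 6) (nat_lit 0)), neg (enc (nat_lit 3) (nat_lit 0) (nat_lit 9) (nat_lit 10) (nat_lit 0)),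
    neg (enc (nat_lit 3) (nat_lit 1) (nat_lit 5) (nat_lit 8) (nat_lit 0)), neg (enc (nat_lit 3) (nat_lit 1) (nat_lit 9) (nat_lit 12) (nat_lit 0)), neg (enc (nat_lit 3) (nat_lit 2) (nat_lit 6) (nat_lit 12) (nat_lit 0)),
    neg (enc (nat_lit 3) (nat_lit 2) (nat_lit 8) (nat_lit 10) (nat_lit 0)), neg (enc (nat_lit 3) (nat_lit 5) (nat_lit 10) (nat_lit 12) (nat_lit 0)), pos (enc (nat_lit 3) (nat_lit 0) (nat_lit 2) (nat_lit 5) (nat_lit 0)),
    pos (enc (nat_lit 3) (nat_lit 0) (nat_lit 2) (nat_lit 6) (nat_lit 0)), pos (enc (nat_lit 3) (nat_lit 0) (nat_lit 2) (nat_lit 12) (nat_lit 0)), pos (enc (nat_lit 3) (nat_lit 0) (nat_lit 5) (nat_lit 9) (nat_lit 0)),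
    pos (enc (nat_lit 3) (nat_lit 0) (nat_lit 6) (nat_lit 9) (nat_lit 0)), pos (enc (nat_lit 3) (nat_lit 1) (nat_lit 2) (nat_lit 5) (nat_lit 0)), pos (enc (nat_lit 3) (nat_lit 1) (nat_lit 2) (nat_lit 12) (nat_lit 0)),
    pos (enc (nat_lit 3) (nat_lit 1) (nat_lit 5) (nat_lit 10) (nat_lit 0)), pos (enc (nat_lit 3) (nat_lit 1) (nat_lit 5) (nat_lit 12) (nat_lit 0)), pos (enc (nat_lit 3) (nat_lit 2) (nat_lit 5) (nat_lit 8) (nat_lit 0)),
    pos (enc (nat_lit 3) (nat_lit 2) (nat_lit 6) (nat_lit 10) (nat_lit 0)), pos (enc (nat_lit 3) (nat_lit 2) (nat_lit 9) (nat_lit 12) (nat_lit 0)), pos (enc (nat_lit 3) (nat_lit 5) (nat_lit 8) (nat_lit 10) (nat_lit 0)),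
    pos (enc (nat_lit 3) (nat_lit 5) (nat_lit 9) (nat_lit 10) (nat_lit 0)), pos (enc (nat_lit 3) (nat_lit 5) (nat_lit 9) (nat_lit 12) (nat_lit 0)), pos (enc (nat_lit 3) (nat_lit 6) (nat_lit 8) (nat_lit 9) (nat_lit 0))],
   [neg (enc (nat_lit 3) (nat_lit 0) (nat_lit 1) (nat_lit 2) (nat_lit 0)), neg (enc (nat_lit 3) (nat_lit 0) (nat_lit 7) (nat_lit 8) (nat_lit 0)), neg (enc (nat_lit 3) (nat_lit 0) (nat_lit 11) (nat_lit 12) (nat_lit 0)),
    neg (enc (nat_lit 3) (nat_lit 1) (nat_lit 5) (nat_lit 8) (nat_lit 0)), neg (enc (nat_lit 3) (nat_lit 1) (nat_lit 9) (nat_lit 12) (nat_lit 0)), neg (enc (nat_lit 3) (nat_lit 2) (nat_lit 5) (nat_lit 11) (nat_lit 0)),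
    neg (enc (nat_lit 3) (nat_lit 2) (nat_lit 7) (nat_lit 9) (nat_lit 0)), neg (enc (nat_lit 3) (nat_lit 5) (nat_lit 7) (nat_lit 12) (nat_lit 0)), pos (enc (nat_lit 3) (nat_lit 0) (nat_lit 2) (nat_lit 5) (nat_lit 0)),
    pos (enc (nat_lit 3) (nat_lit 0) (nat_lit 2) (nat_lit 11) (nat_lit 0)), pos (enc (nat_lit 3) (nat_lit 0) (nat_lit 2) (nat_lit 12) (nat_lit 0)), pos (enc (nat_lit 3) (nat_lit 0) (nat_lit 8) (nat_lit 11) (nat_lit 0)),
    pos (enc (nat_lit 3) (nat_lit 0) (nat_lit 8) (nat_lit 12) (nat_lit 0)), pos (enc (nat_lit 3) (nat_lit 1) (nat_lit 2) (nat_lit 5) (nat_lit 0)), pos (enc (nat_lit 3) (nat_lit 1) (nat_lit 2) (nat_lit 12) (nat_lit 0)),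
    pos (enc (nat_lit 3) (nat_lit 1) (nat_lit 5) (nat_lit 12) (nat_lit 0)), pos (enc (nat_lit 3) (nat_lit 1) (nat_lit 7) (nat_lit 12) (nat_lit 0)), pos (enc (nat_lit 3) (nat_lit 2) (nat_lit 5) (nat_lit 8) (nat_lit 0)),
    pos (enc (nat_lit 3) (nat_lit 2) (nat_lit 7) (nat_lit 11) (nat_lit 0)), pos (enc (nat_lit 3) (nat_lit 2) (nat_lit 9) (nat_lit 12) (nat_lit 0)), pos (enc (nat_lit 3) (nat_lit 5) (nat_lit 8) (nat_lit 12) (nat_lit 0)),
    pos (enc (nat_lit 3) (nat_lit 7) (nat_lit 8) (nat_lit 12) (nat_lit 0)), pos (enc (nat_lit 3) (nat_lit 7) (nat_lit 9) (nat_lit 12) (nat_lit 0)), pos (enc (nat_lit 3) (nat_lit 8) (nat_lit 9) (nat_lit 11) (nat_lit 0))],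
   [neg (enc (nat_lit 3) (nat_lit 0) (nat_lit 1) (nat_lit 3) (nat_lit 0)), neg (enc (nat_lit 3) (nat_lit 0) (nat_lit 5) (nat_lit 6) (nat_lit 0)), neg (enc (nat_lit 3) (nat_lit 0) (nat_lit 11) (nat_lit 12) (nat_lit 0)),
    neg (enc (nat_lit 3) (nat_lit 1) (nat_lit 4) (nat_lit 6) (nat_lit 0)), neg (enc (nat_lit 3) (nat_lit 1) (nat_lit 9) (nat_lit 12) (nat_lit 0)), neg (enc (nat_lit 3) (nat_lit 2) (nat_lit 4) (nat_lit 9) (nat_lit 0)),
    neg (enc (nat_lit 3) (nat_lit 2) (nat_lit 5) (nat_lit 11) (nat_lit 0)), neg (enc (nat_lit 3) (nat_lit 2) (nat_lit 6) (nat_lit 12) (nat_lit 0)), neg (enc (nat_lit 3) (nat_lit 3) (nat_lit 4) (nat_lit 5) (nat_lit 0)),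
    pos (enc (nat_lit 3) (nat_lit 0) (nat_lit 1) (nat_lit 4) (nat_lit 0)), pos (enc (nat_lit 3) (nat_lit 0) (nat_lit 1) (nat_lit 5) (nat_lit 0)), pos (enc (nat_lit 3) (nat_lit 0) (nat_lit 1) (nat_lit 6) (nat_lit 0)),
    pos (enc (nat_lit 3) (nat_lit 0) (nat_lit 3) (nat_lit 4) (nat_lit 0)), pos (enc (nat_lit 3) (nat_lit 0) (nat_lit 3) (nat_lit 5) (nat_lit 0)), pos (enc (nat_lit 3) (nat_lit 0) (nat_lit 5) (nat_lit 12) (nat_lit 0)),
    pos (enc (nat_lit 3) (nat_lit 0) (nat_lit 6) (nat_lit 12) (nat_lit 0)), pos (enc (nat_lit 3) (nat_lit 1) (nat_lit 2) (nat_lit 12) (nat_lit 0)), pos (enc (nat_lit 3) (nat_lit 1) (nat_lit 4) (nat_lit 12) (nat_lit 0)),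
    pos (enc (nat_lit 3) (nat_lit 1) (nat_lit 6) (nat_lit 12) (nat_lit 0)), pos (enc (nat_lit 3) (nat_lit 2) (nat_lit 3) (nat_lit 5) (nat_lit 0)), pos (enc (nat_lit 3) (nat_lit 2) (nat_lit 9) (nat_lit 12) (nat_lit 0)),
    pos (enc (nat_lit 3) (nat_lit 2) (nat_lit 11) (nat_lit 12) (nat_lit 0)), pos (enc (nat_lit 3) (nat_lit 3) (nat_lit 4) (nat_lit 9) (nat_lit 0)), pos (enc (nat_lit 3) (nat_lit 3) (nat_lit 9) (nat_lit 11) (nat_lit 0)),
    pos (enc (nat_lit 3) (nat_lit 4) (nat_lit 9) (nat_lit 12) (nat_lit 0)), pos (enc (nat_lit 3) (nat_lit 5) (nat_lit 11) (nat_lit 12) (nat_lit 0)), pos (enc (nat_lit 3) (nat_lit 6) (nat_lit 11) (nat_lit 12) (nat_lit 0))],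
   [neg (enc (nat_lit 3) (nat_lit 0) (nat_lit 1) (nat_lit 3) (nat_lit 0)), neg (enc (nat_lit 3) (nat_lit 0) (nat_lit 5) (nat_lit 6) (nat_lit 0)), neg (enc (nat_lit 3) (nat_lit 0) (nat_lit 11) (nat_lit 12) (nat_lit 0)),
    neg (enc (nat_lit 3) (nat_lit 1) (nat_lit 4) (nat_lit 6) (nat_lit 0)), neg (enc (nat_lit 3) (nat_lit 2) (nat_lit 4) (nat_lit 10) (nat_lit 0)), neg (enc (nat_lit 3) (nat_lit 2) (nat_lit 5) (nat_lit 11) (nat_lit 0)),
    neg (enc (nat_lit 3) (nat_lit 2) (nat_lit 6) (nat_lit 12) (nat_lit 0)), neg (enc (nat_lit 3) (nat_lit 3) (nat_lit 4) (nat_lit 5) (nat_lit 0)), neg (enc (nat_lit 3) (nat_lit 3) (nat_lit 10) (nat_lit 11) (nat_lit 0)),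
    pos (enc (nat_lit 3) (nat_lit 0) (nat_lit 1) (nat_lit 4) (nat_lit 0)), pos (enc (nat_lit 3) (nat_lit 0) (nat_lit 1) (nat_lit 6) (nat_lit 0)), pos (enc (nat_lit 3) (nat_lit 0) (nat_lit 3) (nat_lit 4) (nat_lit 0)),
    pos (enc (nat_lit 3) (nat_lit 0) (nat_lit 3) (nat_lit 5) (nat_lit 0)), pos (enc (nat_lit 3) (nat_lit 0) (nat_lit 3) (nat_lit 6) (nat_lit 0)), pos (enc (nat_lit 3) (nat_lit 0) (nat_lit 5) (nat_lit 11) (nat_lit 0)),
    pos (enc (nat_lit 3) (nat_lit 0) (nat_lit 6) (nat_lit 11) (nat_lit 0)), pos (enc (nat_lit 3) (nat_lit 1) (nat_lit 2) (nat_lit 6) (nat_lit 0)), pos (enc (nat_lit 3) (nat_lit 1) (nat_lit 4) (nat_lit 10) (nat_lit 0)),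
    pos (enc (nat_lit 3) (nat_lit 1) (nat_lit 10) (nat_lit 12) (nat_lit 0)), pos (enc (nat_lit 3) (nat_lit 2) (nat_lit 3) (nat_lit 11) (nat_lit 0)), pos (enc (nat_lit 3) (nat_lit 2) (nat_lit 10) (nat_lit 11) (nat_lit 0)),
    pos (enc (nat_lit 3) (nat_lit 2) (nat_lit 11) (nat_lit 12) (nat_lit 0)), pos (enc (nat_lit 3) (nat_lit 3) (nat_lit 4) (nat_lit 11) (nat_lit 0)), pos (enc (nat_lit 3) (nat_lit 3) (nat_lit 5) (nat_lit 11) (nat_lit 0)),
    pos (enc (nat_lit 3) (nat_lit 4) (nat_lit 10) (nat_lit 11) (nat_lit 0)), pos (enc (nat_lit 3) (nat_lit 5) (nat_lit 11) (nat_lit 12) (nat_lit 0)), pos (enc (nat_lit 3) (nat_lit 6) (nat_lit 11) (nat_lit 12) (nat_lit 0))]]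

/-- Units of the case B. -/
def fUB : Nat → List Nat :=
  nthC [[pos (enc (nat_lit 3) (nat_lit 0) (nat_lit 1) (nat_lit 2) (nat_lit 0))], [pos (enc (nat_lit 3) (nat_lit 0) (nat_lit 1) (nat_lit 3) (nat_lit 0))], [pos (enc (nat_lit 3) (nat_lit 0) (nat_lit 2) (nat_lit 3) (nat_lit 0))],
    [pos (enc (nat_lit 3) (nat_lit 1) (nat_lit 2) (nat_lit 3) (nat_lit 0))], [pos (enc (nat_lit 1) (nat_lit 0) (nat_lit 1) (nat_lit 4) (nat_lit 0))], [pos (enc (nat_lit 1) (nat_lit 0) (nat_lit 3) (nat_lit 4) (nat_lit 0))],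
    [pos (ldv (nat_lit 0x3210) (nat_lit 0) (nat_lit 60) (nat_lit 7))]]

/-- Units of the case C. -/
def fUC : Nat → List Nat :=
  nthC [[pos (enc (nat_lit 3) (nat_lit 0) (nat_lit 1) (nat_lit 2) (nat_lit 0))], [pos (enc (nat_lit 3) (nat_lit 0) (nat_lit 1) (nat_lit 3) (nat_lit 0))], [pos (enc (nat_lit 3) (nat_lit 0) (nat_lit 1) (nat_lit 4) (nat_lit 0))],
    [pos (enc (nat_lit 3) (nat_lit 0) (nat_lit 2) (nat_lit 3) (nat_lit 0))], [pos (enc (nat_lit 3) (nat_lit 0) (nat_lit 2) (nat_lit 4) (nat_lit 0))], [pos (enc (nat_lit 3) (nat_lit 0) (nat_lit 3) (nat_lit 4) (nat_lit 0))],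
    [pos (enc (nat_lit 3) (nat_lit 1) (nat_lit 2) (nat_lit 3) (nat_lit 0))], [pos (enc (nat_lit 3) (nat_lit 1) (nat_lit 2) (nat_lit 4) (nat_lit 0))], [pos (enc (nat_lit 3) (nat_lit 1) (nat_lit 3) (nat_lit 4) (nat_lit 0))],
    [pos (enc (nat_lit 3) (nat_lit 2) (nat_lit 3) (nat_lit 4) (nat_lit 0))], [pos (enc (nat_lit 1) (nat_lit 0) (nat_lit 4) (nat_lit 5) (nat_lit 0))], [pos (enc (nat_lit 1) (nat_lit 0) (nat_lit 1) (nat_lit 5) (nat_lit 0))],
    [pos (ldv (nat_lit 1) (nat_lit 0) (nat_lit 74) (nat_lit 19))]]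

open FT in
/-- Assumptions of the cases without vertices on four lines; `sp` are the special ones. -/
def exA (ht : DT) (sp : FT) : FT :=
  node
    (node (leaf fun p => fNO4 (n0 p) (n1 p) (n2 p) (n3 p)) (leaf fun p => fZW1 (nat_lit 0) (n0 p) (n1 p) (n2 p)))
    (node (leaf fun p => fZW2 (nat_lit 0) (n0 p) (n1 p)) (node (leaf fun _ => fTOP ht (nat_lit 1456)) sp))

open FT in
def exA1 (ht : DT) : FT := exA ht (leaf (nthC [[pos (enc (nat_lit 9) (nat_lit 0) (nat_lit 1) (nat_lit 1) (nat_lit 0))]]))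

open FT in
def exA2 (ht : DT) : FT :=
  exA ht (node (leaf (nthC [[pos (enc (nat_lit 8) (nat_lit 0) (nat_lit 1) (nat_lit 0) (nat_lit 0))]])) (leaf fun p => fNTY (nat_lit 0) (n0 p) (n1 p) (n2 p)))

open FT in
def exA3 (ht : DT) : FT :=
  exA ht (node (node (leaf (nthC [[pos (enc (nat_lit 7) (nat_lit 0) (nat_lit 1) (nat_lit 0) (nat_lit 0))], [neg (enc (nat_lit 7) (nat_lit 0) (nat_lit 13) (nat_lit 0) (nat_lit 0))]]))
    (leaf fun p => fNTY (nat_lit 0) (n0 p) (n1 p) (n2 p))) (leaf fun p => fNFU (nat_lit 0) (n0 p) (n1 p)))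

open FT in
def exA5 (ht : DT) (sp : FT) : FT :=
  exA ht (node
    (node (node (leaf (nthC [[pos (enc (nat_lit 5) (nat_lit 0) (nat_lit 1) (nat_lit 0) (nat_lit 0))]])) (leaf fun p => fZW1 (nat_lit 1) (n0 p) (n1 p) (n2 p)))
      (node (leaf fun p => fZW2 (nat_lit 1) (n0 p) (n1 p)) (leaf fun p => fDD (nat_lit 1) (n0 p) (n1 p))))
    (node (node (leaf fun p => fNTY (nat_lit 1) (n0 p) (n1 p) (n2 p)) (leaf fun p => fNFU (nat_lit 1) (n0 p) (n1 p))) sp))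

open FT in
def exA5s (ht : DT) : FT := exA5 ht (leaf fun p => fDD (nat_lit 13) (n0 p) (n1 p))

open FT in
def exA5n (ht : DT) : FT := exA5 ht (leaf fun _ => zall (nat_lit 4096))

open FT in
def exB (ht : DT) (pat : Nat) (sp : FT) : FT :=
  node
    (node (leaf fun p => fNO5 (n0 p) (n1 p) (n2 p) (n3 p) (n4 p)) (leaf fun p => fWSM (n0 p) (n1 p) (n2 p)))
    (node
      (node (leaf fun p => fLOD (n0 p) (n1 p) (n2 p) (n3 p))
        (leaf fun p => fWSC (n0 p) (n1 p) (n2 p) (n3 p) (n4 p)))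
      (node (node (leaf fun _ => fTOP ht (nat_lit 1820)) (leaf fun p => fPAT pat p)) (node (leaf fUB) sp)))

open FT in
def exC (ht : DT) : FT := node (leaf fun _ => fTOP ht (nat_lit 1460)) (leaf fUC)

end

end Pool.Agent.Helper58.PLK
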