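import Pool.Agent.Helper58.PLK.Fam

/-!
# Checking the base clauses

`vt` is a table of 44-bit descriptors (256 per leaf). A clause of the base is checked against the clause
`gen a` computed from its address `a`: the stream gives for each literal of `gen a` the code of the
corresponding literal of the database, and the set of these codes must be contained in the clause.
-/

namespace Pool.Agent.Helper58.PLK

noncomputable section

/-- Compare the literals `G` with the codes in the stream `D` (16 bits each), collecting the mask. -/
def cmpL (vt : DT) (K : Nat → Nat → Nat) : List Nat → Nat → Nat → Nat :=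
  List.rec (motive := fun _ => Nat → Nat → Nat) (fun D m => K D m)
    (fun g _ ih D m =>
      Nat.rec (motive := fun _ => Nat) (nat_lit 0)
        (fun x _ =>
          Nat.rec (motive := fun _ => Nat)
            (ih (Nat.shiftRight D (nat_lit 16)) (Nat.lor m (Nat.shiftLeft (nat_lit 1) (Nat.land D (nat_lit 65535)))))
            (fun _ _ => (nat_lit 0))
            (Nat.xor g (Nat.add (Nat.mul (nat_lit 2) (recv vt (Nat.succ x))) (Nat.land D (nat_lit 1)))))
        (Nat.shiftRight (Nat.land D (nat_lit 65535)) (nat_lit 1)))

/-- Check `n` base clauses from number `k` on. The stream contains for each clause a 60-bit address and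
the codes of its literals. Returns the number of the next clause, or `0`. -/
def base (t u vt : DT) (gen : Nat → List Nat) (K : Nat → Nat) : Nat → Nat → Nat → Nat :=
  Nat.rec (motive := fun _ => Nat → Nat → Nat) (fun _ k => K k)
    (fun _ ih D k =>
      cmpL vt
        (fun D' m =>
          Nat.rec (motive := fun _ => Nat)
            (Nat.rec (motive := fun _ => Nat) (nat_lit 0) (fun k1 _ => ih D' (Nat.succ k1)) (Nat.succ k))
            (fun _ _ => (nat_lit 0))
            (Nat.shiftRight (Nat.xor (Nat.lor m (full t u k)) (full t u k)) (nat_lit 1)))
        (gen (Nat.land D (nat_lit 0xfffffffffffffff))) (Nat.shiftRight D (nat_lit 60)) (nat_lit 0))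

/-- Check a list of (number of clauses, stream) pairs. -/
def bases (t u vt : DT) (gen : Nat → List Nat) : List (Nat × Nat) → Nat → Nat :=
  List.rec (motive := fun _ => Nat → Nat) (fun k => k)
    (fun D _ ih k => base t u vt gen ih D.1 D.2 k)

end


end Pool.Agent.Helper58.PLK
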