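import Pool.Agent.Helper58.PLK.Sound
import Pool.Agent.Helper58.PLK.BaseDef

/-!
# Soundness of the check of the base clauses
-/

namespace Pool.Agent.Helper58.PLK

/-- Truth of a literal of a family, for the meaning `Se` of the descriptors. -/
def LitS (Se : Nat → Prop) (g : Nat) : Prop := if g % 2 = 0 then Se (g / 2) else ¬ Se (g / 2)

/-- Truth of a clause given as a list of literals. -/
def ClauseT (Se : Nat → Prop) (l : List Nat) : Prop := ∃ g ∈ l, LitS Se g

section

variable {Se : Nat → Prop} {t u vt : DT}

/-- The assignment given by the variable table. -/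
def asg (Se : Nat → Prop) (vt : DT) (x : Nat) : Prop := Se (recv vt x)

theorem litS_litT {g x : Nat} (hx : x / 2 ≠ 0) (h : g = 2 * recv vt (x / 2) + x % 2) :
    LitS Se g ↔ LitT (asg Se vt) x := by
  unfold LitS LitT asg
  rcases Nat.mod_two_eq_zero_or_one x with hm | hm
  · have h1 : g % 2 = 0 := by omega
    have h2 : g / 2 = recv vt (x / 2) := by omega
    simp [h1, h2, hm, hx]
  · have h1 : g % 2 = 1 := by omega
    have h2 : g / 2 = recv vt (x / 2) := by omega
    simp [h1, h2, hm, hx]

theorem cmpL_sound {K : Nat → Nat → Nat} {P : Nat → Prop} {H : Prop} (h0 : P 0)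
    (hK : ∀ D m, (H → Holds (asg Se vt) m) → P (K D m)) (G : List Nat) :
    ∀ D m, (H → Holds (asg Se vt) m ∨ ClauseT Se G) → P (cmpL vt K G D m) := by
  induction G with
  | nil =>
    intro D m hm
    refine hK D m fun h => ?_
    rcases hm h with h1 | ⟨g, hg, _⟩
    · exact h1
    · exact absurd hg (List.not_mem_nil)
  | cons g G ih =>
    intro D m hm
    have key : ∀ x : Nat, x = (D &&& 65535) >>> 1 → P (Nat.rec (motive := fun _ => Nat) 0
        (fun x _ =>
          Nat.rec (motive := fun _ => Nat)
            (cmpL vt K G (Nat.shiftRight D 16) (Nat.lor m (Nat.shiftLeft 1 (Nat.land D 65535))))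
            (fun _ _ => 0)
            (Nat.xor g (Nat.add (Nat.mul 2 (recv vt (Nat.succ x))) (Nat.land D 1)))) x) := by
      intro x hx
      rcases x with _ | x
      · exact h0
      · have key2 : ∀ y : Nat, y = g ^^^ (2 * recv vt (x + 1) + (D &&& 1)) →
            P (Nat.rec (motive := fun _ => Nat)
              (cmpL vt K G (Nat.shiftRight D 16) (Nat.lor m (Nat.shiftLeft 1 (Nat.land D 65535))))
              (fun _ _ => 0) y) := by
          intro y hy
          rcases y with _ | y
          · have hg : g = 2 * recv vt (x + 1) + (D &&& 1) := Nat.xor_eq_zero_iff.1 hy.symm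
            have hx2 : (D &&& 65535) / 2 = x + 1 := by
              rw [hx, Nat.shiftRight_eq_div_pow]
            have hm2 : (D &&& 65535) % 2 = D &&& 1 := by
              rw [← Nat.and_one_is_mod, Nat.and_assoc]; rfl
            have hlit := litS_litT (Se := Se) (vt := vt) (g := g) (x := D &&& 65535)
              (by omega) (by rw [hx2, hm2]; exact hg)
            refine ih _ _ fun h => ?_
            show Holds _ (m ||| 1 <<< (D &&& 65535)) ∨ _
            rw [holds_lor, holds_shl]
            rcases hm h with h1 | ⟨g', hg', hl⟩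
            · exact Or.inl (Or.inl h1)
            · rcases List.mem_cons.1 hg' with h2 | h2
              · subst h2
                exact Or.inl (Or.inr (hlit.1 hl))
              · exact Or.inr ⟨g', h2, hl⟩
          · exact h0
        exact key2 _ rfl
    exact key _ rfl

theorem base_sound {gen : Nat → List Nat} (hgen : ∀ a, ClauseT Se (gen a)) {K : Nat → Nat}
    (hK : ∀ k, Inv (asg Se vt) t u k → Inv (asg Se vt) t u (K k)) (n : Nat) :
    ∀ D k, Inv (asg Se vt) t u k → Inv (asg Se vt) t u (base t u vt gen K n D k) := by
  have hfail : Inv (asg Se vt) t u 0 := fun i hi => absurd hi (Nat.not_lt_zero i)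
  induction n with
  | zero => intro D k hk; exact hK k hk
  | succ n ihn =>
    intro D k hk
    refine cmpL_sound (P := fun x => Inv (asg Se vt) t u x) (H := True) hfail ?_ _ _ _
      (fun _ => Or.inr (hgen _))
    intro D' m hm
    have key : ∀ x : Nat, x = ((m ||| full t u k) ^^^ full t u k) >>> 1 →
        Inv (asg Se vt) t u (Nat.rec (motive := fun _ => Nat)
            (Nat.rec (motive := fun _ => Nat) 0 (fun k1 _ => base t u vt gen K n D' (Nat.succ k1)) (Nat.succ k))
            (fun _ _ => 0) x) := by
      intro x hx
      rcases x with _ | x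
      · have hF : Holds (asg Se vt) (full t u k) := holds_mono hx.symm (hm trivial)
        refine ihn D' (Nat.succ k) ?_
        intro i hi
        rcases Nat.lt_succ_iff_lt_or_eq.1 hi with h | h
        · exact hk i h
        · rw [h]; exact hF
      · exact hfail
    exact key _ rfl

theorem bases_sound {gen : Nat → List Nat} (hgen : ∀ a, ClauseT Se (gen a)) (l : List (Nat × Nat)) :
    ∀ k, Inv (asg Se vt) t u k → Inv (asg Se vt) t u (bases t u vt gen l k) := by
  induction l with
  | nil => intro k hk; exact hk
  | cons D l ihl =>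
    intro k hk
    show Inv _ t u (base t u vt gen (bases t u vt gen l) D.1 D.2 k)
    exact base_sound hgen ihl _ _ _ hk

/-- Soundness of the check of a range of base clauses. -/
theorem base_seg {gen : Nat → List Nat} {l : List (Nat × Nat)} {k0 k1 : Nat}
    (h : Nat.beq (bases t u vt gen l k0) k1 = true) (hgen : ∀ a, ClauseT Se (gen a))
    (hI : Inv (asg Se vt) t u k0) : Inv (asg Se vt) t u k1 := by
  rw [← Nat.eq_of_beq_eq_true h]
  exact bases_sound hgen l k0 hI

/-- The clause number `0` is true. -/
theorem inv_one (h : Nat.beq (Nat.land (full t u 0) 2) 2 = true) : Inv (asg Se vt) t u 1 := by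
  intro i hi
  have h0 : i = 0 := by omega
  subst h0
  refine ⟨1, ?_, litT_one _⟩
  have h2 : full t u 0 &&& 2 = 2 := Nat.eq_of_beq_eq_true h
  have : (full t u 0 &&& 2).testBit 1 = true := by rw [h2]; decide
  rw [Nat.testBit_and, Bool.and_eq_true] at this
  exact this.1

end

end Pool.Agent.Helper58.PLK
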