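/-!
# A resolution-chain checker meant to be run by the kernel

Literals are coded by natural numbers: variable `x` gives the literals `2 * x` (positive) and `2 * x + 1`
(negative); variable `0` is always false. A clause is a bit mask of literal codes. Clauses are kept in
a database: a binary tree of numbers, each number packing 256 records of 84 bits (four literal codes of
16 bits, the first one is the pivot, and a pointer to further literals in a second tree).
-/

namespace Pool.Agent.Helper58.PLK

noncomputable section

/-- A binary tree of numbers. -/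
inductive DT where
  | leaf : Nat → DT
  | node : DT → DT → DT

/-- The leaf number `i` (bits of `i` from the lowest). -/
def leafAt (t : DT) : Nat → Nat :=
  DT.rec (motive := fun _ => Nat → Nat) (fun L _ => L)
    (fun _ _ ihl ihr i =>
      Nat.rec (motive := fun _ => Nat) (ihl (Nat.shiftRight i (nat_lit 1)))
        (fun _ _ => ihr (Nat.shiftRight i (nat_lit 1))) (Nat.land i (nat_lit 1))) t

/-- The record number `i`: 84 bits. -/
def recd (t : DT) (i : Nat) : Nat :=
  Nat.rec (motive := fun _ => Nat)
    (Nat.land (Nat.shiftRight (leafAt t (nat_lit 0)) (Nat.mul (nat_lit 84) (Nat.land i (nat_lit 255))))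
      (nat_lit 0xfffffffffffffffffffff))
    (fun m _ => Nat.land (Nat.shiftRight (leafAt t (Nat.succ m))
      (Nat.mul (nat_lit 84) (Nat.land i (nat_lit 255)))) (nat_lit 0xfffffffffffffffffffff))
    (Nat.shiftRight i (nat_lit 8))

/-- The extension record number `i`: 132 bits. -/
def recx (t : DT) (i : Nat) : Nat :=
  Nat.rec (motive := fun _ => Nat)
    (Nat.land (Nat.shiftRight (leafAt t (nat_lit 0)) (Nat.mul (nat_lit 132) (Nat.land i (nat_lit 127))))
      (nat_lit 0xfffffffffffffffffffffffffffffffff))
    (fun m _ => Nat.land (Nat.shiftRight (leafAt t (Nat.succ m))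
      (Nat.mul (nat_lit 132) (Nat.land i (nat_lit 127)))) (nat_lit 0xfffffffffffffffffffffffffffffffff))
    (Nat.shiftRight i (nat_lit 7))

/-- Mask of the literals in the extension records from number `p` on. -/
def xt (u : DT) : Nat → Nat → Nat :=
  Nat.rec (motive := fun _ => Nat → Nat) (fun _ => (nat_lit 0))
    (fun _ ih p =>
      Nat.lor
        (Nat.lor
          (Nat.lor
            (Nat.lor (Nat.shiftLeft (nat_lit 1) (Nat.land (recx u p) (nat_lit 65535)))
              (Nat.shiftLeft (nat_lit 1) (Nat.land (Nat.shiftRight (recx u p) (nat_lit 16)) (nat_lit 65535))))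
            (Nat.lor
              (Nat.shiftLeft (nat_lit 1) (Nat.land (Nat.shiftRight (recx u p) (nat_lit 32)) (nat_lit 65535)))
              (Nat.shiftLeft (nat_lit 1) (Nat.land (Nat.shiftRight (recx u p) (nat_lit 48)) (nat_lit 65535)))))
          (Nat.lor
            (Nat.lor
              (Nat.shiftLeft (nat_lit 1) (Nat.land (Nat.shiftRight (recx u p) (nat_lit 64)) (nat_lit 65535)))
              (Nat.shiftLeft (nat_lit 1) (Nat.land (Nat.shiftRight (recx u p) (nat_lit 80)) (nat_lit 65535))))
            (Nat.lor
              (Nat.shiftLeft (nat_lit 1) (Nat.land (Nat.shiftRight (recx u p) (nat_lit 96)) (nat_lit 65535)))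
              (Nat.shiftLeft (nat_lit 1) (Nat.land (Nat.shiftRight (recx u p) (nat_lit 112)) (nat_lit 65535))))))
        (Nat.rec (motive := fun _ => Nat) (nat_lit 0) (fun _ _ => ih (Nat.succ p))
          (Nat.shiftRight (recx u p) (nat_lit 128))))

/-- Mask of all literals of clause `i` but the first. -/
def tail (t u : DT) (i : Nat) : Nat :=
  Nat.lor
    (Nat.lor (Nat.shiftLeft (nat_lit 1) (Nat.land (Nat.shiftRight (recd t i) (nat_lit 16)) (nat_lit 65535)))
      (Nat.shiftLeft (nat_lit 1) (Nat.land (Nat.shiftRight (recd t i) (nat_lit 32)) (nat_lit 65535))))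
    (Nat.lor (Nat.shiftLeft (nat_lit 1) (Nat.land (Nat.shiftRight (recd t i) (nat_lit 48)) (nat_lit 65535)))
      (Nat.rec (motive := fun _ => Nat) (nat_lit 0) (fun q _ => xt u (nat_lit 255) (Nat.succ q))
        (Nat.shiftRight (recd t i) (nat_lit 64))))

/-- The first literal of clause `i`. -/
def fst (t : DT) (i : Nat) : Nat := Nat.land (recd t i) (nat_lit 65535)

/-- Mask of the complement of the first literal of clause `i`. -/
def pb (t : DT) (i : Nat) : Nat :=
  Nat.shiftLeft (nat_lit 1) (Nat.xor (Nat.land (recd t i) (nat_lit 65535)) (nat_lit 1))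

/-- Mask of clause `i`. -/
def full (t u : DT) (i : Nat) : Nat :=
  Nat.lor (Nat.shiftLeft (nat_lit 1) (Nat.land (recd t i) (nat_lit 65535))) (tail t u i)

/-- End of the chain of clause `k`, start of the next chain. -/
def fin (t u : DT) (ih : Nat → Nat → Nat → Nat) (D k R : Nat) : Nat :=
  Nat.rec (motive := fun _ => Nat)
    (Nat.rec (motive := fun _ => Nat) (nat_lit 0)
      (fun k1 _ =>
        Nat.rec (motive := fun _ => Nat)
          (ih (Nat.shiftRight D (nat_lit 40)) (Nat.succ k1) (full t u (nat_lit 0)))
          (fun m _ => ih (Nat.shiftRight D (nat_lit 40)) (Nat.succ k1) (full t u (Nat.succ m)))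
          (Nat.mod (Nat.land (Nat.shiftRight D (nat_lit 20)) (nat_lit 1048575)) (Nat.succ k1)))
      (Nat.succ k))
    (fun _ _ => (nat_lit 0))
    (Nat.shiftRight (Nat.xor (Nat.lor R (full t u k)) (full t u k)) (nat_lit 1))

/-- Process `n` steps of the token stream `D`. -/
def tok (t u : DT) (K : Nat → Nat → Nat) : Nat → Nat → Nat → Nat → Nat :=
  Nat.rec (motive := fun _ => Nat → Nat → Nat → Nat) (fun _ k R => K k R)
    (fun _ ih D k R =>
      Nat.rec (motive := fun _ => Nat) (fin t u ih D k R)
        (fun m _ => ih (Nat.shiftRight D (nat_lit 20)) k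
          (Nat.lor (Nat.xor R (pb t (Nat.succ m))) (tail t u (Nat.succ m))))
        (Nat.mod (Nat.land D (nat_lit 1048575)) k))

/-- Process chunks of 65 fields of 20 bits: the number of steps, then 64 tokens. -/
def chunks (t u : DT) (K : Nat → Nat → Nat) : Nat → Nat → Nat → Nat → Nat :=
  Nat.rec (motive := fun _ => Nat → Nat → Nat → Nat) (fun _ k R => K k R)
    (fun _ ih D k R =>
      tok t u (ih (Nat.shiftRight D (nat_lit 1300))) (Nat.land D (nat_lit 1048575))
        (Nat.shiftRight (Nat.land D (nat_lit 0xfffffffffffffffffffffffffffffffffffffffffffffffffffffffffffffffffffffffffffffffffffffffffffffffffffffffffffffffffffffffffffffffffffffffffffffffffffffffffffffffffffffffffffffffffffffffffffffffffffffffffffffffffffffffffffffffffffffffffffffffffffffffffffffffffffffffffffffffffffffffffffffffffffffffffffffffffffffffffffffffffffff)) (nat_lit 20)) k R)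

/-- Process a list of numbers of 24 chunks each; the result is the number of the next clause. -/
def run (t u : DT) : List Nat → Nat → Nat → Nat :=
  List.rec (motive := fun _ => Nat → Nat → Nat) (fun k _ => k)
    (fun D _ ih k R => chunks t u ih (nat_lit 24) D k R)

end

end Pool.Agent.Helper58.PLK
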