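import Pool.Agent.Helper58.PLK.Check

/-!
# Clause families

A propositional variable is a descriptor `kind + 64 * payload`; a literal is `2 * descriptor` (positive)
or `2 * descriptor + 1` (negative); the descriptor `0` is false. `gen` computes the clause with a given
address. All functions are written with the primitive operations of `Nat` so that the kernel can
evaluate them quickly. The clause `[1]` is trivially true (negation of the descriptor `0`).
-/

namespace Pool.Agent.Helper58.PLK

noncomputable section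

/-- Minimum. -/
def mnN (a b : Nat) : Nat := Nat.sub a (Nat.sub a b)
/-- Maximum. -/
def mxN (a b : Nat) : Nat := Nat.add b (Nat.sub a b)
/-- `1` if `a < b`, else `0`. -/
def ltN (a b : Nat) : Nat := Nat.sub (nat_lit 1) (Nat.sub (nat_lit 1) (Nat.sub b a))
/-- `1` if `a = b`, else `0`. -/
def eqN (a b : Nat) : Nat := Nat.sub (nat_lit 1) (Nat.add (Nat.sub a b) (Nat.sub b a))

/-- Descriptor with payload fields of 4 bits (the last one may be larger). -/
def enc (k a b c e : Nat) : Nat :=
  Nat.add k (Nat.mul (nat_lit 64) (Nat.add a (Nat.mul (nat_lit 16) (Nat.add b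
    (Nat.mul (nat_lit 16) (Nat.add c (Nat.mul (nat_lit 16) e)))))))

/-- Positive literal. -/
def pos (d : Nat) : Nat := Nat.mul (nat_lit 2) d
/-- Negative literal. -/
def neg (d : Nat) : Nat := Nat.succ (Nat.mul (nat_lit 2) d)

/-- Middle one of three numbers. -/
def mdN (a b c : Nat) : Nat :=
  Nat.sub (Nat.add (Nat.add a b) c) (Nat.add (mnN a (mnN b c)) (mxN a (mxN b c)))

/-- Descriptor of kind `k` for the sorted triple of `a`, `b`, `c`. -/
def tri3 (k a b c e : Nat) : Nat := enc k (mnN a (mnN b c)) (mdN a b c) (mxN a (mxN b c)) e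

/-- The lines `a`, `b`, `c` have a common point. -/
def zz (a b c : Nat) : Nat := tri3 (nat_lit 3) a b c (nat_lit 0)

/-- Direction (`0` right, `1` left) of the edge of the candidate triangle of type `c` on its line number
`x` seen from the vertex on its lines number `x`, `y`. -/
def dirN (c x y : Nat) : Nat :=
  Nat.land (Nat.shiftRight (nat_lit 0x32231444a4518898a4) (Nat.add (Nat.mul (nat_lit 9) c) (Nat.add (Nat.mul (nat_lit 3) x) y))) (nat_lit 1)

/-- Side (`0` above, `1` below) of the candidate triangle of type `c` with respect to its line number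
`x` (the argument `y` is the other line of the vertex). -/
def sideN (c x y : Nat) : Nat :=
  Nat.land (Nat.shiftRight (nat_lit 0x62a8c0c6711111c28) (Nat.add (Nat.mul (nat_lit 9) c) (Nat.add (Nat.mul (nat_lit 3) x) y))) (nat_lit 1)

/-- Sector `0, 1, 2, 3` of the corner of the flag `(i, a, d, s)`. -/
def secN (i a d s : Nat) : Nat :=
  Nat.land (Nat.shiftRight (nat_lit 0x6cd2) (Nat.mul (nat_lit 2)
    (Nat.add (Nat.mul (nat_lit 4) (ltN i a)) (Nat.add (Nat.mul (nat_lit 2) d) s)))) (nat_lit 3)

/-- Descriptor of kind `k` for the unordered pair `i`, `j`. -/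
def prN (k i j c : Nat) : Nat := enc k (mnN i j) (mxN i j) c (nat_lit 0)
/-- Descriptor of kind `k` for the flag `(i, a, d, s)`. -/
def flN (k i a d s : Nat) : Nat := enc k i a (Nat.add d (Nat.mul (nat_lit 2) s)) (nat_lit 0)
/-- Descriptor of kind `k` for the ray `(i, a, d)`. -/
def ryN (k i a d : Nat) : Nat := enc k i a d (nat_lit 0)
/-- The corner number `q` at the vertex of `i < j` is triangular: `q = 0, 1, 2, 3` are the corners
(right, above), (left, below), (left, above), (right, below) of the line `i`. -/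
def corN (i j q : Nat) : Nat := enc (nat_lit 5) i j (Nat.land (Nat.shiftRight (nat_lit 0x9c) (Nat.mul (nat_lit 2) q)) (nat_lit 3)) (nat_lit 0)

/-- Guard: the clause `l` if `bad = 0`, else a trivially true clause. -/
def okc (bad : Nat) (l : List Nat) : List Nat :=
  Nat.rec (motive := fun _ => List Nat) l (fun _ _ => [(nat_lit 1)]) bad

/-- Choice by a number: `l` if `b = 0`, else `m`. -/
def sel (b : Nat) (l m : List Nat) : List Nat :=
  Nat.rec (motive := fun _ => List Nat) l (fun _ _ => m) b

/-- Fields of an address. -/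
def n0 (p : Nat) : Nat := Nat.land p (nat_lit 15)
def n1 (p : Nat) : Nat := Nat.land (Nat.shiftRight p (nat_lit 4)) (nat_lit 15)
def n2 (p : Nat) : Nat := Nat.land (Nat.shiftRight p (nat_lit 8)) (nat_lit 15)
def n3 (p : Nat) : Nat := Nat.land (Nat.shiftRight p (nat_lit 12)) (nat_lit 15)
def n4 (p : Nat) : Nat := Nat.land (Nat.shiftRight p (nat_lit 16)) (nat_lit 15)
def n5 (p : Nat) : Nat := Nat.land (Nat.shiftRight p (nat_lit 20)) (nat_lit 15)
def n6 (p : Nat) : Nat := Nat.land (Nat.shiftRight p (nat_lit 24)) (nat_lit 15)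

/-- Violation of `i < j < k < 14`. -/
def bad3 (i j k : Nat) : Nat :=
  Nat.add (Nat.sub (Nat.succ i) j) (Nat.add (Nat.sub (Nat.succ j) k) (Nat.sub (Nat.succ k) (nat_lit 14)))
/-- Violation of `i < j < 14`. -/
def bad2 (i j : Nat) : Nat := Nat.add (Nat.sub (Nat.succ i) j) (Nat.sub (Nat.succ j) (nat_lit 14))
/-- Violation of `i ≠ a`, `i < 14`, `a < 14`. -/
def badp (i a : Nat) : Nat :=
  Nat.add (eqN i a) (Nat.add (Nat.sub (Nat.succ i) (nat_lit 14)) (Nat.sub (Nat.succ a) (nat_lit 14)))

/-- Family 0: the three signs of a triple are exclusive and exhaustive. -/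
def fEX (i j k q : Nat) : List Nat :=
  okc (bad3 i j k)
    (sel (Nat.shiftRight q (nat_lit 1))
      (sel (Nat.land q (nat_lit 1)) [neg (enc (nat_lit 1) i j k (nat_lit 0)), neg (enc (nat_lit 2) i j k (nat_lit 0))]
        [neg (enc (nat_lit 1) i j k (nat_lit 0)), neg (enc (nat_lit 3) i j k (nat_lit 0))])
      (sel (Nat.land q (nat_lit 1)) [neg (enc (nat_lit 2) i j k (nat_lit 0)), neg (enc (nat_lit 3) i j k (nat_lit 0))]
        [pos (enc (nat_lit 1) i j k (nat_lit 0)), pos (enc (nat_lit 2) i j k (nat_lit 0)), pos (enc (nat_lit 3) i j k (nat_lit 0))]))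

/-- One part of a clause of family 1: code `0` nothing, `1, 2, 3` positive kind, `5, 6, 7` negative kind. -/
def b2part (x i j k : Nat) (l : List Nat) : List Nat :=
  Nat.rec (motive := fun _ => List Nat) l
    (fun _ _ => Nat.add (Nat.mul (nat_lit 2) (enc (Nat.land x (nat_lit 3)) i j k (nat_lit 0))) (Nat.shiftRight x (nat_lit 2)) :: l) x

/-- Patterns of family 1: 44 groups of four fields of 3 bits. -/
def b2tab : Nat := (nat_lit 0x562162860ff63f1dfe1f7c7ec70692292991916512d1c11341c8108d40d4451fbe3b28b453fc30b243214a4ca68aa0a45a582a422b07f8ef8348c88468fd8590a50)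

/-- Family 1: consistency of the four signs of four lines. -/
def fB2 (i j k l x : Nat) : List Nat :=
  okc (Nat.add (bad3 i j k) (Nat.add (bad3 j k l) (Nat.sub (Nat.succ x) (nat_lit 44))))
    (b2part (Nat.land (Nat.shiftRight b2tab (Nat.mul (nat_lit 12) x)) (nat_lit 7)) i j k
      (b2part (Nat.land (Nat.shiftRight b2tab (Nat.add (nat_lit 3) (Nat.mul (nat_lit 12) x))) (nat_lit 7)) i j l
        (b2part (Nat.land (Nat.shiftRight b2tab (Nat.add (nat_lit 6) (Nat.mul (nat_lit 12) x))) (nat_lit 7)) i k l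
          (b2part (Nat.land (Nat.shiftRight b2tab (Nat.add (nat_lit 9) (Nat.mul (nat_lit 12) x))) (nat_lit 7)) j k l []))))

/-- Family 2: normalisation, all vertices are on or above line 0. -/
def fNORM (j k : Nat) : List Nat := [neg (enc (nat_lit 2) (nat_lit 0) j k (nat_lit 0))]

/-- Family 3: the sign of a candidate triangle. -/
def fTSG (i j k c : Nat) : List Nat :=
  [neg (enc (nat_lit 4) i j k c), pos (enc (Nat.succ (Nat.shiftRight c (nat_lit 2))) i j k (nat_lit 0))]

/-- The field number `x` of the packed triple `t`. -/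
def lnN (t x : Nat) : Nat := Nat.land (Nat.shiftRight t (Nat.mul (nat_lit 4) x)) (nat_lit 15)

/-- Packed triple. -/
def pk3 (i j k : Nat) : Nat := Nat.add i (Nat.mul (nat_lit 16) (Nat.add j (Nat.mul (nat_lit 16) k)))

/-- On line `i`, the vertex with `a` is strictly to the left of the vertex with `b`. -/
def ltd (i a b : Nat) : Nat := tri3 (Nat.sub (nat_lit 2) (ltN a b)) i a b (nat_lit 0)

/-- The smaller and the larger index different from `x` (for `x < 3`). -/
def oy (x : Nat) : Nat := Nat.sub (nat_lit 1) x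
def oz (x : Nat) : Nat := Nat.sub (nat_lit 2) (Nat.shiftRight x (nat_lit 1))

/-- Number of the line through the end of the side on line number `x` from which the side goes to the
right (`w = 0`) or to the left (`w = 1`). -/
def endN (c x w : Nat) : Nat :=
  Nat.add (oy x) (Nat.mul (Nat.xor w (dirN c x (oy x))) (Nat.sub (oz x) (oy x)))

/-- The negated literal of the candidate triangle with packed triple `t` and type `c`. -/
def ncd (t c : Nat) : Nat := neg (Nat.add (nat_lit 4) (Nat.mul (nat_lit 64) (Nat.add t (Nat.mul (nat_lit 4096) c))))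

/-- Family E: no vertex inside a side of a candidate triangle. The side on line number `x` has the ends
`endN c x 0` (the side goes to the right from there) and `endN c x 1`. It is bounded if the two sides
(above or below) at the ends agree. -/
def fE (t c l x w : Nat) : List Nat :=
  okc (Nat.sub x (nat_lit 2))
    (sel (Nat.xor (sideN c x (oy x)) (sideN c x (oz x)))
      [ncd t c, neg (ltd (lnN t x) (lnN t (endN c x (nat_lit 0))) l), neg (ltd (lnN t x) l (lnN t (endN c x (nat_lit 1))))]
      (sel w [ncd t c, neg (ltd (lnN t x) (lnN t (endN c x (nat_lit 0))) l)]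
        [ncd t c, neg (ltd (lnN t x) l (lnN t (endN c x (nat_lit 1))))]))

/-- Number of the third line's smaller companions: position of `i` among `i`, `a`, `k`. -/
def posN (i a k : Nat) : Nat := Nat.add (ltN a i) (ltN k i)

/-- The two types of candidate triangles with corner direction `d`, side `s` at the vertex of their lines
number `x`, `y`: table of 6-bit fields (two types). -/
def u1tab : Nat := (nat_lit 0xce887a8b9af0a3ace1000000c63e2ae708ab8eac78000000)

def u1idx (x y d s : Nat) : Nat :=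
  Nat.mul (nat_lit 6) (Nat.add s (Nat.mul (nat_lit 2) (Nat.add d (Nat.mul (nat_lit 2) (Nat.add y (Nat.mul (nat_lit 3) x))))))

/-- The literals of family 5 for third lines `14 - m, ..., 13`. -/
def u1list (i a d s : Nat) : Nat → List Nat :=
  Nat.rec (motive := fun _ => List Nat) []
    (fun m ih =>
      Nat.rec (motive := fun _ => List Nat)
        (pos (tri3 (nat_lit 4) i a (Nat.sub (nat_lit 13) m)
            (Nat.land (Nat.shiftRight u1tab (u1idx (posN i a (Nat.sub (nat_lit 13) m)) (posN a i (Nat.sub (nat_lit 13) m)) d s)) (nat_lit 7))) ::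
         pos (tri3 (nat_lit 4) i a (Nat.sub (nat_lit 13) m)
            (Nat.land (Nat.shiftRight u1tab (Nat.add (nat_lit 3)
              (u1idx (posN i a (Nat.sub (nat_lit 13) m)) (posN a i (Nat.sub (nat_lit 13) m)) d s))) (nat_lit 7))) :: ih)
        (fun _ _ => ih)
        (Nat.add (eqN (Nat.sub (nat_lit 13) m) i) (eqN (Nat.sub (nat_lit 13) m) a)))

/-- Family 5: a corner with `u` belongs to some candidate triangle. -/
def fU1a (i a d s : Nat) : List Nat :=
  okc (Nat.add (badp i a) (Nat.add (Nat.sub d (nat_lit 1)) (Nat.sub s (nat_lit 1)))) (neg (flN (nat_lit 6) i a d s) :: u1list i a d s (nat_lit 14))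

/-- Guard of the families on candidate triangles. -/
def badc (x y : Nat) : Nat := Nat.add (eqN x y) (Nat.add (Nat.sub x (nat_lit 2)) (Nat.sub y (nat_lit 2)))

/-- Third index. -/
def thN (x y : Nat) : Nat := Nat.sub (nat_lit 3) (Nat.add x y)

/-- Family 6: candidate triangle to `u`. -/
def fU1b (t c x y : Nat) : List Nat :=
  okc (badc x y) [neg (Nat.add (nat_lit 4) (Nat.mul (nat_lit 64) (Nat.add t (Nat.mul (nat_lit 4096) c)))),
    pos (flN (nat_lit 6) (lnN t x) (lnN t y) (dirN c x y) (sideN c x y))]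

/-- Family 7. -/
def fU2a (i a d s : Nat) : List Nat :=
  okc (Nat.add (Nat.sub d (nat_lit 1)) (Nat.sub s (nat_lit 1))) [neg (flN (nat_lit 6) i a d s), pos (flN (nat_lit 5) i a d s)]

/-- The literals `zz i a l` for `l` between (`w = 1`) or outside (`w = 0`) of `i`, `a`. -/
def zlist (i a w : Nat) : Nat → List Nat :=
  Nat.rec (motive := fun _ => List Nat) []
    (fun m ih =>
      Nat.rec (motive := fun _ => List Nat)
        (pos (zz i a (Nat.sub (nat_lit 13) m)) :: ih)
        (fun _ _ => ih)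
        (Nat.add (Nat.add (eqN (Nat.sub (nat_lit 13) m) i) (eqN (Nat.sub (nat_lit 13) m) a))
          (Nat.xor w (Nat.mul (ltN (mnN i a) (Nat.sub (nat_lit 13) m)) (ltN (Nat.sub (nat_lit 13) m) (mxN i a))))))

/-- Family 8: a triangular corner has `u` unless a line passes through the corner. -/
def fU2b (i a d s : Nat) : List Nat :=
  okc (Nat.add (badp i a) (Nat.add (Nat.sub d (nat_lit 1)) (Nat.sub s (nat_lit 1))))
    (neg (flN (nat_lit 5) i a d s) :: pos (flN (nat_lit 6) i a d s) :: zlist i a (Nat.xor (Nat.xor d s) (ltN i a)) (nat_lit 14))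

/-- Family 9: transfer of a property of kind `k` (5, 11, 12, 13, 14, 18, 19, 20) to another label of the
same vertex. -/
def fTR (i a b e k : Nat) : List Nat :=
  okc (Nat.add (Nat.sub (nat_lit 1) (Nat.land (Nat.shiftRight (nat_lit 0x1c7820) k) (nat_lit 1))) (Nat.add (eqN i a) (Nat.add (eqN i b) (eqN a b))))
    [neg (zz i a b), neg (enc k i a e (nat_lit 0)), pos (enc k i b e (nat_lit 0))]

/-- Family 10: the two flags of a corner. -/
def fU5 (i a q w : Nat) : List Nat :=
  okc (Nat.add (bad2 i a) (Nat.sub q (nat_lit 3)))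
    (sel w
      (neg (enc (nat_lit 5) i a (Nat.land (Nat.shiftRight (nat_lit 0x9c) (Nat.mul (nat_lit 2) q)) (nat_lit 3)) (nat_lit 0)) ::
        pos (enc (nat_lit 5) a i (Nat.land (Nat.shiftRight (nat_lit 0xc6) (Nat.mul (nat_lit 2) q)) (nat_lit 3)) (nat_lit 0)) ::
        zlist i a (Nat.sub (nat_lit 1) (Nat.shiftRight q (nat_lit 1))) (nat_lit 14))
      (neg (enc (nat_lit 5) a i (Nat.land (Nat.shiftRight (nat_lit 0xc6) (Nat.mul (nat_lit 2) q)) (nat_lit 3)) (nat_lit 0)) ::
        pos (enc (nat_lit 5) i a (Nat.land (Nat.shiftRight (nat_lit 0x9c) (Nat.mul (nat_lit 2) q)) (nat_lit 3)) (nat_lit 0)) ::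
        zlist i a (Nat.sub (nat_lit 1) (Nat.shiftRight q (nat_lit 1))) (nat_lit 14)))

/-- Family 11. -/
def fD1 (i j k : Nat) : List Nat := [neg (enc (nat_lit 7) i j (nat_lit 0) (nat_lit 0)), neg (zz i j k)]
/-- Family 12. -/
def fD2 (i j : Nat) : List Nat :=
  okc (bad2 i j) (pos (enc (nat_lit 7) i j (nat_lit 0) (nat_lit 0)) ::
    Nat.rec (motive := fun _ => List Nat) []
    (fun m ih =>
      Nat.rec (motive := fun _ => List Nat)
        (pos (zz i j (Nat.sub (nat_lit 13) m)) :: ih)
        (fun _ _ => ih)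
        (Nat.add (eqN (Nat.sub (nat_lit 13) m) i) (eqN (Nat.sub (nat_lit 13) m) j))) (nat_lit 14))
/-- Family 13. -/
def fFULL (i j q : Nat) : List Nat :=
  [neg (enc (nat_lit 8) i j (nat_lit 0) (nat_lit 0)),
    Nat.rec (motive := fun _ => Nat) (pos (corN i j q)) (fun _ _ => pos (enc (nat_lit 7) i j (nat_lit 0) (nat_lit 0))) (Nat.shiftRight q (nat_lit 2))]
/-- Family 14. -/
def fFULL3 (i j : Nat) : List Nat :=
  okc (bad2 i j) [pos (enc (nat_lit 8) i j (nat_lit 0) (nat_lit 0)), neg (enc (nat_lit 7) i j (nat_lit 0) (nat_lit 0)), neg (corN i j (nat_lit 0)), neg (corN i j (nat_lit 1)),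
    neg (corN i j (nat_lit 2)), neg (corN i j (nat_lit 3))]
/-- Family 15. -/
def fTY (i j s q : Nat) : List Nat :=
  [neg (enc (nat_lit 9) i j s (nat_lit 0)),
    Nat.rec (motive := fun _ => Nat) (Nat.add (pos (corN i j q)) (eqN q s))
      (fun _ _ => pos (enc (nat_lit 7) i j (nat_lit 0) (nat_lit 0))) (Nat.shiftRight q (nat_lit 2))]
/-- Family 16. -/
def fTY3 (i j s : Nat) : List Nat :=
  okc (Nat.add (bad2 i j) (Nat.sub s (nat_lit 3))) [pos (enc (nat_lit 9) i j s (nat_lit 0)), neg (enc (nat_lit 7) i j (nat_lit 0) (nat_lit 0)),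
    Nat.add (pos (corN i j (nat_lit 0))) (Nat.sub (nat_lit 1) (eqN (nat_lit 0) s)), Nat.add (pos (corN i j (nat_lit 1))) (Nat.sub (nat_lit 1) (eqN (nat_lit 1) s)),
    Nat.add (pos (corN i j (nat_lit 2))) (Nat.sub (nat_lit 1) (eqN (nat_lit 2) s)), Nat.add (pos (corN i j (nat_lit 3))) (Nat.sub (nat_lit 1) (eqN (nat_lit 3) s))]
/-- Family 17. -/
def fM31 (i j : Nat) : List Nat := [neg (enc (nat_lit 10) i j (nat_lit 0) (nat_lit 0)), neg (enc (nat_lit 7) i j (nat_lit 0) (nat_lit 0))]
/-- Family 18. -/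
def fM32 (i j k l : Nat) : List Nat :=
  okc (eqN k l) [neg (enc (nat_lit 10) i j (nat_lit 0) (nat_lit 0)), neg (zz i j k), neg (zz i j l)]

/-- Literal with sign `w` (`1` negative). -/
def lit (w d : Nat) : Nat := Nat.add w (Nat.mul (nat_lit 2) d)

/-- Family 19. -/
def fNFc (t c x y w : Nat) : List Nat :=
  okc (Nat.add (badc x y) (Nat.sub w (nat_lit 1))) [ncd t c,
    lit (Nat.sub (nat_lit 1) w) (ryN (nat_lit 11) (lnN t x) (lnN t y) (dirN c x y)),
    lit w (prN (nat_lit 8) (lnN t x) (lnN t (thN x y)) (nat_lit 0))]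
/-- Family 20. -/
def fN21c (t c x y : Nat) : List Nat :=
  okc (badc x y) [ncd t c,
    neg (flN (nat_lit 12) (lnN t x) (lnN t y) (dirN c x y) (Nat.sub (nat_lit 1) (sideN c x y))),
    pos (prN (nat_lit 9) (lnN t x) (lnN t (thN x y)) (secN (lnN t x) (lnN t (thN x y)) (dirN c x (thN x y))
      (Nat.sub (nat_lit 1) (sideN c x (thN x y)))))]
/-- Family 21. -/
def fL2c (t c x y : Nat) : List Nat :=
  okc (badc x y) [ncd t c, neg (ryN (nat_lit 19) (lnN t x) (lnN t y) (dirN c x y)),
    pos (prN (nat_lit 23) (lnN t x) (lnN t (thN x y)) (nat_lit 0))]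
/-- Family 22. -/
def fL4c (t c x y : Nat) : List Nat :=
  okc (badc x y) [ncd t c, neg (ryN (nat_lit 18) (lnN t x) (lnN t y) (dirN c x y)),
    pos (ryN (nat_lit 21) (lnN t x) (lnN t (thN x y)) (dirN c x (thN x y)))]
/-- Family 23. -/
def fL1c (t c x y : Nat) : List Nat :=
  okc (badc x y) [ncd t c, neg (ryN (nat_lit 20) (lnN t x) (lnN t y) (dirN c x y)),
    pos (flN (nat_lit 17) (lnN t x) (lnN t (thN x y)) (dirN c x (thN x y)) (nat_lit 0)),
    pos (flN (nat_lit 17) (lnN t x) (lnN t (thN x y)) (dirN c x (thN x y)) (nat_lit 1))]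
/-- Family 24: implications `k1 (i, a, e1) → k2 (i, a, e2)` between ray or flag kinds, by type. -/
def fIMP (y i a d s : Nat) : List Nat :=
  okc (Nat.add (Nat.sub d (nat_lit 1)) (Nat.sub s (nat_lit 1)))
    (sel (Nat.shiftRight y (nat_lit 3))
      (sel (Nat.shiftRight y (nat_lit 2))
        (sel (Nat.shiftRight y (nat_lit 1))
          (sel y [neg (ryN (nat_lit 11) i a d), pos (flN (nat_lit 5) i a d s)]
            [neg (flN (nat_lit 12) i a d s), pos (flN (nat_lit 5) i a d (Nat.sub (nat_lit 1) s))])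
          (sel (Nat.sub y (nat_lit 2)) [neg (ryN (nat_lit 20) i a d), pos (flN (nat_lit 5) i a d s)]
            [neg (ryN (nat_lit 18) i a d), pos (ryN (nat_lit 11) i a d)]))
        (sel (Nat.sub y (nat_lit 5))
          (sel (Nat.sub y (nat_lit 4)) [neg (ryN (nat_lit 19) i a d), pos (ryN (nat_lit 11) i a d)]
            [neg (ryN (nat_lit 18) i a d), neg (ryN (nat_lit 19) i a d)])
          (sel (Nat.sub y (nat_lit 6)) [neg (ryN (nat_lit 18) i a d), neg (ryN (nat_lit 20) i a d)]
            [neg (ryN (nat_lit 19) i a d), neg (ryN (nat_lit 20) i a d)])))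
      (sel (Nat.sub y (nat_lit 11))
        (sel (Nat.sub y (nat_lit 9)) [neg (ryN (nat_lit 21) i a d), pos (prN (nat_lit 8) i a (nat_lit 0))]
          (sel (Nat.sub y (nat_lit 10)) [neg (flN (nat_lit 17) i a d s), pos (prN (nat_lit 9) i a (secN i a (Nat.sub (nat_lit 1) d) s))]
            [neg (flN (nat_lit 13) i a d s), pos (flN (nat_lit 5) i a d (Nat.sub (nat_lit 1) s))]))
        (sel (Nat.sub y (nat_lit 12)) [neg (flN (nat_lit 14) i a d s), pos (flN (nat_lit 5) i a d (Nat.sub (nat_lit 1) s))]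
          [neg (flN (nat_lit 14) i a d s), pos (prN (nat_lit 10) i a (nat_lit 0))])))
/-- Family 25. -/
def fBX (i a d q : Nat) : List Nat :=
  okc (Nat.sub q (nat_lit 3)) [neg (ryN (nat_lit 21) i a d), pos (prN (nat_lit 22) i a q)]
/-- Family 26. -/
def fALc (t c x y : Nat) : List Nat :=
  okc (badc x y) [ncd t c,
    neg (flN (nat_lit 13) (lnN t x) (lnN t y) (dirN c x y) (Nat.sub (nat_lit 1) (sideN c x y))),
    pos (prN (nat_lit 8) (lnN t y) (lnN t (thN x y)) (nat_lit 0))]
/-- Family 27. -/
def fBE1c (t c x y : Nat) : List Nat :=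
  okc (badc x y) [ncd t c,
    neg (flN (nat_lit 14) (lnN t x) (lnN t y) (dirN c x y) (Nat.sub (nat_lit 1) (sideN c x y))),
    pos (prN (nat_lit 7) (lnN t x) (lnN t (thN x y)) (nat_lit 0))]
/-- Family 28. -/
def fBE2c (t c x y : Nat) : List Nat :=
  okc (badc x y) [ncd t c,
    neg (flN (nat_lit 14) (lnN t x) (lnN t y) (dirN c x y) (Nat.sub (nat_lit 1) (sideN c x y))),
    pos (prN (nat_lit 9) (lnN t y) (lnN t (thN x y)) (secN (lnN t (thN x y)) (lnN t y) (dirN c (thN x y) y)
      (Nat.sub (nat_lit 1) (sideN c (thN x y) y))))]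
/-- Family 29. -/
def fB1c (t c x y : Nat) : List Nat :=
  okc (badc x y) [ncd t c, neg (flN (nat_lit 17) (lnN t x) (lnN t y) (dirN c x y) (sideN c x y)),
    pos (prN (nat_lit 7) (lnN t y) (lnN t (thN x y)) (nat_lit 0))]
/-- Family 30. -/
def fXQc (t c x y w : Nat) : List Nat :=
  okc (Nat.add (badc x y) (Nat.add (Nat.sub w (nat_lit 1)) (Nat.sub x y))) [ncd t c,
    lit (Nat.sub (nat_lit 1) w) (prN (nat_lit 22) (lnN t x) (lnN t y) (secN (lnN t x) (lnN t y) (dirN c x y) (sideN c x y))),
    lit w (flN (nat_lit 5) (lnN t (thN x y)) (lnN t x) (dirN c (thN x y) x) (Nat.sub (nat_lit 1) (sideN c (thN x y) x)))]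
/-- Family 31. -/
def fBADa (t c x y d : Nat) : List Nat :=
  okc (badc x y) [ncd t c, neg (ryN (nat_lit 21) (lnN t x) (lnN t y) d),
    pos (prN (nat_lit 10) (lnN t y) (lnN t (thN x y)) (nat_lit 0))]
/-- Family 32. -/
def fBADb (t c x y : Nat) : List Nat :=
  okc (badc x y) [ncd t c, neg (ryN (nat_lit 21) (lnN t x) (lnN t y) (Nat.sub (nat_lit 1) (dirN c x y))),
    pos (prN (nat_lit 10) (lnN t x) (lnN t (thN x y)) (nat_lit 0))]
/-- Family 33. -/
def fS (i a d s : Nat) : List Nat :=
  okc (Nat.add (Nat.sub d (nat_lit 1)) (Nat.sub s (nat_lit 1)))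
    [neg (flN (nat_lit 15) i a d s), pos (flN (nat_lit 12) i a d s), pos (flN (nat_lit 13) i a d s), pos (flN (nat_lit 14) i a d s)]
/-- The literals `zz i a b` for the labels `b < a`, `b ≠ i`. -/
def w1list (i a : Nat) : Nat → List Nat :=
  Nat.rec (motive := fun _ => List Nat) []
    (fun m ih =>
      Nat.rec (motive := fun _ => List Nat)
        (pos (zz i a (Nat.sub (nat_lit 13) m)) :: ih)
        (fun _ _ => ih)
        (Nat.add (eqN (Nat.sub (nat_lit 13) m) i) (Nat.sub (nat_lit 1) (ltN (Nat.sub (nat_lit 13) m) a))))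
/-- Family 34. -/
def fW1 (i a d s : Nat) : List Nat :=
  okc (Nat.add (badp i a) (Nat.add (Nat.sub d (nat_lit 1)) (Nat.sub s (nat_lit 1))))
    (pos (flN (nat_lit 16) i a d s) :: pos (prN (nat_lit 7) i a (nat_lit 0)) :: pos (flN (nat_lit 5) i a d s) :: pos (flN (nat_lit 15) i a d s) ::
      w1list i a (nat_lit 14))
/-- The literals `pos (f q)` for `q < 4`, `q ≠ x`. -/
def qlist (f : Nat → Nat) (x : Nat) : List Nat :=
  sel (eqN x (nat_lit 0)) (pos (f (nat_lit 0)) :: sel (eqN x (nat_lit 1)) (pos (f (nat_lit 1)) :: sel (eqN x (nat_lit 2)) (pos (f (nat_lit 2)) ::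
      sel (eqN x (nat_lit 3)) [pos (f (nat_lit 3))] []) [pos (f (nat_lit 3))]) [pos (f (nat_lit 2)), pos (f (nat_lit 3))])
    [pos (f (nat_lit 1)), pos (f (nat_lit 2)), pos (f (nat_lit 3))]
/-- Family 35 (`x < 4`) and 36 (`x = 4`). -/
def fW2 (i j x : Nat) : List Nat :=
  okc (Nat.add (bad2 i j) (Nat.sub x (nat_lit 4))) (pos (enc (Nat.add (nat_lit 24) (Nat.shiftRight x (nat_lit 2))) i j (nat_lit 0) (nat_lit 0)) :: neg (enc (nat_lit 7) i j (nat_lit 0) (nat_lit 0)) ::
    qlist (corN i j) x)
/-- Family 37 (`x < 4`) and 38 (`x = 4`). -/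
def fW3 (i j x : Nat) : List Nat :=
  okc (Nat.add (bad2 i j) (Nat.sub x (nat_lit 4))) (pos (enc (Nat.add (nat_lit 26) (Nat.shiftRight x (nat_lit 2))) i j (nat_lit 0) (nat_lit 0)) :: neg (enc (nat_lit 8) i j (nat_lit 0) (nat_lit 0)) ::
    qlist (fun q => enc (nat_lit 22) i j q (nat_lit 0)) x)
/-- Family 39. -/
def fNX1 (i j x y : Nat) : List Nat :=
  okc (Nat.add (Nat.sub (Nat.succ x) y) (Nat.sub (Nat.succ y) (nat_lit 4)))
    [neg (enc (nat_lit 23) i j (nat_lit 0) (nat_lit 0)), pos (enc (nat_lit 22) i j x (nat_lit 0)), pos (enc (nat_lit 22) i j y (nat_lit 0))]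

/-- Element number `i` of a list of clauses (a trivially true clause if there is none). -/
def nthC (l : List (List Nat)) : Nat → List Nat :=
  List.rec (motive := fun _ => Nat → List Nat) (fun _ => [(nat_lit 1)])
    (fun c _ ih i => Nat.rec (motive := fun _ => List Nat) c (fun j _ => ih j) i) l

/-- Input number `h` of the load count of the vertex on the lines `a < b < c < d`, or (for
`a = 1`, `b = 0`) of the vertex on the lines `0, ..., 4`. -/
def ldin (a b c d h : Nat) : Nat :=
  Nat.rec (motive := fun _ => Nat)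
    (Nat.rec (motive := fun _ => Nat)
      (ryN (Nat.sub (nat_lit 20) (Nat.land (Nat.shiftRight (nat_lit 0x5aa) (Nat.mul (nat_lit 2) (Nat.mod h (nat_lit 7)))) (nat_lit 3)))
        (Nat.div h (nat_lit 14)) (eqN (Nat.div h (nat_lit 14)) (nat_lit 0)) (Nat.mod (Nat.div h (nat_lit 7)) (nat_lit 2)))
      (fun q _ => enc (nat_lit 28) (nat_lit 0) (nat_lit 1) q (nat_lit 0)) (Nat.sub h (nat_lit 69)))
    (fun _ _ =>
      Nat.rec (motive := fun _ => Nat)
        (ryN (Nat.sub (nat_lit 20) (Nat.land (Nat.shiftRight (nat_lit 0x5aa) (Nat.mul (nat_lit 2) (Nat.mod h (nat_lit 7)))) (nat_lit 3)))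
          (lnN (Nat.add (pk3 a b c) (Nat.mul (nat_lit 4096) d)) (Nat.div h (nat_lit 14)))
          (Nat.rec (motive := fun _ => Nat) b (fun _ _ => a) (Nat.div h (nat_lit 14))) (Nat.mod (Nat.div h (nat_lit 7)) (nat_lit 2)))
        (fun q _ => enc (nat_lit 28) a b q (nat_lit 0)) (Nat.sub h (nat_lit 55)))
    b

/-- Entry number `i` of a table of 44-bit numbers. -/
def recv (t : DT) (i : Nat) : Nat :=
  Nat.rec (motive := fun _ => Nat)
    (Nat.land (Nat.shiftRight (leafAt t (nat_lit 0)) (Nat.mul (nat_lit 44) (Nat.land i (nat_lit 255)))) (nat_lit 0xfffffffffff))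
    (fun m _ => Nat.land (Nat.shiftRight (leafAt t (Nat.succ m)) (Nat.mul (nat_lit 44) (Nat.land i (nat_lit 255))))
      (nat_lit 0xfffffffffff))
    (Nat.shiftRight i (nat_lit 8))

/-- More than `q` of the inputs `l, ..., r - 1` of the cardinality constraint are true. -/
def totv (ht : DT) (l r q : Nat) : Nat :=
  Nat.rec (motive := fun _ => Nat) (recv ht l)
    (fun _ _ => Nat.add (nat_lit 29) (Nat.mul (nat_lit 64) (Nat.add q (Nat.mul (nat_lit 8) (Nat.add l (Nat.mul (nat_lit 2048) r))))))
    (Nat.sub r (Nat.succ l))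

/-- More than `q` of the load inputs `l, ..., r - 1` of the vertex `abcd` (packed) are true. -/
def ldv (v l r q : Nat) : Nat :=
  Nat.rec (motive := fun _ => Nat) (ldin (n0 v) (n1 v) (n2 v) (n3 v) l)
    (fun _ _ => Nat.add (nat_lit 30) (Nat.mul (nat_lit 64) (Nat.add v (Nat.mul (nat_lit 65536) (Nat.add q (Nat.mul (nat_lit 32)
      (Nat.add l (Nat.mul (nat_lit 128) r))))))))
    (Nat.sub r (Nat.succ l))

/-- `neg (totv l r (a - 1)) :: L`, nothing added if `a = 0`. -/
def totneg (ht : DT) (l r a : Nat) (L : List Nat) : List Nat :=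
  Nat.rec (motive := fun _ => List Nat) L (fun b _ => neg (totv ht l r b) :: L) a

/-- Family TOT: addition in the counting tree, `t ≤ a + b`. -/
def fTOT (ht : DT) (l r a b t : Nat) : List Nat :=
  okc (Nat.add (Nat.add (Nat.sub (Nat.add l (nat_lit 2)) r) (Nat.add (Nat.sub r (nat_lit 2047)) (Nat.sub (Nat.add a b) (nat_lit 8))))
      (Nat.add (Nat.sub a (Nat.sub (Nat.shiftRight (Nat.add l r) (nat_lit 1)) l))
      (Nat.add (Nat.sub b (Nat.sub r (Nat.shiftRight (Nat.add l r) (nat_lit 1)))) (Nat.add (Nat.sub t (Nat.add a b))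
        (Nat.sub (nat_lit 1) t)))))
    (totneg ht l (Nat.shiftRight (Nat.add l r) (nat_lit 1)) a (totneg ht (Nat.shiftRight (Nat.add l r) (nat_lit 1)) r b
      [pos (totv ht l r (Nat.sub t (nat_lit 1)))]))
/-- Family TOTM: monotonicity. -/
def fTOTM (ht : DT) (l r q : Nat) : List Nat :=
  okc (Nat.add (Nat.add (Nat.sub (Nat.add l (nat_lit 2)) r) (Nat.sub (nat_lit 1) q)) (Nat.add (Nat.sub r (nat_lit 2047)) (Nat.sub q (nat_lit 7))))
    [neg (totv ht l r q), pos (totv ht l r (Nat.sub q (nat_lit 1)))]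
/-- Family LDG: a count of more than `a + b` splits. -/
def fLDG (v l r a b : Nat) : List Nat :=
  okc (Nat.add (Nat.sub (Nat.add l (nat_lit 2)) r) (Nat.add (Nat.sub r (nat_lit 127)) (Nat.sub (Nat.add a b) (nat_lit 31))))
    (sel (Nat.sub (Nat.sub (Nat.shiftRight (Nat.add l r) (nat_lit 1)) l) a)
      (sel (Nat.sub (Nat.sub r (Nat.shiftRight (Nat.add l r) (nat_lit 1))) b)
        [neg (ldv v l r (Nat.add a b))]
        [pos (ldv v (Nat.shiftRight (Nat.add l r) (nat_lit 1)) r b), neg (ldv v l r (Nat.add a b))])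
      (sel (Nat.sub (Nat.sub r (Nat.shiftRight (Nat.add l r) (nat_lit 1))) b)
        [pos (ldv v l (Nat.shiftRight (Nat.add l r) (nat_lit 1)) a), neg (ldv v l r (Nat.add a b))]
        [pos (ldv v l (Nat.shiftRight (Nat.add l r) (nat_lit 1)) a),
          pos (ldv v (Nat.shiftRight (Nat.add l r) (nat_lit 1)) r b), neg (ldv v l r (Nat.add a b))]))
/-- Family LDM: monotonicity. -/
def fLDM (v l r q : Nat) : List Nat :=
  okc (Nat.add (Nat.add (Nat.sub (Nat.add l (nat_lit 2)) r) (Nat.sub (nat_lit 1) q)) (Nat.add (Nat.sub r (nat_lit 127)) (Nat.sub q (nat_lit 31))))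
    [neg (ldv v l r q), pos (ldv v l r (Nat.sub q (nat_lit 1)))]

/-- A binary tree of clause families. -/
inductive FT where
  | leaf : (Nat → List Nat) → FT
  | node : FT → FT → FT

/-- Evaluation: the low bits of the address select the family. -/
def FT.eval (T : FT) : Nat → List Nat :=
  FT.rec (motive := fun _ => Nat → List Nat) (fun f => f)
    (fun _ _ ihl ihr p => Nat.rec (motive := fun _ => List Nat) (ihl (Nat.shiftRight p (nat_lit 1)))
      (fun _ _ => ihr (Nat.shiftRight p (nat_lit 1))) (Nat.land p (nat_lit 1))) T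

/-- Packed triple of an address. -/
def nt (p : Nat) : Nat := Nat.land p (nat_lit 4095)
/-- Fields of 12, 12, 4, 4, 4 bits. -/
def w0 (p : Nat) : Nat := Nat.land p (nat_lit 4095)
def w1 (p : Nat) : Nat := Nat.land (Nat.shiftRight p (nat_lit 12)) (nat_lit 4095)
def w2 (p : Nat) : Nat := Nat.land (Nat.shiftRight p (nat_lit 24)) (nat_lit 15)
def w3 (p : Nat) : Nat := Nat.land (Nat.shiftRight p (nat_lit 28)) (nat_lit 15)
def w4 (p : Nat) : Nat := Nat.land (Nat.shiftRight p (nat_lit 32)) (nat_lit 15)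
/-- Fields of 16, 8, 8, 8, 8 bits. -/
def v0 (p : Nat) : Nat := Nat.land p (nat_lit 65535)
def v1 (p : Nat) : Nat := Nat.land (Nat.shiftRight p (nat_lit 16)) (nat_lit 255)
def v2 (p : Nat) : Nat := Nat.land (Nat.shiftRight p (nat_lit 24)) (nat_lit 255)
def v3 (p : Nat) : Nat := Nat.land (Nat.shiftRight p (nat_lit 32)) (nat_lit 255)
def v4 (p : Nat) : Nat := Nat.land (Nat.shiftRight p (nat_lit 40)) (nat_lit 255)

open FT in
/-- All families; `ex` is the tree of the assumptions of the case, `ht` the table of the inputs of the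
cardinality constraint. -/
def famTree (ex : FT) (ht : DT) : FT :=
  node
    (node
      (node
        (node
          (node
            (node (leaf fun p => fTSG (n0 p) (n1 p) (n2 p) (n3 p))
              (leaf fun p => fTOT ht (w0 p) (w1 p) (w2 p) (w3 p) (w4 p)))
            (node (leaf fun p => fEX (n0 p) (n1 p) (n2 p) (n3 p))
              (leaf fun p => fIMP (n0 p) (n1 p) (n2 p) (n3 p) (n4 p))))
          (node
            (node (leaf fun p => fM32 (n0 p) (n1 p) (n2 p) (n3 p))
              (leaf fun p => fU1a (n0 p) (n1 p) (n2 p) (n3 p)))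
            (node (leaf fun p => fU2b (n0 p) (n1 p) (n2 p) (n3 p))
              (leaf fun p => fD1 (n0 p) (n1 p) (n2 p)))))
        (node
          (node
            (node
              (node
                (node (leaf fun p => fTR (n0 p) (n1 p) (n2 p) (n3 p) (Nat.land (Nat.shiftRight p (nat_lit 16)) (nat_lit 63)))
                  (leaf fun p => fTY (n0 p) (n1 p) (n2 p) (n3 p)))
                (node (leaf fun p => fLDG (v0 p) (v1 p) (v2 p) (v3 p) (v4 p))
                  (leaf fun p => fNFc (nt p) (n3 p) (n4 p) (n5 p) (n6 p))))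
              (node
                (node (leaf fun p => fFULL (n0 p) (n1 p) (n2 p))
                  (leaf fun p => fU1b (nt p) (n3 p) (n4 p) (n5 p)))
                (node (leaf fun p => fBADb (nt p) (n3 p) (n4 p) (n5 p))
                  (leaf fun p => fBADa (nt p) (n3 p) (n4 p) (n5 p) (n6 p)))))
            (node
              (node
                (node (leaf fun p => fXQc (nt p) (n3 p) (n4 p) (n5 p) (n6 p))
                  (leaf fun p => fL4c (nt p) (n3 p) (n4 p) (n5 p)))
                (node (leaf fun p => fS (n0 p) (n1 p) (n2 p) (n3 p))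
                  (leaf fun p => fW1 (n0 p) (n1 p) (n2 p) (n3 p))))
              (node
                (node (leaf fun p => fN21c (nt p) (n3 p) (n4 p) (n5 p))
                  (leaf fun p => fALc (nt p) (n3 p) (n4 p) (n5 p)))
                (node (leaf fun p => fW2 (n0 p) (n1 p) (n2 p))
                  (leaf fun p => fU5 (n0 p) (n1 p) (n2 p) (n3 p))))))
          (node
            (node
              (node
                (node (leaf fun p => fNORM (n0 p) (n1 p))
                  (leaf fun p => fBE2c (nt p) (n3 p) (n4 p) (n5 p)))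
                (node (leaf fun p => fL1c (nt p) (n3 p) (n4 p) (n5 p))
                  (leaf fun p => fD2 (n0 p) (n1 p))))
              (node
                (node (leaf fun p => fLDM (v0 p) (v1 p) (v2 p) (v3 p))
                  (leaf fun p => fM31 (n0 p) (n1 p)))
                (node (leaf fun p => fU2a (n0 p) (n1 p) (n2 p) (n3 p))
                  (leaf fun p => fB1c (nt p) (n3 p) (n4 p) (n5 p)))))
            (node
              (node
                (node (leaf fun p => fW3 (n0 p) (n1 p) (n2 p))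
                  (leaf fun p => fBE1c (nt p) (n3 p) (n4 p) (n5 p)))
                (node ex
                  (leaf fun p => fTOTM ht (w0 p) (w1 p) (w2 p))))
              (node
                (node (leaf fun p => fFULL3 (n0 p) (n1 p))
                  (leaf fun p => fL2c (nt p) (n3 p) (n4 p) (n5 p)))
                (node (leaf fun p => fNX1 (n0 p) (n1 p) (n2 p) (n3 p))
                  (node (leaf fun p => fTY3 (n0 p) (n1 p) (n2 p))
                    (leaf fun p => fBX (n0 p) (n1 p) (n2 p) (n3 p)))))))))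
      (leaf fun p => fB2 (n0 p) (n1 p) (n2 p) (n3 p) (Nat.land (Nat.shiftRight p (nat_lit 16)) (nat_lit 63))))
    (leaf fun p => fE (nt p) (n3 p) (n4 p) (n5 p) (n6 p))

/-- The clause with a given address. -/
def gen (ex : FT) (ht : DT) : Nat → List Nat := (famTree ex ht).eval

end

end Pool.Agent.Helper58.PLK
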