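import Pool.Agent.Helper58.PLK.Model

/-!
# Block K1: the signs of the triples
-/

namespace Pool.Agent.Helper58.PLK

open Pool.Agent.Helper15.PL

variable (M : Model) (ht : DT)

namespace K1

theorem bad3_zero {i j k : Nat} (h : bad3 i j k = 0) : i < j ∧ j < k ∧ k < 14 := by
  unfold bad3 at h
  simp only [Nat.add_eq, Nat.sub_eq, Nat.succ_eq_add_one] at h
  omega

/-- The sign of a triple. -/
theorem sgn (i j k : Nat) (hij : i < j) (hjk : j < k) (hk : k < 14) : ∃ s : Nat,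
    ((s = 1 ∧ M.X i j < M.X i k ∧ M.X i k < M.X j k) ∨
      (s = 3 ∧ M.X i j = M.X i k ∧ M.X i k = M.X j k) ∨
      (s = 2 ∧ M.X j k < M.X i k ∧ M.X i k < M.X i j)) := by
  rcases M.W.btw (fi i) (fi j) (fi k) (Model.fi_lt (by omega) hij) (Model.fi_lt hk hjk) with
    h | h | h
  · exact ⟨1, Or.inl ⟨rfl, h⟩⟩
  · exact ⟨3, Or.inr (Or.inl ⟨rfl, h⟩)⟩
  · exact ⟨2, Or.inr (Or.inr ⟨rfl, h⟩)⟩

/-- The sign `s` of the triple determines the three variables. -/
def IsSgn (i j k s : Nat) : Prop :=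
  (M.SemK 1 i j k 0 ↔ s = 1) ∧ (M.SemK 2 i j k 0 ↔ s = 2) ∧ (M.SemK 3 i j k 0 ↔ s = 3)

theorem isSgn {i j k s : Nat} (hij : i < j) (hjk : j < k) (hk : k < 14)
    (h : (s = 1 ∧ M.X i j < M.X i k ∧ M.X i k < M.X j k) ∨
      (s = 3 ∧ M.X i j = M.X i k ∧ M.X i k = M.X j k) ∨
      (s = 2 ∧ M.X j k < M.X i k ∧ M.X i k < M.X i j)) : IsSgn M i j k s := by
  have e1 : M.SemK 1 i j k 0 ↔ M.X i j < M.X i k :=
    ⟨fun h => h.2.2.2, fun h => ⟨hij, hjk, hk, h⟩⟩
  have e2 : M.SemK 2 i j k 0 ↔ M.X i k < M.X i j :=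
    ⟨fun h => h.2.2.2, fun h => ⟨hij, hjk, hk, h⟩⟩
  have e3 : M.SemK 3 i j k 0 ↔ M.X i j = M.X i k :=
    ⟨fun h => h.2.2.2, fun h => ⟨hij, hjk, hk, h⟩⟩
  unfold IsSgn
  rw [e1, e2, e3]
  rcases h with ⟨rfl, h1, h2⟩ | ⟨rfl, h1, h2⟩ | ⟨rfl, h1, h2⟩
  · exact ⟨iff_of_true h1 rfl, iff_of_false (not_lt.2 h1.le) (by norm_num),
      iff_of_false h1.ne (by norm_num)⟩
  · exact ⟨iff_of_false h1.not_lt (by norm_num), iff_of_false h1.not_gt (by norm_num),
      iff_of_true h1 rfl⟩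
  · exact ⟨iff_of_false (not_lt.2 h2.le) (by norm_num), iff_of_true h2 rfl,
      iff_of_false h2.ne' (by norm_num)⟩

/-- Truth of the literal with code `f` if the sign is `s`. -/
def lv (f s : Nat) : Bool := f != 0 && f != 4 && ((s == f % 4) == (f / 4 == 0))

theorem part {i j k s f : Nat} (hi : i < 16) (hj : j < 16) (hk : k < 16) (hf : f < 8)
    (h : IsSgn M i j k s) {l : List Nat} (hc : lv f s = true ∨ ClauseT (M.Sem ht) l) :
    ClauseT (M.Sem ht) (b2part f i j k l) := by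
  obtain ⟨h1, h2, h3⟩ := h
  have e : ∀ t, t < 29 → (M.Sem ht (enc t i j k 0) ↔ M.SemK t i j k 0) :=
    fun t ht' => M.sem_enc ht ht' hi hj hk
  interval_cases f
  · rcases hc with hc | hc
    · exact absurd hc (by unfold lv; simp)
    · exact hc
  · show ClauseT _ (pos (enc 1 i j k 0) :: l)
    rw [clauseT_cons, litS_pos, e 1 (by norm_num), h1]
    rcases hc with hc | hc
    · left
      unfold lv at hc
      simpa using hc
    · exact Or.inr hc
  · show ClauseT _ (pos (enc 2 i j k 0) :: l)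
    rw [clauseT_cons, litS_pos, e 2 (by norm_num), h2]
    rcases hc with hc | hc
    · left
      unfold lv at hc
      simpa using hc
    · exact Or.inr hc
  · show ClauseT _ (pos (enc 3 i j k 0) :: l)
    rw [clauseT_cons, litS_pos, e 3 (by norm_num), h3]
    rcases hc with hc | hc
    · left
      unfold lv at hc
      simpa using hc
    · exact Or.inr hc
  · rcases hc with hc | hc
    · exact absurd hc (by unfold lv; simp)
    · have : ClauseT (M.Sem ht) (Nat.add (Nat.mul 2 (enc 0 i j k 0)) 1 :: l) := by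
        rw [clauseT_cons]
        exact Or.inr hc
      exact this
  · show ClauseT _ (neg (enc 1 i j k 0) :: l)
    rw [clauseT_cons, litS_neg, e 1 (by norm_num), h1]
    rcases hc with hc | hc
    · left
      unfold lv at hc
      simpa using hc
    · exact Or.inr hc
  · show ClauseT _ (neg (enc 2 i j k 0) :: l)
    rw [clauseT_cons, litS_neg, e 2 (by norm_num), h2]
    rcases hc with hc | hc
    · left
      unfold lv at hc
      simpa using hc
    · exact Or.inr hc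
  · show ClauseT _ (neg (enc 3 i j k 0) :: l)
    rw [clauseT_cons, litS_neg, e 3 (by norm_num), h3]
    rcases hc with hc | hc
    · left
      unfold lv at hc
      simpa using hc
    · exact Or.inr hc

/-- All patterns are satisfied by the signs `a, b, c, d`. -/
def okB (a b c d : Nat) : Bool :=
  (List.range 44).all fun x =>
    lv (Nat.land (Nat.shiftRight b2tab (Nat.mul 12 x)) 7) a ||
    lv (Nat.land (Nat.shiftRight b2tab (Nat.add 3 (Nat.mul 12 x))) 7) b ||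
    lv (Nat.land (Nat.shiftRight b2tab (Nat.add 6 (Nat.mul 12 x))) 7) c ||
    lv (Nat.land (Nat.shiftRight b2tab (Nat.add 9 (Nat.mul 12 x))) 7) d

end K1

open K1

theorem ok_fEX (i j k q : Nat) (hi : i < 16) (hj : j < 16) (hk : k < 16) :
    ClauseT (M.Sem ht) (fEX i j k q) := by
  unfold fEX
  apply clauseT_okc (M.sem_zero ht)
  intro hb
  obtain ⟨hij, hjk, hk'⟩ := bad3_zero hb
  have e : ∀ t, t < 29 → (M.Sem ht (enc t i j k 0) ↔ M.SemK t i j k 0) :=
    fun t ht' => M.sem_enc ht ht' hi hj hk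
  have e1 : M.SemK 1 i j k 0 ↔ M.X i j < M.X i k :=
    ⟨fun h => h.2.2.2, fun h => ⟨hij, hjk, hk', h⟩⟩
  have e2 : M.SemK 2 i j k 0 ↔ M.X i k < M.X i j :=
    ⟨fun h => h.2.2.2, fun h => ⟨hij, hjk, hk', h⟩⟩
  have e3 : M.SemK 3 i j k 0 ↔ M.X i j = M.X i k :=
    ⟨fun h => h.2.2.2, fun h => ⟨hij, hjk, hk', h⟩⟩
  rw [sel_eq, sel_eq, sel_eq]
  split_ifs
  · rw [clauseT_cons, clauseT_cons, litS_neg, litS_neg, e 1 (by norm_num), e 2 (by norm_num), e1, e2]
    rcases lt_or_ge (M.X i j) (M.X i k) with h | h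
    · exact Or.inr (Or.inl (not_lt.2 h.le))
    · exact Or.inl (not_lt.2 h)
  · rw [clauseT_cons, clauseT_cons, litS_neg, litS_neg, e 1 (by norm_num), e 3 (by norm_num), e1, e3]
    rcases lt_or_ge (M.X i j) (M.X i k) with h | h
    · exact Or.inr (Or.inl h.ne)
    · exact Or.inl (not_lt.2 h)
  · rw [clauseT_cons, clauseT_cons, litS_neg, litS_neg, e 2 (by norm_num), e 3 (by norm_num), e2, e3]
    rcases lt_or_ge (M.X i k) (M.X i j) with h | h
    · exact Or.inr (Or.inl h.ne')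
    · exact Or.inl (not_lt.2 h)
  · rw [clauseT_cons, clauseT_cons, clauseT_cons, litS_pos, litS_pos, litS_pos, e 1 (by norm_num),
      e 2 (by norm_num), e 3 (by norm_num), e1, e2, e3]
    rcases lt_trichotomy (M.X i j) (M.X i k) with h | h | h
    · exact Or.inl h
    · exact Or.inr (Or.inr (Or.inl h))
    · exact Or.inr (Or.inl h)

theorem ok_fNORM (j k : Nat) (hj : j < 16) (hk : k < 16) : ClauseT (M.Sem ht) (fNORM j k) := by
  unfold fNORM
  rw [clauseT_cons, litS_neg, M.sem_enc ht (by norm_num) (by norm_num) hj hk]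
  left
  intro h
  have h1 : 0 < j ∧ j < k ∧ k < 14 ∧ M.X 0 k < M.X 0 j := h
  have h2 := M.norm (fi j) (fi k) (Model.fi_lt (i := 0) (by omega) h1.1)
    (Model.fi_lt h1.2.2.1 h1.2.1)
  have h3 : M.X 0 j ≤ M.X 0 k := h2
  linarith [h1.2.2.2]

theorem ok_fTSG (i j k c : Nat) (hi : i < 16) (hj : j < 16) (hk : k < 16) (hc : c < 16) :
    ClauseT (M.Sem ht) (fTSG i j k c) := by
  unfold fTSG
  rw [clauseT_cons, clauseT_cons, litS_neg, litS_pos, M.sem_enc ht (by norm_num) hi hj hk]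
  by_cases h : M.SemK 4 i j k c
  · right
    left
    have h1 : i < j ∧ j < k ∧ k < 14 ∧ c < 8 ∧ M.Cand i j k c := h
    obtain ⟨h2, h3, h4, h5, h6, _⟩ := h1
    by_cases hc4 : c < 4
    · rw [if_pos hc4] at h6
      have h7 : Nat.succ (Nat.shiftRight c 2) = 1 := by
        interval_cases c <;> rfl
      rw [h7, M.sem_enc ht (by norm_num) hi hj hk]
      exact ⟨h2, h3, h4, h6⟩
    · rw [if_neg hc4] at h6
      have h7 : Nat.succ (Nat.shiftRight c 2) = 2 := by
        interval_cases c <;> rfl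
      rw [h7, M.sem_enc ht (by norm_num) hi hj hk]
      exact ⟨h2, h3, h4, h6⟩
  · exact Or.inl h

theorem ok_fB2 (i j k l x : Nat) (hi : i < 16) (hj : j < 16) (hk : k < 16) (hl : l < 16) :
    ClauseT (M.Sem ht) (fB2 i j k l x) := by
  unfold fB2
  apply clauseT_okc (M.sem_zero ht)
  intro hb
  have hb1 : bad3 i j k = 0 ∧ bad3 j k l = 0 ∧ x < 44 := by
    simp only [Nat.add_eq, Nat.sub_eq, Nat.succ_eq_add_one] at hb
    omega
  obtain ⟨hij, hjk, hk'⟩ := bad3_zero hb1.1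
  obtain ⟨_, hkl, hl'⟩ := bad3_zero hb1.2.1
  have hx := hb1.2.2
  obtain ⟨a, ha⟩ := sgn M i j k hij hjk hk'
  obtain ⟨b, hb⟩ := sgn M i j l hij (by omega) hl'
  obtain ⟨c, hc⟩ := sgn M i k l (by omega) hkl hl'
  obtain ⟨d, hd⟩ := sgn M j k l hjk hkl hl'
  have hA := isSgn M hij hjk hk' ha
  have hB := isSgn M hij (by omega) hl' hb
  have hC := isSgn M (by omega) hkl hl' hc
  have hD := isSgn M hjk hkl hl' hd
  have hok : okB a b c d = true := by
    rcases ha with ⟨rfl, a1, a2⟩ | ⟨rfl, a1, a2⟩ | ⟨rfl, a1, a2⟩ <;>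
    rcases hb with ⟨rfl, b1, b2⟩ | ⟨rfl, b1, b2⟩ | ⟨rfl, b1, b2⟩ <;>
    rcases hc with ⟨rfl, c1, c2⟩ | ⟨rfl, c1, c2⟩ | ⟨rfl, c1, c2⟩ <;>
    rcases hd with ⟨rfl, d1, d2⟩ | ⟨rfl, d1, d2⟩ | ⟨rfl, d1, d2⟩ <;>
    first
    | (exfalso; linarith)
    | rfl
  unfold okB at hok
  rw [List.all_eq_true] at hok
  have hcl := hok x (List.mem_range.2 hx)
  simp only [Bool.or_eq_true] at hcl
  have h7 : ∀ y, Nat.land y 7 < 8 := fun y => Nat.lt_succ_of_le Nat.and_le_right
  rcases hcl with ((h | h) | h) | h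
  · exact part M ht hi hj hk (h7 _) hA (Or.inl h)
  · exact part M ht hi hj hk (h7 _) hA (Or.inr (part M ht hi hj hl (h7 _) hB (Or.inl h)))
  · exact part M ht hi hj hk (h7 _) hA (Or.inr (part M ht hi hj hl (h7 _) hB
      (Or.inr (part M ht hi hk hl (h7 _) hC (Or.inl h)))))
  · exact part M ht hi hj hk (h7 _) hA (Or.inr (part M ht hi hj hl (h7 _) hB
      (Or.inr (part M ht hi hk hl (h7 _) hC (Or.inr (part M ht hj hk hl (h7 _) hD (Or.inl h)))))))

end Pool.Agent.Helper58.PLK
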