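import Pool.Agent.Helper58.PLK.K9

/-!
# Block K10: waste at vertices on two lines
-/

namespace Pool.Agent.Helper58.PLK

open Pool.Agent.Helper15.PL Pool.Agent.Helper15.PL.FlagSys

/-- The clause of the literals `f q`, `q ≠ x`. -/
theorem clauseT_qlist {Se : Nat → Prop} {f : Nat → Nat} {x : Nat}
    (h : ∃ q < 4, q ≠ x ∧ Se (f q)) : ClauseT Se (qlist f x) := by
  obtain ⟨q, hq, hqx, h⟩ := h
  have key : pos (f q) ∈ qlist f x := by
    unfold qlist
    simp only [sel_eq, eqN_eq]
    interval_cases q <;> split_ifs <;> first | omega | simp_all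
  exact ⟨_, key, litS_pos.2 h⟩

namespace Model

variable (M : Model) (ht : DT)

theorem sem_corN {i j q : Nat} (hij : i < j) (hj : j < 14) (hq : q < 4) :
    M.Sem ht (corN i j q) ↔ M.S.tri (M.corner i j q) := by
  have hi : i < 14 := hij.trans hj
  have key : ∀ e < 4, M.Sem ht (enc 5 i j e 0) ↔ M.S.tri (M.flagE i j e) := by
    intro e he
    rw [M.sem_enc ht (by norm_num) (by omega) (by omega) (by omega)]
    constructor
    · rintro ⟨-, -, -, -, h⟩
      exact h
    · intro h
      exact ⟨hij.ne, hi, hj, he, h⟩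
  interval_cases q
  · exact key 0 (by norm_num)
  · exact key 3 (by norm_num)
  · exact key 1 (by norm_num)
  · exact key 2 (by norm_num)

theorem sem_22 {i j q : Nat} (hij : i < j) (hj : j < 14) (hq : q < 4) :
    M.Sem ht (enc 22 i j q 0) ↔ M.S.tri (M.S.outer (M.corner i j q)) := by
  rw [M.sem_enc ht (by norm_num) (by omega) (by omega) (by omega)]
  constructor
  · rintro ⟨-, -, -, h⟩
    exact h
  · intro h
    exact ⟨hij, hj, hq, h⟩

/-- The nontriangular corners. -/
theorem nc_corner {i j : Nat} (hij : i < j) (hj : j < 14) (h2 : M.S.mult (M.flag i j 0 0) = 2) :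
    M.S.nc (M.flag i j 0 0) = (if M.S.tri (M.corner i j 0) then 0 else 1) +
      (if M.S.tri (M.corner i j 3) then 0 else 1) + (if M.S.tri (M.corner i j 1) then 0 else 1) +
      (if M.S.tri (M.corner i j 2) then 0 else 1) := by
  obtain ⟨e0, e1, e2, e3⟩ := M.rot_corner hij hj h2
  unfold nc
  rw [e3, e2, e1, e0]
  simp only [D1_tri_s1 M.facts]

theorem tri_corner_of_full {i j : Nat} (hij : i < j) (hj : j < 14)
    (hf : M.S.full (M.flag i j 0 0)) (q : Nat) : M.S.tri (M.corner i j q) := by
  refine v2_tri_of_full M.facts hf ?_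
  unfold corner flagE
  exact M.vert_flag (hij.trans hj) hj hij.ne _ _ _ _

/-- The nontriangular outer faces. -/
theorem nX_corner {i j : Nat} (hij : i < j) (hj : j < 14) (hf : M.S.full (M.flag i j 0 0)) :
    M.S.nX (M.flag i j 0 0) = (if M.S.tri (M.S.outer (M.corner i j 0)) then 0 else 1) +
      (if M.S.tri (M.S.outer (M.corner i j 3)) then 0 else 1) +
      (if M.S.tri (M.S.outer (M.corner i j 1)) then 0 else 1) +
      (if M.S.tri (M.S.outer (M.corner i j 2)) then 0 else 1) := by
  obtain ⟨e0, e1, e2, e3⟩ := M.rot_corner hij hj hf.1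
  unfold nX
  rw [e3, e2, e1, e0]
  simp only [v2_outer_s1 M.facts (M.tri_corner_of_full hij hj hf _)]

end Model

open Model

variable (M : Model) (ht : DT)

theorem ok_fW2 (i j x : Nat) (hi : i < 16) (hj : j < 16) : ClauseT (M.Sem ht) (fW2 i j x) := by
  unfold fW2
  refine clauseT_okc (M.sem_zero ht) fun hb => ?_
  have hb' : bad2 i j + (x - 4) = 0 := hb
  obtain ⟨hij, hj'⟩ := bad2_eq_zero.1 (by omega : bad2 i j = 0)
  rw [clauseT_cons, clauseT_cons, litS_pos, litS_neg,
    M.sem_enc ht (k := 7) (by norm_num) hi hj (by norm_num)]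
  by_cases h2 : M.S.mult (M.flag i j 0 0) = 2
  swap
  · exact Or.inr (Or.inl fun h => h2 h.2.2)
  by_cases hq : ∃ q < 4, q ≠ x ∧ M.S.tri (M.corner i j q)
  · obtain ⟨q, hq4, hqx, h⟩ := hq
    exact Or.inr (Or.inr (clauseT_qlist ⟨q, hq4, hqx, (M.sem_corN ht hij hj' hq4).2 h⟩))
  · left
    have hq' : ∀ q < 4, q ≠ x → ¬ M.S.tri (M.corner i j q) := by
      intro q h1 h3 h4
      exact hq ⟨q, h1, h3, h4⟩
    have hnc := M.nc_corner hij hj' h2
    rcases Nat.lt_or_ge x 4 with hx | hx
    · have e : Nat.add 24 (Nat.shiftRight x 2) = 24 := by interval_cases x <;> rfl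
      rw [e, M.sem_enc ht (by norm_num) hi hj (by norm_num)]
      refine ⟨hij, hj', h2, ?_⟩
      rw [hnc]
      interval_cases x
      · rw [if_neg (hq' 3 (by omega) (by omega)), if_neg (hq' 1 (by omega) (by omega)),
          if_neg (hq' 2 (by omega) (by omega))]
        omega
      · rw [if_neg (hq' 3 (by omega) (by omega)), if_neg (hq' 0 (by omega) (by omega)),
          if_neg (hq' 2 (by omega) (by omega))]
        omega
      · rw [if_neg (hq' 3 (by omega) (by omega)), if_neg (hq' 0 (by omega) (by omega)),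
          if_neg (hq' 1 (by omega) (by omega))]
        omega
      · rw [if_neg (hq' 1 (by omega) (by omega)), if_neg (hq' 0 (by omega) (by omega)),
          if_neg (hq' 2 (by omega) (by omega))]
        omega
    · obtain rfl : x = 4 := by omega
      have e : Nat.add 24 (Nat.shiftRight 4 2) = 25 := rfl
      rw [e, M.sem_enc ht (by norm_num) hi hj (by norm_num)]
      refine ⟨hij, hj', h2, ?_⟩
      rw [hnc, if_neg (hq' 3 (by omega) (by omega)), if_neg (hq' 1 (by omega) (by omega)),
          if_neg (hq' 2 (by omega) (by omega)), if_neg (hq' 0 (by omega) (by omega))]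

theorem ok_fW3 (i j x : Nat) (hi : i < 16) (hj : j < 16) : ClauseT (M.Sem ht) (fW3 i j x) := by
  unfold fW3
  refine clauseT_okc (M.sem_zero ht) fun hb => ?_
  have hb' : bad2 i j + (x - 4) = 0 := hb
  obtain ⟨hij, hj'⟩ := bad2_eq_zero.1 (by omega : bad2 i j = 0)
  rw [clauseT_cons, clauseT_cons, litS_pos, litS_neg,
    M.sem_enc ht (k := 8) (by norm_num) hi hj (by norm_num)]
  by_cases h2 : M.S.full (M.flag i j 0 0)
  swap
  · exact Or.inr (Or.inl fun h => h2 h.2.2)
  by_cases hq : ∃ q < 4, q ≠ x ∧ M.S.tri (M.S.outer (M.corner i j q))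
  · obtain ⟨q, hq4, hqx, h⟩ := hq
    exact Or.inr (Or.inr (clauseT_qlist ⟨q, hq4, hqx, (M.sem_22 ht hij hj' hq4).2 h⟩))
  · left
    have hq' : ∀ q < 4, q ≠ x → ¬ M.S.tri (M.S.outer (M.corner i j q)) := by
      intro q h1 h3 h4
      exact hq ⟨q, h1, h3, h4⟩
    have hnc := M.nX_corner hij hj' h2
    rcases Nat.lt_or_ge x 4 with hx | hx
    · have e : Nat.add 26 (Nat.shiftRight x 2) = 26 := by interval_cases x <;> rfl
      rw [e, M.sem_enc ht (by norm_num) hi hj (by norm_num)]
      refine ⟨hij, hj', h2, ?_⟩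
      rw [hnc]
      interval_cases x
      · rw [if_neg (hq' 3 (by omega) (by omega)), if_neg (hq' 1 (by omega) (by omega)),
          if_neg (hq' 2 (by omega) (by omega))]
        omega
      · rw [if_neg (hq' 3 (by omega) (by omega)), if_neg (hq' 0 (by omega) (by omega)),
          if_neg (hq' 2 (by omega) (by omega))]
        omega
      · rw [if_neg (hq' 3 (by omega) (by omega)), if_neg (hq' 0 (by omega) (by omega)),
          if_neg (hq' 1 (by omega) (by omega))]
        omega
      · rw [if_neg (hq' 1 (by omega) (by omega)), if_neg (hq' 0 (by omega) (by omega)),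
          if_neg (hq' 2 (by omega) (by omega))]
        omega
    · obtain rfl : x = 4 := by omega
      have e : Nat.add 26 (Nat.shiftRight 4 2) = 27 := rfl
      rw [e, M.sem_enc ht (by norm_num) hi hj (by norm_num)]
      refine ⟨hij, hj', h2, ?_⟩
      rw [hnc, if_neg (hq' 3 (by omega) (by omega)), if_neg (hq' 1 (by omega) (by omega)),
          if_neg (hq' 2 (by omega) (by omega)), if_neg (hq' 0 (by omega) (by omega))]

theorem ok_fNX1 (i j x y : Nat) (hi : i < 16) (hj : j < 16) :
    ClauseT (M.Sem ht) (fNX1 i j x y) := by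
  unfold fNX1
  refine clauseT_okc (M.sem_zero ht) fun hb => ?_
  have hb' : (x + 1 - y) + (y + 1 - 4) = 0 := hb
  rw [clauseT_cons, clauseT_cons, clauseT_cons, litS_neg, litS_pos, litS_pos,
    M.sem_enc ht (by norm_num) hi hj (by norm_num), M.sem_enc ht (by norm_num) hi hj (by omega),
    M.sem_enc ht (by norm_num) hi hj (by omega)]
  by_cases h : M.SemK 23 i j 0 0
  · right
    obtain ⟨h1, h2, h3⟩ := h
    rcases h3 x y (by omega) (by omega) with h4 | h4
    · exact Or.inl ⟨h1, h2, by omega, h4⟩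
    · exact Or.inr (Or.inl ⟨h1, h2, by omega, h4⟩)
  · exact Or.inl h

end Pool.Agent.Helper58.PLK
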