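import Pool.Agent.Helper58.PLK.Model

/-!
# Block K11: the counting families are true
-/

namespace Pool.Agent.Helper58.PLK

open Pool.Agent.Helper15.PL

/-! ### Counting -/

theorem cnt_add (f : Nat → Prop) {l m r : Nat} (h1 : l ≤ m) (h2 : m ≤ r) :
    cnt f l r = cnt f l m + cnt f m r := by
  classical
  unfold cnt
  rw [← Finset.Ico_union_Ico_eq_Ico h1 h2, Finset.filter_union, Finset.card_union_of_disjoint]
  exact Finset.disjoint_filter_filter (Finset.Ico_disjoint_Ico_consecutive l m r)

theorem cnt_le (f : Nat → Prop) (l r : Nat) : cnt f l r ≤ r - l := by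
  classical
  unfold cnt
  refine (Finset.card_filter_le _ _).trans ?_
  rw [Nat.card_Ico]

theorem cnt_one (f : Nat → Prop) (l : Nat) : 0 < cnt f l (l + 1) ↔ f l := by
  classical
  unfold cnt
  rw [Finset.card_pos]
  constructor
  · rintro ⟨x, hx⟩
    rw [Finset.mem_filter, Finset.mem_Ico] at hx
    have : x = l := by omega
    rw [← this]; exact hx.2
  · intro h
    exact ⟨l, by rw [Finset.mem_filter, Finset.mem_Ico]; exact ⟨by omega, h⟩⟩

variable (M : Model) (ht : DT)

theorem sem_low {d : Nat} (h : d % 64 < 29) : M.Sem ht d ↔ M.Sem0 d := by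
  unfold Model.Sem
  rw [if_neg (by omega), if_neg (by omega)]

theorem sem_totv (hht : ∀ h < 4096, recv ht h % 64 < 29) {l r q : Nat} (hlr : l < r)
    (hr : r ≤ 2047) (hq : q < 8) (h0 : r = l + 1 → q = 0) :
    M.Sem ht (totv ht l r q) ↔ q < cnt (fun h => M.Sem0 (recv ht h)) l r := by
  rcases Nat.lt_or_ge (l + 1) r with h | h
  · obtain ⟨s, hs⟩ : ∃ s, r - (l + 1) = s + 1 := ⟨r - (l + 1) - 1, by omega⟩
    have e : totv ht l r q = 29 + 64 * (q + 8 * (l + 2048 * r)) := by
      unfold totv
      simp only [Nat.sub_eq, Nat.succ_eq_add_one]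
      rw [hs]
      simp only [Nat.add_eq, Nat.mul_eq]
    rw [e]
    unfold Model.Sem
    rw [if_pos (by omega)]
    rw [show (29 + 64 * (q + 8 * (l + 2048 * r))) / 64 % 8 = q by omega,
      show (29 + 64 * (q + 8 * (l + 2048 * r))) / 512 % 2048 = l by omega,
      show (29 + 64 * (q + 8 * (l + 2048 * r))) / 1048576 = r by omega]
  · have hr1 : r = l + 1 := by omega
    subst hr1
    have hq0 := h0 rfl
    subst hq0
    have e : totv ht l (l + 1) 0 = recv ht l := by
      unfold totv
      simp only [Nat.sub_eq, Nat.succ_eq_add_one, Nat.sub_self]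
      rfl
    rw [e, sem_low M ht (hht l (by omega)), cnt_one]

theorem shr1 (x : Nat) : Nat.shiftRight x 1 = x / 2 := by
  show x >>> 1 = _
  rw [Nat.shiftRight_eq_div_pow]

theorem clauseT_totneg {l r a : Nat} {L : List Nat} :
    ClauseT (M.Sem ht) (totneg ht l r a L) ↔
      (0 < a ∧ ¬ M.Sem ht (totv ht l r (a - 1))) ∨ ClauseT (M.Sem ht) L := by
  rcases a with _ | a
  · constructor
    · intro h; exact Or.inr h
    · rintro (h | h)
      · exact absurd h.1 (lt_irrefl 0)
      · exact h
  · have e : totneg ht l r (a + 1) L = neg (totv ht l r a) :: L := rfl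
    rw [e, clauseT_cons, litS_neg]
    simp

theorem ok_fTOT (hht : ∀ h < 4096, recv ht h % 64 < 29) (l r a b t : Nat) :
    ClauseT (M.Sem ht) (fTOT ht l r a b t) := by
  unfold fTOT
  refine clauseT_okc (M.sem_zero ht) fun hbad => ?_
  simp only [Nat.add_eq, Nat.sub_eq, shr1] at hbad ⊢
  have hb1 : l + 2 ≤ r := by omega
  have hb2 : r ≤ 2047 := by omega
  have hb3 : a + b ≤ 8 := by omega
  have hb4 : a ≤ (l + r) / 2 - l := by omega
  have hb5 : b ≤ r - (l + r) / 2 := by omega
  have hb6 : t ≤ a + b := by omega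
  have hb7 : 1 ≤ t := by omega
  have hm1 : l < (l + r) / 2 := by omega
  have hm2 : (l + r) / 2 < r := by omega
  rw [clauseT_totneg, clauseT_totneg, clauseT_cons, litS_pos,
    sem_totv M ht hht (l := l) (r := r) (q := t - 1) (by omega) hb2 (by omega) (by omega)]
  have hadd := cnt_add (fun h => M.Sem0 (recv ht h)) hm1.le hm2.le
  by_cases h1 : 0 < a ∧ ¬ M.Sem ht (totv ht l ((l + r) / 2) (a - 1))
  · exact Or.inl h1
  · by_cases h2 : 0 < b ∧ ¬ M.Sem ht (totv ht ((l + r) / 2) r (b - 1))
    · exact Or.inr (Or.inl h2)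
    · refine Or.inr (Or.inr (Or.inl ?_))
      have e1 : a ≤ cnt (fun h => M.Sem0 (recv ht h)) l ((l + r) / 2) := by
        rcases Nat.eq_zero_or_pos a with ha | ha
        · omega
        · have h3 : M.Sem ht (totv ht l ((l + r) / 2) (a - 1)) := by
            by_contra h4
            exact h1 ⟨ha, h4⟩
          rw [sem_totv M ht hht (by omega) (by omega) (by omega) (by omega)] at h3
          omega
      have e2 : b ≤ cnt (fun h => M.Sem0 (recv ht h)) ((l + r) / 2) r := by
        rcases Nat.eq_zero_or_pos b with hb | hb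
        · omega
        · have h3 : M.Sem ht (totv ht ((l + r) / 2) r (b - 1)) := by
            by_contra h4
            exact h2 ⟨hb, h4⟩
          rw [sem_totv M ht hht (by omega) (by omega) (by omega) (by omega)] at h3
          omega
      omega

theorem ok_fTOTM (hht : ∀ h < 4096, recv ht h % 64 < 29) (l r q : Nat) :
    ClauseT (M.Sem ht) (fTOTM ht l r q) := by
  unfold fTOTM
  refine clauseT_okc (M.sem_zero ht) fun hbad => ?_
  simp only [Nat.add_eq, Nat.sub_eq] at hbad ⊢
  have hb1 : l + 2 ≤ r := by omega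
  have hb2 : r ≤ 2047 := by omega
  have hb3 : 1 ≤ q := by omega
  have hb4 : q ≤ 7 := by omega
  rw [clauseT_cons, clauseT_cons, litS_neg, litS_pos,
    sem_totv M ht hht (by omega) hb2 (by omega) (by omega),
    sem_totv M ht hht (by omega) hb2 (by omega) (by omega)]
  by_cases h : q < cnt (fun h => M.Sem0 (recv ht h)) l r
  · exact Or.inr (Or.inl (by omega))
  · exact Or.inl h

/-! ### The load inputs -/

theorem enc_mod {k a b c e : Nat} (hk : k < 64) : enc k a b c e % 64 = k := by
  rw [enc_eq]; omega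

theorem ldin_mod (a b c d h : Nat) : ldin a b c d h % 64 < 29 := by
  have h1 : ∀ x i a d : Nat, ryN (Nat.sub 20 (Nat.land x 3)) i a d % 64 < 29 := by
    intro x i a d
    have hx : Nat.sub 20 (Nat.land x 3) ≤ 20 := Nat.sub_le _ _
    have e : ryN (Nat.sub 20 (Nat.land x 3)) i a d = enc (Nat.sub 20 (Nat.land x 3)) i a d 0 := rfl
    rw [e, enc_mod (by omega)]
    omega
  have h2 : ∀ i a q : Nat, enc 28 i a q 0 % 64 < 29 := by
    intro i a q
    rw [enc_mod (by omega)]
    omega
  rcases b with _ | b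
  · have key : ∀ y : Nat, (Nat.rec (motive := fun _ => Nat)
        (ryN (Nat.sub 20 (Nat.land (Nat.shiftRight 0x5aa (Nat.mul 2 (Nat.mod h 7))) 3))
          (Nat.div h 14) (eqN (Nat.div h 14) 0) (Nat.mod (Nat.div h 7) 2))
        (fun q _ => enc 28 0 1 q 0) y : Nat) % 64 < 29 := by
      intro y
      rcases y with _ | y
      · exact h1 _ _ _ _
      · exact h2 _ _ _
    exact key _
  · have key : ∀ y : Nat, (Nat.rec (motive := fun _ => Nat)
        (ryN (Nat.sub 20 (Nat.land (Nat.shiftRight 0x5aa (Nat.mul 2 (Nat.mod h 7))) 3))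
          (lnN (Nat.add (pk3 a (b + 1) c) (Nat.mul 4096 d)) (Nat.div h 14))
          (Nat.rec (motive := fun _ => Nat) (b + 1) (fun _ _ => a) (Nat.div h 14)) (Nat.mod (Nat.div h 7) 2))
        (fun q _ => enc 28 a (b + 1) q 0) y : Nat) % 64 < 29 := by
      intro y
      rcases y with _ | y
      · exact h1 _ _ _ _
      · exact h2 _ _ _
    exact key _

/-- The meaning of the load input number `h` of the vertex `v`. -/
def ldF (v h : Nat) : Prop := M.Sem0 (ldin (n0 v) (n1 v) (n2 v) (n3 v) h)

theorem sem_ldv {v l r q : Nat} (hv : v < 65536) (hlr : l < r)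
    (hr : r ≤ 127) (hq : q < 32) (h0 : r = l + 1 → q = 0) :
    M.Sem ht (ldv v l r q) ↔ q < cnt (ldF M v) l r := by
  rcases Nat.lt_or_ge (l + 1) r with h | h
  · obtain ⟨s, hs⟩ : ∃ s, r - (l + 1) = s + 1 := ⟨r - (l + 1) - 1, by omega⟩
    have e : ldv v l r q = 30 + 64 * (v + 65536 * (q + 32 * (l + 128 * r))) := by
      unfold ldv
      simp only [Nat.sub_eq, Nat.succ_eq_add_one]
      rw [hs]
      simp only [Nat.add_eq, Nat.mul_eq]
    rw [e]
    unfold Model.Sem
    rw [if_neg (by omega), if_pos (by omega)]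
    rw [show (30 + 64 * (v + 65536 * (q + 32 * (l + 128 * r)))) / 4194304 % 32 = q by omega,
      show (30 + 64 * (v + 65536 * (q + 32 * (l + 128 * r)))) / 134217728 % 128 = l by omega,
      show (30 + 64 * (v + 65536 * (q + 32 * (l + 128 * r)))) / 17179869184 = r by omega,
      show (30 + 64 * (v + 65536 * (q + 32 * (l + 128 * r)))) / 64 % 65536 = v by omega]
    exact Iff.rfl
  · have hr1 : r = l + 1 := by omega
    subst hr1
    have hq0 := h0 rfl
    subst hq0
    have e : ldv v l (l + 1) 0 = ldin (n0 v) (n1 v) (n2 v) (n3 v) l := by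
      unfold ldv
      simp only [Nat.sub_eq, Nat.succ_eq_add_one, Nat.sub_self]
      rfl
    rw [e, sem_low M ht (ldin_mod _ _ _ _ _), cnt_one]
    exact Iff.rfl

theorem ok_fLDG (v l r a b : Nat) (hv : v < 65536) : ClauseT (M.Sem ht) (fLDG v l r a b) := by
  unfold fLDG
  refine clauseT_okc (M.sem_zero ht) fun hbad => ?_
  simp only [Nat.add_eq, Nat.sub_eq, shr1, sel_eq] at hbad ⊢
  have hb1 : l + 2 ≤ r := by omega
  have hb2 : r ≤ 127 := by omega
  have hb3 : a + b ≤ 31 := by omega
  have hm1 : l < (l + r) / 2 := by omega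
  have hm2 : (l + r) / 2 < r := by omega
  have hadd := cnt_add (ldF M v) hm1.le hm2.le
  have hc1 := cnt_le (ldF M v) l ((l + r) / 2)
  have hc2 := cnt_le (ldF M v) ((l + r) / 2) r
  have hR := sem_ldv M ht hv (l := l) (r := r) (q := a + b) (by omega) hb2 (by omega) (by omega)
  split_ifs with h1 h2 h2
  · rw [clauseT_cons, litS_neg, hR]
    exact Or.inl (by omega)
  · rw [clauseT_cons, clauseT_cons, litS_neg, litS_pos, hR,
      sem_ldv M ht hv (l := (l + r) / 2) (r := r) (q := b) (by omega) (by omega) (by omega) (by omega)]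
    by_cases h3 : b < cnt (ldF M v) ((l + r) / 2) r
    · exact Or.inl h3
    · exact Or.inr (Or.inl (by omega))
  · rw [clauseT_cons, clauseT_cons, litS_neg, litS_pos, hR,
      sem_ldv M ht hv (l := l) (r := (l + r) / 2) (q := a) (by omega) (by omega) (by omega) (by omega)]
    by_cases h3 : a < cnt (ldF M v) l ((l + r) / 2)
    · exact Or.inl h3
    · exact Or.inr (Or.inl (by omega))
  · rw [clauseT_cons, clauseT_cons, clauseT_cons, litS_neg, litS_pos, litS_pos, hR,
      sem_ldv M ht hv (l := l) (r := (l + r) / 2) (q := a) (by omega) (by omega) (by omega) (by omega),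
      sem_ldv M ht hv (l := (l + r) / 2) (r := r) (q := b) (by omega) (by omega) (by omega) (by omega)]
    by_cases h3 : a < cnt (ldF M v) l ((l + r) / 2)
    · exact Or.inl h3
    · by_cases h4 : b < cnt (ldF M v) ((l + r) / 2) r
      · exact Or.inr (Or.inl h4)
      · exact Or.inr (Or.inr (Or.inl (by omega)))

theorem ok_fLDM (v l r q : Nat) (hv : v < 65536) : ClauseT (M.Sem ht) (fLDM v l r q) := by
  unfold fLDM
  refine clauseT_okc (M.sem_zero ht) fun hbad => ?_
  simp only [Nat.add_eq, Nat.sub_eq] at hbad ⊢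
  have hb1 : l + 2 ≤ r := by omega
  have hb2 : r ≤ 127 := by omega
  have hb3 : 1 ≤ q := by omega
  have hb4 : q ≤ 31 := by omega
  rw [clauseT_cons, clauseT_cons, litS_neg, litS_pos,
    sem_ldv M ht hv (by omega) hb2 (by omega) (by omega),
    sem_ldv M ht hv (by omega) hb2 (by omega) (by omega)]
  by_cases h : q < cnt (ldF M v) l r
  · exact Or.inr (Or.inl (by omega))
  · exact Or.inl h

end Pool.Agent.Helper58.PLK
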