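import Pool.Agent.Helper58.PLK.Model

/-!
# Block K2: no vertex inside a side of a candidate triangle
-/

namespace Pool.Agent.Helper58.PLK

open Pool.Agent.Helper15.PL

section

variable {n : ℕ} {S : FlagSys n} {W : Wiring n}

/-- The two kinds of edges: bounded, or through infinity. -/
theorem k2_s0_cases (c : Chart S W) {i a b : Fin n} (hia : i ≠ a) (hib : i ≠ b) {s s' : Bool}
    (h : S.s0 (c.Φ i a true s) = c.Φ i b false s') :
    (s' = s ∧ ∀ l, l ≠ i → W.X i l ≤ W.X i a ∨ W.X i b ≤ W.X i l) ∨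
      (s' = !s ∧ ∀ l, l ≠ i → W.X i l ≤ W.X i a ∧ W.X i b ≤ W.X i l) := by
  classical
  by_cases hex : ∃ l, l ≠ i ∧ W.X i a < W.X i l
  · left
    obtain ⟨b0, hb, hbmin⟩ := Finset.exists_min_image
      (Finset.univ.filter fun l => l ≠ i ∧ W.X i a < W.X i l) (fun l => W.X i l) (by
        obtain ⟨l, hl⟩ := hex
        exact ⟨l, by simpa using hl⟩)
    simp only [Finset.mem_filter, Finset.mem_univ, true_and] at hb hbmin
    have hbtw : ∀ l, l ≠ i → W.X i l ≤ W.X i a ∨ W.X i b0 ≤ W.X i l := by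
      intro l hl
      by_cases h1 : W.X i a < W.X i l
      · exact Or.inr (hbmin l ⟨hl, h1⟩)
      · exact Or.inl (not_lt.1 h1)
    have h1 := (c.s0_next i a b0 s hia hb.1.symm hb.2 hbtw).1
    rw [h, c.eq_iff _ _ _ _ _ _ _ _ hib hb.1.symm] at h1
    exact ⟨h1.2.2.2, fun l hl => by rw [h1.2.1]; exact hbtw l hl⟩
  · right
    push Not at hex
    obtain ⟨b0, hb, hbmin⟩ := Finset.exists_min_image
      (Finset.univ.filter fun l => l ≠ i) (fun l => W.X i l) ⟨a, by simpa using hia.symm⟩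
    simp only [Finset.mem_filter, Finset.mem_univ, true_and] at hb hbmin
    have h1 := (c.s0_wrap i a b0 s hia hb.symm (fun l hl => ⟨hex l hl, hbmin l hl⟩)).1
    rw [h, c.eq_iff _ _ _ _ _ _ _ _ hib hb.symm] at h1
    exact ⟨h1.2.2.2, fun l hl => ⟨hex l hl, by rw [h1.2.1]; exact hbmin l hl⟩⟩

end

/-- Meaning of the descriptor of a candidate triangle. -/
theorem k2_sem4 (M : Model) (ht : DT) {t c : Nat} (htt : t < 4096) :
    M.Sem ht (Nat.add 4 (Nat.mul 64 (Nat.add t (Nat.mul 4096 c)))) ↔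
      M.SemK 4 (t % 16) (t / 16 % 16) (t / 256 % 16) c := by
  have h0 : Nat.add 4 (Nat.mul 64 (Nat.add t (Nat.mul 4096 c))) = 4 + 64 * (t + 4096 * c) := rfl
  rw [h0]
  unfold Model.Sem Model.Sem0
  rw [if_neg (by omega), if_neg (by omega)]
  rw [show (4 + 64 * (t + 4096 * c)) % 64 = 4 by omega,
    show (4 + 64 * (t + 4096 * c)) / 64 % 16 = t % 16 by omega,
    show (4 + 64 * (t + 4096 * c)) / 1024 % 16 = t / 16 % 16 by omega,
    show (4 + 64 * (t + 4096 * c)) / 16384 % 16 = t / 256 % 16 by omega,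
    show (4 + 64 * (t + 4096 * c)) / 262144 = c by omega]

theorem k2_lnN {t x : Nat} (hx : x < 3) :
    lnN t x = Model.ln (t % 16) (t / 16 % 16) (t / 256 % 16) x := by
  have h15 : ∀ m : Nat, Nat.land m 15 = m % 16 := fun m => Nat.and_two_pow_sub_one_eq_mod m 4
  unfold lnN
  interval_cases x
  · rw [h15]; rfl
  · have : Nat.shiftRight t (Nat.mul 4 1) = t / 16 := Nat.shiftRight_eq_div_pow t 4
    rw [this, h15]; rfl
  · have : Nat.shiftRight t (Nat.mul 4 2) = t / 256 := Nat.shiftRight_eq_div_pow t 8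
    rw [this, h15]; rfl

theorem k2_table : ∀ c < 8, ∀ x < 3, endN c x 0 < 3 ∧ endN c x 1 < 3 ∧ endN c x 0 ≠ endN c x 1 ∧
    x ≠ endN c x 0 ∧ x ≠ endN c x 1 ∧ dirN c x (endN c x 0) = 0 ∧ dirN c x (endN c x 1) = 1 ∧
    sideN c x (endN c x 0) < 2 ∧ sideN c x (endN c x 1) < 2 ∧
    (Nat.xor (sideN c x (oy x)) (sideN c x (oz x)) = 0 ↔
      sideN c x (endN c x 0) = sideN c x (endN c x 1)) := by
  decide

theorem k2_ln_lt {i j k x : Nat} (hi : i < 14) (hj : j < 14) (hk : k < 14) :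
    Model.ln i j k x < 14 := by
  unfold Model.ln
  split <;> assumption

theorem k2_ln_ne {i j k x y : Nat} (hij : i < j) (hjk : j < k) (hx : x < 3) (hy : y < 3)
    (hxy : x ≠ y) : Model.ln i j k x ≠ Model.ln i j k y := by
  unfold Model.ln
  interval_cases x <;> interval_cases y <;> simp only at * <;> omega

theorem ok_fE (M : Model) (ht : DT) (t c l x w : Nat) (htt : t < 4096) (hc : c < 16)
    (hl : l < 16) : ClauseT (M.Sem ht) (fE t c l x w) := by
  have _ := hc
  unfold fE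
  refine clauseT_okc (M.sem_zero ht) fun hbad => ?_
  have hx : x < 3 := by
    have : x - 2 = 0 := hbad
    omega
  -- suppose that the candidate triangle is there
  by_cases hcand : M.Sem ht (Nat.add 4 (Nat.mul 64 (Nat.add t (Nat.mul 4096 c))))
  · have hcand' := (k2_sem4 M ht htt).1 hcand
    set i := t % 16 with hi
    set j := t / 16 % 16 with hj
    set k := t / 256 % 16 with hk
    obtain ⟨hij, hjk, hk14, hc8, -, hC⟩ := hcand'
    obtain ⟨h0, h1, h01, hx0, hx1, hd0, hd1, hs0, hs1, hsel⟩ := k2_table c hc8 x hx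
    set y0 := endN c x 0 with hy0
    set y1 := endN c x 1 with hy1
    have hlx : Model.ln i j k x < 14 := k2_ln_lt (by omega) (by omega) hk14
    have hl0 : Model.ln i j k y0 < 14 := k2_ln_lt (by omega) (by omega) hk14
    have hl1 : Model.ln i j k y1 < 14 := k2_ln_lt (by omega) (by omega) hk14
    have hn0 : Model.ln i j k x ≠ Model.ln i j k y0 := k2_ln_ne hij hjk hx h0 hx0
    have hn1 : Model.ln i j k x ≠ Model.ln i j k y1 := k2_ln_ne hij hjk hx h1 hx1
    have hs := (hC x y0 y1 hx h0 h1 hx0 hx1 h01).2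
    have hfl : ∀ y, M.cflag i j k c x y = M.c.Φ (fi (Model.ln i j k x)) (fi (Model.ln i j k y))
        (bo (dirN c x y)) (bo (sideN c x y)) := fun y => rfl
    rw [hfl, hfl, hd0, hd1] at hs
    have hcases := k2_s0_cases M.c (Model.fi_ne hlx hl0 hn0) (Model.fi_ne hlx hl1 hn1) hs
    have hlxN : lnN t x = Model.ln i j k x := k2_lnN hx
    have hl0N : lnN t y0 = Model.ln i j k y0 := k2_lnN h0
    have hl1N : lnN t y1 = Model.ln i j k y1 := k2_lnN h1
    have hbo : ∀ a b : Nat, a < 2 → b < 2 → (bo b = bo a ↔ a = b) ∧ (bo b = !(bo a) ↔ a ≠ b) := by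
      intro a b ha hb
      interval_cases a <;> interval_cases b <;> decide
    have hbo' := hbo _ _ hs0 hs1
    have hL0 : M.Sem ht (ltd (lnN t x) (lnN t y0) l) →
        l < 14 ∧ Model.ln i j k x ≠ l ∧ M.X (Model.ln i j k x) (Model.ln i j k y0) <
          M.X (Model.ln i j k x) l := by
      intro h
      rw [hlxN, hl0N, M.sem_ltd ht (by omega) (by omega) hl] at h
      exact ⟨h.2.2.2.2.2.1, h.2.1, h.2.2.2.2.2.2⟩
    have hL1 : M.Sem ht (ltd (lnN t x) l (lnN t y1)) →
        l < 14 ∧ Model.ln i j k x ≠ l ∧ M.X (Model.ln i j k x) l <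
          M.X (Model.ln i j k x) (Model.ln i j k y1) := by
      intro h
      rw [hlxN, hl1N, M.sem_ltd ht (by omega) hl (by omega)] at h
      exact ⟨h.2.2.2.2.1, h.1, h.2.2.2.2.2.2⟩
    rw [sel_eq, sel_eq]
    split_ifs with hz hw
    · have hsame := hsel.1 hz
      simp only [clauseT_cons, litS_neg]
      by_contra hcon
      push Not at hcon
      obtain ⟨-, hA, hB, -⟩ := hcon
      obtain ⟨hl14, hne, hA'⟩ := hL0 hA
      obtain ⟨-, -, hB'⟩ := hL1 hB
      rcases hcases with ⟨-, h⟩ | ⟨h, -⟩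
      · rcases h (fi l) (Model.fi_ne hlx hl14 hne).symm with h | h
        · exact absurd hA' (not_lt.2 h)
        · exact absurd hB' (not_lt.2 h)
      · exact (hbo'.2.1 h) hsame
    · have hdiff : sideN c x y0 ≠ sideN c x y1 := fun h => hz (hsel.2 h)
      simp only [clauseT_cons, litS_neg]
      by_contra hcon
      push Not at hcon
      obtain ⟨-, hA, -⟩ := hcon
      obtain ⟨hl14, hne, hA'⟩ := hL0 hA
      rcases hcases with ⟨h, -⟩ | ⟨-, h⟩
      · exact hdiff (hbo'.1.1 h)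
      · exact absurd hA' (not_lt.2 (h (fi l) (Model.fi_ne hlx hl14 hne).symm).1)
    · have hdiff : sideN c x y0 ≠ sideN c x y1 := fun h => hz (hsel.2 h)
      simp only [clauseT_cons, litS_neg]
      by_contra hcon
      push Not at hcon
      obtain ⟨-, hB, -⟩ := hcon
      obtain ⟨hl14, hne, hB'⟩ := hL1 hB
      rcases hcases with ⟨h, -⟩ | ⟨-, h⟩
      · exact hdiff (hbo'.1.1 h)
      · exact absurd hB' (not_lt.2 (h (fi l) (Model.fi_ne hlx hl14 hne).symm).2)
  · refine ⟨ncd t c, ?_, ?_⟩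
    · rw [sel_eq, sel_eq]
      split_ifs <;> simp
    · unfold ncd
      rw [litS_neg]
      exact hcand

end Pool.Agent.Helper58.PLK
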