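import Pool.Agent.Helper58.PLK.Model

/-!
# Block K3: the corner variables of kind 6 and the candidate triangles
-/

namespace Pool.Agent.Helper58.PLK

open Pool.Agent.Helper15.PL

namespace K3

theorem badc_zero {x y : Nat} (h : badc x y = 0) : x ≠ y ∧ x < 3 ∧ y < 3 := by
  unfold badc at h
  rw [eqN_eq] at h
  simp only [Nat.add_eq, Nat.sub_eq] at h
  split_ifs at h <;> omega

theorem badp_zero {i a : Nat} (h : badp i a = 0) : i ≠ a ∧ i < 14 ∧ a < 14 := by
  unfold badp at h
  rw [eqN_eq] at h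
  simp only [Nat.add_eq, Nat.sub_eq, Nat.succ_eq_add_one] at h
  split_ifs at h <;> omega

theorem dirN_lt (c x y : Nat) : dirN c x y < 2 := Nat.lt_succ_of_le Nat.and_le_right

theorem sideN_lt (c x y : Nat) : sideN c x y < 2 := Nat.lt_succ_of_le Nat.and_le_right

theorem lnN_eq {t x : Nat} (ht : t < 4096) (hx : x < 3) :
    lnN t x = Model.ln (t % 16) (t / 16 % 16) (t / 256) x := by
  have h : lnN t x = t / 2 ^ (4 * x) % 16 := by
    change (t >>> (4 * x)) &&& 15 = _
    rw [Nat.shiftRight_eq_div_pow]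
    exact Nat.and_two_pow_sub_one_eq_mod _ 4
  rw [h]
  interval_cases x
  · change t / 1 % 16 = t % 16
    rw [Nat.div_one]
  · change t / 16 % 16 = t / 16 % 16
    rfl
  · change t / 256 % 16 = t / 256
    omega

section

variable (M : Model) (ht : DT)

theorem sem_cand {t c : Nat} (htt : t < 4096) :
    M.Sem ht (Nat.add 4 (Nat.mul 64 (Nat.add t (Nat.mul 4096 c)))) ↔
      M.SemK 4 (t % 16) (t / 16 % 16) (t / 256) c := by
  rw [← M.sem_enc ht (k := 4) (by omega) (Nat.mod_lt _ (by omega)) (Nat.mod_lt _ (by omega))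
    (by omega)]
  rw [enc_eq]
  simp only [Nat.add_eq, Nat.mul_eq]
  have : 4 + 64 * (t + 4096 * c) = 4 + 64 * (t % 16) + 1024 * (t / 16 % 16) +
      16384 * (t / 256) + 262144 * c := by omega
  rw [this]

theorem sem_flN {k i a d s : Nat} (hk : k < 29) (hi : i < 16) (ha : a < 16) (hd : d < 2)
    (hs : s < 2) : M.Sem ht (flN k i a d s) ↔ M.SemK k i a (d + 2 * s) 0 := by
  unfold flN
  exact M.sem_enc ht hk hi ha (by simp only [Nat.add_eq, Nat.mul_eq]; omega)

/-- the corner of a candidate triangle -/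
theorem semK6 {i j k c x y : Nat} (h4 : M.SemK 4 i j k c) (hx : x < 3) (hy : y < 3) (hxy : x ≠ y) :
    M.SemK 6 (Model.ln i j k x) (Model.ln i j k y) (dirN c x y + 2 * sideN c x y) 0 := by
  obtain ⟨hij, hjk, hk, hc, hC⟩ := h4
  have hd := dirN_lt c x y
  have hs := sideN_lt c x y
  refine ⟨?_, ?_, ?_, by omega, i, j, k, c, x, y, hij, hjk, hk, hc, hx, hy, hxy, rfl, rfl,
    by omega, by omega, hC⟩
  · interval_cases x <;> interval_cases y <;> simp [Model.ln] at * <;> omega
  · interval_cases x <;> simp [Model.ln] <;> omega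
  · interval_cases y <;> simp [Model.ln] <;> omega

theorem cand_tri {i j k c x y : Nat} (hC : M.Cand i j k c) (hx : x < 3) (hy : y < 3)
    (hxy : x ≠ y) : M.S.tri (M.cflag i j k c x y) := by
  obtain ⟨z, hz, hxz, hyz⟩ : ∃ z, z < 3 ∧ x ≠ z ∧ y ≠ z := ⟨3 - (x + y), by omega, by omega, by omega⟩
  have h := hC.2
  unfold FlagSys.tri
  rw [(h x y z hx hy hz hxy hxz hyz).1, (h y x z hy hx hz hxy.symm hyz hxz).2,
    (h y z x hy hz hx hyz hxy.symm hxz.symm).1, (h z y x hz hy hx hyz.symm hxz.symm hxy.symm).2,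
    (h z x y hz hx hy hxz.symm hyz.symm hxy).1, (h x z y hx hz hy hxz hxy hyz.symm).2]

/-- the two entries of the table -/
theorem tab_ok : ∀ x : Fin 3, ∀ y : Fin 3, ∀ c : Fin 8, x ≠ y →
    (Nat.land (Nat.shiftRight u1tab (u1idx x y (dirN c x y) (sideN c x y))) 7 = c ∨
      Nat.land (Nat.shiftRight u1tab (Nat.add 3 (u1idx x y (dirN c x y) (sideN c x y)))) 7 = c) := by
  decide +kernel

theorem mem_u1list {i a d s n m : Nat} (hm : m < n) (h1 : 13 - m ≠ i) (h2 : 13 - m ≠ a) :
    pos (tri3 4 i a (13 - m)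
      (Nat.land (Nat.shiftRight u1tab (u1idx (posN i a (13 - m)) (posN a i (13 - m)) d s)) 7)) ∈
        u1list i a d s n ∧
    pos (tri3 4 i a (13 - m)
      (Nat.land (Nat.shiftRight u1tab (Nat.add 3 (u1idx (posN i a (13 - m)) (posN a i (13 - m)) d s)))
        7)) ∈ u1list i a d s n := by
  induction n with
  | zero => omega
  | succ n ih =>
    have hstep : u1list i a d s (n + 1) =
      Nat.rec (motive := fun _ => List Nat)
        (pos (tri3 4 i a (13 - n)
            (Nat.land (Nat.shiftRight u1tab (u1idx (posN i a (13 - n)) (posN a i (13 - n)) d s)) 7)) ::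
         pos (tri3 4 i a (13 - n)
            (Nat.land (Nat.shiftRight u1tab (Nat.add 3
              (u1idx (posN i a (13 - n)) (posN a i (13 - n)) d s))) 7)) :: u1list i a d s n)
        (fun _ _ => u1list i a d s n)
        (Nat.add (eqN (13 - n) i) (eqN (13 - n) a)) := rfl
    rw [hstep]
    rcases Nat.lt_succ_iff_lt_or_eq.1 hm with hlt | rfl
    · have h3 := ih hlt
      rcases Nat.add (eqN (13 - n) i) (eqN (13 - n) a) with _ | b
      · exact ⟨List.mem_cons_of_mem _ (List.mem_cons_of_mem _ h3.1),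
          List.mem_cons_of_mem _ (List.mem_cons_of_mem _ h3.2)⟩
      · exact h3
    · have h0 : Nat.add (eqN (13 - m) i) (eqN (13 - m) a) = 0 := by
        rw [eqN_eq, eqN_eq, if_neg h1, if_neg h2]
      rw [h0]
      exact ⟨List.mem_cons_self, List.mem_cons_of_mem _ List.mem_cons_self⟩

end

end K3

open K3

variable (M : Model) (ht : DT)

theorem ok_fU1b (t c x y : Nat) (htt : t < 4096) (_hc : c < 16) :
    ClauseT (M.Sem ht) (fU1b t c x y) := by
  unfold fU1b
  refine clauseT_okc (M.sem_zero ht) fun hbad => ?_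
  obtain ⟨hxy, hx, hy⟩ := badc_zero hbad
  rw [clauseT_cons, clauseT_cons]
  by_cases h : M.SemK 4 (t % 16) (t / 16 % 16) (t / 256) c
  · right; left
    rw [litS_pos, lnN_eq htt hx, lnN_eq htt hy]
    have h6 := semK6 M h hx hy hxy
    rw [sem_flN M ht (by decide) (by have := h6.2.1; omega) (by have := h6.2.2.1; omega)
      (dirN_lt _ _ _) (sideN_lt _ _ _)]
    exact h6
  · left
    rw [litS_neg]
    exact fun h' => h ((sem_cand M ht htt).1 h')

theorem ok_fU2a (i a d s : Nat) (hi : i < 16) (ha : a < 16) : ClauseT (M.Sem ht) (fU2a i a d s) := by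
  unfold fU2a
  refine clauseT_okc (M.sem_zero ht) fun hbad => ?_
  have hds : d < 2 ∧ s < 2 := by
    simp only [Nat.add_eq, Nat.sub_eq] at hbad
    omega
  rw [clauseT_cons, clauseT_cons]
  by_cases h : M.SemK 6 i a (d + 2 * s) 0
  · right; left
    rw [litS_pos, sem_flN M ht (by decide) hi ha hds.1 hds.2]
    obtain ⟨h1, h2, h3, h4, i', j', k', cc, x, y, hij, hjk, hk, hc, hx, hy, hxy, e1, e2, e3, e4,
      hC⟩ := h
    refine ⟨h1, h2, h3, h4, ?_⟩
    have h5 := cand_tri M hC hx hy hxy
    have h6 : M.cflag i' j' k' cc x y = M.flagE i a (d + 2 * s) := by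
      unfold Model.cflag Model.flagE
      rw [e1, e2, e3, e4]
      congr 1
      omega
    rwa [h6] at h5
  · left
    rw [litS_neg]
    exact fun h' => h ((sem_flN M ht (by decide) hi ha hds.1 hds.2).1 h')

theorem ok_fU1a (i a d s : Nat) (hi : i < 16) (ha : a < 16) : ClauseT (M.Sem ht) (fU1a i a d s) := by
  unfold fU1a
  refine clauseT_okc (M.sem_zero ht) fun hbad => ?_
  have hb2 : badp i a = 0 ∧ d < 2 ∧ s < 2 := by
    simp only [Nat.add_eq, Nat.sub_eq] at hbad
    omega
  obtain ⟨hia, hi14, ha14⟩ := badp_zero hb2.1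
  rw [clauseT_cons]
  by_cases h : M.SemK 6 i a (d + 2 * s) 0
  · right
    obtain ⟨h1, h2, h3, h4, i', j', k', cc, x, y, hij, hjk, hk, hc, hx, hy, hxy, e1, e2, e3, e4,
      hC⟩ := h
    have hd : dirN cc x y = d := by omega
    have hs : sideN cc x y = s := by omega
    -- the third line
    obtain ⟨z, hz, hxz, hyz⟩ : ∃ z, z < 3 ∧ x ≠ z ∧ y ≠ z :=
      ⟨3 - (x + y), by omega, by omega, by omega⟩
    obtain ⟨l, hl⟩ : ∃ l, Model.ln i' j' k' z = l := ⟨_, rfl⟩
    have hfacts : l < 14 ∧ l ≠ i ∧ l ≠ a ∧ posN i a l = x ∧ posN a i l = y ∧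
        mnN i (mnN a l) = i' ∧ mdN i a l = j' ∧ mxN i (mxN a l) = k' := by
      have hmd : mdN i a l = i + a + l - (mnN i (mnN a l) + mxN i (mxN a l)) := rfl
      have hp1 : posN i a l = ltN a i + ltN l i := rfl
      have hp2 : posN a i l = ltN i a + ltN l a := rfl
      rw [hmd, hp1, hp2]
      simp only [mnN_eq, mxN_eq, ltN_eq]
      clear hC e3 e4 hd hs hbad hb2
      interval_cases x <;> interval_cases y <;> interval_cases z <;>
        first
          | (exact absurd rfl hxy)
          | (exact absurd rfl hxz)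
          | (exact absurd rfl hyz)
          | (simp only [Model.ln] at e1 e2 hl
             subst e1 e2 hl
             refine ⟨by omega, by omega, by omega, ?_, ?_, by omega, by omega, by omega⟩ <;>
               split_ifs <;> omega)
    obtain ⟨hl14, hli, hla, hpx, hpy, hmn, hmd, hmx⟩ := hfacts
    have hm : 13 - (13 - l) = l := by omega
    have hmem := mem_u1list (i := i) (a := a) (d := d) (s := s) (n := 14) (m := 13 - l) (by omega)
      (by omega) (by omega)
    rw [hm, hpx, hpy] at hmem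
    have htab := tab_ok ⟨x, hx⟩ ⟨y, hy⟩ ⟨cc, hc⟩ (fun h => hxy (congrArg Fin.val h))
    simp only [] at htab
    rw [hd, hs] at htab
    have hsem : M.Sem ht (tri3 4 i a l cc) := by
      unfold tri3
      rw [hmn, hmd, hmx, M.sem_enc ht (by decide) (by omega) (by omega) (by omega)]
      exact ⟨hij, hjk, hk, hc, hC⟩
    rcases htab with htab | htab
    · refine ⟨_, hmem.1, ?_⟩
      rw [htab, litS_pos]
      exact hsem
    · refine ⟨_, hmem.2, ?_⟩
      rw [htab, litS_pos]
      exact hsem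
  · left
    rw [litS_neg]
    exact fun h' => h ((sem_flN M ht (by decide) hi ha hb2.2.1 hb2.2.2).1 h')

end Pool.Agent.Helper58.PLK
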