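import Pool.Agent.Helper58.PLK.K5
import Pool.Agent.Helper15.PL.D1

/-!
# Block K4: a triangular corner belongs to a candidate triangle
-/

set_option linter.constructorNameAsVariable false

namespace Pool.Agent.Helper58.PLK.K4

open Pool.Agent.Helper15.PL Pool.Agent.Helper15.PL.FlagSys

/-- The other flag of a corner. -/
def T1 (f : Bool × Bool) (o : Bool) : Bool × Bool :=
  (xor f.1 (xor (f.2 == f.1) o), xor (xor f.1 (xor (f.2 == f.1) o)) (f.2 == f.1))

/-- The other end of an edge. -/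
def T0 (f : Bool × Bool) (x : Bool) : Bool × Bool := (!f.1, xor f.2 (xor f.1 x))

/-- The type `cc` has the direction and the side `f` at the vertex of its lines `x`, `y`. -/
def mt (cc x y : ℕ) (f : Bool × Bool) : Prop :=
  dirN cc x y = (if f.1 then 0 else 1) ∧ sideN cc x y = (if f.2 then 0 else 1)

instance (cc x y : ℕ) (f : Bool × Bool) : Decidable (mt cc x y f) := by unfold mt; infer_instance

theorem tab : ∀ x0 y0 z0 : Fin 3, x0 ≠ y0 → y0 ≠ z0 → x0 ≠ z0 → ∀ neg d s : Bool,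
    T1 (T0 (T1 (d, s) (decide (x0 < y0))) (xor (decide (x0 < z0)) neg)) (decide (y0 < z0)) =
      T0 (T1 (T0 (d, s) (xor (decide (y0 < z0)) neg)) (decide (x0 < z0)))
        (xor (decide (x0 < y0)) neg) →
    ∃ cc : Fin 8, (decide (cc.val < 4) = !neg) ∧ mt cc x0 y0 (d, s) ∧
      mt cc y0 x0 (T1 (d, s) (decide (x0 < y0))) ∧
      mt cc x0 z0 (T0 (d, s) (xor (decide (y0 < z0)) neg)) ∧
      mt cc z0 x0 (T1 (T0 (d, s) (xor (decide (y0 < z0)) neg)) (decide (x0 < z0))) ∧
      mt cc y0 z0 (T0 (T1 (d, s) (decide (x0 < y0))) (xor (decide (x0 < z0)) neg)) ∧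
      mt cc z0 y0 (T0 (T1 (T0 (d, s) (xor (decide (y0 < z0)) neg)) (decide (x0 < z0)))
        (xor (decide (x0 < y0)) neg)) := by
  decide +kernel

section chart

variable {n : ℕ} {S : FlagSys n} {W : Wiring n}

/-- The other end of an edge, with the side. -/
theorem s0_sign (c : Chart S W) (hne : ∀ f : S.F, ∃ l, l ∉ S.vert f) {i a : Fin n} (hia : i ≠ a)
    (d : Bool) : ∃ b, i ≠ b ∧ W.X i b ≠ W.X i a ∧ ∀ s,
      S.s0 (c.Φ i a d s) = c.Φ i b (!d) (xor s (xor d (decide (W.X i a < W.X i b)))) := by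
  classical
  have hother : ∃ l, l ≠ i ∧ W.X i l ≠ W.X i a := by
    obtain ⟨l, hl⟩ := hne (c.Φ i a d true)
    obtain ⟨l, rfl⟩ := c.perm.surjective l
    rw [c.mem_vert i a d true l hia] at hl
    push Not at hl
    exact ⟨l, hl.1, hl.2⟩
  cases d
  · -- to the left
    by_cases hex : ∃ l, l ≠ i ∧ W.X i l < W.X i a
    · obtain ⟨b, hb, hbmax⟩ := Finset.exists_max_image
        (Finset.univ.filter fun l => l ≠ i ∧ W.X i l < W.X i a) (fun l => W.X i l)
        (by
          obtain ⟨l, hl⟩ := hex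
          exact ⟨l, by simpa using hl⟩)
      simp only [Finset.mem_filter, Finset.mem_univ, true_and] at hb hbmax
      refine ⟨b, hb.1.symm, hb.2.ne, fun s => ?_⟩
      have := c.s0_next i b a s hb.1.symm hia hb.2 (by
        intro l hl
        by_cases h1 : W.X i l < W.X i a
        · exact Or.inl (hbmax l ⟨hl, h1⟩)
        · exact Or.inr (not_lt.1 h1))
      rw [decide_eq_false (not_lt.2 hb.2.le), Bool.xor_false, Bool.xor_false]
      exact this.2
    · push Not at hex
      obtain ⟨b, hb, hbmax⟩ := Finset.exists_max_image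
        (Finset.univ.filter fun l => l ≠ i) (fun l => W.X i l) ⟨a, by simpa using hia.symm⟩
      simp only [Finset.mem_filter, Finset.mem_univ, true_and] at hb hbmax
      have hlt : W.X i a < W.X i b := by
        obtain ⟨l, hl1, hl2⟩ := hother
        have h1 := hex l hl1
        have h2 := hbmax l hl1
        have h3 : W.X i a < W.X i l := lt_of_le_of_ne h1 hl2.symm
        exact h3.trans_le h2
      refine ⟨b, hb.symm, hlt.ne', fun s => ?_⟩
      have := c.s0_wrap i b a (!s) hb.symm hia (fun l hl => ⟨hbmax l hl, hex l hl⟩)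
      rw [Bool.not_not] at this
      rw [decide_eq_true hlt, Bool.false_xor, Bool.xor_true]
      exact this.2
  · by_cases hex : ∃ l, l ≠ i ∧ W.X i a < W.X i l
    · obtain ⟨b, hb, hbmin⟩ := Finset.exists_min_image
        (Finset.univ.filter fun l => l ≠ i ∧ W.X i a < W.X i l) (fun l => W.X i l)
        (by
          obtain ⟨l, hl⟩ := hex
          exact ⟨l, by simpa using hl⟩)
      simp only [Finset.mem_filter, Finset.mem_univ, true_and] at hb hbmin
      refine ⟨b, hb.1.symm, hb.2.ne', fun s => ?_⟩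
      have := c.s0_next i a b s hia hb.1.symm hb.2 (by
        intro l hl
        by_cases h1 : W.X i a < W.X i l
        · exact Or.inr (hbmin l ⟨hl, h1⟩)
        · exact Or.inl (not_lt.1 h1))
      rw [decide_eq_true hb.2, Bool.xor_self, Bool.xor_false]
      exact this.1
    · push Not at hex
      obtain ⟨b, hb, hbmin⟩ := Finset.exists_min_image
        (Finset.univ.filter fun l => l ≠ i) (fun l => W.X i l) ⟨a, by simpa using hia.symm⟩
      simp only [Finset.mem_filter, Finset.mem_univ, true_and] at hb hbmin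
      have hlt : W.X i b < W.X i a := by
        obtain ⟨l, hl1, hl2⟩ := hother
        have h1 := hex l hl1
        have h2 := hbmin l hl1
        have h3 : W.X i l < W.X i a := lt_of_le_of_ne h1 hl2
        exact lt_of_le_of_lt h2 h3
      refine ⟨b, hb.symm, hlt.ne, fun s => ?_⟩
      have := c.s0_wrap i a b s hia hb.symm (fun l hl => ⟨hex l hl, hbmin l hl⟩)
      rw [decide_eq_false (not_lt.2 hlt.le), Bool.xor_false, Bool.xor_true]
      exact this.1

theorem s0_of (c : Chart S W) (hne : ∀ f : S.F, ∃ l, l ∉ S.vert f) {i a b : Fin n} (hia : i ≠ a)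
    (hib : i ≠ b) {d s d' s' : Bool} (h : S.s0 (c.Φ i a d s) = c.Φ i b d' s') :
    (d', s') = T0 (d, s) (decide (W.X i a < W.X i b)) ∧ W.X i b ≠ W.X i a := by
  obtain ⟨b', hib', hX, hs⟩ := s0_sign c hne hia d
  rw [hs s] at h
  obtain ⟨-, h2, h3, h4⟩ := (c.eq_iff _ _ _ _ _ _ _ _ hib' hib).1 h
  rw [h2] at h4 hX
  exact ⟨by rw [← h3, ← h4]; rfl, hX⟩

theorem s1_of (c : Chart S W) {i b : Fin n} (hib : i ≠ b) {d s d' s' : Bool}
    (h : S.s1 (c.Φ i b d s) = c.Φ b i d' s') : (d', s') = T1 (d, s) (decide (i < b)) := by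
  obtain ⟨V, hV, hi, hb⟩ := RF.exists_isV W hib
  have hc : 0 < V.card := by have := hV.two; omega
  rw [RF.Ps_eq c hV hi hb hib, RF.Ps_eq c hV hb hi hib.symm] at h
  have hord : ∀ t, (t % V.card + 1 < V.card ∧ RF.ex V hc t < RF.ex V hc (t + 1) ∧
      RF.par V.card (t + 1) = RF.par V.card t) ∨
      (RF.ex V hc (t + 1) < RF.ex V hc t ∧ RF.par V.card (t + 1) = !(RF.par V.card t)) := by
    intro t
    have hm := hV.two
    have hlt : t % V.card < V.card := Nat.mod_lt _ hc
    rcases Nat.lt_or_ge (t % V.card + 1) V.card with hcc | hcc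
    · obtain ⟨h1, h2⟩ := RF.par_step _ _ hcc
      left
      refine ⟨hcc, ?_, h2⟩
      unfold RF.ex
      rw [(V.orderEmbOfFin rfl).lt_iff_lt, Fin.mk_lt_mk, h1]
      omega
    · obtain ⟨h1, h2⟩ := RF.par_wrap _ t (by omega : t % V.card + 1 = V.card)
      right
      refine ⟨?_, h2⟩
      unfold RF.ex
      rw [(V.orderEmbOfFin rfl).lt_iff_lt, Fin.mk_lt_mk, h1]
      omega
  by_cases hsd : s = d
  · subst hsd
    obtain ⟨t, -, ht1, ht2⟩ := RF.exists_t hc hi s
    have h1 := (RF.s1_step c hV hc t).1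
    unfold RF.H RF.G at h1
    rw [ht1, ht2, h] at h1
    obtain ⟨h3, h4, h5⟩ := RF.Ps_inj c hV h1
    have h6 := hord t
    rw [ht1, ht2, ← h3, ← h4] at h6
    rw [← h4] at h5
    subst h5
    rcases h6 with ⟨-, h7, h8⟩ | ⟨h7, h8⟩
    · rw [h8, decide_eq_true h7]
      unfold T1
      simp
    · rw [h8, decide_eq_false (not_lt.2 h7.le)]
      unfold T1
      simp
  · have hsd' : s = !d := by cases s <;> cases d <;> simp_all
    subst hsd'
    obtain ⟨t0, -, ht1, ht2⟩ := RF.exists_t hc hi d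
    obtain ⟨t, ht⟩ : ∃ t, t0 + 2 * V.card = t + 1 := ⟨t0 + 2 * V.card - 1, by omega⟩
    have ht1' : RF.ex V hc (t + 1) = i := by
      rw [← ht, two_mul, ← Nat.add_assoc, RF.ex_add, RF.ex_add, ht1]
    have ht2' : RF.par V.card (t + 1) = d := by
      rw [← ht, RF.par_add hc, ht2]
    have h1 := (RF.s1_step c hV hc t).2
    unfold RF.H RF.G at h1
    rw [ht1', ht2', h] at h1
    obtain ⟨h3, h4, h5⟩ := RF.Ps_inj c hV h1
    have h6 := hord t
    rw [ht1', ht2', ← h3, ← h4] at h6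
    rw [← h4] at h5
    subst h5
    rcases h6 with ⟨-, h7, h8⟩ | ⟨h7, h8⟩
    · rw [← h8, decide_eq_false (not_lt.2 h7.le)]
      unfold T1
      simp
    · rw [decide_eq_true h7]
      have : s' = !d := by rw [h8, Bool.not_not]
      rw [this]
      unfold T1
      simp

/-- Three different labels in increasing order. -/
theorem sort3 {i a b : Fin n} (hia : i ≠ a) (hab : a ≠ b) (hib : i ≠ b) :
    ∃ p q r : Fin n, p < q ∧ q < r ∧ ∃ x y z : Fin 3, x ≠ y ∧ y ≠ z ∧ x ≠ z ∧
      (![p, q, r] : Fin 3 → Fin n) x = i ∧ (![p, q, r] : Fin 3 → Fin n) y = a ∧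
      (![p, q, r] : Fin 3 → Fin n) z = b := by
  rcases lt_or_gt_of_ne hia with h1 | h1 <;> rcases lt_or_gt_of_ne hab with h2 | h2 <;>
    rcases lt_or_gt_of_ne hib with h3 | h3
  · exact ⟨i, a, b, h1, h2, 0, 1, 2, by decide, by decide, by decide, rfl, rfl, rfl⟩
  · exact absurd (h1.trans h2) (not_lt.2 h3.le)
  · exact ⟨i, b, a, h3, h2, 0, 2, 1, by decide, by decide, by decide, rfl, rfl, rfl⟩
  · exact ⟨b, i, a, h3, h1, 1, 2, 0, by decide, by decide, by decide, rfl, rfl, rfl⟩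
  · exact ⟨a, i, b, h1, h3, 1, 0, 2, by decide, by decide, by decide, rfl, rfl, rfl⟩
  · exact ⟨a, b, i, h2, h3, 2, 0, 1, by decide, by decide, by decide, rfl, rfl, rfl⟩
  · exact absurd (h2.trans h1) (not_lt.2 h3.le)
  · exact ⟨b, a, i, h2, h1, 2, 1, 0, by decide, by decide, by decide, rfl, rfl, rfl⟩

theorem lt_iff_of {p q r : Fin n} (hpq : p < q) (hqr : q < r) (x y : Fin 3) :
    (![p, q, r] : Fin 3 → Fin n) x < (![p, q, r] : Fin 3 → Fin n) y ↔ x < y := by
  have hpr := hpq.trans hqr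
  fin_cases x <;> fin_cases y <;>
    simp [hpq, hqr, hpr, hpq.le, hqr.le, hpr.le]

/-- The orders of the crossings on three lines. -/
theorem order3 (W : Wiring n) {p q r : Fin n} (hpq : p < q) (hqr : q < r)
    (hne : W.X p q ≠ W.X p r) : ∃ neg : Bool,
      (if neg then W.X p r < W.X p q else W.X p q < W.X p r) ∧
      ∀ x y z : Fin 3, x ≠ y → y ≠ z → x ≠ z →
      decide (W.X ((![p, q, r] : Fin 3 → Fin n) x) ((![p, q, r] : Fin 3 → Fin n) y) <
        W.X ((![p, q, r] : Fin 3 → Fin n) x) ((![p, q, r] : Fin 3 → Fin n) z)) =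
      xor (decide (y < z)) neg := by
  have e1 := W.symm q p
  have e2 := W.symm r p
  have e3 := W.symm r q
  rcases W.btw p q r hpq hqr with ⟨h1, h2⟩ | ⟨h1, h2⟩ | ⟨h1, h2⟩
  · refine ⟨false, by simpa using h1, ?_⟩
    have h3 := h1.trans h2
    intro x y z hxy hyz hxz
    fin_cases x <;> fin_cases y <;> fin_cases z <;>
      first
      | exact absurd rfl hxy
      | exact absurd rfl hyz
      | exact absurd rfl hxz
      | (simp [e1, e2, e3, h1, h2, h3]; done)
      | (simp [e1, e2, e3]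
         first
         | linarith
         | exact decide_eq_false (not_lt.2 (by linarith)))
  · exact absurd h1 hne
  · refine ⟨true, by simpa using h2, ?_⟩
    have h3 := h1.trans h2
    intro x y z hxy hyz hxz
    fin_cases x <;> fin_cases y <;> fin_cases z <;>
      first
      | exact absurd rfl hxy
      | exact absurd rfl hyz
      | exact absurd rfl hxz
      | (simp [e1, e2, e3, h1, h2, h3]; done)
      | (simp [e1, e2, e3]
         first
         | linarith
         | exact decide_eq_false (not_lt.2 (by linarith)))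

end chart

variable (M : Model)

theorem bo_of {x : ℕ} {b : Bool} (h : x = if b then 0 else 1) : bo x = b := by
  subst h; cases b <;> rfl

theorem fi_val (l : Fin 14) : fi l.val = l := by
  apply Fin.ext
  simp only [fi, Fin.ofNat_eq_cast, Fin.val_natCast]
  omega

theorem ln_val (p q r : Fin 14) (x : Fin 3) :
    Model.ln p.val q.val r.val x.val = ((![p, q, r] : Fin 3 → Fin 14) x).val := by
  fin_cases x <;> rfl

theorem cflag_of {p q r : Fin 14} {cc : ℕ} {x y : Fin 3} {f : Bool × Bool} (h : mt cc x y f) :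
    M.cflag p.val q.val r.val cc x.val y.val =
      M.c.Φ ((![p, q, r] : Fin 3 → Fin 14) x) ((![p, q, r] : Fin 3 → Fin 14) y) f.1 f.2 := by
  unfold Model.cflag Model.flag
  rw [ln_val, ln_val, fi_val, fi_val, bo_of h.1, bo_of h.2]

theorem cand_of {p q r : Fin 14} {cc : ℕ} {x0 y0 z0 : Fin 3} (hxy : x0 ≠ y0) (hyz : y0 ≠ z0)
    (hxz : x0 ≠ z0)
    (hX : if cc < 4 then M.X p.val q.val < M.X p.val r.val else M.X p.val r.val < M.X p.val q.val)
    (e1 : M.S.s1 (M.cflag p.val q.val r.val cc x0 y0) = M.cflag p.val q.val r.val cc y0 x0)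
    (e2 : M.S.s0 (M.cflag p.val q.val r.val cc x0 y0) = M.cflag p.val q.val r.val cc x0 z0)
    (e3 : M.S.s1 (M.cflag p.val q.val r.val cc x0 z0) = M.cflag p.val q.val r.val cc z0 x0)
    (e4 : M.S.s0 (M.cflag p.val q.val r.val cc y0 x0) = M.cflag p.val q.val r.val cc y0 z0)
    (e5 : M.S.s0 (M.cflag p.val q.val r.val cc z0 x0) = M.cflag p.val q.val r.val cc z0 y0)
    (e6 : M.S.s1 (M.cflag p.val q.val r.val cc y0 z0) = M.cflag p.val q.val r.val cc z0 y0) :
    M.Cand p.val q.val r.val cc := by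
  refine ⟨hX, ?_⟩
  have r1 : M.S.s1 (M.cflag p.val q.val r.val cc y0 x0) = M.cflag p.val q.val r.val cc x0 y0 := by
    rw [← e1, M.facts.s1s1]
  have r2 : M.S.s0 (M.cflag p.val q.val r.val cc x0 z0) = M.cflag p.val q.val r.val cc x0 y0 := by
    rw [← e2, M.facts.s0s0]
  have r3 : M.S.s1 (M.cflag p.val q.val r.val cc z0 x0) = M.cflag p.val q.val r.val cc x0 z0 := by
    rw [← e3, M.facts.s1s1]
  have r4 : M.S.s0 (M.cflag p.val q.val r.val cc y0 z0) = M.cflag p.val q.val r.val cc y0 x0 := by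
    rw [← e4, M.facts.s0s0]
  have r5 : M.S.s0 (M.cflag p.val q.val r.val cc z0 y0) = M.cflag p.val q.val r.val cc z0 x0 := by
    rw [← e5, M.facts.s0s0]
  have r6 : M.S.s1 (M.cflag p.val q.val r.val cc z0 y0) = M.cflag p.val q.val r.val cc y0 z0 := by
    rw [← e6, M.facts.s1s1]
  intro x y z hx hy hz hxy' hxz' hyz'
  have hall : ∀ w, w < 3 → w = x0.val ∨ w = y0.val ∨ w = z0.val := by
    intro w hw
    have h1 : x0.val ≠ y0.val := fun h => hxy (Fin.ext h)
    have h2 : y0.val ≠ z0.val := fun h => hyz (Fin.ext h)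
    have h3 : x0.val ≠ z0.val := fun h => hxz (Fin.ext h)
    omega
  rcases hall x hx with rfl | rfl | rfl <;> rcases hall y hy with rfl | rfl | rfl <;>
    rcases hall z hz with rfl | rfl | rfl <;>
    first
    | exact absurd rfl hxy'
    | exact absurd rfl hxz'
    | exact absurd rfl hyz'
    | exact ⟨e1, e2⟩
    | exact ⟨e3, r2⟩
    | exact ⟨r1, e4⟩
    | exact ⟨r3, e5⟩
    | exact ⟨e6, r4⟩
    | exact ⟨r6, r5⟩

/-- The six flags of a triangle come from a candidate triangle. -/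
theorem main {i a b : Fin 14} (hia : i ≠ a) (hab : a ≠ b) (hib : i ≠ b) {d s : Bool}
    {g f2 h g2 h2 : Bool × Bool}
    (e1 : M.S.s1 (M.c.Φ i a d s) = M.c.Φ a i g.1 g.2)
    (e2 : M.S.s0 (M.c.Φ i a d s) = M.c.Φ i b f2.1 f2.2)
    (e3 : M.S.s1 (M.c.Φ i b f2.1 f2.2) = M.c.Φ b i h.1 h.2)
    (e4 : M.S.s0 (M.c.Φ a i g.1 g.2) = M.c.Φ a b g2.1 g2.2)
    (e5 : M.S.s0 (M.c.Φ b i h.1 h.2) = M.c.Φ b a h2.1 h2.2)
    (e6 : M.S.s1 (M.c.Φ a b g2.1 g2.2) = M.c.Φ b a h2.1 h2.2) :
    ∃ p q r : Fin 14, p < q ∧ q < r ∧ ∃ cc < 8, ∃ x y : Fin 3, x ≠ y ∧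
      (![p, q, r] : Fin 3 → Fin 14) x = i ∧ (![p, q, r] : Fin 3 → Fin 14) y = a ∧
      mt cc x y (d, s) ∧ M.Cand p.val q.val r.val cc := by
  obtain ⟨p, q, r, hpq, hqr, x, y, z, hxy, hyz, hxz, hx, hy, hz⟩ := sort3 hia hab hib
  have t1 : g = T1 (d, s) (decide (i < a)) := s1_of M.c hia e1
  obtain ⟨t2, hX⟩ := s0_of M.c M.hne hia hib e2
  have t3 : h = T1 f2 (decide (i < b)) := s1_of M.c hib e3
  obtain ⟨t4, -⟩ := s0_of M.c M.hne hia.symm hab e4
  obtain ⟨t5, -⟩ := s0_of M.c M.hne hib.symm hab.symm e5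
  have t6 : h2 = T1 g2 (decide (a < b)) := s1_of M.c hab e6
  have hne : M.W.X p q ≠ M.W.X p r := by
    intro he
    have h3 : M.W.X p q = M.W.X q r := RF.conc M.W hpq.ne hqr.ne (hpq.trans hqr).ne he
    have w1 := M.W.symm q p
    have w2 := M.W.symm r p
    have w3 := M.W.symm r q
    apply hX
    rw [← hx, ← hy, ← hz]
    clear hx hy hz
    fin_cases x <;> fin_cases y <;> fin_cases z <;>
      first
      | exact absurd rfl hxy
      | exact absurd rfl hyz
      | exact absurd rfl hxz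
      | (simp; linarith)
  obtain ⟨neg, hneg, hord⟩ := order3 M.W hpq hqr hne
  have o1 : decide (i < a) = decide (x < y) := by
    rw [← hx, ← hy]; exact decide_eq_decide.2 (lt_iff_of hpq hqr x y)
  have o2 : decide (i < b) = decide (x < z) := by
    rw [← hx, ← hz]; exact decide_eq_decide.2 (lt_iff_of hpq hqr x z)
  have o3 : decide (a < b) = decide (y < z) := by
    rw [← hy, ← hz]; exact decide_eq_decide.2 (lt_iff_of hpq hqr y z)
  have n1 := hord x y z hxy hyz hxz
  have n2 := hord y x z hxy.symm hxz hyz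
  have n3 := hord z x y hxz.symm hxy hyz.symm
  rw [hx, hy, hz] at n1 n2 n3
  rw [n1] at t2
  rw [n2] at t4
  rw [n3] at t5
  rw [o1] at t1
  rw [o2] at t3
  rw [o3] at t6
  have t2' : f2 = T0 (d, s) (xor (decide (y < z)) neg) := t2
  have t4' : g2 = T0 g (xor (decide (x < z)) neg) := t4
  have t5' : h2 = T0 h (xor (decide (x < y)) neg) := t5
  obtain ⟨cc, hcc, m1, m2, m3, m4, m5, m6⟩ := tab x y z hxy hyz hxz neg d s (by
    rw [← t1, ← t2', ← t4', ← t3, ← t5', ← t6])
  rw [← t1] at m2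
  rw [← t2'] at m3
  rw [← t2', ← t3] at m4
  rw [← t1, ← t4'] at m5
  rw [← t2', ← t3, ← t5'] at m6
  refine ⟨p, q, r, hpq, hqr, cc.val, cc.isLt, x, y, hxy, hx, hy, m1, ?_⟩
  have c1 := cflag_of M (p := p) (q := q) (r := r) m1
  have c2 := cflag_of M (p := p) (q := q) (r := r) m2
  have c3 := cflag_of M (p := p) (q := q) (r := r) m3
  have c4 := cflag_of M (p := p) (q := q) (r := r) m4
  have c5 := cflag_of M (p := p) (q := q) (r := r) m5
  have c6 := cflag_of M (p := p) (q := q) (r := r) m6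
  rw [hx, hy] at c1
  rw [hy, hx] at c2
  rw [hx, hz] at c3
  rw [hz, hx] at c4
  rw [hy, hz] at c5
  rw [hz, hy] at c6
  refine cand_of M hxy hyz hxz ?_ (by rw [c1, c2]; exact e1) (by rw [c1, c3]; exact e2)
    (by rw [c3, c4]; exact e3) (by rw [c2, c5]; exact e4) (by rw [c4, c6]; exact e5)
    (by rw [c5, c6]; exact e6)
  unfold Model.X
  rw [fi_val, fi_val, fi_val]
  cases neg
  · have : cc.val < 4 := by simpa using hcc
    rw [if_pos this]
    simpa using hneg
  · have : ¬ cc.val < 4 := by simpa using hcc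
    rw [if_neg this]
    simpa using hneg

variable {M} in
/-- Geometric part: the third line. -/
theorem exists_third {i a : Fin 14} (hia : i ≠ a) {d s : Bool} (ht : M.S.tri (M.c.Φ i a d s))
    {g : Bool × Bool} (e1 : M.S.s1 (M.c.Φ i a d s) = M.c.Φ a i g.1 g.2) :
    ∃ b, a ≠ b ∧ i ≠ b ∧ ∃ f2 h g2 h2 : Bool × Bool,
      M.S.s0 (M.c.Φ i a d s) = M.c.Φ i b f2.1 f2.2 ∧
      M.S.s1 (M.c.Φ i b f2.1 f2.2) = M.c.Φ b i h.1 h.2 ∧
      M.S.s0 (M.c.Φ a i g.1 g.2) = M.c.Φ a b g2.1 g2.2 ∧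
      M.S.s0 (M.c.Φ b i h.1 h.2) = M.c.Φ b a h2.1 h2.2 ∧
      M.S.s1 (M.c.Φ a b g2.1 g2.2) = M.c.Φ b a h2.1 h2.2 := by
  have hF := M.facts
  -- relabel a flag by a line through its vertex
  have relab : ∀ {j y : Fin 14} {x x' : Bool} {l : Fin 14}, j ≠ y → j ≠ l →
      M.c.perm l ∈ M.S.vert (M.c.Φ j y x x') → M.c.Φ j y x x' = M.c.Φ j l x x' := by
    intro j y x x' l hjy hjl hl
    rcases (M.c.mem_vert j y x x' l hjy).1 hl with h | h
    · exact absurd h.symm hjl
    · exact (M.c.eq_iff _ _ _ _ _ _ _ _ hjy hjl).2 ⟨rfl, h.symm, rfl, rfl⟩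
  have s0' : ∀ {j y : Fin 14} {x x' : Bool}, j ≠ y → ∃ b0, j ≠ b0 ∧ ∃ d2 s2,
      M.S.s0 (M.c.Φ j y x x') = M.c.Φ j b0 d2 s2 := by
    intro j y x x' hjy
    obtain ⟨b, h1, -, h2⟩ := s0_sign M.c M.hne hjy x
    exact ⟨b, h1, _, _, h2 x'⟩
  obtain ⟨b0, hib0, d2, s2, hs0⟩ := s0' (x := d) (x' := s) hia
  obtain ⟨b, y, d3, s3, hby, hh⟩ := M.c.surj (M.S.s1 (M.S.s0 (M.c.Φ i a d s)))
  -- the vertex of `s0 f`
  have hv : M.S.vert (M.c.Φ b y d3 s3) = M.S.vert (M.S.s0 (M.c.Φ i a d s)) := by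
    rw [hh, hF.vert_s1]
  have hline0 : M.S.line (M.S.s0 (M.c.Φ i a d s)) = M.c.perm i := by
    rw [hF.line_s0, M.c.line_Φ _ _ _ _ hia]
  have hlineb : M.S.line (M.S.s1 (M.S.s0 (M.c.Φ i a d s))) = M.c.perm b := by
    rw [← hh, M.c.line_Φ _ _ _ _ hby]
  have hbi : b ≠ i := by
    intro he
    have := D1_line_s1_ne hF (M.S.s0 (M.c.Φ i a d s))
    rw [hlineb, hline0, he] at this
    exact this rfl
  have hmi : M.c.perm i ∈ M.S.vert (M.c.Φ b y d3 s3) := by
    rw [hv, ← hline0]; exact hF.line_mem _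
  have hmb : M.c.perm b ∈ M.S.vert (M.S.s0 (M.c.Φ i a d s)) := by
    rw [← hv, ← M.c.line_Φ b y d3 s3 hby]; exact hF.line_mem _
  rw [hs0] at hmb
  have r1 := relab hby hbi hmi
  have r2 := relab hib0 hbi.symm hmb
  rw [r2] at hs0
  rw [r1, hs0] at hh
  -- the other side
  have hbr := D1_braid hF ht
  obtain ⟨c0, hac0, d4, s4, ht0⟩ := s0' (x := g.1) (x' := g.2) hia.symm
  have hh2 : M.S.s1 (M.S.s0 (M.c.Φ a i g.1 g.2)) = M.S.s0 (M.c.Φ b i d3 s3) := by
    rw [← e1, ← hbr, hs0, hh]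
  have hlb : M.S.line (M.S.s0 (M.c.Φ b i d3 s3)) = M.c.perm b := by
    rw [hF.line_s0, M.c.line_Φ _ _ _ _ hbi]
  have hla : M.S.line (M.S.s0 (M.c.Φ a i g.1 g.2)) = M.c.perm a := by
    rw [hF.line_s0, M.c.line_Φ _ _ _ _ hia.symm]
  have hba : b ≠ a := by
    intro he
    have := D1_line_s1_ne hF (M.S.s0 (M.c.Φ a i g.1 g.2))
    rw [hh2, hlb, hla, he] at this
    exact this rfl
  have hv2 : M.S.vert (M.S.s0 (M.c.Φ a i g.1 g.2)) = M.S.vert (M.S.s0 (M.c.Φ b i d3 s3)) := by
    rw [← hh2, hF.vert_s1]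
  have hm2 : M.c.perm b ∈ M.S.vert (M.S.s0 (M.c.Φ a i g.1 g.2)) := by
    rw [hv2, ← hlb]; exact hF.line_mem _
  have hm3 : M.c.perm a ∈ M.S.vert (M.S.s0 (M.c.Φ b i d3 s3)) := by
    rw [← hv2, ← hla]; exact hF.line_mem _
  rw [ht0] at hm2
  have r3 := relab hac0 hba.symm hm2
  rw [r3] at ht0
  obtain ⟨z0, hbz0, d5, s5, hu0⟩ := s0' (x := d3) (x' := s3) hbi
  rw [hu0] at hm3
  have r4 := relab hbz0 hba hm3
  rw [r4] at hu0
  rw [ht0, hu0] at hh2
  exact ⟨b, hba.symm, hbi.symm, (d2, s2), (d3, s3), (d4, s4), (d5, s5), hs0, hh.symm, ht0, hu0, hh2⟩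

/-! ### The clauses -/

variable (ht : DT)

theorem s1_flag {i a d s : ℕ} (hi : i < 14) (ha : a < 14) (hia : i ≠ a) (hd : d < 2) (hs : s < 2)
    (hno : ¬ ClauseT (M.Sem ht) (zlist i a (Nat.xor (Nat.xor d s) (ltN i a)) 14)) :
    ∃ g : Bool × Bool, M.S.s1 (M.flag i a d s) = M.c.Φ (fi a) (fi i) g.1 g.2 := by
  have hz1 : ∀ l : Fin 14, min i a < l.val → l.val < max i a → (d = s ↔ i < a) →
      M.W.X (fi i) l ≠ M.W.X (fi i) (fi a) := by
    intro l h1 h2 h3 he
    apply hno
    have hw : Nat.xor (Nat.xor d s) (ltN i a) = 1 := by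
      rw [ltN_eq]
      rcases lt_or_gt_of_ne hia with h | h
      · have := h3.2 h
        subst this
        rw [if_pos h]
        interval_cases d <;> rfl
      · have : d ≠ s := fun hh => absurd (h3.1 hh) (not_lt.2 h.le)
        rw [if_neg (not_lt.2 h.le)]
        interval_cases d <;> interval_cases s <;> first | rfl | exact absurd rfl this
    rw [hw]
    refine zlist_one M ht hi ha h1 h2 ?_
    unfold Model.X
    rw [fi_val]
    exact he.symm
  have hz0 : ∀ l : Fin 14, (l.val < min i a ∨ max i a < l.val) → ¬ (d = s ↔ i < a) →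
      M.W.X (fi i) l ≠ M.W.X (fi i) (fi a) := by
    intro l h1 h3 he
    apply hno
    have hw : Nat.xor (Nat.xor d s) (ltN i a) = 0 := by
      rw [ltN_eq]
      rcases lt_or_gt_of_ne hia with h | h
      · have : d ≠ s := fun hh => h3 ⟨fun _ => h, fun _ => hh⟩
        rw [if_pos h]
        interval_cases d <;> interval_cases s <;> first | rfl | exact absurd rfl this
      · have : d = s := by
          by_contra hh
          exact h3 ⟨fun h4 => absurd h4 hh, fun h4 => absurd h4 (not_lt.2 h.le)⟩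
        subst this
        rw [if_neg (not_lt.2 h.le)]
        interval_cases d <;> rfl
    rw [hw]
    refine zlist_zero M ht hi ha l.isLt hia h1 ?_
    unfold Model.X
    rw [fi_val]
    exact he.symm
  have vi : (fi i).val = i := fi_val' hi
  have va : (fi a).val = a := fi_val' ha
  have hsw : ∀ l, l ≠ fi i → l ≠ fi a → M.W.X (fi a) l = M.W.X (fi a) (fi i) →
      M.W.X (fi i) l = M.W.X (fi i) (fi a) := by
    intro l h1 h2 h3
    have hne := Model.fi_ne hi ha hia
    have h4 : M.W.X (fi a) l = M.W.X l (fi i) := RF.conc M.W h2.symm h1 hne.symm h3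
    rw [M.W.symm (fi i) l, ← h4, h3, M.W.symm]
  rcases lt_or_gt_of_ne hia with h | h
  · have hlt : fi i < fi a := Model.fi_lt ha h
    interval_cases d <;> interval_cases s
    · refine ⟨(true, false), (M.c.s1_right (fi i) (fi a) hlt fun l h1 h2 => ?_).1⟩
      exact hz1 l (by rw [min_eq_left h.le, ← vi]; exact h1) (by rw [max_eq_right h.le, ← va]; exact h2)
        ⟨fun _ => h, fun _ => rfl⟩
    · refine ⟨(false, false), (M.c.s1_bot (fi i) (fi a) hlt fun l h1 => ?_).1⟩
      exact hz0 l (by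
        rw [min_eq_left h.le, max_eq_right h.le]
        rcases h1 with h1 | h1
        · left
          have : l.val < (fi i).val := h1
          omega
        · right
          have : (fi a).val < l.val := h1
          omega) (fun h3 => by have := h3.2 h; omega)
    · refine ⟨(true, true), (M.c.s1_top (fi i) (fi a) hlt fun l h1 => ?_).2⟩
      exact hz0 l (by
        rw [min_eq_left h.le, max_eq_right h.le]
        rcases h1 with h1 | h1
        · left
          have : l.val < (fi i).val := h1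
          omega
        · right
          have : (fi a).val < l.val := h1
          omega) (fun h3 => by have := h3.2 h; omega)
    · refine ⟨(false, true), (M.c.s1_left (fi i) (fi a) hlt fun l h1 h2 => ?_).1⟩
      exact hz1 l (by rw [min_eq_left h.le, ← vi]; exact h1) (by rw [max_eq_right h.le, ← va]; exact h2)
        ⟨fun _ => h, fun _ => rfl⟩
  · have hlt : fi a < fi i := Model.fi_lt hi h
    have hin : ∀ l, fi a < l → l < fi i → (d = s ↔ i < a) →
        M.W.X (fi a) l ≠ M.W.X (fi a) (fi i) := by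
      intro l h1 h2 h3 he
      have h1' : (fi a).val < l.val := h1
      have h2' : l.val < (fi i).val := h2
      exact hz1 l (by rw [min_eq_right h.le]; omega) (by rw [max_eq_left h.le]; omega) h3
        (hsw l h2.ne h1.ne' he)
    have hout : ∀ l, l < fi a ∨ fi i < l → ¬ (d = s ↔ i < a) →
        M.W.X (fi a) l ≠ M.W.X (fi a) (fi i) := by
      intro l h1 h3 he
      have h1' : l.val < (fi a).val ∨ (fi i).val < l.val := h1
      refine hz0 l (by rw [min_eq_right h.le, max_eq_left h.le]; omega) h3 (hsw l ?_ ?_ he)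
      · rintro rfl; omega
      · rintro rfl; omega
    interval_cases d <;> interval_cases s
    · exact ⟨(false, true), (M.c.s1_top (fi a) (fi i) hlt fun l h1 =>
        hout l h1 (fun h3 => absurd (h3.1 rfl) (not_lt.2 h.le))).1⟩
    · exact ⟨(true, true), (M.c.s1_right (fi a) (fi i) hlt fun l h1 h2 =>
        hin l h1 h2 ⟨fun h3 => absurd h3 (by norm_num), fun h3 => absurd h3 (not_lt.2 h.le)⟩).2⟩
    · exact ⟨(false, false), (M.c.s1_left (fi a) (fi i) hlt fun l h1 h2 =>
        hin l h1 h2 ⟨fun h3 => absurd h3 (by norm_num), fun h3 => absurd h3 (not_lt.2 h.le)⟩).2⟩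
    · exact ⟨(true, false), (M.c.s1_bot (fi a) (fi i) hlt fun l h1 =>
        hout l h1 (fun h3 => absurd (h3.1 rfl) (not_lt.2 h.le))).2⟩

end Pool.Agent.Helper58.PLK.K4

namespace Pool.Agent.Helper58.PLK

open Pool.Agent.Helper15.PL K4

variable (M : Model) (ht : DT)

theorem ok_fU2b (i a d s : Nat) (hi : i < 16) (ha : a < 16) : ClauseT (M.Sem ht) (fU2b i a d s) := by
  refine clauseT_okc (M.sem_zero ht) fun h0 => ?_
  obtain ⟨h1, h2⟩ := Nat.add_eq_zero_iff.1 h0
  obtain ⟨hia, hi4, ha4⟩ := Model.badp_eq_zero.1 h1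
  obtain ⟨h3, h4⟩ := Nat.add_eq_zero_iff.1 h2
  have hd : d < 2 := by
    have : d - 1 = 0 := h3
    omega
  have hs : s < 2 := by
    have : s - 1 = 0 := h4
    omega
  rw [clauseT_cons, clauseT_cons, litS_neg, litS_pos]
  by_cases hz : ClauseT (M.Sem ht) (zlist i a (Nat.xor (Nat.xor d s) (ltN i a)) 14)
  · exact Or.inr (Or.inr hz)
  have e5 : M.Sem ht (flN 5 i a d s) ↔ M.SemK 5 i a (d + 2 * s) 0 :=
    M.sem_enc ht (by norm_num) hi ha (show d + 2 * s < 16 by omega)
  have e6 : M.Sem ht (flN 6 i a d s) ↔ M.SemK 6 i a (d + 2 * s) 0 :=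
    M.sem_enc ht (by norm_num) hi ha (show d + 2 * s < 16 by omega)
  by_cases h5 : M.Sem ht (flN 5 i a d s)
  · right; left
    show M.Sem ht (flN 6 i a d s)
    rw [e6]
    rw [e5] at h5
    have hf : M.flagE i a (d + 2 * s) = M.flag i a d s := by
      unfold Model.flagE
      rw [show (d + 2 * s) % 2 = d by omega, show (d + 2 * s) / 2 % 2 = s by omega]
    have htri : M.S.tri (M.flag i a d s) := by
      rw [← hf]; exact h5.2.2.2.2
    obtain ⟨g, hg⟩ := s1_flag M ht hi4 ha4 hia hd hs hz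
    have hne := Model.fi_ne hi4 ha4 hia
    obtain ⟨b, hab, hib, f2, h, g2, h2, e1, e2, e3, e4, e5⟩ := exists_third hne htri hg
    obtain ⟨p, q, r, hpq, hqr, cc, hcc, x, y, hxy, hx, hy, hm, hcand⟩ :=
      main M hne hab hib hg e1 e2 e3 e4 e5
    refine ⟨hia, hi4, ha4, by omega, p.val, q.val, r.val, cc, x.val, y.val, hpq, hqr, r.isLt, hcc,
      x.isLt, y.isLt, fun hh => hxy (Fin.ext hh), ?_, ?_, ?_, ?_, hcand⟩
    · rw [ln_val, hx]
      exact Pool.Agent.Helper58.PLK.fi_val' hi4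
    · rw [ln_val, hy]
      exact Pool.Agent.Helper58.PLK.fi_val' ha4
    · rw [hm.1, show (d + 2 * s) % 2 = d by omega]
      interval_cases d <;> rfl
    · rw [hm.2, show (d + 2 * s) / 2 = s by omega]
      interval_cases s <;> rfl
  · exact Or.inl h5

end Pool.Agent.Helper58.PLK
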