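import Pool.Agent.Helper58.PLK.Model
import Pool.Agent.Helper15.PL.D1

/-!
# Block K5: the two flags of a corner, change of the label of a vertex
-/

namespace Pool.Agent.Helper58.PLK

open Pool.Agent.Helper15.PL

namespace Model

variable (M : Model)

/-- The flag does not depend on the label of the vertex. -/
theorem flag_label {i a b : Nat} (hi : i < 14) (ha : a < 14) (hb : b < 14) (hia : i ≠ a)
    (hib : i ≠ b) (h : M.X i a = M.X i b) : M.flag i a = M.flag i b := by
  funext d s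
  unfold flag
  rw [M.c.eq_iff _ _ _ _ _ _ _ _ (fi_ne hi ha hia) (fi_ne hi hb hib)]
  exact ⟨rfl, h, rfl, rfl⟩

theorem flagE_label {i a b : Nat} (hi : i < 14) (ha : a < 14) (hb : b < 14) (hia : i ≠ a)
    (hib : i ≠ b) (h : M.X i a = M.X i b) : M.flagE i a = M.flagE i b := by
  funext e
  unfold flagE
  rw [M.flag_label hi ha hb hia hib h]

end Model

variable (M : Model) (ht : DT)

theorem fTR_kinds {k : Nat}
    (h : Nat.sub (nat_lit 1) (Nat.land (Nat.shiftRight (nat_lit 0x1c7820) k) (nat_lit 1)) = 0) :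
    k = 5 ∨ k = 11 ∨ k = 12 ∨ k = 13 ∨ k = 14 ∨ k = 18 ∨ k = 19 ∨ k = 20 := by
  rcases Nat.lt_or_ge k 21 with hk | hk
  · interval_cases k <;> first | omega | (exfalso; revert h; decide)
  · exfalso
    have h1 : Nat.shiftRight (nat_lit 0x1c7820) k = 0 := by
      show (0x1c7820 : Nat) >>> k = 0
      rw [Nat.shiftRight_eq_div_pow]
      apply Nat.div_eq_of_lt
      calc (0x1c7820 : Nat) < 2 ^ 21 := by norm_num
        _ ≤ 2 ^ k := Nat.pow_le_pow_right (by norm_num) hk
    rw [h1] at h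
    revert h
    decide

theorem ok_fTR (i a b e k : Nat) (hi : i < 16) (ha : a < 16) (hb : b < 16) (he : e < 16) :
    ClauseT (M.Sem ht) (fTR i a b e k) := by
  refine clauseT_okc (M.sem_zero ht) fun h0 => ?_
  have hk := fTR_kinds (k := k) (Nat.add_eq_zero_iff.1 h0).1
  rw [clauseT_cons, clauseT_cons, clauseT_cons, litS_neg, litS_neg, litS_pos,
    M.sem_zz ht hi ha hb, M.sem_enc ht (by omega) hi ha he, M.sem_enc ht (by omega) hi hb he]
  by_cases hz : i ≠ a ∧ i ≠ b ∧ a ≠ b ∧ i < 14 ∧ a < 14 ∧ b < 14 ∧ M.X i a = M.X i b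
  · right
    obtain ⟨hia, hib, hab, hi4, ha4, hb4, hX⟩ := hz
    have h1 := M.flag_label hi4 ha4 hb4 hia hib hX
    have h2 := M.flagE_label hi4 ha4 hb4 hia hib hX
    by_cases hs : M.SemK k i a e 0
    · right
      left
      rcases hk with rfl | rfl | rfl | rfl | rfl | rfl | rfl | rfl
      · obtain ⟨-, -, -, h6, h7⟩ := hs
        exact ⟨hib, hi4, hb4, h6, h2 ▸ h7⟩
      · obtain ⟨-, -, -, h6, h7⟩ := hs
        exact ⟨hib, hi4, hb4, h6, h1 ▸ h7⟩
      · obtain ⟨-, -, -, h6, h7⟩ := hs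
        exact ⟨hib, hi4, hb4, h6, h2 ▸ h7⟩
      · obtain ⟨-, -, -, h6, h7⟩ := hs
        exact ⟨hib, hi4, hb4, h6, h2 ▸ h7⟩
      · obtain ⟨-, -, -, h6, h7⟩ := hs
        exact ⟨hib, hi4, hb4, h6, h2 ▸ h7⟩
      · obtain ⟨-, -, -, h6, h7⟩ := hs
        exact ⟨hib, hi4, hb4, h6, h1 ▸ h7⟩
      · obtain ⟨-, -, -, h6, h7⟩ := hs
        exact ⟨hib, hi4, hb4, h6, h1 ▸ h7⟩
      · obtain ⟨-, -, -, h6, h7⟩ := hs
        exact ⟨hib, hi4, hb4, h6, h1 ▸ h7⟩
    · exact Or.inl hs
  · exact Or.inl hz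

/-! ### The list `zlist` -/

theorem zlist_succ (i a w m : Nat) : zlist i a w (m + 1) =
    if (eqN (13 - m) i + eqN (13 - m) a +
      Nat.xor w (ltN (mnN i a) (13 - m) * ltN (13 - m) (mxN i a))) = 0
    then pos (zz i a (13 - m)) :: zlist i a w m else zlist i a w m := by
  have h : zlist i a w (m + 1) = Nat.rec (motive := fun _ => List Nat)
        (pos (zz i a (Nat.sub (nat_lit 13) m)) :: zlist i a w m)
        (fun _ _ => zlist i a w m)
        (Nat.add (Nat.add (eqN (Nat.sub (nat_lit 13) m) i) (eqN (Nat.sub (nat_lit 13) m) a))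
          (Nat.xor w (Nat.mul (ltN (mnN i a) (Nat.sub (nat_lit 13) m))
            (ltN (Nat.sub (nat_lit 13) m) (mxN i a))))) := rfl
  rw [h]
  simp only [Nat.add_eq, Nat.sub_eq, Nat.mul_eq]
  generalize (eqN (13 - m) i + eqN (13 - m) a +
      Nat.xor w (ltN (mnN i a) (13 - m) * ltN (13 - m) (mxN i a))) = z
  rcases z with _ | z
  · rw [if_pos rfl]
    rfl
  · rw [if_neg (by omega)]

/-- The clause `zlist` is true if there is a line `l` with the given property. -/
theorem zlist_aux {i a w l : Nat} (hi : i < 14) (ha : a < 14) (hl : l < 14)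
    (hli : l ≠ i) (hla : l ≠ a) (hia : i ≠ a)
    (hw : Nat.xor w (ltN (mnN i a) l * ltN l (mxN i a)) = 0) (hX : M.X i a = M.X i l) :
    ∀ m, 13 - l < m → m ≤ 14 → ClauseT (M.Sem ht) (zlist i a w m) := by
  intro m
  induction m with
  | zero => intro h1; omega
  | succ m ih =>
    intro h1 h2
    rw [zlist_succ]
    by_cases hm : m = 13 - l
    · have h3 : 13 - m = l := by omega
      rw [h3, hw, eqN_eq, eqN_eq, if_neg hli, if_neg hla, if_pos rfl, clauseT_cons, litS_pos,
        M.sem_zz ht (by omega) (by omega) (by omega)]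
      exact Or.inl ⟨hia, hli.symm, hla.symm, hi, ha, hl, hX⟩
    · have h3 := ih (by omega) (by omega)
      split_ifs
      · rw [clauseT_cons]
        exact Or.inr h3
      · exact h3

/-- `w = 1`: the lines between `i` and `a`. -/
theorem zlist_one {i a l : Nat} (hi : i < 14) (ha : a < 14) (hl1 : min i a < l) (hl2 : l < max i a)
    (hX : M.X i a = M.X i l) : ClauseT (M.Sem ht) (zlist i a 1 14) := by
  refine zlist_aux M ht hi ha (by omega) (by omega) (by omega) (by omega) ?_ hX 14 (by omega) le_rfl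
  rw [mnN_eq, mxN_eq, ltN_eq, ltN_eq, if_pos hl1, if_pos hl2]
  rfl

/-- `w = 0`: the lines outside. -/
theorem zlist_zero {i a l : Nat} (hi : i < 14) (ha : a < 14) (hl : l < 14) (hia : i ≠ a)
    (hl1 : l < min i a ∨ max i a < l)
    (hX : M.X i a = M.X i l) : ClauseT (M.Sem ht) (zlist i a 0 14) := by
  refine zlist_aux M ht hi ha hl (by omega) (by omega) hia ?_ hX 14 (by omega) le_rfl
  rw [mnN_eq, mxN_eq, ltN_eq, ltN_eq]
  rcases hl1 with h | h
  · rw [if_neg (by omega), Nat.zero_mul]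
    rfl
  · rw [if_neg (c := l < max i a) (by omega), Nat.mul_zero]
    rfl

/-! ### The two flags of a corner -/

theorem fi_val (l : Fin 14) : fi l.val = l := by
  apply Fin.ext
  simp only [fi, Fin.ofNat_eq_cast, Fin.val_natCast]
  omega

theorem fi_val' {i : Nat} (h : i < 14) : (fi i).val = i := by
  simp only [fi, Fin.ofNat_eq_cast, Fin.val_natCast]
  omega

/-- Number of the flag of a corner on the line with the smaller index. -/
def e9 (q : Nat) : Nat := Nat.land (Nat.shiftRight (nat_lit 0x9c) (Nat.mul (nat_lit 2) q)) (nat_lit 3)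
/-- Number of the flag of a corner on the line with the larger index. -/
def e6 (q : Nat) : Nat := Nat.land (Nat.shiftRight (nat_lit 0xc6) (Nat.mul (nat_lit 2) q)) (nat_lit 3)

theorem e9_lt (q : Nat) : e9 q < 4 := Nat.lt_succ_of_le Nat.and_le_right
theorem e6_lt (q : Nat) : e6 q < 4 := Nat.lt_succ_of_le Nat.and_le_right

/-- The two flags of a corner. -/
theorem corner_s1 {i a q : Nat} (hia : i < a) (ha : a < 14) (hq : q < 4)
    (hno : ¬ ClauseT (M.Sem ht) (zlist i a (Nat.sub (nat_lit 1) (Nat.shiftRight q (nat_lit 1)))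
      (nat_lit 14))) :
    M.S.s1 (M.flagE i a (e9 q)) = M.flagE a i (e6 q) := by
  have hlt : fi i < fi a := Model.fi_lt ha hia
  have vi : (fi i).val = i := fi_val' (by omega)
  have va : (fi a).val = a := fi_val' ha
  -- the sector is free
  have hin : Nat.sub (nat_lit 1) (Nat.shiftRight q (nat_lit 1)) = 1 →
      ∀ l : Fin 14, fi i < l → l < fi a → M.W.X (fi i) l ≠ M.W.X (fi i) (fi a) := by
    intro hq1 l h1 h2 h3
    rw [hq1] at hno
    rw [Fin.lt_def] at h1 h2
    apply hno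
    apply zlist_one M ht (i := i) (a := a) (l := l.val) (by omega) ha (by omega) (by omega)
    unfold Model.X
    rw [fi_val, h3]
  have hout : Nat.sub (nat_lit 1) (Nat.shiftRight q (nat_lit 1)) = 0 →
      ∀ l : Fin 14, (l < fi i ∨ fi a < l) → M.W.X (fi i) l ≠ M.W.X (fi i) (fi a) := by
    intro hq1 l h1 h3
    rw [hq1] at hno
    rw [Fin.lt_def, Fin.lt_def] at h1
    apply hno
    apply zlist_zero M ht (i := i) (a := a) (l := l.val) (by omega) ha l.isLt (by omega) (by omega)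
    unfold Model.X
    rw [fi_val, h3]
  interval_cases q
  · exact (M.c.s1_right _ _ hlt (hin rfl)).1
  · exact (M.c.s1_left _ _ hlt (hin rfl)).1
  · exact (M.c.s1_top _ _ hlt (hout rfl)).2
  · exact (M.c.s1_bot _ _ hlt (hout rfl)).1

theorem ok_fU5 (i a q w : Nat) (hi : i < 16) (ha : a < 16) : ClauseT (M.Sem ht) (fU5 i a q w) := by
  refine clauseT_okc (M.sem_zero ht) fun h0 => ?_
  obtain ⟨h1, h2⟩ := Nat.add_eq_zero_iff.1 h0
  obtain ⟨hia, ha4⟩ := Model.bad2_eq_zero.1 h1
  have hq : q < 4 := by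
    have : q - 3 = 0 := h2
    omega
  have hmain : ¬ ClauseT (M.Sem ht) (zlist i a (Nat.sub (nat_lit 1) (Nat.shiftRight q (nat_lit 1)))
      (nat_lit 14)) → (M.SemK 5 i a (e9 q) 0 ↔ M.SemK 5 a i (e6 q) 0) := by
    intro hno
    have h3 := corner_s1 M ht hia ha4 hq hno
    have h4 := FlagSys.D1_tri_s1 M.facts (M.flagE i a (e9 q))
    rw [h3] at h4
    constructor
    · rintro ⟨h5, h6, h7, h8, h9⟩
      exact ⟨h5.symm, h7, h6, e6_lt q, h4.2 h9⟩
    · rintro ⟨h5, h6, h7, h8, h9⟩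
      exact ⟨h5.symm, h7, h6, e9_lt q, h4.1 h9⟩
  have e1 := e9_lt q
  have e2 := e6_lt q
  rw [sel_eq]
  split_ifs
  · show ClauseT (M.Sem ht) (neg (enc 5 i a (e9 q) 0) :: pos (enc 5 a i (e6 q) 0) ::
        zlist i a (Nat.sub (nat_lit 1) (Nat.shiftRight q (nat_lit 1))) (nat_lit 14))
    rw [clauseT_cons, clauseT_cons, litS_neg, litS_pos, M.sem_enc ht (by omega) hi ha (by omega),
      M.sem_enc ht (by omega) ha hi (by omega)]
    tauto
  · show ClauseT (M.Sem ht) (neg (enc 5 a i (e6 q) 0) :: pos (enc 5 i a (e9 q) 0) ::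
        zlist i a (Nat.sub (nat_lit 1) (Nat.shiftRight q (nat_lit 1))) (nat_lit 14))
    rw [clauseT_cons, clauseT_cons, litS_neg, litS_pos, M.sem_enc ht (by omega) hi ha (by omega),
      M.sem_enc ht (by omega) ha hi (by omega)]
    tauto

end Pool.Agent.Helper58.PLK
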