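import Pool.Agent.Helper58.PLK.Model
import Pool.Agent.Helper15.PL.D1

/-!
# Block K6: vertices on two lines and their four corners
-/

namespace Pool.Agent.Helper58.PLK

open Pool.Agent.Helper15.PL

namespace K6

variable (M : Model) (ht : DT)

theorem fi_surj (l : Fin 14) : ∃ k : Nat, k < 14 ∧ fi k = l := by
  refine ⟨l.1, l.2, ?_⟩
  apply Fin.ext
  simp only [fi, Fin.ofNat_eq_cast, Fin.val_natCast]
  have := l.2
  omega

/-- The lines through the vertex of a flag. -/
theorem mem_vert {i a l : Nat} (d s : Nat) (hi : i < 14) (ha : a < 14) (hia : i ≠ a) :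
    M.c.perm (fi l) ∈ M.S.vert (M.flag i a d s) ↔ fi l = fi i ∨ M.X i l = M.X i a :=
  M.c.mem_vert _ _ _ _ _ (Model.fi_ne hi ha hia)

theorem vert_flag {i a : Nat} (hi : i < 14) (ha : a < 14) (hia : i ≠ a) (d s d' s' : Nat) :
    M.S.vert (M.flag i a d s) = M.S.vert (M.flag i a d' s') := by
  ext l
  obtain ⟨l, rfl⟩ := M.c.perm.surjective l
  unfold Model.flag
  rw [M.c.mem_vert _ _ _ _ _ (Model.fi_ne hi ha hia), M.c.mem_vert _ _ _ _ _ (Model.fi_ne hi ha hia)]

theorem mult_flag {i a : Nat} (hi : i < 14) (ha : a < 14) (hia : i ≠ a) (d s d' s' : Nat) :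
    M.S.mult (M.flag i a d s) = M.S.mult (M.flag i a d' s') := by
  unfold FlagSys.mult
  rw [vert_flag M hi ha hia d s d' s']

theorem mult_flagE {i a : Nat} (hi : i < 14) (ha : a < 14) (hia : i ≠ a) (e : Nat) :
    M.S.mult (M.flagE i a e) = M.S.mult (M.flag i a 0 0) :=
  mult_flag M hi ha hia _ _ _ _

theorem mult_corner {i a : Nat} (hi : i < 14) (ha : a < 14) (hia : i ≠ a) (q : Nat) :
    M.S.mult (M.corner i a q) = M.S.mult (M.flag i a 0 0) :=
  mult_flagE M hi ha hia _

/-- A set of lines through the vertex. -/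
theorem card_le_mult {i a : Nat} (hi : i < 14) (ha : a < 14) (hia : i ≠ a) (T : Finset (Fin 14))
    (hT : ∀ l ∈ T, l = fi i ∨ M.W.X (fi i) l = M.X i a) (d s : Nat) :
    T.card ≤ M.S.mult (M.flag i a d s) := by
  have h1 : (T.image M.c.perm).card = T.card := Finset.card_image_of_injective _ M.c.perm.injective
  rw [← h1]
  apply Finset.card_le_card
  intro l hl
  obtain ⟨k, hk, rfl⟩ := Finset.mem_image.1 hl
  rw [Model.flag, M.c.mem_vert _ _ _ _ _ (Model.fi_ne hi ha hia)]
  exact hT k hk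

/-- Three lines through the vertex. -/
theorem three_le {i a b : Nat} (hi : i < 14) (ha : a < 14) (hb : b < 14) (hia : i ≠ a) (hib : i ≠ b)
    (hab : a ≠ b) (h : M.X i a = M.X i b) (d s : Nat) : 3 ≤ M.S.mult (M.flag i a d s) := by
  have h1 := card_le_mult M hi ha hia {fi i, fi a, fi b} (by
    intro l hl
    simp only [Finset.mem_insert, Finset.mem_singleton] at hl
    rcases hl with rfl | rfl | rfl
    · exact Or.inl rfl
    · exact Or.inr rfl
    · exact Or.inr h.symm) d s
  rw [Finset.card_insert_of_notMem, Finset.card_pair (Model.fi_ne ha hb hab)] at h1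
  · exact h1
  · simp only [Finset.mem_insert, Finset.mem_singleton, not_or]
    exact ⟨Model.fi_ne hi ha hia, Model.fi_ne hi hb hib⟩

/-- Four lines through the vertex. -/
theorem four_le {i a b c : Nat} (hi : i < 14) (ha : a < 14) (hb : b < 14) (hc : c < 14) (hia : i ≠ a)
    (hib : i ≠ b) (hic : i ≠ c) (hab : a ≠ b) (hac : a ≠ c) (hbc : b ≠ c)
    (h : M.X i a = M.X i b) (h' : M.X i a = M.X i c) (d s : Nat) :
    4 ≤ M.S.mult (M.flag i a d s) := by
  have h1 := card_le_mult M hi ha hia {fi i, fi a, fi b, fi c} (by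
    intro l hl
    simp only [Finset.mem_insert, Finset.mem_singleton] at hl
    rcases hl with rfl | rfl | rfl | rfl
    · exact Or.inl rfl
    · exact Or.inr rfl
    · exact Or.inr h.symm
    · exact Or.inr h'.symm) d s
  rw [Finset.card_insert_of_notMem, Finset.card_insert_of_notMem,
    Finset.card_pair (Model.fi_ne hb hc hbc)] at h1
  · exact h1
  · simp only [Finset.mem_insert, Finset.mem_singleton, not_or]
    exact ⟨Model.fi_ne ha hb hab, Model.fi_ne ha hc hac⟩
  · simp only [Finset.mem_insert, Finset.mem_singleton, not_or]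
    exact ⟨Model.fi_ne hi ha hia, Model.fi_ne hi hb hib, Model.fi_ne hi hc hic⟩

/-- A vertex on at least three lines: a third line. -/
theorem exists_third {i a : Nat} (hi : i < 14) (ha : a < 14) (hia : i ≠ a) {d s : Nat}
    (h : M.S.mult (M.flag i a d s) ≠ 2) :
    ∃ b : Nat, b < 14 ∧ b ≠ i ∧ b ≠ a ∧ M.X i a = M.X i b := by
  have h2 := M.facts.two_le (M.flag i a d s)
  have h3 : ({M.c.perm (fi i), M.c.perm (fi a)} : Finset (Fin 14)).card <
      (M.S.vert (M.flag i a d s)).card := by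
    refine lt_of_le_of_lt Finset.card_le_two ?_
    unfold FlagSys.mult at h h2
    omega
  obtain ⟨l, hl, hl'⟩ := Finset.exists_mem_notMem_of_card_lt_card h3
  obtain ⟨l, rfl⟩ := M.c.perm.surjective l
  obtain ⟨b, hb, rfl⟩ := fi_surj l
  rw [mem_vert M d s hi ha hia] at hl
  simp only [Finset.mem_insert, Finset.mem_singleton, not_or, EmbeddingLike.apply_eq_iff_eq] at hl'
  refine ⟨b, hb, fun h => hl'.1 (by rw [h]), fun h => hl'.2 (by rw [h]), ?_⟩
  exact (hl.resolve_left hl'.1).symm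

/-- In a vertex on two lines there is no third line. -/
theorem no_third {i a : Nat} (hi : i < 14) (ha : a < 14) (hia : i ≠ a)
    (h : M.S.mult (M.flag i a 0 0) = 2) (l : Fin 14) (hl : l ≠ fi i) (hl' : l ≠ fi a) :
    M.W.X (fi i) l ≠ M.W.X (fi i) (fi a) := by
  obtain ⟨b, hb, rfl⟩ := fi_surj l
  intro he
  have h1 := three_le M hi ha hb hia (fun h => hl (by rw [h])) (fun h => hl' (by rw [h])) he.symm 0 0
  omega

section two

variable {i j : Nat} (hij : i < j) (hj : j < 14) (h2 : M.S.mult (M.flag i j 0 0) = 2)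

include hij hj h2

theorem s1_right : M.S.s1 (M.flag i j 0 0) = M.flag j i 0 1 ∧
    M.S.s1 (M.flag j i 0 1) = M.flag i j 0 0 :=
  M.c.s1_right _ _ (Model.fi_lt hj hij) fun l h3 h4 =>
    no_third M (by omega) hj (by omega) h2 l h3.ne' h4.ne

theorem s1_left : M.S.s1 (M.flag i j 1 1) = M.flag j i 1 0 ∧
    M.S.s1 (M.flag j i 1 0) = M.flag i j 1 1 :=
  M.c.s1_left _ _ (Model.fi_lt hj hij) fun l h3 h4 =>
    no_third M (by omega) hj (by omega) h2 l h3.ne' h4.ne

theorem s1_top : M.S.s1 (M.flag j i 0 0) = M.flag i j 1 0 ∧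
    M.S.s1 (M.flag i j 1 0) = M.flag j i 0 0 :=
  M.c.s1_top _ _ (Model.fi_lt hj hij) fun l h3 =>
    no_third M (by omega) hj (by omega) h2 l
      (by rcases h3 with h3 | h3
          · exact h3.ne
          · exact ((Model.fi_lt hj hij).trans h3).ne')
      (by rcases h3 with h3 | h3
          · exact (h3.trans (Model.fi_lt hj hij)).ne
          · exact h3.ne')

theorem s1_bot : M.S.s1 (M.flag i j 0 1) = M.flag j i 1 1 ∧
    M.S.s1 (M.flag j i 1 1) = M.flag i j 0 1 :=
  M.c.s1_bot _ _ (Model.fi_lt hj hij) fun l h3 =>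
    no_third M (by omega) hj (by omega) h2 l
      (by rcases h3 with h3 | h3
          · exact h3.ne
          · exact ((Model.fi_lt hj hij).trans h3).ne')
      (by rcases h3 with h3 | h3
          · exact (h3.trans (Model.fi_lt hj hij)).ne
          · exact h3.ne')

omit h2 in
theorem s2_flag (d s : Nat) (hs : s < 2) : M.S.s2 (M.flag i j d s) = M.flag i j d (1 - s) ∧
    M.S.s2 (M.flag j i d s) = M.flag j i d (1 - s) := by
  have hb : bo (1 - s) = !(bo s) := by
    interval_cases s <;> rfl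
  unfold Model.flag
  rw [hb]
  exact ⟨M.c.s2_Φ _ _ _ _ (Model.fi_ne (by omega) hj (by omega)),
    M.c.s2_Φ _ _ _ _ (Model.fi_ne hj (by omega) (by omega))⟩

omit hij hj h2 in
theorem corner_eq : M.corner i j 0 = M.flag i j 0 0 ∧ M.corner i j 1 = M.flag i j 1 1 ∧
    M.corner i j 2 = M.flag i j 1 0 ∧ M.corner i j 3 = M.flag i j 0 1 :=
  ⟨rfl, rfl, rfl, rfl⟩

/-- The rotation of the flags on the first line. -/
theorem rot_first : M.S.rot (M.corner i j 0) = M.S.s1 (M.corner i j 3) ∧
    M.S.rot (M.corner i j 1) = M.S.s1 (M.corner i j 2) ∧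
    M.S.rot (M.corner i j 2) = M.S.s1 (M.corner i j 1) ∧
    M.S.rot (M.corner i j 3) = M.S.s1 (M.corner i j 0) := by
  obtain ⟨e0, e1, e2, e3⟩ := corner_eq M (i := i) (j := j)
  unfold FlagSys.rot
  rw [e0, e1, e2, e3]
  refine ⟨?_, ?_, ?_, ?_⟩ <;> congr 1
  · exact (s2_flag M hij hj 0 0 (by omega)).1
  · exact (s2_flag M hij hj 1 1 (by omega)).1
  · exact (s2_flag M hij hj 1 0 (by omega)).1
  · exact (s2_flag M hij hj 0 1 (by omega)).1

/-- The rotation of the flags on the second line. -/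
theorem rot_second : M.S.rot (M.S.s1 (M.corner i j 3)) = M.corner i j 1 ∧
    M.S.rot (M.S.s1 (M.corner i j 2)) = M.corner i j 0 ∧
    M.S.rot (M.S.s1 (M.corner i j 1)) = M.corner i j 3 ∧
    M.S.rot (M.S.s1 (M.corner i j 0)) = M.corner i j 2 := by
  obtain ⟨e0, e1, e2, e3⟩ := corner_eq M (i := i) (j := j)
  rw [e0, e1, e2, e3]
  unfold FlagSys.rot
  refine ⟨?_, ?_, ?_, ?_⟩
  · rw [(s1_bot M hij hj h2).1, (s2_flag M hij hj 1 1 (by omega)).2]
    exact (s1_left M hij hj h2).2
  · rw [(s1_top M hij hj h2).2, (s2_flag M hij hj 0 0 (by omega)).2]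
    exact (s1_right M hij hj h2).2
  · rw [(s1_left M hij hj h2).1, (s2_flag M hij hj 1 0 (by omega)).2]
    exact (s1_bot M hij hj h2).2
  · rw [(s1_right M hij hj h2).1, (s2_flag M hij hj 0 1 (by omega)).2]
    exact (s1_top M hij hj h2).1

/-- The rotations of all corners. -/
theorem rot_corner : ∀ q < 4, ∃ r s t : Nat, r < 4 ∧ s < 4 ∧ t < 4 ∧ q ≠ r ∧ q ≠ s ∧ q ≠ t ∧
    r ≠ s ∧ r ≠ t ∧ s ≠ t ∧
    M.S.rot (M.corner i j q) = M.S.s1 (M.corner i j r) ∧
    M.S.rot (M.S.rot (M.corner i j q)) = M.corner i j s ∧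
    M.S.rot (M.S.rot (M.S.rot (M.corner i j q))) = M.S.s1 (M.corner i j t) := by
  obtain ⟨a0, a1, a2, a3⟩ := rot_first M hij hj h2
  obtain ⟨b3, b2, b1, b0⟩ := rot_second M hij hj h2
  intro q hq
  interval_cases q
  · exact ⟨3, 1, 2, by omega, by omega, by omega, by omega, by omega, by omega, by omega, by omega,
      by omega, a0, by rw [a0, b3], by rw [a0, b3, a1]⟩
  · exact ⟨2, 0, 3, by omega, by omega, by omega, by omega, by omega, by omega, by omega, by omega,
      by omega, a1, by rw [a1, b2], by rw [a1, b2, a0]⟩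
  · exact ⟨1, 3, 0, by omega, by omega, by omega, by omega, by omega, by omega, by omega, by omega,
      by omega, a2, by rw [a2, b1], by rw [a2, b1, a3]⟩
  · exact ⟨0, 2, 1, by omega, by omega, by omega, by omega, by omega, by omega, by omega, by omega,
      by omega, a3, by rw [a3, b0], by rw [a3, b0, a2]⟩

open Classical in
/-- The number of nontriangular corners. -/
theorem nc_corner {q : Nat} (hq : q < 4) : M.S.nc (M.corner i j q) =
    (if M.S.tri (M.corner i j 0) then 0 else 1) + (if M.S.tri (M.corner i j 1) then 0 else 1) +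
    (if M.S.tri (M.corner i j 2) then 0 else 1) + (if M.S.tri (M.corner i j 3) then 0 else 1) := by
  obtain ⟨a0, a1, a2, a3⟩ := rot_first M hij hj h2
  obtain ⟨b3, b2, b1, b0⟩ := rot_second M hij hj h2
  have t := fun f => FlagSys.D1_tri_s1 M.facts f
  unfold FlagSys.nc
  interval_cases q
  · rw [a0, b3, a1]
    simp only [t]
    split_ifs <;> rfl
  · rw [a1, b2, a0]
    simp only [t]
    split_ifs <;> rfl
  · rw [a2, b1, a3]
    simp only [t]
    split_ifs <;> rfl
  · rw [a3, b0, a2]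
    simp only [t]
    split_ifs <;> rfl

/-- The vertex is full iff all corners are triangular. -/
theorem full_iff {q : Nat} (hq : q < 4) : M.S.full (M.corner i j q) ↔
    M.S.tri (M.corner i j 0) ∧ M.S.tri (M.corner i j 1) ∧ M.S.tri (M.corner i j 2) ∧
      M.S.tri (M.corner i j 3) := by
  unfold FlagSys.full
  rw [nc_corner M hij hj h2 hq, mult_corner M (by omega) hj (by omega)]
  constructor
  · rintro ⟨-, h⟩
    split_ifs at h <;> first | exact ⟨‹_›, ‹_›, ‹_›, ‹_›⟩ | omega
  · rintro ⟨h3, h4, h5, h6⟩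
    rw [if_pos h3, if_pos h4, if_pos h5, if_pos h6]
    exact ⟨h2, rfl⟩

/-- The vertex is of type (2,1) with nontriangular corner number `q`. -/
theorem ty21_iff {q : Nat} (hq : q < 4) : M.S.ty21 (M.corner i j q) ↔
    ∀ r < 4, (M.S.tri (M.corner i j r) ↔ r ≠ q) := by
  unfold FlagSys.ty21
  rw [nc_corner M hij hj h2 hq, mult_corner M (by omega) hj (by omega)]
  constructor
  · rintro ⟨-, h, hn⟩ r hr
    interval_cases q <;> interval_cases r <;> simp only [hn, ne_eq, not_true_eq_false, if_false,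
      OfNat.ofNat_ne_zero, Nat.reduceEqDiff, not_false_eq_true,
      iff_true, OfNat.ofNat_ne_one, OfNat.zero_ne_ofNat, OfNat.one_ne_ofNat, zero_ne_one,
      one_ne_zero] at h ⊢ <;>
      split_ifs at h <;> first | assumption | omega
  · intro h
    have h0 := h 0 (by omega)
    have h1 := h 1 (by omega)
    have h2' := h 2 (by omega)
    have h3 := h 3 (by omega)
    refine ⟨h2, ?_, ?_⟩
    · interval_cases q <;> simp_all
    · rw [h q hq]
      simp

end two

theorem sem5 {i j q : Nat} (hi : i < 16) (hj : j < 16) (hij : i < j) (hj' : j < 14) (hq : q < 4) :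
    M.Sem ht (corN i j q) ↔ M.S.tri (M.corner i j q) := by
  have key : ∀ e : Nat, e < 4 → (M.Sem ht (enc 5 i j e 0) ↔ M.S.tri (M.flagE i j e)) := by
    intro e he
    rw [M.sem_enc ht (by omega) hi hj (by omega)]
    exact ⟨fun h => h.2.2.2.2, fun h => ⟨by omega, by omega, hj', he, h⟩⟩
  interval_cases q
  · exact key 0 (by omega)
  · exact key 3 (by omega)
  · exact key 1 (by omega)
  · exact key 2 (by omega)

theorem sem7 {i j : Nat} (hi : i < 16) (hj : j < 16) :
    M.Sem ht (enc 7 i j 0 0) ↔ i < j ∧ j < 14 ∧ M.S.mult (M.flag i j 0 0) = 2 :=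
  M.sem_enc ht (by omega) hi hj (by omega)

theorem sem8 {i j : Nat} (hi : i < 16) (hj : j < 16) :
    M.Sem ht (enc 8 i j 0 0) ↔ i < j ∧ j < 14 ∧ M.S.full (M.flag i j 0 0) :=
  M.sem_enc ht (by omega) hi hj (by omega)

theorem sem9 {i j s : Nat} (hi : i < 16) (hj : j < 16) (hs : s < 16) :
    M.Sem ht (enc 9 i j s 0) ↔ i < j ∧ j < 14 ∧ s < 4 ∧ M.S.ty21 (M.corner i j s) :=
  M.sem_enc ht (by omega) hi hj hs

theorem sem10 {i j : Nat} (hi : i < 16) (hj : j < 16) :
    M.Sem ht (enc 10 i j 0 0) ↔ i < j ∧ j < 14 ∧ M.S.mult (M.flag i j 0 0) = 3 :=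
  M.sem_enc ht (by omega) hi hj (by omega)

end K6

variable (M : Model) (ht : DT)

open K6

theorem ok_fD1 (i j k : Nat) (hi : i < 16) (hj : j < 16) (hk : k < 16) :
    ClauseT (M.Sem ht) (fD1 i j k) := by
  unfold fD1
  rw [clauseT_cons, clauseT_cons, litS_neg, litS_neg]
  by_contra hcon
  push Not at hcon
  obtain ⟨h1, h2, -⟩ := hcon
  obtain ⟨h3, h4, h5⟩ := (sem7 M ht hi hj).1 h1
  obtain ⟨h6, h7, h8, h9, h10, h11, h12⟩ := (M.sem_zz ht hi hj hk).1 h2
  have := three_le M h9 h10 h11 h6 h7 h8 h12 0 0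
  omega

/-- The list of the third lines. -/
theorem zzlist {i j : Nat} (hi : i < 14) (hj : j < 14) (hij : i ≠ j) {b : Nat} (hb : b < 14)
    (hbi : b ≠ i) (hbj : b ≠ j) (h : M.X i j = M.X i b) :
    ∀ m : Nat, 14 ≤ b + m → m ≤ 14 → ClauseT (M.Sem ht)
      (Nat.rec (motive := fun _ => List Nat) []
        (fun m ih =>
          Nat.rec (motive := fun _ => List Nat)
            (pos (zz i j (Nat.sub (nat_lit 13) m)) :: ih)
            (fun _ _ => ih)
            (Nat.add (eqN (Nat.sub (nat_lit 13) m) i) (eqN (Nat.sub (nat_lit 13) m) j))) m) := by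
  intro m
  induction m with
  | zero => intro h1 h2; omega
  | succ m ih =>
    intro h1 h2
    show ClauseT (M.Sem ht) (Nat.rec (motive := fun _ => List Nat)
            (pos (zz i j (13 - m)) :: _)
            (fun _ _ => _)
            (eqN (13 - m) i + eqN (13 - m) j))
    by_cases hbm : 14 ≤ b + m
    · have := ih hbm (by omega)
      generalize eqN (13 - m) i + eqN (13 - m) j = z
      rcases z with _ | z
      · exact clauseT_cons.2 (Or.inr this)
      · exact this
    · have hb' : 13 - m = b := by omega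
      rw [hb']
      have hz : eqN b i + eqN b j = 0 := by
        rw [eqN_eq, eqN_eq, if_neg hbi, if_neg hbj]
      rw [hz]
      refine clauseT_cons.2 (Or.inl ?_)
      rw [litS_pos, M.sem_zz ht (by omega) (by omega) (by omega)]
      exact ⟨hij, hbi.symm, hbj.symm, hi, hj, hb, h⟩

theorem ok_fD2 (i j : Nat) (hi : i < 16) (hj : j < 16) : ClauseT (M.Sem ht) (fD2 i j) := by
  unfold fD2
  refine clauseT_okc (M.sem_zero ht) fun hbad => ?_
  obtain ⟨hij, hj'⟩ := Model.bad2_eq_zero.1 hbad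
  rw [clauseT_cons, litS_pos]
  by_cases h7 : M.Sem ht (enc 7 i j 0 0)
  · exact Or.inl h7
  · right
    rw [sem7 M ht hi hj] at h7
    obtain ⟨b, hb, h1, h2, h3⟩ := exists_third M (by omega : i < 14) hj' (by omega)
      (fun h => h7 ⟨hij, hj', h⟩)
    exact zzlist M ht (by omega) hj' (by omega) hb h1 h2 h3 14 (by omega) le_rfl

theorem ok_fFULL (i j q : Nat) (hi : i < 16) (hj : j < 16) : ClauseT (M.Sem ht) (fFULL i j q) := by
  unfold fFULL
  rw [clauseT_cons, clauseT_cons, litS_neg]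
  by_cases h8 : M.Sem ht (enc 8 i j 0 0)
  · right; left
    have h8' := (sem8 M ht hi hj).1 h8
    obtain ⟨hij, hj', h⟩ := h8'
    have h2 : M.S.mult (M.flag i j 0 0) = 2 := h.1
    by_cases hq : q < 4
    · have hz : Nat.shiftRight q 2 = 0 := by
        show q >>> 2 = 0
        rw [Nat.shiftRight_eq_div_pow]
        omega
      rw [hz]
      show LitS (M.Sem ht) (pos (corN i j q))
      rw [litS_pos, sem5 M ht hi hj hij hj' hq]
      have h3 := (full_iff M hij hj' h2 (q := 0) (by omega)).1 h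
      interval_cases q
      · exact h3.1
      · exact h3.2.1
      · exact h3.2.2.1
      · exact h3.2.2.2
    · have hz : ∃ z, Nat.shiftRight q 2 = z + 1 := by
        refine ⟨q / 4 - 1, ?_⟩
        show q >>> 2 = _
        rw [Nat.shiftRight_eq_div_pow]
        omega
      obtain ⟨z, hz⟩ := hz
      rw [hz]
      show LitS (M.Sem ht) (pos (enc 7 i j 0 0))
      rw [litS_pos, sem7 M ht hi hj]
      exact ⟨hij, hj', h2⟩
  · exact Or.inl h8

theorem ok_fFULL3 (i j : Nat) (hi : i < 16) (hj : j < 16) : ClauseT (M.Sem ht) (fFULL3 i j) := by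
  unfold fFULL3
  refine clauseT_okc (M.sem_zero ht) fun hbad => ?_
  obtain ⟨hij, hj'⟩ := Model.bad2_eq_zero.1 hbad
  rw [clauseT_cons, clauseT_cons, clauseT_cons, clauseT_cons, clauseT_cons, clauseT_cons, litS_pos,
    litS_neg, litS_neg, litS_neg, litS_neg, litS_neg]
  by_contra hcon
  push Not at hcon
  obtain ⟨h1, h2, h3, h4, h5, h6, -⟩ := hcon
  have h2' := ((sem7 M ht hi hj).1 h2).2.2
  have h3' := (sem5 M ht hi hj hij hj' (by omega)).1 h3
  have h4' := (sem5 M ht hi hj hij hj' (by omega)).1 h4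
  have h5' := (sem5 M ht hi hj hij hj' (by omega)).1 h5
  have h6' := (sem5 M ht hi hj hij hj' (by omega)).1 h6
  apply h1
  rw [sem8 M ht hi hj]
  exact ⟨hij, hj', (full_iff M hij hj' h2' (q := 0) (by omega)).2 ⟨h3', h4', h5', h6'⟩⟩

/-- A literal with sign given by a number `w < 2` added to the positive literal. -/
theorem litS_add {Se : Nat → Prop} {d w : Nat} (hw : w < 2) :
    LitS Se (Nat.add (pos d) w) ↔ (Se d ↔ w = 0) := by
  have h : Nat.add (pos d) w = lit w d := by
    show 2 * d + w = w + 2 * d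
    omega
  rw [h, litS_lit hw]

theorem ok_fTY (i j s q : Nat) (hi : i < 16) (hj : j < 16) (hs : s < 16) :
    ClauseT (M.Sem ht) (fTY i j s q) := by
  unfold fTY
  rw [clauseT_cons, clauseT_cons, litS_neg]
  by_cases h9 : M.Sem ht (enc 9 i j s 0)
  · right; left
    have h9' := (sem9 M ht hi hj hs).1 h9
    obtain ⟨hij, hj', hs4, h⟩ := h9'
    have h2 : M.S.mult (M.flag i j 0 0) = 2 := by
      rw [← h.1]
      exact (mult_corner M (by omega) hj' (by omega) s).symm
    by_cases hq : q < 4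
    · have hz : Nat.shiftRight q 2 = 0 := by
        show q >>> 2 = 0
        rw [Nat.shiftRight_eq_div_pow]
        omega
      rw [hz]
      show LitS (M.Sem ht) (Nat.add (pos (corN i j q)) (eqN q s))
      have h3 := (ty21_iff M hij hj' h2 hs4).1 h q hq
      rw [litS_add (by rw [eqN_eq]; split_ifs <;> omega), sem5 M ht hi hj hij hj' hq, h3, eqN_eq]
      split_ifs with he
      · simp [he]
      · simp [he]
    · have hz : ∃ z, Nat.shiftRight q 2 = z + 1 := by
        refine ⟨q / 4 - 1, ?_⟩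
        show q >>> 2 = _
        rw [Nat.shiftRight_eq_div_pow]
        omega
      obtain ⟨z, hz⟩ := hz
      rw [hz]
      show LitS (M.Sem ht) (pos (enc 7 i j 0 0))
      rw [litS_pos, sem7 M ht hi hj]
      exact ⟨hij, hj', h2⟩
  · exact Or.inl h9

theorem ok_fTY3 (i j s : Nat) (hi : i < 16) (hj : j < 16) : ClauseT (M.Sem ht) (fTY3 i j s) := by
  unfold fTY3
  refine clauseT_okc (M.sem_zero ht) fun hbad => ?_
  have hbad' : bad2 i j + (s - 3) = 0 := hbad
  obtain ⟨hij, hj'⟩ := Model.bad2_eq_zero.1 (by omega : bad2 i j = 0)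
  have hs : s < 4 := by omega
  have hw : ∀ r : Nat, Nat.sub (nat_lit 1) (eqN r s) < 2 := by
    intro r
    show 1 - _ < 2
    omega
  rw [clauseT_cons, clauseT_cons, clauseT_cons, clauseT_cons, clauseT_cons, clauseT_cons, litS_pos,
    litS_neg, litS_add (hw _), litS_add (hw _), litS_add (hw _), litS_add (hw _),
    sem5 M ht hi hj hij hj' (by decide), sem5 M ht hi hj hij hj' (by decide),
    sem5 M ht hi hj hij hj' (by decide), sem5 M ht hi hj hij hj' (by decide)]
  have hw' : ∀ r : Nat, Nat.sub (nat_lit 1) (eqN r s) = 0 ↔ r = s := by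
    intro r
    show 1 - _ = 0 ↔ _
    rw [eqN_eq]
    split_ifs with h
    · simp [h]
    · simp [h]
  rw [hw', hw', hw', hw']
  by_contra hcon
  simp only [not_or] at hcon
  obtain ⟨h1, h2, h3, h4, h5, h6, -⟩ := hcon
  rw [not_not] at h2
  have h2' := ((sem7 M ht hi hj).1 h2).2.2
  apply h1
  rw [sem9 M ht hi hj (by omega)]
  refine ⟨hij, hj', hs, (ty21_iff M hij hj' h2' hs).2 ?_⟩
  intro r hr
  interval_cases r
  · by_cases he : 0 = s <;> simp_all
  · by_cases he : 1 = s <;> simp_all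
  · by_cases he : 2 = s <;> simp_all
  · by_cases he : 3 = s <;> simp_all

theorem ok_fM31 (i j : Nat) (hi : i < 16) (hj : j < 16) : ClauseT (M.Sem ht) (fM31 i j) := by
  unfold fM31
  rw [clauseT_cons, clauseT_cons, litS_neg, litS_neg]
  by_contra hcon
  push Not at hcon
  obtain ⟨h1, h2, -⟩ := hcon
  have h3 := ((sem10 M ht hi hj).1 h1).2.2
  have h4 := ((sem7 M ht hi hj).1 h2).2.2
  omega

theorem ok_fM32 (i j k l : Nat) (hi : i < 16) (hj : j < 16) (hk : k < 16) (hl : l < 16) :
    ClauseT (M.Sem ht) (fM32 i j k l) := by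
  unfold fM32
  refine clauseT_okc (M.sem_zero ht) fun hbad => ?_
  have hkl : k ≠ l := by
    intro h
    rw [eqN_eq, if_pos h] at hbad
    omega
  rw [clauseT_cons, clauseT_cons, clauseT_cons, litS_neg, litS_neg, litS_neg]
  by_contra hcon
  push Not at hcon
  obtain ⟨h1, h2, h3, -⟩ := hcon
  have h4 := ((sem10 M ht hi hj).1 h1).2.2
  obtain ⟨a1, a2, a3, a4, a5, a6, a7⟩ := (M.sem_zz ht hi hj hk).1 h2
  obtain ⟨b1, b2, b3, b4, b5, b6, b7⟩ := (M.sem_zz ht hi hj hl).1 h3
  have := four_le M a4 a5 a6 b6 a1 a2 b2 a3 b3 hkl a7 b7 0 0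
  omega

end Pool.Agent.Helper58.PLK
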