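import Pool.Agent.Helper58.PLK.Model
import Pool.Agent.Helper15.PL.D1

/-!
# Block K7: transfer along an edge of a candidate triangle
-/

namespace Pool.Agent.Helper58.PLK

open Pool.Agent.Helper15.PL Pool.Agent.Helper15.PL.FlagSys

section fs

variable {n : ℕ} {S : FlagSys n} (hF : S.Facts)
include hF

theorem K7_s1_rot (f : S.F) : S.s1 (S.rot f) = S.s2 f := by
  unfold rot
  rw [hF.s1s1]

theorem K7_rot_s2 (f : S.F) : S.rot (S.s2 f) = S.s1 f := by
  unfold rot
  rw [hF.s2s2]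

theorem K7_s1_eq {f : S.F} (h : S.mult f = 2) : S.s1 f = S.s2 (S.rot (S.rot (S.rot f))) := by
  rw [D1_rot3 hF h, hF.s2s2]

theorem K7_rot_s1 {f : S.F} (h : S.mult f = 2) :
    S.rot (S.s1 f) = S.s1 (S.rot (S.rot (S.rot f))) := by
  rw [D1_rot3 hF h]
  rfl

theorem K7_rot2_s2 {f : S.F} (h : S.mult f = 2) :
    S.rot (S.rot (S.s2 f)) = S.s1 (S.rot (S.rot (S.rot f))) := by
  rw [K7_rot_s2 hF, K7_rot_s1 hF h]

theorem K7_rot3_s2 {f : S.F} (h : S.mult f = 2) :
    S.rot (S.rot (S.rot (S.s2 f))) = S.s1 (S.rot (S.rot f)) := by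
  rw [K7_rot2_s2 hF h, K7_rot_s1 hF (by rw [D1_mult_rot hF, D1_mult_rot hF, D1_mult_rot hF, h]),
    D1_rot4 hF h]

theorem K7_nc_rot {f : S.F} (h : S.mult f = 2) : S.nc (S.rot f) = S.nc f := by
  unfold nc
  rw [D1_rot4 hF h]
  omega

theorem K7_nc_s2 {f : S.F} (h : S.mult f = 2) : S.nc (S.s2 f) = S.nc f := by
  unfold nc
  rw [K7_rot3_s2 hF h, K7_rot2_s2 hF h, K7_rot_s2 hF, ← K7_s1_rot hF f]
  simp only [D1_tri_s1 hF]
  omega

theorem K7_outer_s1 {g : S.F} (h : S.tri g) : S.tri (S.outer (S.s1 g)) ↔ S.tri (S.outer g) := by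
  rw [← D1_tri_s0 hF (S.outer g)]
  unfold outer
  rw [hF.s0s2, D1_braid hF h]

theorem K7_nX_rot {f : S.F} (h : S.mult f = 2) : S.nX (S.rot f) = S.nX f := by
  unfold nX
  rw [D1_rot4 hF h]
  omega

theorem K7_nX_s2 {f : S.F} (h : S.full f) : S.nX (S.s2 f) = S.nX f := by
  obtain ⟨t0, t1, t2, t3⟩ := D1_nc_full h
  unfold nX
  rw [K7_rot3_s2 hF h.1, K7_rot2_s2 hF h.1, K7_rot_s2 hF, ← K7_s1_rot hF f]
  simp only [K7_outer_s1 hF t0, K7_outer_s1 hF t1, K7_outer_s1 hF t2, K7_outer_s1 hF t3]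
  omega

theorem K7_nBig_rot {f : S.F} (h : S.mult f = 2) : S.nBig (S.rot f) = S.nBig f := by
  unfold nBig
  rw [D1_rot4 hF h]
  omega

theorem K7_mult_s0_s2 (f : S.F) : S.mult (S.s0 (S.s2 f)) = S.mult (S.s0 f) := by
  rw [hF.s0s2, D1_mult_s2 hF]

theorem K7_mult_s0_s1 {f : S.F} (h : S.mult f = 2) :
    S.mult (S.s0 (S.s1 f)) = S.mult (S.s0 (S.rot (S.rot (S.rot f)))) := by
  rw [K7_s1_eq hF h, K7_mult_s0_s2 hF]

theorem K7_nBig_s2 {f : S.F} (h : S.mult f = 2) : S.nBig (S.s2 f) = S.nBig f := by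
  have h1 : S.mult (S.rot (S.rot f)) = 2 := by rw [D1_mult_rot hF, D1_mult_rot hF, h]
  have h2 : S.mult (S.rot (S.rot (S.rot f))) = 2 := by rw [D1_mult_rot hF, h1]
  unfold nBig
  rw [K7_rot3_s2 hF h, K7_rot2_s2 hF h, K7_rot_s2 hF, K7_mult_s0_s2 hF, K7_mult_s0_s1 hF h,
    K7_mult_s0_s1 hF h1, K7_mult_s0_s1 hF h2, D1_rot4 hF h]
  omega

/-- Induction over the flags at a vertex on two lines. -/
theorem K7_ind {f g : S.F} (h : S.mult f = 2) (hv : S.vert g = S.vert f) (P : S.F → Prop)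
    (h0 : P f) (hrot : ∀ x, S.mult x = 2 → P x → P (S.rot x))
    (hs2 : ∀ x, S.mult x = 2 → P x → P (S.s2 x)) : P g := by
  have key : ∀ k, S.mult (S.rot^[k] f) = 2 ∧ P (S.rot^[k] f) := by
    intro k
    induction k with
    | zero => exact ⟨h, h0⟩
    | succ k ih =>
      rw [Function.iterate_succ_apply']
      exact ⟨by rw [D1_mult_rot hF, ih.1], hrot _ ih.1 ih.2⟩
  obtain ⟨k, -, rfl | rfl⟩ := hF.vert_orbit f g hv
  · exact (key k).2
  · exact hs2 _ (key k).1 (key k).2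

theorem K7_mult_vert {f g : S.F} (hv : S.vert g = S.vert f) : S.mult g = S.mult f := by
  unfold mult
  rw [hv]

theorem K7_nc_vert {f g : S.F} (h : S.mult f = 2) (hv : S.vert g = S.vert f) :
    S.nc g = S.nc f :=
  K7_ind hF h hv (fun x => S.nc x = S.nc f) rfl
    (fun x hx hP => by rw [K7_nc_rot hF hx, hP]) (fun x hx hP => by rw [K7_nc_s2 hF hx, hP])

theorem K7_full_vert {f g : S.F} (hv : S.vert g = S.vert f) : S.full g ↔ S.full f := by
  have key : ∀ {f g : S.F}, S.vert g = S.vert f → S.full f → S.full g := by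
    intro f g hv h
    exact ⟨by rw [K7_mult_vert hF hv, h.1], by rw [K7_nc_vert hF h.1 hv, h.2]⟩
  exact ⟨key hv.symm, key hv⟩

theorem K7_nX_vert {f g : S.F} (h : S.full f) (hv : S.vert g = S.vert f) :
    S.nX g = S.nX f :=
  (K7_ind hF h.1 hv (fun x => S.full x ∧ S.nX x = S.nX f) ⟨h, rfl⟩
    (fun x hx hP => ⟨(K7_full_vert hF (D1_vert_rot hF x)).2 hP.1,
      by rw [K7_nX_rot hF hx, hP.2]⟩)
    (fun x hx hP => ⟨(K7_full_vert hF (hF.vert_s2 x)).2 hP.1,
      by rw [K7_nX_s2 hF hP.1, hP.2]⟩)).2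

theorem K7_nBig_vert {f g : S.F} (h : S.mult f = 2) (hv : S.vert g = S.vert f) :
    S.nBig g = S.nBig f :=
  K7_ind hF h hv (fun x => S.nBig x = S.nBig f) rfl
    (fun x hx hP => by rw [K7_nBig_rot hF hx, hP]) (fun x hx hP => by rw [K7_nBig_s2 hF hx, hP])

theorem K7_ty21_s1 (f : S.F) : S.ty21 (S.s1 f) ↔ S.ty21 f := by
  unfold ty21
  rw [D1_mult_s1 hF, D1_tri_s1 hF]
  constructor
  · rintro ⟨h1, h2, h3⟩
    exact ⟨h1, by rw [← h2, K7_nc_vert hF h1 (hF.vert_s1 f)], h3⟩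
  · rintro ⟨h1, h2, h3⟩
    exact ⟨h1, by rw [← h2, K7_nc_vert hF h1 (hF.vert_s1 f)], h3⟩

end fs

namespace Model

variable (M : Model)

theorem flag_s2 {i a : Nat} (hi : i < 14) (ha : a < 14) (hne : i ≠ a) (d : Nat) {s : Nat}
    (hs : s < 2) : M.S.s2 (M.flag i a d s) = M.flag i a d (1 - s) := by
  unfold flag
  rw [M.c.s2_Φ _ _ _ _ (fi_ne hi ha hne)]
  congr 1
  interval_cases s <;> rfl

theorem mem_vert_left {i a : Nat} (hi : i < 14) (ha : a < 14) (hne : i ≠ a) (d s : Nat) :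
    M.c.perm (fi i) ∈ M.S.vert (M.flag i a d s) := by
  unfold flag
  rw [M.c.mem_vert _ _ _ _ _ (fi_ne hi ha hne)]
  exact Or.inl rfl

theorem mem_vert_right {i a : Nat} (hi : i < 14) (ha : a < 14) (hne : i ≠ a) (d s : Nat) :
    M.c.perm (fi a) ∈ M.S.vert (M.flag i a d s) := by
  unfold flag
  rw [M.c.mem_vert _ _ _ _ _ (fi_ne hi ha hne)]
  exact Or.inr rfl

theorem flag_vert {i a : Nat} (hi : i < 14) (ha : a < 14) (hne : i ≠ a) (d s d' s' : Nat) :
    M.S.vert (M.flag i a d s) = M.S.vert (M.flag i a d' s') :=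
  M.facts.two_lines _ _ _ _ (fun h => fi_ne hi ha hne (M.c.perm.injective h))
    (M.mem_vert_left hi ha hne d s) (M.mem_vert_right hi ha hne d s)
    (M.mem_vert_left hi ha hne d' s') (M.mem_vert_right hi ha hne d' s')

theorem flag_vert_swap {i a : Nat} (hi : i < 14) (ha : a < 14) (hne : i ≠ a) (d s d' s' : Nat) :
    M.S.vert (M.flag i a d s) = M.S.vert (M.flag a i d' s') :=
  M.facts.two_lines _ _ _ _ (fun h => fi_ne hi ha hne (M.c.perm.injective h))
    (M.mem_vert_left hi ha hne d s) (M.mem_vert_right hi ha hne d s)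
    (M.mem_vert_right ha hi hne.symm d' s') (M.mem_vert_left ha hi hne.symm d' s')

theorem flag_vert_pr {i a : Nat} (hi : i < 14) (ha : a < 14) (hne : i ≠ a) (d s d' s' : Nat) :
    M.S.vert (M.flag (min i a) (max i a) d s) = M.S.vert (M.flag i a d' s') := by
  rcases lt_or_gt_of_ne hne with h | h
  · rw [min_eq_left h.le, max_eq_right h.le]
    exact M.flag_vert hi ha hne _ _ _ _
  · rw [min_eq_right h.le, max_eq_left h.le]
    exact M.flag_vert_swap ha hi hne.symm _ _ _ _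

theorem two_lines_only {i a : Nat} (hi : i < 14) (ha : a < 14) (hne : i ≠ a) {d s : Nat}
    (h : M.S.mult (M.flag i a d s) = 2) (l : Fin 14) (hl : l ≠ fi i) (hl' : l ≠ fi a) :
    M.W.X (fi i) l ≠ M.W.X (fi i) (fi a) := by
  intro hX
  have h3 : M.c.perm l ∈ M.S.vert (M.flag i a d s) := by
    unfold flag
    rw [M.c.mem_vert _ _ _ _ _ (fi_ne hi ha hne)]
    exact Or.inr hX
  have hsub : ({M.c.perm (fi i), M.c.perm (fi a), M.c.perm l} : Finset (Fin 14)) ⊆
      M.S.vert (M.flag i a d s) := by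
    intro x hx
    simp only [Finset.mem_insert, Finset.mem_singleton] at hx
    rcases hx with rfl | rfl | rfl
    · exact M.mem_vert_left hi ha hne d s
    · exact M.mem_vert_right hi ha hne d s
    · exact h3
  have hcard := Finset.card_le_card hsub
  have e1 : M.c.perm (fi i) ≠ M.c.perm (fi a) := fun h => fi_ne hi ha hne (M.c.perm.injective h)
  have e2 : M.c.perm (fi i) ≠ M.c.perm l := fun h => hl (M.c.perm.injective h).symm
  have e3 : M.c.perm (fi a) ≠ M.c.perm l := fun h => hl' (M.c.perm.injective h).symm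
  rw [Finset.card_insert_of_notMem (by simp [e1, e2]), Finset.card_insert_of_notMem (by simp [e3]),
    Finset.card_singleton] at hcard
  unfold mult at h
  omega

/-- The four corners of a vertex on two lines. -/
theorem corners {a b : Nat} (hab : a < b) (hb : b < 14) {d s : Nat}
    (h : M.S.mult (M.flag a b d s) = 2) :
    M.S.s1 (M.flag a b 0 0) = M.flag b a 0 1 ∧ M.S.s1 (M.flag a b 1 1) = M.flag b a 1 0 ∧
    M.S.s1 (M.flag a b 1 0) = M.flag b a 0 0 ∧ M.S.s1 (M.flag a b 0 1) = M.flag b a 1 1 := by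
  have hlt := fi_lt hb hab
  have ha : a < 14 := by omega
  have h1 : ∀ l : Fin 14, l ≠ fi a → l ≠ fi b → M.W.X (fi a) l ≠ M.W.X (fi a) (fi b) :=
    M.two_lines_only ha hb (by omega) h
  have hin : ∀ l, fi a < l → l < fi b → M.W.X (fi a) l ≠ M.W.X (fi a) (fi b) := fun l h2 h3 =>
    h1 l h2.ne' h3.ne
  have hout : ∀ l, l < fi a ∨ fi b < l → M.W.X (fi a) l ≠ M.W.X (fi a) (fi b) := by
    rintro l (h2 | h2)
    · exact h1 l h2.ne (h2.trans hlt).ne
    · exact h1 l (hlt.trans h2).ne' h2.ne'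
  exact ⟨(M.c.s1_right _ _ hlt hin).1, (M.c.s1_left _ _ hlt hin).1, (M.c.s1_top _ _ hlt hout).2,
    (M.c.s1_bot _ _ hlt hout).1⟩

/-- The corner of a flag at a vertex on two lines. -/
theorem corner_sec {i a : Nat} (hi : i < 14) (ha : a < 14) (hne : i ≠ a) {d s : Nat} (hd : d < 2)
    (hs : s < 2) (h : M.S.mult (M.flag i a d s) = 2) :
    secN i a d s < 4 ∧ (M.corner (min i a) (max i a) (secN i a d s) = M.flag i a d s ∨
      M.S.s1 (M.corner (min i a) (max i a) (secN i a d s)) = M.flag i a d s) := by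
  rcases lt_or_gt_of_ne hne with hlt | hlt
  · rw [min_eq_left hlt.le, max_eq_right hlt.le]
    have hl : ltN i a = 1 := by rw [ltN_eq, if_pos hlt]
    unfold secN
    rw [hl]
    interval_cases d <;> interval_cases s <;>
      exact ⟨by decide, Or.inl rfl⟩
  · rw [min_eq_right hlt.le, max_eq_left hlt.le]
    have hl : ltN i a = 0 := by rw [ltN_eq, if_neg (by omega)]
    have hc := M.corners hlt hi (d := 0) (s := 0) (by
      rw [← h]
      exact K7_mult_vert M.facts (M.flag_vert_swap ha hi hne.symm _ _ _ _))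
    unfold secN
    rw [hl]
    interval_cases d <;> interval_cases s
    · exact ⟨by decide, Or.inr hc.2.2.1⟩
    · exact ⟨by decide, Or.inr hc.1⟩
    · exact ⟨by decide, Or.inr hc.2.1⟩
    · exact ⟨by decide, Or.inr hc.2.2.2⟩

/-- The number of nontriangular outer faces in terms of the four corners. -/
theorem nX_corner {a b : Nat} (hab : a < b) (hb : b < 14) (h : M.S.full (M.flag a b 0 0)) :
    M.S.nX (M.flag a b 0 0) = (if M.S.tri (M.S.outer (M.corner a b 0)) then 0 else 1) +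
      (if M.S.tri (M.S.outer (M.corner a b 3)) then 0 else 1) +
      (if M.S.tri (M.S.outer (M.corner a b 1)) then 0 else 1) +
      (if M.S.tri (M.S.outer (M.corner a b 2)) then 0 else 1) := by
  have ha : a < 14 := by omega
  obtain ⟨c0, c1, c2, c3⟩ := M.corners hab hb h.1
  have r1 : M.S.rot (M.flag a b 0 0) = M.S.s1 (M.corner a b 3) := by
    unfold rot
    rw [M.flag_s2 ha hb hab.ne 0 (by omega)]
    rfl
  have r2 : M.S.rot (M.S.rot (M.flag a b 0 0)) = M.corner a b 1 := by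
    rw [r1]
    have e : M.corner a b 3 = M.flag a b 0 1 := rfl
    unfold rot
    rw [e, c3, M.flag_s2 hb ha hab.ne' 1 (by omega)]
    have e2 : M.flag b a 1 (1 - 1) = M.S.s1 (M.flag a b 1 1) := c1.symm
    rw [e2, M.facts.s1s1]
    rfl
  have r3 : M.S.rot (M.S.rot (M.S.rot (M.flag a b 0 0))) = M.S.s1 (M.corner a b 2) := by
    rw [r2]
    unfold rot
    have e : M.corner a b 1 = M.flag a b 1 1 := rfl
    rw [e, M.flag_s2 ha hb hab.ne 1 (by omega)]
    rfl
  obtain ⟨t0, t1, t2, t3⟩ := D1_nc_full h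
  rw [r1, D1_tri_s1 M.facts] at t1
  rw [r3, D1_tri_s1 M.facts] at t3
  unfold nX
  rw [r3, r2, r1]
  simp only [K7_outer_s1 M.facts t1, K7_outer_s1 M.facts t3]
  rfl

section cand
variable {M}
variable {i j k c : Nat}

theorem s0_flag (hij : i < j) (hjk : j < k) (hk : k < 14) (h : M.Cand i j k c) {x y : Nat}
    (hx : x < 3) (hy : y < 3) (hxy : x ≠ y) {s : Nat} (hs : s < 2) :
    M.S.s0 (M.flag (ln i j k x) (ln i j k y) (dirN c x y) s) =
      M.flag (ln i j k x) (ln i j k (thN x y)) (dirN c x (thN x y))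
        (if s = sideN c x y then sideN c x (thN x y) else 1 - sideN c x (thN x y)) := by
  have h3 := thN_spec hx hy hxy
  have l1 := ln_lt (x := x) hij hjk hk
  have l2 := ln_lt (x := y) hij hjk hk
  have l3 := ln_lt (x := thN x y) hij hjk hk
  have m1 := ln_ne (k := k) hij hjk hx hy hxy
  have m2 := ln_ne (k := k) hij hjk hx h3.1 h3.2.1.symm
  have hc := cand_s0 h hx hy hxy
  unfold cflag at hc
  split_ifs with hss
  · rw [hss, hc]
  · have hs' : s = 1 - sideN c x y := by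
      have := sideN_lt c x y
      omega
    rw [hs', ← M.flag_s2 l1 l2 m1 _ (sideN_lt c x y), M.facts.s0s2, hc,
      M.flag_s2 l1 l3 m2 _ (sideN_lt c x (thN x y))]

end cand

end Model

namespace Model

variable (M : Model) (ht : DT)

theorem sem_ryN {k i a d : Nat} (hk : k < 29) (hi : i < 16) (ha : a < 16) (hd : d < 16) :
    M.Sem ht (ryN k i a d) ↔ M.SemK k i a d 0 := by
  unfold ryN
  exact M.sem_enc ht hk hi ha hd

theorem sem_flN {k i a d s : Nat} (hk : k < 29) (hi : i < 16) (ha : a < 16) (hd : d < 2)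
    (hs : s < 2) : M.Sem ht (flN k i a d s) ↔ M.SemK k i a (d + 2 * s) 0 := by
  unfold flN
  have h1 : Nat.add d (Nat.mul (nat_lit 2) s) = d + 2 * s := rfl
  rw [h1]
  exact M.sem_enc ht hk hi ha (by omega)

theorem sem_prN {k i j c : Nat} (hk : k < 29) (hi : i < 16) (hj : j < 16) (hc : c < 16) :
    M.Sem ht (prN k i j c) ↔ M.SemK k (min i j) (max i j) c 0 := by
  unfold prN
  rw [mnN_eq, mxN_eq]
  exact M.sem_enc ht hk (by omega) (by omega) hc

theorem flagE_ds {i a d s : Nat} (hd : d < 2) (hs : s < 2) :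
    M.flagE i a (d + 2 * s) = M.flag i a d s := by
  unfold flagE
  rw [show (d + 2 * s) % 2 = d by omega, show (d + 2 * s) / 2 % 2 = s by omega]

end Model

open Model

variable (M : Model) (ht : DT)

theorem ok_fNFc (t c x y w : Nat) (htt : t < 4096) (hc : c < 16) :
    ClauseT (M.Sem ht) (fNFc t c x y w) := by
  unfold fNFc
  refine clauseT_okc (M.sem_zero ht) fun hbad => ?_
  have hbad' : badc x y = 0 ∧ w < 2 := by
    have : badc x y + (w - 1) = 0 := hbad
    omega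
  obtain ⟨hxy, hx, hy⟩ := badc_eq_zero.1 hbad'.1
  refine M.clauseT_ncd ht htt fun hij hjk hk hc' hC => ?_
  have h3 := thN_spec hx hy hxy
  have l1 := ln_lt (x := x) hij hjk hk
  have l2 := ln_lt (x := y) hij hjk hk
  have l3 := ln_lt (x := thN x y) hij hjk hk
  have m1 := ln_ne (k := n2 t) hij hjk hx hy hxy
  have m3 := ln_ne (k := n2 t) hij hjk hx h3.1 h3.2.1.symm
  have hd := dirN_lt c x y
  have e1 : M.Sem ht (ryN (nat_lit 11) (lnN t x) (lnN t y) (dirN c x y)) ↔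
      M.S.full (M.flag (ln (n0 t) (n1 t) (n2 t) x) (ln (n0 t) (n1 t) (n2 t) (thN x y)) 0 0) := by
    rw [M.sem_ryN ht (by decide) (lnN_lt t x) (lnN_lt t y) (by omega), lnN_ln t hx, lnN_ln t hy]
    show (_ ∧ _ ∧ _ ∧ _ ∧ _) ↔ _
    rw [s0_flag hij hjk hk hC hx hy hxy (by omega),
      K7_full_vert M.facts (M.flag_vert l1 l3 m3 _ _ 0 0)]
    exact ⟨fun h => h.2.2.2.2, fun h => ⟨m1, l1, l2, hd, h⟩⟩
  have e2 : M.Sem ht (prN (nat_lit 8) (lnN t x) (lnN t (thN x y)) (nat_lit 0)) ↔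
      M.S.full (M.flag (ln (n0 t) (n1 t) (n2 t) x) (ln (n0 t) (n1 t) (n2 t) (thN x y)) 0 0) := by
    rw [M.sem_prN ht (by decide) (lnN_lt t x) (lnN_lt t _) (by decide), lnN_ln t hx,
      lnN_ln t h3.1]
    show (_ ∧ _ ∧ _) ↔ _
    rw [K7_full_vert M.facts (M.flag_vert_pr l1 l3 m3 0 0 0 0)]
    exact ⟨fun h => h.2.2, fun h => ⟨by omega, by omega, h⟩⟩
  rw [clauseT_cons, clauseT_cons]
  have hw : w = 0 ∨ w = 1 := by omega
  rcases hw with rfl | rfl
  · rw [litS_lit (by show (1 - 0 : Nat) < 2; omega), litS_lit (by omega), e1, e2]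
    have : ¬ (Nat.sub 1 0 = 0) := by decide
    simp only [this]
    tauto
  · rw [litS_lit (by show (1 - 1 : Nat) < 2; omega), litS_lit (by omega), e1, e2]
    have : (Nat.sub 1 1 = 0) := by decide
    simp only [this]
    tauto

theorem ok_fN21c (t c x y : Nat) (htt : t < 4096) (hc : c < 16) :
    ClauseT (M.Sem ht) (fN21c t c x y) := by
  unfold fN21c
  refine clauseT_okc (M.sem_zero ht) fun hbad => ?_
  obtain ⟨hxy, hx, hy⟩ := badc_eq_zero.1 hbad
  refine M.clauseT_ncd ht htt fun hij hjk hk hc' hC => ?_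
  have h3 := thN_spec hx hy hxy
  have l1 := ln_lt (x := x) hij hjk hk
  have l2 := ln_lt (x := y) hij hjk hk
  have l3 := ln_lt (x := thN x y) hij hjk hk
  have m1 := ln_ne (k := n2 t) hij hjk hx hy hxy
  have m3 := ln_ne (k := n2 t) hij hjk hx h3.1 h3.2.1.symm
  have hd := dirN_lt c x y
  have hs := sideN_lt c x y
  have hd' := dirN_lt c x (thN x y)
  have hs' := sideN_lt c x (thN x y)
  have es : Nat.sub (nat_lit 1) (sideN c x y) = 1 - sideN c x y := rfl
  have es' : Nat.sub (nat_lit 1) (sideN c x (thN x y)) = 1 - sideN c x (thN x y) := rfl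
  rw [clauseT_cons, clauseT_cons, litS_neg, litS_pos, es, es',
    M.sem_flN ht (by decide) (lnN_lt t x) (lnN_lt t y) hd (by omega)]
  by_cases hr : M.SemK (nat_lit 12) (lnN t x) (lnN t y) (dirN c x y + 2 * (1 - sideN c x y)) 0
  swap
  · exact Or.inl hr
  refine Or.inr (Or.inl ?_)
  obtain ⟨-, -, -, -, hG⟩ := hr
  unfold reqG at hG
  rw [M.flagE_ds hd (by omega), lnN_ln t hx, lnN_ln t hy,
    s0_flag hij hjk hk hC hx hy hxy (by omega), if_neg (by omega)] at hG
  obtain ⟨hq, hcor⟩ := M.corner_sec l1 l3 m3 hd' (s := 1 - sideN c x (thN x y)) (by omega) hG.1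
  rw [M.sem_prN ht (by decide) (lnN_lt t x) (lnN_lt t _) (by rw [lnN_ln t hx, lnN_ln t h3.1]; omega),
    lnN_ln t hx, lnN_ln t h3.1]
  refine ⟨by omega, by omega, hq, ?_⟩
  rcases hcor with hcor | hcor
  · rw [hcor]
    exact hG
  · rw [← K7_ty21_s1 M.facts, hcor]
    exact hG

theorem ok_fL2c (t c x y : Nat) (htt : t < 4096) (hc : c < 16) :
    ClauseT (M.Sem ht) (fL2c t c x y) := by
  unfold fL2c
  refine clauseT_okc (M.sem_zero ht) fun hbad => ?_
  obtain ⟨hxy, hx, hy⟩ := badc_eq_zero.1 hbad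
  refine M.clauseT_ncd ht htt fun hij hjk hk hc' hC => ?_
  have h3 := thN_spec hx hy hxy
  have l1 := ln_lt (x := x) hij hjk hk
  have l2 := ln_lt (x := y) hij hjk hk
  have l3 := ln_lt (x := thN x y) hij hjk hk
  have m1 := ln_ne (k := n2 t) hij hjk hx hy hxy
  have m3 := ln_ne (k := n2 t) hij hjk hx h3.1 h3.2.1.symm
  have hd := dirN_lt c x y
  rw [clauseT_cons, clauseT_cons, litS_neg, litS_pos,
    M.sem_ryN ht (by decide) (lnN_lt t x) (lnN_lt t y) (by omega)]
  by_cases hr : M.SemK (nat_lit 19) (lnN t x) (lnN t y) (dirN c x y) 0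
  swap
  · exact Or.inl hr
  refine Or.inr (Or.inl ?_)
  obtain ⟨-, -, -, -, hfull, hnX, -⟩ := hr
  rw [lnN_ln t hx, lnN_ln t hy, s0_flag hij hjk hk hC hx hy hxy (by omega)] at hfull hnX
  rw [M.sem_prN ht (by decide) (lnN_lt t x) (lnN_lt t _) (by decide), lnN_ln t hx, lnN_ln t h3.1]
  have hv := M.flag_vert_pr l1 l3 m3 0 0 (dirN c x (thN x y))
    (if 0 = sideN c x y then sideN c x (thN x y) else 1 - sideN c x (thN x y))
  have hfull' := (K7_full_vert M.facts hv).2 hfull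
  have hnX' := K7_nX_vert M.facts hfull hv
  refine ⟨by omega, by omega, ?_⟩
  rw [M.nX_corner (by omega) (by omega) hfull'] at hnX'
  rw [← hnX'] at hnX
  intro q r hqr hr4
  by_contra hcon
  push Not at hcon
  obtain ⟨hc1, hc2⟩ := hcon
  have hr' : r = 1 ∨ r = 2 ∨ r = 3 := by omega
  have hq' : q = 0 ∨ q = 1 ∨ q = 2 := by omega
  rcases hr' with rfl | rfl | rfl <;> rcases hq' with rfl | rfl | rfl <;>
    first
    | (exfalso; omega)
    | (rw [if_neg hc1, if_neg hc2] at hnX; omega)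

theorem ok_fL4c (t c x y : Nat) (htt : t < 4096) (hc : c < 16) :
    ClauseT (M.Sem ht) (fL4c t c x y) := by
  unfold fL4c
  refine clauseT_okc (M.sem_zero ht) fun hbad => ?_
  obtain ⟨hxy, hx, hy⟩ := badc_eq_zero.1 hbad
  refine M.clauseT_ncd ht htt fun hij hjk hk hc' hC => ?_
  have h3 := thN_spec hx hy hxy
  have l1 := ln_lt (x := x) hij hjk hk
  have l2 := ln_lt (x := y) hij hjk hk
  have l3 := ln_lt (x := thN x y) hij hjk hk
  have m1 := ln_ne (k := n2 t) hij hjk hx hy hxy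
  have m3 := ln_ne (k := n2 t) hij hjk hx h3.1 h3.2.1.symm
  have hd := dirN_lt c x y
  have hd' := dirN_lt c x (thN x y)
  rw [clauseT_cons, clauseT_cons, litS_neg, litS_pos,
    M.sem_ryN ht (by decide) (lnN_lt t x) (lnN_lt t y) (by omega),
    M.sem_ryN ht (by decide) (lnN_lt t x) (lnN_lt t _) (by omega)]
  by_cases hr : M.SemK (nat_lit 18) (lnN t x) (lnN t y) (dirN c x y) 0
  swap
  · exact Or.inl hr
  refine Or.inr (Or.inl ?_)
  obtain ⟨-, -, -, -, hm, hfull, hnX, hnB⟩ := hr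
  rw [lnN_ln t hx, lnN_ln t hy] at hm hfull hnX hnB
  rw [s0_flag hij hjk hk hC hx hy hxy (by omega)] at hfull hnX hnB
  rw [lnN_ln t hx, lnN_ln t h3.1]
  have hv := M.flag_vert l1 l3 m3 (dirN c x (thN x y)) 0 (dirN c x (thN x y))
    (if 0 = sideN c x y then sideN c x (thN x y) else 1 - sideN c x (thN x y))
  refine ⟨m3, l1, l3, hd', (K7_full_vert M.facts hv).2 hfull, ?_, ?_, ?_⟩
  · rw [K7_nX_vert M.facts hfull hv, hnX]
  · rw [K7_nBig_vert M.facts hfull.1 hv, hnB]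
  · have e := s0_flag hij hjk hk hC hx h3.1 h3.2.1.symm (s := 0) (by omega)
    have e2 : thN x (thN x y) = y := by
      have : ∀ a b : Nat, thN a b = 3 - (a + b) := fun _ _ => rfl
      rw [this, this]
      omega
    rw [e, e2]
    rw [K7_mult_vert (S := M.S) M.facts (M.flag_vert l1 l2 m1 _ _ (dirN c x y) 0)]
    exact hm

theorem ok_fL1c (t c x y : Nat) (htt : t < 4096) (hc : c < 16) :
    ClauseT (M.Sem ht) (fL1c t c x y) := by
  unfold fL1c
  refine clauseT_okc (M.sem_zero ht) fun hbad => ?_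
  obtain ⟨hxy, hx, hy⟩ := badc_eq_zero.1 hbad
  refine M.clauseT_ncd ht htt fun hij hjk hk hc' hC => ?_
  have h3 := thN_spec hx hy hxy
  have l1 := ln_lt (x := x) hij hjk hk
  have l2 := ln_lt (x := y) hij hjk hk
  have l3 := ln_lt (x := thN x y) hij hjk hk
  have m1 := ln_ne (k := n2 t) hij hjk hx hy hxy
  have m3 := ln_ne (k := n2 t) hij hjk hx h3.1 h3.2.1.symm
  have hd := dirN_lt c x y
  have hd' := dirN_lt c x (thN x y)
  have hs' := sideN_lt c x (thN x y)
  rw [clauseT_cons, clauseT_cons, clauseT_cons, litS_neg, litS_pos, litS_pos,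
    M.sem_ryN ht (by decide) (lnN_lt t x) (lnN_lt t y) (by omega),
    M.sem_flN ht (by decide) (lnN_lt t x) (lnN_lt t _) hd' (by decide),
    M.sem_flN ht (by decide) (lnN_lt t x) (lnN_lt t _) hd' (by decide)]
  by_cases hr : M.SemK (nat_lit 20) (lnN t x) (lnN t y) (dirN c x y) 0
  swap
  · exact Or.inl hr
  refine Or.inr ?_
  obtain ⟨-, -, -, -, s, hs, hty, hm⟩ := hr
  unfold outer at hty hm
  rw [lnN_ln t hx, lnN_ln t hy, s0_flag hij hjk hk hC hx hy hxy hs] at hty hm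
  have key : ∀ s' : Nat, s' < 2 →
      M.S.ty21 (M.S.s2 (M.S.s1 (M.flag (ln (n0 t) (n1 t) (n2 t) x)
        (ln (n0 t) (n1 t) (n2 t) (thN x y)) (dirN c x (thN x y)) s'))) →
      M.S.mult (M.S.s0 (M.S.s2 (M.S.s1 (M.flag (ln (n0 t) (n1 t) (n2 t) x)
        (ln (n0 t) (n1 t) (n2 t) (thN x y)) (dirN c x (thN x y)) s')))) = 2 →
      M.SemK 17 (lnN t x) (lnN t (thN x y)) (dirN c x (thN x y) + 2 * s') 0 := by
    intro s' hs2 h1 h2
    rw [lnN_ln t hx, lnN_ln t h3.1]
    refine ⟨m3, l1, l3, by omega, ?_, ?_⟩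
    · rw [M.flagE_ds hd' hs2]
      exact h1
    · rw [M.flagE_ds hd' hs2]
      exact h2
  have hlt : (if s = sideN c x y then sideN c x (thN x y) else 1 - sideN c x (thN x y)) < 2 := by
    split_ifs <;> omega
  have h4 := key _ hlt hty hm
  have h5 : (if s = sideN c x y then sideN c x (thN x y) else 1 - sideN c x (thN x y)) = 0 ∨
    (if s = sideN c x y then sideN c x (thN x y) else 1 - sideN c x (thN x y)) = 1 := by omega
  rcases h5 with h5 | h5
  · rw [h5] at h4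
    exact Or.inl h4
  · rw [h5] at h4
    exact Or.inr (Or.inl h4)

end Pool.Agent.Helper58.PLK
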