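import Pool.Agent.Helper58.PLK.K6
import Pool.Agent.Helper15.PL.D2

/-!
# Block K8: families on candidate triangles
-/

namespace Pool.Agent.Helper58.PLK

open Pool.Agent.Helper15.PL

namespace K8

variable (M : Model) (ht : DT)

theorem vert_swap {i a : Nat} (hi : i < 14) (ha : a < 14) (hia : i ≠ a) (d s d' s' : Nat) :
    M.S.vert (M.flag i a d s) = M.S.vert (M.flag a i d' s') := by
  obtain ⟨V, hV, h1, h2⟩ := RF.exists_isV M.W (Model.fi_ne hi ha hia)
  unfold Model.flag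
  rw [RF.vert_eq M.c hV h1 h2 (Model.fi_ne hi ha hia), RF.vert_eq M.c hV h2 h1
    (Model.fi_ne ha hi hia.symm)]

theorem vert_min {i a : Nat} (hi : i < 14) (ha : a < 14) (hia : i ≠ a) (d s d' s' : Nat) :
    M.S.vert (M.flag (min i a) (max i a) d' s') = M.S.vert (M.flag i a d s) := by
  rcases lt_or_gt_of_ne hia with h | h
  · rw [min_eq_left h.le, max_eq_right h.le]
    exact K6.vert_flag M hi ha hia _ _ _ _
  · rw [min_eq_right h.le, max_eq_left h.le]
    exact vert_swap M ha hi hia.symm _ _ _ _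

theorem mult_of_vert {f g : M.S.F} (h : M.S.vert g = M.S.vert f) : M.S.mult g = M.S.mult f := by
  unfold FlagSys.mult
  rw [h]

theorem full_rot (f : M.S.F) : M.S.full (M.S.rot f) ↔ M.S.full f := by
  unfold FlagSys.full
  rw [D2.mult_rot M.facts]
  constructor
  · rintro ⟨h1, h2⟩
    rw [D2.nc_rot M.facts h1] at h2
    exact ⟨h1, h2⟩
  · rintro ⟨h1, h2⟩
    rw [← D2.nc_rot M.facts h1] at h2
    exact ⟨h1, h2⟩

theorem full_rot_iter (k : Nat) (f : M.S.F) : M.S.full (M.S.rot^[k] f) ↔ M.S.full f := by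
  induction k generalizing f with
  | zero => exact Iff.rfl
  | succ k ih => rw [Function.iterate_succ_apply, ih, full_rot]

theorem full_of_vert {f g : M.S.F} (h : M.S.vert g = M.S.vert f) : M.S.full g ↔ M.S.full f := by
  obtain ⟨k, -, h1 | h1⟩ := M.facts.vert_orbit f g h
  · rw [h1, full_rot_iter]
  · rw [h1, D2.full_s2 M.facts, full_rot_iter]

theorem ty21_s1 (f : M.S.F) (h : M.S.ty21 f) : M.S.ty21 (M.S.s1 f) := by
  obtain ⟨h1, h2, h3⟩ := h
  refine ⟨by rw [D2.mult_s1 M.facts]; exact h1, ?_, fun h4 => h3 ((D2.tri_s1 M.facts f).1 h4)⟩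
  rw [← D2.rot_s2 M.facts, D2.nc_rot M.facts (by rw [D2.mult_s2 M.facts]; exact h1),
    D2.nc_s2 M.facts h1]
  exact h2

theorem pr_eq (k i a c : Nat) : prN k i a c = enc k (min i a) (max i a) c 0 := by
  unfold prN
  rw [mnN_eq, mxN_eq]

theorem sem_pr7 {i a : Nat} (hi : i < 14) (ha : a < 14) (hia : i ≠ a) (d s : Nat) :
    M.Sem ht (prN 7 i a 0) ↔ M.S.mult (M.flag i a d s) = 2 := by
  rw [pr_eq, K6.sem7 M ht (by omega) (by omega), mult_of_vert M (vert_min M hi ha hia d s 0 0)]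
  constructor
  · exact fun h => h.2.2
  · exact fun h => ⟨by omega, by omega, h⟩

theorem sem_pr10 {i a : Nat} (hi : i < 14) (ha : a < 14) (hia : i ≠ a) (d s : Nat) :
    M.Sem ht (prN 10 i a 0) ↔ M.S.mult (M.flag i a d s) = 3 := by
  rw [pr_eq, K6.sem10 M ht (by omega) (by omega), mult_of_vert M (vert_min M hi ha hia d s 0 0)]
  constructor
  · exact fun h => h.2.2
  · exact fun h => ⟨by omega, by omega, h⟩

theorem sem_pr8 {i a : Nat} (hi : i < 14) (ha : a < 14) (hia : i ≠ a) (d s : Nat) :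
    M.Sem ht (prN 8 i a 0) ↔ M.S.full (M.flag i a d s) := by
  rw [pr_eq, K6.sem8 M ht (by omega) (by omega), full_of_vert M (vert_min M hi ha hia d s 0 0)]
  constructor
  · exact fun h => h.2.2
  · exact fun h => ⟨by omega, by omega, h⟩

theorem secN_lt {i a d s : Nat} (hia : i < a) (hd : d < 2) (hs : s < 2) :
    (d = 0 ∧ s = 0 ∧ secN i a d s = 0) ∨ (d = 0 ∧ s = 1 ∧ secN i a d s = 3) ∨
    (d = 1 ∧ s = 0 ∧ secN i a d s = 2) ∨ (d = 1 ∧ s = 1 ∧ secN i a d s = 1) := by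
  unfold secN
  rw [ltN_eq, if_pos hia]
  interval_cases d <;> interval_cases s <;> decide

theorem secN_gt {i a d s : Nat} (hia : a < i) (hd : d < 2) (hs : s < 2) :
    (d = 0 ∧ s = 0 ∧ secN i a d s = 2) ∨ (d = 0 ∧ s = 1 ∧ secN i a d s = 0) ∨
    (d = 1 ∧ s = 0 ∧ secN i a d s = 1) ∨ (d = 1 ∧ s = 1 ∧ secN i a d s = 3) := by
  unfold secN
  rw [ltN_eq, if_neg (by omega)]
  interval_cases d <;> interval_cases s <;> decide

theorem corner_lt {i a d s : Nat} (hia : i < a) (hd : d < 2) (hs : s < 2) :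
    M.corner i a (secN i a d s) = M.flag i a d s := by
  obtain ⟨e0, e1, e2, e3⟩ := K6.corner_eq M (i := i) (j := a)
  rcases secN_lt hia hd hs with ⟨rfl, rfl, h⟩ | ⟨rfl, rfl, h⟩ | ⟨rfl, rfl, h⟩ | ⟨rfl, rfl, h⟩ <;>
    rw [h]
  · exact e0
  · exact e3
  · exact e2
  · exact e1

theorem corner_gt {i a d s : Nat} (hia : a < i) (hi : i < 14) (hd : d < 2) (hs : s < 2)
    (h2 : M.S.mult (M.flag a i 0 0) = 2) :
    M.corner a i (secN i a d s) = M.S.s1 (M.flag i a d s) := by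
  obtain ⟨e0, e1, e2, e3⟩ := K6.corner_eq M (i := a) (j := i)
  rcases secN_gt hia hd hs with ⟨rfl, rfl, h⟩ | ⟨rfl, rfl, h⟩ | ⟨rfl, rfl, h⟩ | ⟨rfl, rfl, h⟩ <;>
    rw [h]
  · rw [e2, (K6.s1_top M hia hi h2).1]
  · rw [e0, (K6.s1_right M hia hi h2).2]
  · rw [e1, (K6.s1_left M hia hi h2).2]
  · rw [e3, (K6.s1_bot M hia hi h2).2]

theorem secN_four {i a d s : Nat} (hia : i ≠ a) (hd : d < 2) (hs : s < 2) : secN i a d s < 4 := by
  rcases lt_or_gt_of_ne hia with h | h
  · rcases secN_lt h hd hs with ⟨-, -, h⟩ | ⟨-, -, h⟩ | ⟨-, -, h⟩ | ⟨-, -, h⟩ <;> omega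
  · rcases secN_gt h hd hs with ⟨-, -, h⟩ | ⟨-, -, h⟩ | ⟨-, -, h⟩ | ⟨-, -, h⟩ <;> omega

/-- The variable of a corner of type (2,1). -/
theorem sem_pr9 {i a d s : Nat} (hi : i < 14) (ha : a < 14) (hia : i ≠ a) (hd : d < 2) (hs : s < 2)
    (h : M.S.ty21 (M.flag i a d s)) : M.Sem ht (prN 9 i a (secN i a d s)) := by
  have h4 := secN_four hia hd hs
  rw [pr_eq, K6.sem9 M ht (by omega) (by omega) (by omega)]
  refine ⟨by omega, by omega, h4, ?_⟩
  rcases lt_or_gt_of_ne hia with h5 | h5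
  · rw [min_eq_left h5.le, max_eq_right h5.le, corner_lt M h5 hd hs]
    exact h
  · have h2 : M.S.mult (M.flag a i 0 0) = 2 := by
      rw [← mult_of_vert M (vert_swap M hi ha hia d s 0 0)]
      exact h.1
    rw [min_eq_right h5.le, max_eq_left h5.le, corner_gt M h5 hi hd hs h2]
    exact ty21_s1 M _ h

theorem pr_comm (k i a c : Nat) : prN k i a c = prN k a i c := by
  rw [pr_eq, pr_eq, min_comm, max_comm]

theorem flagE_eq {i a d s : Nat} (hd : d < 2) (hs : s < 2) :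
    M.flagE i a (d + 2 * s) = M.flag i a d s := by
  unfold Model.flagE
  rw [show (d + 2 * s) % 2 = d by omega, show (d + 2 * s) / 2 % 2 = s by omega]

theorem sem_fl {k i a d s : Nat} (hk : k < 29) (hi : i < 16) (ha : a < 16) (hd : d < 2)
    (hs : s < 2) : M.Sem ht (flN k i a d s) ↔ M.SemK k i a (d + 2 * s) 0 :=
  M.sem_enc ht hk hi ha (by
    show d + 2 * s < 16
    omega)

theorem sem_ry {k i a d : Nat} (hk : k < 29) (hi : i < 16) (ha : a < 16) (hd : d < 16) :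
    M.Sem ht (ryN k i a d) ↔ M.SemK k i a d 0 :=
  M.sem_enc ht hk hi ha hd

theorem s2_flag {i a : Nat} (hi : i < 14) (ha : a < 14) (hia : i ≠ a) {d s : Nat} (hs : s < 2) :
    M.S.s2 (M.flag i a d s) = M.flag i a d (1 - s) := by
  have hb : bo (1 - s) = !(bo s) := by
    interval_cases s <;> rfl
  unfold Model.flag
  rw [hb]
  exact M.c.s2_Φ _ _ _ _ (Model.fi_ne hi ha hia)

theorem line_flag {i a : Nat} (hi : i < 14) (ha : a < 14) (hia : i ≠ a) (d s : Nat) :
    M.S.line (M.flag i a d s) = M.c.perm (fi i) :=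
  M.c.line_Φ _ _ _ _ (Model.fi_ne hi ha hia)

end K8

variable (M : Model) (ht : DT)

open K8

section

variable {t c x y : Nat}

theorem ok_fALc (t c x y : Nat) (htt : t < 4096) (hc : c < 16) :
    ClauseT (M.Sem ht) (fALc t c x y) := by
  unfold fALc
  refine clauseT_okc (M.sem_zero ht) fun hbad => ?_
  obtain ⟨hxy, hx, hy⟩ := Model.badc_eq_zero.1 hbad
  obtain ⟨hz, hzx, hzy, hzz⟩ := Model.thN_spec hx hy hxy
  refine M.clauseT_ncd ht htt fun h1 h2 h3 h4 hC => ?_
  have hs := Model.sideN_lt c x y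
  have hd := Model.dirN_lt c x y
  have la : ∀ w, Model.ln (n0 t) (n1 t) (n2 t) w < 14 := fun w => Model.ln_lt h1 h2 h3
  have lxy := Model.ln_ne h1 h2 hx hy hxy
  have lyz := Model.ln_ne h1 h2 hy hz hzy.symm
  rw [Model.lnN_ln t hx, Model.lnN_ln t hy, Model.lnN_ln t hz]
  rw [clauseT_cons, clauseT_cons, litS_neg, litS_pos]
  by_contra hcon
  push Not at hcon
  obtain ⟨g1, g2, -⟩ := hcon
  rw [sem_fl M ht (by omega) (by have := la x; omega) (by have := la y; omega) hd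
    (by show 1 - _ < 2; omega)] at g1
  obtain ⟨-, -, -, -, g3⟩ := g1
  rw [flagE_eq M hd (by show 1 - _ < 2; omega)] at g3
  have e : M.flag (Model.ln (n0 t) (n1 t) (n2 t) x) (Model.ln (n0 t) (n1 t) (n2 t) y) (dirN c x y)
      (Nat.sub 1 (sideN c x y)) = M.S.s2 (M.cflag (n0 t) (n1 t) (n2 t) c x y) :=
    (s2_flag M (la x) (la y) lxy hs).symm
  rw [e] at g3
  have g4 := g3.2
  rw [M.facts.s2s2, Model.cand_s1 hC hx hy hxy, Model.cand_s0 hC hy hx hxy.symm, hzz] at g4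
  exact g2 ((sem_pr8 M ht (la y) (la _) lyz _ _).2 g4)

theorem ok_fBE1c (t c x y : Nat) (htt : t < 4096) (hc : c < 16) :
    ClauseT (M.Sem ht) (fBE1c t c x y) := by
  unfold fBE1c
  refine clauseT_okc (M.sem_zero ht) fun hbad => ?_
  obtain ⟨hxy, hx, hy⟩ := Model.badc_eq_zero.1 hbad
  obtain ⟨hz, hzx, hzy, hzz⟩ := Model.thN_spec hx hy hxy
  refine M.clauseT_ncd ht htt fun h1 h2 h3 h4 hC => ?_
  have hs := Model.sideN_lt c x y
  have hd := Model.dirN_lt c x y
  have la : ∀ w, Model.ln (n0 t) (n1 t) (n2 t) w < 14 := fun w => Model.ln_lt h1 h2 h3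
  have lxy := Model.ln_ne h1 h2 hx hy hxy
  have lxz := Model.ln_ne h1 h2 hx hz hzx.symm
  rw [Model.lnN_ln t hx, Model.lnN_ln t hy, Model.lnN_ln t hz]
  rw [clauseT_cons, clauseT_cons, litS_neg, litS_pos]
  by_contra hcon
  push Not at hcon
  obtain ⟨g1, g2, -⟩ := hcon
  rw [sem_fl M ht (by omega) (by have := la x; omega) (by have := la y; omega) hd
    (by show 1 - _ < 2; omega)] at g1
  obtain ⟨-, -, -, -, g3⟩ := g1
  rw [flagE_eq M hd (by show 1 - _ < 2; omega)] at g3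
  have e : M.flag (Model.ln (n0 t) (n1 t) (n2 t) x) (Model.ln (n0 t) (n1 t) (n2 t) y) (dirN c x y)
      (Nat.sub 1 (sideN c x y)) = M.S.s2 (M.cflag (n0 t) (n1 t) (n2 t) c x y) :=
    (s2_flag M (la x) (la y) lxy hs).symm
  rw [e] at g3
  have g4 := g3.2.2.1
  rw [M.facts.s0s2, D2.mult_s2 M.facts, Model.cand_s0 hC hx hy hxy] at g4
  exact g2 ((sem_pr7 M ht (la x) (la _) lxz _ _).2 g4)

theorem ok_fBE2c (t c x y : Nat) (htt : t < 4096) (hc : c < 16) :
    ClauseT (M.Sem ht) (fBE2c t c x y) := by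
  unfold fBE2c
  refine clauseT_okc (M.sem_zero ht) fun hbad => ?_
  obtain ⟨hxy, hx, hy⟩ := Model.badc_eq_zero.1 hbad
  obtain ⟨hz, hzx, hzy, hzz⟩ := Model.thN_spec hx hy hxy
  refine M.clauseT_ncd ht htt fun h1 h2 h3 h4 hC => ?_
  have hs := Model.sideN_lt c x y
  have hd := Model.dirN_lt c x y
  have hs' := Model.sideN_lt c (thN x y) y
  have hd' := Model.dirN_lt c (thN x y) y
  have la : ∀ w, Model.ln (n0 t) (n1 t) (n2 t) w < 14 := fun w => Model.ln_lt h1 h2 h3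
  have lxy := Model.ln_ne h1 h2 hx hy hxy
  have lzy := Model.ln_ne h1 h2 hz hy hzy
  rw [Model.lnN_ln t hx, Model.lnN_ln t hy, Model.lnN_ln t hz]
  rw [clauseT_cons, clauseT_cons, litS_neg, litS_pos]
  by_contra hcon
  push Not at hcon
  obtain ⟨g1, g2, -⟩ := hcon
  rw [sem_fl M ht (by omega) (by have := la x; omega) (by have := la y; omega) hd
    (by show 1 - _ < 2; omega)] at g1
  obtain ⟨-, -, -, -, g3⟩ := g1
  rw [flagE_eq M hd (by show 1 - _ < 2; omega)] at g3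
  have e : M.flag (Model.ln (n0 t) (n1 t) (n2 t) x) (Model.ln (n0 t) (n1 t) (n2 t) y) (dirN c x y)
      (Nat.sub 1 (sideN c x y)) = M.S.s2 (M.cflag (n0 t) (n1 t) (n2 t) c x y) :=
    (s2_flag M (la x) (la y) lxy hs).symm
  rw [e] at g3
  have g4 := g3.2.2.2
  have hzz' : thN (thN x y) x = y := by
    have hh : ∀ a b : Nat, thN a b = 3 - (a + b) := fun _ _ => rfl
    rw [hh, hh]
    omega
  rw [M.facts.s2s2, Model.cand_s0 hC hx hy hxy, Model.cand_s1 hC hx hz hzx.symm, M.facts.s0s2,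
    Model.cand_s0 hC hz hx hzx, hzz'] at g4
  have e' : M.S.s2 (M.cflag (n0 t) (n1 t) (n2 t) c (thN x y) y) =
      M.flag (Model.ln (n0 t) (n1 t) (n2 t) (thN x y)) (Model.ln (n0 t) (n1 t) (n2 t) y)
        (dirN c (thN x y) y) (1 - sideN c (thN x y) y) :=
    s2_flag M (la _) (la y) lzy hs'
  rw [e'] at g4
  have g5 := sem_pr9 M ht (la _) (la y) lzy hd' (by omega) g4
  rw [pr_comm] at g5
  exact g2 g5

theorem ok_fB1c (t c x y : Nat) (htt : t < 4096) (hc : c < 16) :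
    ClauseT (M.Sem ht) (fB1c t c x y) := by
  unfold fB1c
  refine clauseT_okc (M.sem_zero ht) fun hbad => ?_
  obtain ⟨hxy, hx, hy⟩ := Model.badc_eq_zero.1 hbad
  obtain ⟨hz, hzx, hzy, hzz⟩ := Model.thN_spec hx hy hxy
  refine M.clauseT_ncd ht htt fun h1 h2 h3 h4 hC => ?_
  have hs := Model.sideN_lt c x y
  have hd := Model.dirN_lt c x y
  have la : ∀ w, Model.ln (n0 t) (n1 t) (n2 t) w < 14 := fun w => Model.ln_lt h1 h2 h3
  have lyz := Model.ln_ne h1 h2 hy hz hzy.symm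
  rw [Model.lnN_ln t hx, Model.lnN_ln t hy, Model.lnN_ln t hz]
  rw [clauseT_cons, clauseT_cons, litS_neg, litS_pos]
  by_contra hcon
  push Not at hcon
  obtain ⟨g1, g2, -⟩ := hcon
  rw [sem_fl M ht (by omega) (by have := la x; omega) (by have := la y; omega) hd hs] at g1
  obtain ⟨-, -, -, -, -, g3⟩ := g1
  rw [flagE_eq M hd hs] at g3
  change M.S.mult (M.S.s0 (M.S.s2 (M.S.s1 (M.cflag (n0 t) (n1 t) (n2 t) c x y)))) = 2 at g3
  rw [Model.cand_s1 hC hx hy hxy, M.facts.s0s2, D2.mult_s2 M.facts,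
    Model.cand_s0 hC hy hx hxy.symm, hzz] at g3
  exact g2 ((sem_pr7 M ht (la y) (la _) lyz _ _).2 g3)

theorem ok_fXQc (t c x y w : Nat) (htt : t < 4096) (hc : c < 16) :
    ClauseT (M.Sem ht) (fXQc t c x y w) := by
  unfold fXQc
  refine clauseT_okc (M.sem_zero ht) fun hbad => ?_
  have hbad' : badc x y + ((w - 1) + (x - y)) = 0 := hbad
  obtain ⟨hxy, hx, hy⟩ := Model.badc_eq_zero.1 (by omega : badc x y = 0)
  have hw : w < 2 := by omega
  have hlt : x < y := by omega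
  obtain ⟨hz, hzx, hzy, hzz⟩ := Model.thN_spec hx hy hxy
  refine M.clauseT_ncd ht htt fun h1 h2 h3 h4 hC => ?_
  have hs := Model.sideN_lt c x y
  have hd := Model.dirN_lt c x y
  have hs' := Model.sideN_lt c (thN x y) x
  have hd' := Model.dirN_lt c (thN x y) x
  have la : ∀ w, Model.ln (n0 t) (n1 t) (n2 t) w < 14 := fun w => Model.ln_lt h1 h2 h3
  have lxy := Model.ln_ne h1 h2 hx hy hxy
  have lzx := Model.ln_ne h1 h2 hz hx hzx
  have llt : Model.ln (n0 t) (n1 t) (n2 t) x < Model.ln (n0 t) (n1 t) (n2 t) y := by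
    interval_cases y <;> interval_cases x <;> first | omega | (simp only [Model.ln]; omega)
  rw [Model.lnN_ln t hx, Model.lnN_ln t hy, Model.lnN_ln t hz]
  have hAB : M.Sem ht (prN 22 (Model.ln (n0 t) (n1 t) (n2 t) x) (Model.ln (n0 t) (n1 t) (n2 t) y)
      (secN (Model.ln (n0 t) (n1 t) (n2 t) x) (Model.ln (n0 t) (n1 t) (n2 t) y) (dirN c x y)
        (sideN c x y))) ↔
      M.Sem ht (flN 5 (Model.ln (n0 t) (n1 t) (n2 t) (thN x y)) (Model.ln (n0 t) (n1 t) (n2 t) x)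
        (dirN c (thN x y) x) (Nat.sub 1 (sideN c (thN x y) x))) := by
    have h5 := secN_four lxy hd hs
    rw [sem_fl M ht (by omega) (by have := la (thN x y); omega) (by have := la x; omega) hd'
      (by show 1 - _ < 2; omega), pr_eq, min_eq_left llt.le, max_eq_right llt.le,
      M.sem_enc ht (by omega) (by have := la x; omega) (by have := la y; omega) (by omega)]
    have e' : M.S.s2 (M.cflag (n0 t) (n1 t) (n2 t) c (thN x y) x) =
        M.flag (Model.ln (n0 t) (n1 t) (n2 t) (thN x y)) (Model.ln (n0 t) (n1 t) (n2 t) x)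
          (dirN c (thN x y) x) (1 - sideN c (thN x y) x) :=
      s2_flag M (la _) (la x) lzx hs'
    have e1 : M.S.outer (M.corner (Model.ln (n0 t) (n1 t) (n2 t) x)
        (Model.ln (n0 t) (n1 t) (n2 t) y)
        (secN (Model.ln (n0 t) (n1 t) (n2 t) x) (Model.ln (n0 t) (n1 t) (n2 t) y) (dirN c x y)
          (sideN c x y))) = M.S.s2 (M.cflag (n0 t) (n1 t) (n2 t) c (thN x y) x) := by
      rw [corner_lt M llt hd hs]
      change M.S.outer (M.cflag (n0 t) (n1 t) (n2 t) c x y) = _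
      unfold FlagSys.outer
      rw [Model.cand_s0 hC hx hy hxy, Model.cand_s1 hC hx hz hzx.symm]
    have e2 : M.flagE (Model.ln (n0 t) (n1 t) (n2 t) (thN x y)) (Model.ln (n0 t) (n1 t) (n2 t) x)
        (dirN c (thN x y) x + 2 * (Nat.sub 1 (sideN c (thN x y) x))) =
        M.S.s2 (M.cflag (n0 t) (n1 t) (n2 t) c (thN x y) x) := by
      rw [flagE_eq M hd' (by show 1 - _ < 2; omega), e']
      rfl
    constructor
    · intro h
      have h6 := h.2.2.2
      rw [e1] at h6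
      refine ⟨lzx, la _, la _, ?_, ?_⟩
      · show dirN c (thN x y) x + 2 * (1 - sideN c (thN x y) x) < 4
        omega
      · rw [e2]
        exact h6
    · intro h
      have h6 := h.2.2.2.2
      rw [e2] at h6
      refine ⟨llt, la _, h5, ?_⟩
      rw [e1]
      exact h6
  rw [clauseT_cons, clauseT_cons, litS_lit (by show 1 - w < 2; omega), litS_lit hw, hAB]
  generalize M.Sem ht (flN 5 (Model.ln (n0 t) (n1 t) (n2 t) (thN x y))
    (Model.ln (n0 t) (n1 t) (n2 t) x) (dirN c (thN x y) x) (Nat.sub 1 (sideN c (thN x y) x))) = p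
  interval_cases w
  · by_cases hp : p
    · right; left; simp [hp]
    · left; simp [hp]
  · by_cases hp : p
    · left; simp [hp]
    · right; left; simp [hp]

theorem ok_fBADa (t c x y d : Nat) (htt : t < 4096) (hc : c < 16)
    (hd : d < 16) : ClauseT (M.Sem ht) (fBADa t c x y d) := by
  unfold fBADa
  refine clauseT_okc (M.sem_zero ht) fun hbad => ?_
  obtain ⟨hxy, hx, hy⟩ := Model.badc_eq_zero.1 hbad
  obtain ⟨hz, hzx, hzy, hzz⟩ := Model.thN_spec hx hy hxy
  refine M.clauseT_ncd ht htt fun h1 h2 h3 h4 hC => ?_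
  have la : ∀ w, Model.ln (n0 t) (n1 t) (n2 t) w < 14 := fun w => Model.ln_lt h1 h2 h3
  have lxy := Model.ln_ne h1 h2 hx hy hxy
  have lyz := Model.ln_ne h1 h2 hy hz hzy.symm
  rw [Model.lnN_ln t hx, Model.lnN_ln t hy, Model.lnN_ln t hz]
  rw [clauseT_cons, clauseT_cons, litS_neg, litS_pos]
  by_contra hcon
  push Not at hcon
  obtain ⟨g1, g2, -⟩ := hcon
  rw [sem_ry M ht (by omega) (by have := la x; omega) (by have := la y; omega) hd] at g1
  obtain ⟨-, -, -, hd2, g3, g4, g5, g6⟩ := g1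
  have hb := D2.bad_of g3 g4 g5 g6
  have hv : M.S.vert (M.cflag (n0 t) (n1 t) (n2 t) c y x) =
      M.S.vert (M.flag (Model.ln (n0 t) (n1 t) (n2 t) x) (Model.ln (n0 t) (n1 t) (n2 t) y) d 0) :=
    vert_swap M (la y) (la x) lxy.symm _ _ _ _
  have hf : M.S.full (M.cflag (n0 t) (n1 t) (n2 t) c y x) := (full_of_vert M hv).2 g3
  have hlow : 3 ≤ M.S.mult (M.S.s0 (M.cflag (n0 t) (n1 t) (n2 t) c y x)) :=
    D2.F2 M.facts M.hM hf.1 (D2.full_tri hf).1 (D2.full_tri hf).2.1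
  have hup : M.S.mult (M.S.s0 (M.cflag (n0 t) (n1 t) (n2 t) c y x)) ≤ 3 := by
    have hl : M.S.line (M.cflag (n0 t) (n1 t) (n2 t) c y x) ≠
        M.S.line (M.flag (Model.ln (n0 t) (n1 t) (n2 t) x) (Model.ln (n0 t) (n1 t) (n2 t) y) d 0) := by
      unfold Model.cflag
      rw [line_flag M (la y) (la x) lxy.symm, line_flag M (la x) (la y) lxy]
      intro h
      exact Model.fi_ne (la y) (la x) lxy.symm (M.c.perm.injective h)
    obtain ⟨k, hk, hk'⟩ := M.facts.vert_orbit _ _ hv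
    rw [hb.m] at hk
    have hline : ∀ q, M.S.mult (M.S.s0 (M.S.rot^[k] q)) ≤ 3 →
        (M.cflag (n0 t) (n1 t) (n2 t) c y x = M.S.rot^[k] q ∨
        M.cflag (n0 t) (n1 t) (n2 t) c y x = M.S.s2 (M.S.rot^[k] q)) →
        M.S.mult (M.S.s0 (M.cflag (n0 t) (n1 t) (n2 t) c y x)) ≤ 3 := by
      intro q hq hq'
      rcases hq' with hq' | hq'
      · rw [hq']; exact hq
      · rw [hq', M.facts.s0s2, D2.mult_s2 M.facts]; exact hq
    refine hline _ ?_ hk'
    have hopp := M.facts.rot_line_opp (M.flag (Model.ln (n0 t) (n1 t) (n2 t) x)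
      (Model.ln (n0 t) (n1 t) (n2 t) y) d 0)
    rw [hb.m] at hopp
    interval_cases k
    · exfalso
      rcases hk' with hk' | hk'
      · exact hl (by rw [hk']; rfl)
      · exact hl (by rw [hk', M.facts.line_s2]; rfl)
    · exact hb.b1
    · exfalso
      rcases hk' with hk' | hk'
      · exact hl (by rw [hk']; exact hopp)
      · exact hl (by rw [hk', M.facts.line_s2]; exact hopp)
    · exact hb.b3
  rw [Model.cand_s0 hC hy hx hxy.symm, hzz] at hlow hup
  exact g2 ((sem_pr10 M ht (la y) (la _) lyz _ _).2 (le_antisymm hup hlow))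

theorem ok_fBADb (t c x y : Nat) (htt : t < 4096) (hc : c < 16) :
    ClauseT (M.Sem ht) (fBADb t c x y) := by
  unfold fBADb
  refine clauseT_okc (M.sem_zero ht) fun hbad => ?_
  obtain ⟨hxy, hx, hy⟩ := Model.badc_eq_zero.1 hbad
  obtain ⟨hz, hzx, hzy, hzz⟩ := Model.thN_spec hx hy hxy
  refine M.clauseT_ncd ht htt fun h1 h2 h3 h4 hC => ?_
  have hs := Model.sideN_lt c x y
  have hd := Model.dirN_lt c x y
  have la : ∀ w, Model.ln (n0 t) (n1 t) (n2 t) w < 14 := fun w => Model.ln_lt h1 h2 h3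
  have lxy := Model.ln_ne h1 h2 hx hy hxy
  have lxz := Model.ln_ne h1 h2 hx hz hzx.symm
  rw [Model.lnN_ln t hx, Model.lnN_ln t hy, Model.lnN_ln t hz]
  rw [clauseT_cons, clauseT_cons, litS_neg, litS_pos]
  by_contra hcon
  push Not at hcon
  obtain ⟨g1, g2, -⟩ := hcon
  change M.Sem ht (ryN 21 _ _ (1 - dirN c x y)) at g1
  rw [sem_ry M ht (by omega) (by have := la x; omega) (by have := la y; omega)
    (by omega)] at g1
  obtain ⟨-, -, -, hd2, g3, g4, g5, g6⟩ := g1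
  have hb := D2.bad_of g3 g4 g5 g6
  have hv : M.S.vert (M.cflag (n0 t) (n1 t) (n2 t) c x y) =
      M.S.vert (M.flag (Model.ln (n0 t) (n1 t) (n2 t) x) (Model.ln (n0 t) (n1 t) (n2 t) y)
        (1 - dirN c x y) 0) :=
    K6.vert_flag M (la x) (la y) lxy _ _ _ _
  have hf : M.S.full (M.cflag (n0 t) (n1 t) (n2 t) c x y) := (full_of_vert M hv).2 g3
  have hlow : 3 ≤ M.S.mult (M.S.s0 (M.cflag (n0 t) (n1 t) (n2 t) c x y)) :=
    D2.F2 M.facts M.hM hf.1 (D2.full_tri hf).1 (D2.full_tri hf).2.1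
  have hup : M.S.mult (M.S.s0 (M.cflag (n0 t) (n1 t) (n2 t) c x y)) ≤ 3 := by
    have hl : M.S.line (M.cflag (n0 t) (n1 t) (n2 t) c x y) =
        M.S.line (M.flag (Model.ln (n0 t) (n1 t) (n2 t) x) (Model.ln (n0 t) (n1 t) (n2 t) y)
          (1 - dirN c x y) 0) := by
      unfold Model.cflag
      rw [line_flag M (la x) (la y) lxy, line_flag M (la x) (la y) lxy]
    have hbo : bo (dirN c x y) ≠ bo (1 - dirN c x y) := by
      have : dirN c x y = 0 ∨ dirN c x y = 1 := by omega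
      rcases this with h | h <;> rw [h] <;> decide
    have hne1 : M.cflag (n0 t) (n1 t) (n2 t) c x y ≠
        M.flag (Model.ln (n0 t) (n1 t) (n2 t) x) (Model.ln (n0 t) (n1 t) (n2 t) y)
          (1 - dirN c x y) 0 := by
      intro h
      unfold Model.cflag Model.flag at h
      rw [M.c.eq_iff _ _ _ _ _ _ _ _ (Model.fi_ne (la x) (la y) lxy)
        (Model.fi_ne (la x) (la y) lxy)] at h
      exact hbo h.2.2.1
    have hne2 : M.cflag (n0 t) (n1 t) (n2 t) c x y ≠
        M.S.s2 (M.flag (Model.ln (n0 t) (n1 t) (n2 t) x) (Model.ln (n0 t) (n1 t) (n2 t) y)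
          (1 - dirN c x y) 0) := by
      intro h
      rw [s2_flag M (la x) (la y) lxy (by omega)] at h
      unfold Model.cflag Model.flag at h
      rw [M.c.eq_iff _ _ _ _ _ _ _ _ (Model.fi_ne (la x) (la y) lxy)
        (Model.fi_ne (la x) (la y) lxy)] at h
      exact hbo h.2.2.1
    rcases D2.on_line M.facts hv hl with h | h | h | h
    · exact absurd h hne1
    · exact absurd h hne2
    · rw [hb.m] at h
      rw [h]
      exact hb.b2
    · rw [hb.m] at h
      rw [h, M.facts.s0s2, D2.mult_s2 M.facts]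
      exact hb.b2
  rw [Model.cand_s0 hC hx hy hxy] at hlow hup
  exact g2 ((sem_pr10 M ht (la x) (la _) lxz _ _).2 (le_antisymm hup hlow))

end

end Pool.Agent.Helper58.PLK
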