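import Pool.Agent.Helper58.PLK.Model
import Pool.Agent.Helper15.PL.D1

/-!
# Blocks K9: implications between the variables of one vertex
-/

namespace Pool.Agent.Helper58.PLK

open Pool.Agent.Helper15.PL Pool.Agent.Helper15.PL.FlagSys

section two

variable {n : ℕ} {S : FlagSys n} (hF : S.Facts)
include hF

theorem v2_tri_s2 (f : S.F) : S.tri (S.s2 f) ↔ S.tri (S.rot f) :=
  (D1_tri_s1 hF (S.s2 f)).symm

theorem v2_nc_rot {f : S.F} (h : S.mult f = 2) : S.nc (S.rot f) = S.nc f := by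
  unfold nc
  rw [D1_rot4 hF h]
  omega

theorem v2_nc_s1 {f : S.F} (h : S.mult f = 2) : S.nc (S.s1 f) = S.nc f := by
  have e1 : S.tri (S.s1 f) ↔ S.tri f := D1_tri_s1 hF f
  have h' : S.mult (S.s1 f) = 2 := by rw [D1_mult_s1 hF, h]
  have e2 : S.tri (S.rot (S.s1 f)) ↔ S.tri (S.rot (S.rot (S.rot f))) := by
    rw [D1_rot3 hF h]; exact D1_tri_s1 hF _
  have e4 : S.tri (S.rot (S.rot (S.rot (S.s1 f)))) ↔ S.tri (S.rot f) := by
    rw [D1_rot3 hF h', hF.s1s1]; exact v2_tri_s2 hF f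
  have e3 : S.tri (S.rot (S.rot (S.s1 f))) ↔ S.tri (S.rot (S.rot f)) := by
    have h3 : S.mult (S.rot (S.rot (S.rot f))) = 2 := by
      rw [D1_mult_rot hF, D1_mult_rot hF, D1_mult_rot hF, h]
    have : S.rot (S.rot (S.s1 f)) = S.s1 (S.s2 (S.s1 (S.rot (S.rot (S.rot f))))) := by
      rw [D1_rot3 hF h]; rfl
    rw [this, D1_tri_s1 hF, ← D1_rot3 hF h3, D1_rot4 hF h]
  unfold nc
  simp only [e1, e2, e3, e4]
  omega

theorem v2_nc_s2 {f : S.F} (h : S.mult f = 2) : S.nc (S.s2 f) = S.nc f := by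
  have h' : S.mult (S.s2 f) = 2 := by rw [D1_mult_s2 hF, h]
  rw [← v2_nc_s1 hF h', ← v2_nc_rot hF h]; rfl

theorem v2_full_s1 (f : S.F) : S.full (S.s1 f) ↔ S.full f := by
  unfold FlagSys.full
  rw [D1_mult_s1 hF]
  constructor
  · rintro ⟨h1, h2⟩
    exact ⟨h1, by rw [v2_nc_s1 hF h1] at h2; exact h2⟩
  · rintro ⟨h1, h2⟩
    exact ⟨h1, by rw [v2_nc_s1 hF h1]; exact h2⟩

theorem v2_full_s2 (f : S.F) : S.full (S.s2 f) ↔ S.full f := by
  unfold FlagSys.full
  rw [D1_mult_s2 hF]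
  constructor
  · rintro ⟨h1, h2⟩
    exact ⟨h1, by rw [v2_nc_s2 hF h1] at h2; exact h2⟩
  · rintro ⟨h1, h2⟩
    exact ⟨h1, by rw [v2_nc_s2 hF h1]; exact h2⟩

theorem v2_full_rot (f : S.F) : S.full (S.rot f) ↔ S.full f := by
  unfold rot
  rw [v2_full_s1 hF, v2_full_s2 hF]

theorem v2_full_rotk (f : S.F) (k : ℕ) : S.full (S.rot^[k] f) ↔ S.full f := by
  induction k with
  | zero => rfl
  | succ k ih => rw [Function.iterate_succ_apply', v2_full_rot hF, ih]

/-- Being full is a property of the vertex. -/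
theorem v2_full_vert {f g : S.F} (hv : S.vert g = S.vert f) : S.full g ↔ S.full f := by
  obtain ⟨k, -, h | h⟩ := hF.vert_orbit f g hv
  · rw [h, v2_full_rotk hF]
  · rw [h, v2_full_s2 hF, v2_full_rotk hF]

theorem v2_ty21_s1 (f : S.F) : S.ty21 (S.s1 f) ↔ S.ty21 f := by
  unfold ty21
  rw [D1_mult_s1 hF, D1_tri_s1 hF]
  constructor
  · rintro ⟨h1, h2, h3⟩
    exact ⟨h1, by rw [v2_nc_s1 hF h1] at h2; exact h2, h3⟩
  · rintro ⟨h1, h2, h3⟩
    exact ⟨h1, by rw [v2_nc_s1 hF h1]; exact h2, h3⟩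

/-- The outer flags of the two flags of a triangular corner belong to the same face. -/
theorem v2_outer_s1 {f : S.F} (ht : S.tri f) : S.tri (S.outer (S.s1 f)) ↔ S.tri (S.outer f) := by
  unfold outer
  rw [← D1_braid hF ht, ← hF.s0s2, D1_tri_s0 hF]

/-- All flags at a full vertex with `nX = 0` have triangular outer faces. -/
theorem v2_outer_of_nX {f : S.F} (hfull : S.full f) (h0 : S.nX f = 0) {g : S.F}
    (hv : S.vert g = S.vert f) : S.tri (S.outer g) := by
  have h2 := hfull.1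
  have ht := D1_nc_full hfull
  have ho : S.tri (S.outer f) ∧ S.tri (S.outer (S.rot f)) ∧ S.tri (S.outer (S.rot (S.rot f))) ∧
      S.tri (S.outer (S.rot (S.rot (S.rot f)))) := by
    unfold nX at h0
    refine ⟨?_, ?_, ?_, ?_⟩ <;>
    · by_contra hc
      rw [if_neg hc] at h0
      omega
  have key : ∀ k < 4, S.tri (S.rot^[k] f) ∧ S.tri (S.outer (S.rot^[k] f)) := by
    intro k hk
    interval_cases k
    · exact ⟨ht.1, ho.1⟩
    · exact ⟨ht.2.1, ho.2.1⟩
    · exact ⟨ht.2.2.1, ho.2.2.1⟩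
    · exact ⟨ht.2.2.2, ho.2.2.2⟩
  have key4 : ∀ k < 5, S.tri (S.rot^[k] f) ∧ S.tri (S.outer (S.rot^[k] f)) := by
    intro k hk
    rcases Nat.lt_succ_iff_lt_or_eq.1 hk with h | h
    · exact key k h
    · subst h
      have : S.rot^[4] f = f := D1_rot4 hF h2
      rw [this]
      exact ⟨ht.1, ho.1⟩
  obtain ⟨k, hk, h | h⟩ := hF.vert_orbit f g hv
  · rw [h]
    exact (key4 k (by omega)).2
  · have h1 : g = S.s1 (S.rot^[k + 1] f) := by
      rw [h, Function.iterate_succ_apply']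
      unfold rot
      rw [hF.s1s1]
    rw [h1]
    have := key4 (k + 1) (by omega)
    rw [v2_outer_s1 hF this.1]
    exact this.2

/-- All flags at a full vertex are triangular. -/
theorem v2_tri_of_full {f : S.F} (hfull : S.full f) {g : S.F} (hv : S.vert g = S.vert f) :
    S.tri g :=
  (D1_nc_full ((v2_full_vert hF hv).2 hfull)).1

/-- At a vertex of type (2,1) with nontriangular corner that of `f`, the opposite side. -/
theorem v2_tri_s2_of_ty21 {f : S.F} (h : S.ty21 f) : S.tri (S.s2 f) :=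
  (v2_tri_s2 hF f).2 (D1_nc_ty21 h).1

end two

namespace Model

variable (M : Model) (ht : DT)

theorem bo_not {s : Nat} (hs : s < 2) : (!bo s) = bo (1 - s) := by
  interval_cases s <;> rfl

theorem s2_flag {i a : Nat} (hi : i < 14) (ha : a < 14) (hia : i ≠ a) (d : Nat) {s : Nat}
    (hs : s < 2) : M.S.s2 (M.flag i a d s) = M.flag i a d (1 - s) := by
  unfold flag
  rw [M.c.s2_Φ _ _ _ _ (fi_ne hi ha hia), bo_not hs]

/-- The vertex does not depend on direction, side and order. -/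
theorem vert_flag {i a : Nat} (hi : i < 14) (ha : a < 14) (hia : i ≠ a) (d s d' s' : Nat) :
    M.S.vert (M.flag i a d s) = M.S.vert (M.flag i a d' s') := by
  obtain ⟨V, hV, h1, h2⟩ := RF.exists_isV M.W (fi_ne hi ha hia)
  unfold flag
  rw [RF.vert_eq M.c hV h1 h2 (fi_ne hi ha hia), RF.vert_eq M.c hV h1 h2 (fi_ne hi ha hia)]

theorem vert_flag' {i a : Nat} (hi : i < 14) (ha : a < 14) (hia : i ≠ a) (d s d' s' : Nat) :
    M.S.vert (M.flag i a d s) = M.S.vert (M.flag a i d' s') := by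
  obtain ⟨V, hV, h1, h2⟩ := RF.exists_isV M.W (fi_ne hi ha hia)
  unfold flag
  rw [RF.vert_eq M.c hV h1 h2 (fi_ne hi ha hia),
    RF.vert_eq M.c hV h2 h1 (fi_ne hi ha hia).symm]

/-- The vertex of a flag and the flag of the sorted pair. -/
theorem vert_flag_mm {i a : Nat} (hi : i < 14) (ha : a < 14) (hia : i ≠ a) (d s d' s' : Nat) :
    M.S.vert (M.flag (min i a) (max i a) d' s') = M.S.vert (M.flag i a d s) := by
  rcases lt_or_gt_of_ne hia with h | h
  · rw [min_eq_left h.le, max_eq_right h.le]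
    exact M.vert_flag hi ha hia _ _ _ _
  · rw [min_eq_right h.le, max_eq_left h.le]
    exact M.vert_flag' ha hi hia.symm _ _ _ _

/-- No other line passes through a vertex on two lines. -/
theorem X_ne_of_mult {i a d s : Nat} (hi : i < 14) (ha : a < 14) (hia : i ≠ a)
    (h2 : M.S.mult (M.flag i a d s) = 2) (l : Fin 14) (hli : l ≠ fi i) (hla : l ≠ fi a) :
    M.W.X (fi i) l ≠ M.W.X (fi i) (fi a) := by
  classical
  intro hX
  have hne := fi_ne hi ha hia
  have hm := M.c.mem_vert (fi i) (fi a) (bo d) (bo s)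
  have hsub : ({M.c.perm (fi i), M.c.perm (fi a), M.c.perm l} : Finset (Fin 14)) ⊆
      M.S.vert (M.flag i a d s) := by
    intro k hk
    simp only [Finset.mem_insert, Finset.mem_singleton] at hk
    rcases hk with rfl | rfl | rfl
    · exact (hm _ hne).2 (Or.inl rfl)
    · exact (hm _ hne).2 (Or.inr rfl)
    · exact (hm _ hne).2 (Or.inr hX)
  have hc := Finset.card_le_card hsub
  have h3 : ({M.c.perm (fi i), M.c.perm (fi a), M.c.perm l} : Finset (Fin 14)).card = 3 := by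
    rw [Finset.card_eq_three]
    exact ⟨_, _, _, M.c.perm.injective.ne hne, M.c.perm.injective.ne hli.symm,
      M.c.perm.injective.ne hla.symm, rfl⟩
  unfold mult at h2
  omega

/-- The corners at a vertex on two lines. -/
theorem s1_flag_lt {i a d s : Nat} (hia : i < a) (ha : a < 14) (hd : d < 2) (hs : s < 2)
    (h2 : M.S.mult (M.flag i a d s) = 2) : M.S.s1 (M.flag i a d s) = M.flag a i s (1 - d) := by
  have hX := M.X_ne_of_mult (hia.trans ha) ha hia.ne h2
  have hlt : fi i < fi a := fi_lt ha hia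
  have h1 : ∀ l, fi i < l → l < fi a → M.W.X (fi i) l ≠ M.W.X (fi i) (fi a) :=
    fun l h3 h4 => hX l h3.ne' h4.ne
  have h1' : ∀ l, l < fi i ∨ fi a < l → M.W.X (fi i) l ≠ M.W.X (fi i) (fi a) := by
    intro l h
    refine hX l ?_ ?_
    · rcases h with h | h
      · exact h.ne
      · exact (hlt.trans h).ne'
    · rcases h with h | h
      · exact (h.trans hlt).ne
      · exact h.ne'
  interval_cases d <;> interval_cases s
  · exact (M.c.s1_right _ _ hlt h1).1
  · exact (M.c.s1_bot _ _ hlt h1').1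
  · exact (M.c.s1_top _ _ hlt h1').2
  · exact (M.c.s1_left _ _ hlt h1).1

theorem mult_flag {i a : Nat} (hi : i < 14) (ha : a < 14) (hia : i ≠ a) (d s d' s' : Nat) :
    M.S.mult (M.flag i a d s) = M.S.mult (M.flag i a d' s') := by
  unfold mult
  rw [M.vert_flag hi ha hia d s d' s']

theorem mult_flag' {i a : Nat} (hi : i < 14) (ha : a < 14) (hia : i ≠ a) (d s d' s' : Nat) :
    M.S.mult (M.flag i a d s) = M.S.mult (M.flag a i d' s') := by
  unfold mult
  rw [M.vert_flag' hi ha hia d s d' s']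

theorem s1_flag_gt {i a d s : Nat} (hia : a < i) (hi : i < 14) (hd : d < 2) (hs : s < 2)
    (h2 : M.S.mult (M.flag i a d s) = 2) : M.S.s1 (M.flag i a d s) = M.flag a i (1 - s) d := by
  have h3 := M.s1_flag_lt hia hi (d := 1 - s) (s := d) (by omega) hd
    (by rw [← h2]; exact M.mult_flag' (hia.trans hi) hi hia.ne _ _ _ _)
  rw [show 1 - (1 - s) = s by omega] at h3
  rw [← h3, M.facts.s1s1]

/-- The corner number. -/
theorem secN_eq (i a : Nat) {d s : Nat} (hd : d < 2) (hs : s < 2) :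
    secN i a d s = if i < a then (if d = 0 then (if s = 0 then 0 else 3) else (if s = 0 then 2 else 1))
      else (if d = 0 then (if s = 0 then 2 else 0) else (if s = 0 then 1 else 3)) := by
  unfold secN
  rw [ltN_eq]
  by_cases hia : i < a
  · rw [if_pos hia, if_pos hia]
    interval_cases d <;> interval_cases s <;> rfl
  · rw [if_neg hia, if_neg hia]
    interval_cases d <;> interval_cases s <;> rfl

theorem secN_lt (i a d s : Nat) : secN i a d s < 4 := Nat.lt_succ_of_le Nat.and_le_right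

/-- The corner of a flag (first line smaller). -/
theorem corner_secN_lt {i a d s : Nat} (hia : i < a) (hd : d < 2) (hs : s < 2) :
    M.corner i a (secN i a d s) = M.flag i a d s := by
  rw [secN_eq i a hd hs, if_pos hia]
  interval_cases d <;> interval_cases s <;> rfl

/-- The corner of a flag (first line larger). -/
theorem corner_secN_gt {i a d s : Nat} (hia : a < i) (hd : d < 2) (hs : s < 2) :
    M.corner a i (secN i a d s) = M.flag a i (1 - s) d := by
  rw [secN_eq i a hd hs, if_neg (by omega)]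
  interval_cases d <;> interval_cases s <;> rfl

theorem flagE_eq (i a : Nat) {d s : Nat} (hd : d < 2) : M.flagE i a (d + 2 * s) = M.flag i a d (s % 2) := by
  unfold flagE
  rw [show (d + 2 * s) % 2 = d by omega, show (d + 2 * s) / 2 % 2 = s % 2 by omega]

theorem flagE_eq' (i a : Nat) {d s : Nat} (hd : d < 2) (hs : s < 2) :
    M.flagE i a (d + 2 * s) = M.flag i a d s := by
  rw [M.flagE_eq i a hd, Nat.mod_eq_of_lt hs]

/-- The four corners of a vertex on two lines in the order of the rotation. -/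
theorem rot_corner {i j : Nat} (hij : i < j) (hj : j < 14) (h2 : M.S.mult (M.flag i j 0 0) = 2) :
    M.corner i j 0 = M.flag i j 0 0 ∧
    M.S.rot (M.flag i j 0 0) = M.S.s1 (M.corner i j 3) ∧
    M.S.rot (M.S.rot (M.flag i j 0 0)) = M.corner i j 1 ∧
    M.S.rot (M.S.rot (M.S.rot (M.flag i j 0 0))) = M.S.s1 (M.corner i j 2) := by
  have hi : i < 14 := hij.trans hj
  have c0 : M.corner i j 0 = M.flag i j 0 0 := rfl
  have c1 : M.corner i j 1 = M.flag i j 1 1 := rfl
  have c2 : M.corner i j 2 = M.flag i j 1 0 := rfl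
  have c3 : M.corner i j 3 = M.flag i j 0 1 := rfl
  rw [c0, c1, c2, c3]
  have hm : ∀ d s, M.S.mult (M.flag i j d s) = 2 := fun d s => by
    rw [← h2]; exact M.mult_flag hi hj hij.ne _ _ _ _
  have hm' : ∀ d s, M.S.mult (M.flag j i d s) = 2 := fun d s => by
    rw [← h2]; exact M.mult_flag' hj hi hij.ne' _ _ _ _
  have r1 : M.S.rot (M.flag i j 0 0) = M.S.s1 (M.flag i j 0 1) := by
    unfold rot
    rw [M.s2_flag hi hj hij.ne 0 (by omega : 0 < 2)]
  have r2 : M.S.rot (M.S.s1 (M.flag i j 0 1)) = M.flag i j 1 1 := by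
    unfold rot
    rw [M.s1_flag_lt hij hj (by omega) (by omega) (hm 0 1),
      M.s2_flag hj hi hij.ne' 1 (by omega : 1 - 0 < 2),
      M.s1_flag_gt hij hj (by omega) (by omega) (hm' _ _)]
  have r3 : M.S.rot (M.flag i j 1 1) = M.S.s1 (M.flag i j 1 0) := by
    unfold rot
    rw [M.s2_flag hi hj hij.ne 1 (by omega : 1 < 2)]
  refine ⟨rfl, r1, ?_, ?_⟩
  · rw [r1, r2]
  · rw [r1, r2, r3]

/-! ### Literals -/

theorem clauseT_np {Se : Nat → Prop} {x y : Nat} (h : Se x → Se y) :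
    ClauseT Se [neg x, pos y] := by
  rw [clauseT_cons, clauseT_cons, litS_neg, litS_pos]
  by_cases hx : Se x
  · exact Or.inr (Or.inl (h hx))
  · exact Or.inl hx

theorem clauseT_nn {Se : Nat → Prop} {x y : Nat} (h : Se x → ¬ Se y) :
    ClauseT Se [neg x, neg y] := by
  rw [clauseT_cons, clauseT_cons, litS_neg, litS_neg]
  by_cases hx : Se x
  · exact Or.inr (Or.inl (h hx))
  · exact Or.inl hx

theorem sem_fl {k i a d s : Nat} (hk : k < 29) (hi : i < 16) (ha : a < 16) (hd : d < 2)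
    (hs : s < 2) : M.Sem ht (flN k i a d s) ↔ M.SemK k i a (d + 2 * s) 0 := by
  have : flN k i a d s = enc k i a (d + 2 * s) 0 := rfl
  rw [this, M.sem_enc ht hk hi ha (by omega)]

theorem sem_ry {k i a d : Nat} (hk : k < 29) (hi : i < 16) (ha : a < 16) (hd : d < 16) :
    M.Sem ht (ryN k i a d) ↔ M.SemK k i a d 0 := by
  have : ryN k i a d = enc k i a d 0 := rfl
  rw [this, M.sem_enc ht hk hi ha hd]

theorem sem_pr {k i a c : Nat} (hk : k < 29) (hi : i < 16) (ha : a < 16) (hc : c < 16) :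
    M.Sem ht (prN k i a c) ↔ M.SemK k (min i a) (max i a) c 0 := by
  have : prN k i a c = enc k (mnN i a) (mxN i a) c 0 := rfl
  rw [this, mnN_eq, mxN_eq, M.sem_enc ht hk (by omega) (by omega) hc]

/-! ### Implications -/

/-- Kind 11 to kind 5. -/
theorem imp_11_5 {i a d s : Nat} (hd : d < 2) (hs : s < 2) (h : M.SemK 11 i a d 0) :
    M.SemK 5 i a (d + 2 * s) 0 := by
  obtain ⟨h1, h2, h3, h4, h5⟩ := h
  refine ⟨h1, h2, h3, by omega, ?_⟩
  rw [M.flagE_eq' i a hd hs, ← D1_tri_s0 M.facts]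
  refine v2_tri_of_full M.facts h5 ?_
  interval_cases s
  · rfl
  · have : M.flag i a d 1 = M.S.s2 (M.flag i a d 0) := (M.s2_flag h2 h3 h1 d (s := 0) (by omega)).symm
    rw [this, M.facts.s0s2, M.facts.vert_s2]

/-- Kind 12 to kind 5. -/
theorem imp_12_5 {i a d s : Nat} (hd : d < 2) (hs : s < 2) (h : M.SemK 12 i a (d + 2 * s) 0) :
    M.SemK 5 i a (d + 2 * (1 - s)) 0 := by
  obtain ⟨h1, h2, h3, h4, h5⟩ := h
  refine ⟨h1, h2, h3, by omega, ?_⟩
  rw [M.flagE_eq' i a hd hs] at h5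
  rw [M.flagE_eq' i a hd (by omega), ← M.s2_flag h2 h3 h1 d hs, ← D1_tri_s0 M.facts, M.facts.s0s2]
  exact v2_tri_s2_of_ty21 M.facts h5

/-- Kind 13 to kind 5. -/
theorem imp_13_5 {i a d s : Nat} (hd : d < 2) (hs : s < 2) (h : M.SemK 13 i a (d + 2 * s) 0) :
    M.SemK 5 i a (d + 2 * (1 - s)) 0 := by
  obtain ⟨h1, h2, h3, h4, h5⟩ := h
  refine ⟨h1, h2, h3, by omega, ?_⟩
  rw [M.flagE_eq' i a hd hs] at h5
  rw [M.flagE_eq' i a hd (by omega), ← M.s2_flag h2 h3 h1 d hs]
  exact h5.1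

/-- Kind 14 to kind 5. -/
theorem imp_14_5 {i a d s : Nat} (hd : d < 2) (hs : s < 2) (h : M.SemK 14 i a (d + 2 * s) 0) :
    M.SemK 5 i a (d + 2 * (1 - s)) 0 := by
  obtain ⟨h1, h2, h3, h4, h5⟩ := h
  refine ⟨h1, h2, h3, by omega, ?_⟩
  rw [M.flagE_eq' i a hd hs] at h5
  rw [M.flagE_eq' i a hd (by omega), ← M.s2_flag h2 h3 h1 d hs]
  exact h5.2.1

theorem mm_lt {i a : Nat} (hi : i < 14) (ha : a < 14) (hia : i ≠ a) :
    min i a < max i a ∧ max i a < 14 := by omega

/-- Kind 14 to kind 10. -/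
theorem imp_14_10 {i a d s : Nat} (hd : d < 2) (hs : s < 2) (h : M.SemK 14 i a (d + 2 * s) 0) :
    M.SemK 10 (min i a) (max i a) 0 0 := by
  obtain ⟨h1, h2, h3, h4, h5⟩ := h
  refine ⟨(mm_lt h2 h3 h1).1, (mm_lt h2 h3 h1).2, ?_⟩
  rw [M.flagE_eq' i a hd hs] at h5
  rw [← h5.1]
  unfold mult
  rw [M.vert_flag_mm h2 h3 h1 d s 0 0]

/-- Kind 20: the outer flag. -/
theorem k20_aux {f : M.S.F} (h : M.S.ty21 (M.S.outer f)) : M.S.tri f ∧ M.S.tri (M.S.s2 f) := by
  have h1 := D1_nc_ty21 h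
  have h2 : M.S.rot (M.S.outer f) = M.S.s0 f := by
    unfold rot outer
    rw [M.facts.s2s2, M.facts.s1s1]
  rw [h2] at h1
  refine ⟨(D1_tri_s0 M.facts _).1 h1.1, ?_⟩
  rw [← D1_tri_s0 M.facts, M.facts.s0s2]
  exact (v2_tri_s2 M.facts _).2 h1.2.1

/-- Kind 20 to kind 5. -/
theorem imp_20_5 {i a d s : Nat} (hd : d < 2) (hs : s < 2) (h : M.SemK 20 i a d 0) :
    M.SemK 5 i a (d + 2 * s) 0 := by
  obtain ⟨h1, h2, h3, h4, s', hs', h5, -⟩ := h
  refine ⟨h1, h2, h3, by omega, ?_⟩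
  rw [M.flagE_eq' i a hd hs]
  have h6 := M.k20_aux h5
  rw [M.s2_flag h2 h3 h1 d hs'] at h6
  have : s = s' ∨ s = 1 - s' := by omega
  rcases this with rfl | rfl
  · exact h6.1
  · exact h6.2

/-- Kinds 11 and 20 exclude each other. -/
theorem imp_11_20 {i a d : Nat} (h : M.SemK 11 i a d 0) : ¬ M.SemK 20 i a d 0 := by
  obtain ⟨h1, h2, h3, h4, h5⟩ := h
  rintro ⟨-, -, -, -, s', hs', h6, -⟩
  refine h6.2.2 (v2_tri_of_full M.facts h5 ?_)
  unfold outer
  rw [M.facts.vert_s2, M.facts.vert_s1]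
  have : s' = 0 ∨ s' = 1 := by omega
  rcases this with rfl | rfl
  · rfl
  · have : M.flag i a d 1 = M.S.s2 (M.flag i a d 0) := (M.s2_flag h2 h3 h1 d (s := 0) (by omega)).symm
    rw [this, M.facts.s0s2, M.facts.vert_s2]

theorem imp_18_11 {i a d : Nat} (h : M.SemK 18 i a d 0) : M.SemK 11 i a d 0 := by
  obtain ⟨h1, h2, h3, h4, h5, h6, h7⟩ := h
  exact ⟨h1, h2, h3, h4, h6⟩

theorem imp_19_11 {i a d : Nat} (h : M.SemK 19 i a d 0) : M.SemK 11 i a d 0 := by
  obtain ⟨h1, h2, h3, h4, h5, h6⟩ := h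
  exact ⟨h1, h2, h3, h4, h5⟩

theorem imp_18_19 {i a d : Nat} (h : M.SemK 18 i a d 0) : ¬ M.SemK 19 i a d 0 := by
  obtain ⟨h1, h2, h3, h4, h5, h6, h7, h8⟩ := h
  rintro ⟨-, -, -, -, -, -, h9⟩
  exact h9 ⟨h5, h7, h8⟩

/-- Kind 21 to kind 8. -/
theorem imp_21_8 {i a d : Nat} (h : M.SemK 21 i a d 0) : M.SemK 8 (min i a) (max i a) 0 0 := by
  obtain ⟨h1, h2, h3, h4, h5, -⟩ := h
  exact ⟨(mm_lt h2 h3 h1).1, (mm_lt h2 h3 h1).2,
    (v2_full_vert M.facts (M.vert_flag_mm h2 h3 h1 d 0 0 0)).2 h5⟩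

/-- Kind 21 to kind 22. -/
theorem imp_21_22 {i a d q : Nat} (hq : q < 4) (h : M.SemK 21 i a d 0) :
    M.SemK 22 (min i a) (max i a) q 0 := by
  obtain ⟨h1, h2, h3, h4, h5, h6, -⟩ := h
  refine ⟨(mm_lt h2 h3 h1).1, (mm_lt h2 h3 h1).2, hq, ?_⟩
  refine v2_outer_of_nX M.facts h5 h6 ?_
  unfold corner flagE
  exact M.vert_flag_mm h2 h3 h1 d 0 _ _

/-- Kind 17 to kind 9. -/
theorem imp_17_9 {i a d s : Nat} (hd : d < 2) (hs : s < 2) (h : M.SemK 17 i a (d + 2 * s) 0) :
    M.SemK 9 (min i a) (max i a) (secN i a (1 - d) s) 0 := by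
  obtain ⟨h1, h2, h3, h4, h5, -⟩ := h
  refine ⟨(mm_lt h2 h3 h1).1, (mm_lt h2 h3 h1).2, secN_lt _ _ _ _, ?_⟩
  rw [M.flagE_eq' i a hd hs] at h5
  have hm : M.S.mult (M.flag i a d s) = 2 := by
    have := h5.1
    rw [D1_mult_s2 M.facts, D1_mult_s1 M.facts] at this
    exact this
  rcases lt_or_gt_of_ne h1 with hia | hia
  · rw [min_eq_left hia.le, max_eq_right hia.le, M.corner_secN_lt hia (by omega) hs,
      ← v2_ty21_s1 M.facts, M.s1_flag_lt hia h3 (by omega) hs (by
        rw [← hm]; exact M.mult_flag h2 h3 h1 _ _ _ _)]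
    rw [M.s1_flag_lt hia h3 hd hs hm, M.s2_flag h3 h2 h1.symm s (by omega)] at h5
    exact h5
  · rw [min_eq_right hia.le, max_eq_left hia.le, M.corner_secN_gt hia (by omega) hs]
    rw [M.s1_flag_gt hia h2 hd hs hm, M.s2_flag h3 h2 h1.symm (1 - s) hd] at h5
    exact h5

end Model

open Model

variable (M : Model) (ht : DT)

theorem ok_fIMP (y i a d s : Nat) (hi : i < 16) (ha : a < 16) :
    ClauseT (M.Sem ht) (fIMP y i a d s) := by
  unfold fIMP
  refine clauseT_okc (M.sem_zero ht) fun hb => ?_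
  obtain ⟨hd, hs⟩ : d < 2 ∧ s < 2 := by
    have : (d - 1) + (s - 1) = 0 := hb
    omega
  have h1s : Nat.sub 1 s < 2 := Nat.lt_of_le_of_lt (Nat.sub_le 1 s) one_lt_two
  simp only [sel_eq]
  split_ifs
  · exact clauseT_np fun h => (M.sem_fl ht (by norm_num) hi ha hd hs).2
      (M.imp_11_5 hd hs ((M.sem_ry ht (by norm_num) hi ha (by omega)).1 h))
  · exact clauseT_np fun h => (M.sem_fl ht (by norm_num) hi ha hd h1s).2
      (M.imp_12_5 hd hs ((M.sem_fl ht (by norm_num) hi ha hd hs).1 h))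
  · exact clauseT_np fun h => (M.sem_fl ht (by norm_num) hi ha hd hs).2
      (M.imp_20_5 hd hs ((M.sem_ry ht (by norm_num) hi ha (by omega)).1 h))
  · exact clauseT_np fun h => (M.sem_ry ht (by norm_num) hi ha (by omega)).2
      (M.imp_18_11 ((M.sem_ry ht (by norm_num) hi ha (by omega)).1 h))
  · exact clauseT_np fun h => (M.sem_ry ht (by norm_num) hi ha (by omega)).2
      (M.imp_19_11 ((M.sem_ry ht (by norm_num) hi ha (by omega)).1 h))
  · exact clauseT_nn fun h h' => M.imp_18_19 ((M.sem_ry ht (by norm_num) hi ha (by omega)).1 h)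
      ((M.sem_ry ht (by norm_num) hi ha (by omega)).1 h')
  · exact clauseT_nn fun h h' => M.imp_11_20
      (M.imp_18_11 ((M.sem_ry ht (by norm_num) hi ha (by omega)).1 h))
      ((M.sem_ry ht (by norm_num) hi ha (by omega)).1 h')
  · exact clauseT_nn fun h h' => M.imp_11_20
      (M.imp_19_11 ((M.sem_ry ht (by norm_num) hi ha (by omega)).1 h))
      ((M.sem_ry ht (by norm_num) hi ha (by omega)).1 h')
  · exact clauseT_np fun h => (M.sem_pr ht (by norm_num) hi ha (by norm_num)).2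
      (M.imp_21_8 ((M.sem_ry ht (by norm_num) hi ha (by omega)).1 h))
  · exact clauseT_np fun h => (M.sem_pr ht (by norm_num) hi ha
      (lt_trans (secN_lt _ _ _ _) (by norm_num))).2
      (M.imp_17_9 hd hs ((M.sem_fl ht (by norm_num) hi ha hd hs).1 h))
  · exact clauseT_np fun h => (M.sem_fl ht (by norm_num) hi ha hd h1s).2
      (M.imp_13_5 hd hs ((M.sem_fl ht (by norm_num) hi ha hd hs).1 h))
  · exact clauseT_np fun h => (M.sem_fl ht (by norm_num) hi ha hd h1s).2
      (M.imp_14_5 hd hs ((M.sem_fl ht (by norm_num) hi ha hd hs).1 h))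
  · exact clauseT_np fun h => (M.sem_pr ht (by norm_num) hi ha (by norm_num)).2
      (M.imp_14_10 hd hs ((M.sem_fl ht (by norm_num) hi ha hd hs).1 h))

theorem ok_fBX (i a d q : Nat) (hi : i < 16) (ha : a < 16) (hd : d < 16) :
    ClauseT (M.Sem ht) (fBX i a d q) := by
  unfold fBX
  refine clauseT_okc (M.sem_zero ht) fun hb => ?_
  have hq : q < 4 := by
    have : q - 3 = 0 := hb
    omega
  exact clauseT_np fun h => (M.sem_pr ht (by norm_num) hi ha (by omega)).2
      (M.imp_21_22 hq ((M.sem_ry ht (by norm_num) hi ha hd).1 h))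

theorem ok_fS (i a d s : Nat) (hi : i < 16) (ha : a < 16) : ClauseT (M.Sem ht) (fS i a d s) := by
  unfold fS
  refine clauseT_okc (M.sem_zero ht) fun hb => ?_
  obtain ⟨hd, hs⟩ : d < 2 ∧ s < 2 := by
    have : (d - 1) + (s - 1) = 0 := hb
    omega
  rw [clauseT_cons, clauseT_cons, clauseT_cons, clauseT_cons, litS_neg, litS_pos, litS_pos,
    litS_pos, M.sem_fl ht (by norm_num) hi ha hd hs, M.sem_fl ht (by norm_num) hi ha hd hs,
    M.sem_fl ht (by norm_num) hi ha hd hs, M.sem_fl ht (by norm_num) hi ha hd hs]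
  by_cases h : M.SemK 15 i a (d + 2 * s) 0
  · right
    obtain ⟨h1, h2, h3, h4, h5 | h5 | h5⟩ := h
    · exact Or.inl ⟨h1, h2, h3, h4, h5⟩
    · exact Or.inr (Or.inl ⟨h1, h2, h3, h4, h5⟩)
    · exact Or.inr (Or.inr (Or.inl ⟨h1, h2, h3, h4, h5⟩))
  · exact Or.inl h

theorem w1list_mem (i a : Nat) (n : Nat) (hn : n ≤ 14) : ∀ b, b < a → b ≠ i → 14 - n ≤ b → b < 14 →
    pos (zz i a b) ∈ w1list i a n := by
  induction n with
  | zero => intro b _ _ h1 h2; omega
  | succ m ih =>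
    intro b hb hbi h1 h2
    have key : ∀ z : Nat, z = eqN (13 - m) i + (1 - ltN (13 - m) a) →
        pos (zz i a b) ∈ (Nat.rec (motive := fun _ => List Nat)
          (pos (zz i a (13 - m)) :: w1list i a m) (fun _ _ => w1list i a m) z : List Nat) := by
      intro z hz
      rcases z with _ | z
      · show _ ∈ pos (zz i a (13 - m)) :: w1list i a m
        by_cases hbm : b = 13 - m
        · rw [hbm]; exact List.mem_cons_self
        · exact List.mem_cons_of_mem _ (ih (by omega) b hb hbi (by omega) h2)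
      · show _ ∈ w1list i a m
        refine ih (by omega) b hb hbi ?_ h2
        by_contra hc
        have hbm : b = 13 - m := by omega
        rw [← hbm, eqN_eq, ltN_eq, if_neg hbi, if_pos hb] at hz
        omega
    exact key _ rfl

theorem ok_fW1 (i a d s : Nat) (hi : i < 16) (ha : a < 16) : ClauseT (M.Sem ht) (fW1 i a d s) := by
  unfold fW1
  refine clauseT_okc (M.sem_zero ht) fun hb => ?_
  have hb' : badp i a + ((d - 1) + (s - 1)) = 0 := hb
  obtain ⟨hia, hi', ha'⟩ := badp_eq_zero.1 (by omega : badp i a = 0)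
  have hd : d < 2 := by omega
  have hs : s < 2 := by omega
  rw [clauseT_cons, clauseT_cons, clauseT_cons, clauseT_cons, litS_pos, litS_pos, litS_pos, litS_pos,
    M.sem_fl ht (by norm_num) hi ha hd hs, M.sem_pr ht (by norm_num) hi ha (by norm_num),
    M.sem_fl ht (by norm_num) hi ha hd hs, M.sem_fl ht (by norm_num) hi ha hd hs]
  by_cases h7 : M.SemK 7 (min i a) (max i a) 0 0
  · exact Or.inr (Or.inl h7)
  by_cases h5 : M.SemK 5 i a (d + 2 * s) 0
  · exact Or.inr (Or.inr (Or.inl h5))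
  by_cases h15 : M.SemK 15 i a (d + 2 * s) 0
  · exact Or.inr (Or.inr (Or.inr (Or.inl h15)))
  by_cases hz : ∃ b, b < a ∧ b ≠ i ∧ M.X i b = M.X i a
  · obtain ⟨b, hba, hbi, hX⟩ := hz
    refine Or.inr (Or.inr (Or.inr (Or.inr ⟨pos (zz i a b), w1list_mem i a 14 le_rfl b hba hbi
      (by omega) (by omega), ?_⟩)))
    rw [litS_pos, M.sem_zz ht hi ha (by omega)]
    exact ⟨hia, hbi.symm, hba.ne', hi', ha', by omega, hX.symm⟩
  · left
    refine ⟨hia, hi', ha', by omega, fun l hl hli => ?_, ?_⟩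
    · intro hX
      exact hz ⟨l, hl, hli, hX⟩
    · have hm : M.S.mult (M.flagE i a (d + 2 * s)) ≠ 2 := by
        intro hc
        refine h7 ⟨(mm_lt hi' ha' hia).1, (mm_lt hi' ha' hia).2, ?_⟩
        rw [← hc]
        unfold mult flagE
        rw [M.vert_flag_mm hi' ha' hia _ _ 0 0]
      have h2 := M.facts.two_le (M.flagE i a (d + 2 * s))
      refine ⟨by omega, fun hc => h5 ⟨hia, hi', ha', by omega, hc⟩, fun hc => ?_, fun hc => ?_,
        fun hc => ?_⟩
      · exact h15 ⟨hia, hi', ha', by omega, Or.inl hc⟩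
      · exact h15 ⟨hia, hi', ha', by omega, Or.inr (Or.inl hc)⟩
      · exact h15 ⟨hia, hi', ha', by omega, Or.inr (Or.inr hc)⟩

end Pool.Agent.Helper58.PLK
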