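import Pool.Agent.Helper58.PLK.Tree
import Pool.Agent.Helper58.PLK.K1
import Pool.Agent.Helper58.PLK.K2
import Pool.Agent.Helper58.PLK.K3
import Pool.Agent.Helper58.PLK.K4
import Pool.Agent.Helper58.PLK.K5
import Pool.Agent.Helper58.PLK.K6
import Pool.Agent.Helper58.PLK.K7
import Pool.Agent.Helper58.PLK.K8
import Pool.Agent.Helper58.PLK.K9
import Pool.Agent.Helper58.PLK.K10
import Pool.Agent.Helper58.PLK.K11

/-!
# All clauses of the generator are true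
-/

namespace Pool.Agent.Helper58.PLK

open Pool.Agent.Helper15.PL

theorem nt_lt (p : Nat) : nt p < 4096 := Nat.lt_succ_of_le Nat.and_le_right
theorem v0_lt (p : Nat) : v0 p < 65536 := Nat.lt_succ_of_le Nat.and_le_right

/-- Every clause with an address is true in every model, if the assumptions are. -/
theorem gen_sound (M : Model) {ex : FT} (hex : OkT (M.Sem ht) ex) :
    ∀ a, ClauseT (M.Sem ht) (gen ex ht a) := by
  show OkT (M.Sem ht) (famTree ex ht)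
  unfold famTree
  refine okT_node (okT_node (okT_node (okT_node (okT_node (okT_node ?_ ?_) (okT_node ?_ ?_))
    (okT_node (okT_node ?_ ?_) (okT_node ?_ ?_)))
    (okT_node
      (okT_node
        (okT_node (okT_node (okT_node ?_ ?_) (okT_node ?_ ?_)) (okT_node (okT_node ?_ ?_) (okT_node ?_ ?_)))
        (okT_node (okT_node (okT_node ?_ ?_) (okT_node ?_ ?_)) (okT_node (okT_node ?_ ?_) (okT_node ?_ ?_))))
      (okT_node
        (okT_node (okT_node (okT_node ?_ ?_) (okT_node ?_ ?_)) (okT_node (okT_node ?_ ?_) (okT_node ?_ ?_)))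
        (okT_node (okT_node (okT_node ?_ ?_) (okT_node hex ?_))
          (okT_node (okT_node ?_ ?_) (okT_node ?_ (okT_node ?_ ?_))))))) ?_) ?_
  · exact okT_leaf fun p => ok_fTSG M ht _ _ _ _ (n0_lt p) (n1_lt p) (n2_lt p) (n3_lt p)
  · exact okT_leaf fun p => ok_fTOT M ht ht_lt _ _ _ _ _
  · exact okT_leaf fun p => ok_fEX M ht _ _ _ _ (n0_lt p) (n1_lt p) (n2_lt p)
  · exact okT_leaf fun p => ok_fIMP M ht _ _ _ _ _ (n1_lt p) (n2_lt p)
  · exact okT_leaf fun p => ok_fM32 M ht _ _ _ _ (n0_lt p) (n1_lt p) (n2_lt p) (n3_lt p)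
  · exact okT_leaf fun p => ok_fU1a M ht _ _ _ _ (n0_lt p) (n1_lt p)
  · exact okT_leaf fun p => ok_fU2b M ht _ _ _ _ (n0_lt p) (n1_lt p)
  · exact okT_leaf fun p => ok_fD1 M ht _ _ _ (n0_lt p) (n1_lt p) (n2_lt p)
  · exact okT_leaf fun p => ok_fTR M ht _ _ _ _ _ (n0_lt p) (n1_lt p) (n2_lt p) (n3_lt p)
  · exact okT_leaf fun p => ok_fTY M ht _ _ _ _ (n0_lt p) (n1_lt p) (n2_lt p)
  · exact okT_leaf fun p => ok_fLDG M ht _ _ _ _ _ (v0_lt p)
  · exact okT_leaf fun p => ok_fNFc M ht _ _ _ _ _ (nt_lt p) (n3_lt p)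
  · exact okT_leaf fun p => ok_fFULL M ht _ _ _ (n0_lt p) (n1_lt p)
  · exact okT_leaf fun p => ok_fU1b M ht _ _ _ _ (nt_lt p) (n3_lt p)
  · exact okT_leaf fun p => ok_fBADb M ht _ _ _ _ (nt_lt p) (n3_lt p)
  · exact okT_leaf fun p => ok_fBADa M ht _ _ _ _ _ (nt_lt p) (n3_lt p) (n6_lt p)
  · exact okT_leaf fun p => ok_fXQc M ht _ _ _ _ _ (nt_lt p) (n3_lt p)
  · exact okT_leaf fun p => ok_fL4c M ht _ _ _ _ (nt_lt p) (n3_lt p)
  · exact okT_leaf fun p => ok_fS M ht _ _ _ _ (n0_lt p) (n1_lt p)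
  · exact okT_leaf fun p => ok_fW1 M ht _ _ _ _ (n0_lt p) (n1_lt p)
  · exact okT_leaf fun p => ok_fN21c M ht _ _ _ _ (nt_lt p) (n3_lt p)
  · exact okT_leaf fun p => ok_fALc M ht _ _ _ _ (nt_lt p) (n3_lt p)
  · exact okT_leaf fun p => ok_fW2 M ht _ _ _ (n0_lt p) (n1_lt p)
  · exact okT_leaf fun p => ok_fU5 M ht _ _ _ _ (n0_lt p) (n1_lt p)
  · exact okT_leaf fun p => ok_fNORM M ht _ _ (n0_lt p) (n1_lt p)
  · exact okT_leaf fun p => ok_fBE2c M ht _ _ _ _ (nt_lt p) (n3_lt p)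
  · exact okT_leaf fun p => ok_fL1c M ht _ _ _ _ (nt_lt p) (n3_lt p)
  · exact okT_leaf fun p => ok_fD2 M ht _ _ (n0_lt p) (n1_lt p)
  · exact okT_leaf fun p => ok_fLDM M ht _ _ _ _ (v0_lt p)
  · exact okT_leaf fun p => ok_fM31 M ht _ _ (n0_lt p) (n1_lt p)
  · exact okT_leaf fun p => ok_fU2a M ht _ _ _ _ (n0_lt p) (n1_lt p)
  · exact okT_leaf fun p => ok_fB1c M ht _ _ _ _ (nt_lt p) (n3_lt p)
  · exact okT_leaf fun p => ok_fW3 M ht _ _ _ (n0_lt p) (n1_lt p)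
  · exact okT_leaf fun p => ok_fBE1c M ht _ _ _ _ (nt_lt p) (n3_lt p)
  · exact okT_leaf fun p => ok_fTOTM M ht ht_lt _ _ _
  · exact okT_leaf fun p => ok_fFULL3 M ht _ _ (n0_lt p) (n1_lt p)
  · exact okT_leaf fun p => ok_fL2c M ht _ _ _ _ (nt_lt p) (n3_lt p)
  · exact okT_leaf fun p => ok_fNX1 M ht _ _ _ _ (n0_lt p) (n1_lt p)
  · exact okT_leaf fun p => ok_fTY3 M ht _ _ _ (n0_lt p) (n1_lt p)
  · exact okT_leaf fun p => ok_fBX M ht _ _ _ _ (n0_lt p) (n1_lt p) (n2_lt p)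
  · exact okT_leaf fun p => ok_fB2 M ht _ _ _ _ _ (n0_lt p) (n1_lt p) (n2_lt p) (n3_lt p)
  · exact okT_leaf fun p => ok_fE M ht _ _ _ _ _ (nt_lt p) (n3_lt p) (n4_lt p)

end Pool.Agent.Helper58.PLK
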