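import Pool.Agent.Helper58.PLK.Tree
import Pool.Agent.Helper58.PLK.K6
import Pool.Agent.Helper58.PLK.K11
import Pool.Agent.Helper54.PL.Split
import Pool.Agent.Helper15.PL.Halves

/-!
# The assumptions of the cases are true: block M1, the cases A

`M1.ok_fTOP` holds for every prefix of the list of inputs, so it can be used in the other cases, too.
-/

namespace Pool.Agent.Helper58.PLK

open Pool.Agent.Helper15.PL Pool.Agent.Helper54.PL

namespace M1

open Pool.Agent.Helper15.PL.Halves (ind ind_false ind_congr two two_of_not ws totA tot_le)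

variable (M : Model)

/-! ### The number of true inputs -/

theorem sem0_enc {k a b c e : Nat} (hk : k < 29) (ha : a < 16) (hb : b < 16) (hc : c < 16) :
    M.Sem0 (enc k a b c e) ↔ M.SemK k a b c e := by
  rw [enc_eq]
  unfold Model.Sem0
  rw [show (k + 64 * a + 1024 * b + 16384 * c + 262144 * e) % 64 = k by omega,
    show (k + 64 * a + 1024 * b + 16384 * c + 262144 * e) / 64 % 16 = a by omega,
    show (k + 64 * a + 1024 * b + 16384 * c + 262144 * e) / 1024 % 16 = b by omega,
    show (k + 64 * a + 1024 * b + 16384 * c + 262144 * e) / 16384 % 16 = c by omega,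
    show (k + 64 * a + 1024 * b + 16384 * c + 262144 * e) / 262144 = e by omega]

theorem sum_flatMap (g : Nat → Nat) (f : Nat → List Nat) (l : List Nat) :
    ((l.flatMap f).map g).sum = (l.map fun x => ((f x).map g).sum).sum := by
  induction l with
  | nil => rfl
  | cons a l ih => rw [List.flatMap_cons, List.map_append, List.sum_append, ih, List.map_cons,
      List.sum_cons]

theorem sum_range (f : Nat → Nat) (n : Nat) :
    ((List.range n).map f).sum = ∑ i ∈ Finset.range n, f i := by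
  induction n with
  | zero => rfl
  | succ n ih => rw [List.range_succ, List.map_append, List.sum_append, ih, Finset.sum_range_succ]; simp

theorem cnt_eq (f : Nat → Prop) (n : Nat) :
    cnt f 0 n = ((List.range n).map fun h => ind (f h)).sum := by
  classical
  rw [sum_range]
  unfold cnt ind
  rw [Finset.card_filter, ← Finset.range_eq_Ico]

theorem add3 {a b c a' b' c' : Nat} (h1 : a = a') (h2 : b = b') (h3 : c = c') :
    a + b + c = a' + b' + c' := by
  rw [h1, h2, h3]

theorem cnt_all : cnt (fun h => M.Sem0 (recv ht h)) 0 1820 =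
    totA M + ∑ i ∈ Finset.range 14, ∑ j ∈ Finset.range 14, ws M i j := by
  have e1 : cnt (fun h => M.Sem0 (recv ht h)) 0 1820 =
      (halves.map fun d => ind (M.Sem0 d)).sum := by
    rw [cnt_eq, ← ht_halves, List.map_map]
    rfl
  rw [e1]
  unfold halves
  rw [List.map_append, List.map_append, List.sum_append, List.sum_append]
  simp only [sum_flatMap, sum_range]
  unfold totA
  refine add3 ?_ ?_ ?_
  · refine Finset.sum_congr rfl fun i hi => Finset.sum_congr rfl fun a ha => ?_
    have hi' := Finset.mem_range.1 hi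
    have ha' := Finset.mem_range.1 ha
    simp only [Finset.sum_range_succ, Finset.sum_range_zero, zero_add]
    by_cases h : i = a
    · rw [if_pos h]
      have hz : ∀ e : Nat, ind (M.SemK 16 i a e 0) = 0 := fun e => ind_false (fun hh => hh.1 h)
      rw [hz, hz, hz, hz]
      rfl
    · rw [if_neg h]
      simp only [List.map_cons, List.map_nil, List.sum_cons, List.sum_nil]
      rw [ind_congr (sem0_enc M (k := 16) (a := i) (b := a) (c := 0) (e := 0) (by omega) (by omega)
          (by omega) (by omega)),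
        ind_congr (sem0_enc M (k := 16) (a := i) (b := a) (c := 1) (e := 0) (by omega) (by omega)
          (by omega) (by omega)),
        ind_congr (sem0_enc M (k := 16) (a := i) (b := a) (c := 2) (e := 0) (by omega) (by omega)
          (by omega) (by omega)),
        ind_congr (sem0_enc M (k := 16) (a := i) (b := a) (c := 3) (e := 0) (by omega) (by omega)
          (by omega) (by omega))]
      omega
  · rw [Finset.mul_sum]
    refine Finset.sum_congr rfl fun i hi => ?_
    rw [Finset.mul_sum]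
    refine Finset.sum_congr rfl fun a ha => ?_
    have hi' := Finset.mem_range.1 hi
    have ha' := Finset.mem_range.1 ha
    by_cases h : i < a
    · rw [if_pos h]
      simp only [List.map_cons, List.map_nil, List.sum_cons, List.sum_nil]
      unfold two
      rw [ind_congr (sem0_enc M (k := 24) (a := i) (b := a) (c := 0) (e := 0) (by omega) (by omega)
          (by omega) (by omega)),
        ind_congr (sem0_enc M (k := 25) (a := i) (b := a) (c := 0) (e := 0) (by omega) (by omega)
          (by omega) (by omega)),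
        ind_congr (sem0_enc M (k := 26) (a := i) (b := a) (c := 0) (e := 0) (by omega) (by omega)
          (by omega) (by omega)),
        ind_congr (sem0_enc M (k := 27) (a := i) (b := a) (c := 0) (e := 0) (by omega) (by omega)
          (by omega) (by omega))]
      omega
    · rw [if_neg h, two_of_not M h]
      rfl
  · refine Finset.sum_congr rfl fun i hi => Finset.sum_congr rfl fun a ha => ?_
    have hi' := Finset.mem_range.1 hi
    have ha' := Finset.mem_range.1 ha
    unfold ws
    simp only [Finset.sum_range_succ, Finset.sum_range_zero, zero_add]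
    by_cases h : i < a
    · rw [if_pos h]
      simp only [List.map_cons, List.map_nil, List.sum_cons, List.sum_nil]
      rw [ind_congr (sem0_enc M (k := 28) (a := i) (b := a) (c := 0) (e := 0) (by omega) (by omega)
          (by omega) (by omega)),
        ind_congr (sem0_enc M (k := 28) (a := i) (b := a) (c := 1) (e := 0) (by omega) (by omega)
          (by omega) (by omega)),
        ind_congr (sem0_enc M (k := 28) (a := i) (b := a) (c := 2) (e := 0) (by omega) (by omega)
          (by omega) (by omega)),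
        ind_congr (sem0_enc M (k := 28) (a := i) (b := a) (c := 3) (e := 0) (by omega) (by omega)
          (by omega) (by omega))]
      omega
    · rw [if_neg h]
      have hz : ∀ q : Nat, ind (M.SemK 28 i a q 0) = 0 := fun q => ind_false (fun hh => h hh.1)
      rw [hz, hz, hz, hz]
      rfl

/-- At most four inputs are true. -/
theorem ok_fTOP (hs : Std M.S M.W M.c) {N : Nat} (h1 : 2 ≤ N) (hN : N ≤ 1820) :
    ClauseT (M.Sem ht) (fTOP ht N) := by
  show ClauseT _ [neg (totv ht 0 N 4)]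
  rw [clauseT_cons, litS_neg, sem_totv M ht ht_lt (by omega) (by omega) (by omega) (by omega)]
  left
  have h2 := cnt_add (fun h => M.Sem0 (recv ht h)) (Nat.zero_le N) hN
  have h3 := cnt_all M
  have h4 := tot_le M hs.total
  omega

/-! ### Small families -/

theorem litN {Se : Nat → Prop} {d : Nat} (h : ¬ Se d) : ClauseT Se [neg d] :=
  clauseT_cons.2 (Or.inl (litS_neg.2 h))

theorem litP {Se : Nat → Prop} {d : Nat} (h : Se d) : ClauseT Se [pos d] :=
  clauseT_cons.2 (Or.inl (litS_pos.2 h))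

theorem ok_fNO4 (hle : ∀ f, M.S.mult f ≤ 3) (i j k l : Nat) (hi : i < 16) (hj : j < 16)
    (hk : k < 16) (hl : l < 16) : ClauseT (M.Sem ht) (fNO4 i j k l) := by
  apply clauseT_okc (M.sem_zero ht)
  intro hb
  rw [eqN_eq] at hb
  have hkl : k ≠ l := by
    intro h
    rw [if_pos h] at hb
    omega
  rw [clauseT_cons, litS_neg, clauseT_cons, litS_neg]
  by_contra hcon
  push Not at hcon
  obtain ⟨a1, a2, -⟩ := hcon
  rw [M.sem_enc ht (by omega) hi hj hk] at a1
  rw [M.sem_enc ht (by omega) hi hj hl] at a2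
  obtain ⟨b1, b2, b3, b4⟩ : i < j ∧ j < k ∧ k < 14 ∧ M.X i j = M.X i k := a1
  obtain ⟨c1, c2, c3, c4⟩ : i < j ∧ j < l ∧ l < 14 ∧ M.X i j = M.X i l := a2
  have h := K6.four_le M (i := i) (a := j) (b := k) (c := l) (by omega) (by omega) b3 c3 (by omega)
    (by omega) (by omega) (by omega) (by omega) hkl b4 c4 0 0
  have := hle (M.flag i j 0 0)
  omega

/-- The line `m` passes through the vertex. -/
theorem mem_left {i a : Nat} (e : Nat) (hi : i < 14) (ha : a < 14) (hia : i ≠ a) :
    M.c.perm (fi i) ∈ M.S.vert (M.flagE i a e) :=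
  (K6.mem_vert M _ _ hi ha hia).2 (Or.inl rfl)

theorem mem_right {i a : Nat} (e : Nat) (hi : i < 14) (ha : a < 14) (hia : i ≠ a) :
    M.c.perm (fi a) ∈ M.S.vert (M.flagE i a e) :=
  (K6.mem_vert M _ _ hi ha hia).2 (Or.inr rfl)

theorem waste_W1 {f : M.S.F} (h : M.S.W1 f) : M.S.waste f ≠ 0 := by
  unfold FlagSys.waste
  rw [if_pos h.1, if_pos h]
  omega

theorem ok_fZW1 {m : Nat} (hz : ZeroLine M.S (M.c.perm (fi m))) (i a e : Nat)
    (hi : i < 16) (ha : a < 16) (he : e < 16) : ClauseT (M.Sem ht) (fZW1 m i a e) := by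
  apply clauseT_okc (M.sem_zero ht)
  intro hb
  have hor : i = m ∨ a = m := by
    have h' : (1 - eqN i m) * (1 - eqN a m) = 0 := hb
    rw [eqN_eq, eqN_eq] at h'
    by_contra hcon
    push Not at hcon
    rw [if_neg hcon.1, if_neg hcon.2] at h'
    omega
  apply litN
  show ¬ M.Sem ht (enc 16 i a e 0)
  rw [M.sem_enc ht (by omega) hi ha he]
  intro h
  obtain ⟨h1, h2, h3, h4, h5, h6⟩ : i ≠ a ∧ i < 14 ∧ a < 14 ∧ e < 4 ∧
    (∀ l < a, l ≠ i → M.X i l ≠ M.X i a) ∧ M.S.W1 (M.flagE i a e) := h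
  refine waste_W1 M h6 (hz _ ?_)
  rcases hor with rfl | rfl
  · exact mem_left M e h2 h3 h1
  · exact mem_right M e h2 h3 h1

theorem ok_fZW2 {m : Nat} (hm : m < 14) (hz : ZeroLine M.S (M.c.perm (fi m))) (k j : Nat)
    (hj : j < 16) : ClauseT (M.Sem ht) (fZW2 m k j) := by
  apply clauseT_okc (M.sem_zero ht)
  intro hb
  have hk : k ≤ 3 := by
    have h' : k - 3 = 0 := hb
    omega
  apply litN
  show ¬ M.Sem ht (enc (24 + k) m j 0 0)
  rw [M.sem_enc ht (by omega) (by omega) hj (by omega)]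
  intro h
  have hmj : m < j ∧ j < 14 := by
    interval_cases k
    · exact ⟨h.1, h.2.1⟩
    · exact ⟨h.1, h.2.1⟩
    · exact ⟨h.1, h.2.1⟩
    · exact ⟨h.1, h.2.1⟩
  have hw : M.S.waste (M.flag m j 0 0) = 0 := hz _ (mem_left M 0 hm hmj.2 (by omega))
  unfold FlagSys.waste at hw
  interval_cases k
  · obtain ⟨-, -, h3, h4⟩ : m < j ∧ j < 14 ∧ M.S.mult (M.flag m j 0 0) = 2 ∧
      3 ≤ M.S.nc (M.flag m j 0 0) := h
    rw [if_neg (by omega), if_neg (by omega)] at hw
    omega
  · obtain ⟨-, -, h3, h4⟩ : m < j ∧ j < 14 ∧ M.S.mult (M.flag m j 0 0) = 2 ∧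
      M.S.nc (M.flag m j 0 0) = 4 := h
    rw [if_neg (by omega), if_neg (by omega)] at hw
    omega
  · obtain ⟨-, -, ⟨h3, h5⟩, h4⟩ : m < j ∧ j < 14 ∧ M.S.full (M.flag m j 0 0) ∧
      3 ≤ M.S.nX (M.flag m j 0 0) := h
    rw [if_neg (by omega), if_pos h5] at hw
    omega
  · obtain ⟨-, -, ⟨h3, h5⟩, h4⟩ : m < j ∧ j < 14 ∧ M.S.full (M.flag m j 0 0) ∧
      M.S.nX (M.flag m j 0 0) = 4 := h
    rw [if_neg (by omega), if_pos h5] at hw
    omega

theorem ok_fNTY {m : Nat} (hn : ∀ i ≤ m, ∀ f, M.c.perm (fi i) ∈ M.S.vert f → ¬ M.S.ty21 f)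
    (i j s : Nat) (hi : i < 16) (hj : j < 16) (hs : s < 16) :
    ClauseT (M.Sem ht) (fNTY m i j s) := by
  apply clauseT_okc (M.sem_zero ht)
  intro hb
  have him : i ≤ m := by
    have h' : i - m = 0 := hb
    omega
  apply litN
  show ¬ M.Sem ht (enc 9 i j s 0)
  rw [M.sem_enc ht (by omega) hi hj hs]
  rintro ⟨h1, h2, h3, h4⟩
  exact hn i him _ (mem_left M _ (by omega) h2 (by omega)) h4

theorem ok_fNFU {m : Nat} (hn : ∀ i ≤ m, ∀ f, M.c.perm (fi i) ∈ M.S.vert f → ¬ M.S.full f)
    (i j : Nat) (hi : i < 16) (hj : j < 16) : ClauseT (M.Sem ht) (fNFU m i j) := by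
  apply clauseT_okc (M.sem_zero ht)
  intro hb
  have him : i ≤ m := by
    have h' : i - m = 0 := hb
    omega
  apply litN
  show ¬ M.Sem ht (enc 8 i j 0 0)
  rw [M.sem_enc ht (by omega) hi hj (by omega)]
  rintro ⟨h1, h2, h3⟩
  exact hn i him _ (mem_left M 0 (by omega) h2 (by omega)) h3

theorem ok_fDD {m : Nat} (hn : ∀ i ≤ m, ∀ j < 14, i < j → M.S.mult (M.flag i j 0 0) = 2)
    (i j : Nat) : ClauseT (M.Sem ht) (fDD m i j) := by
  apply clauseT_okc (M.sem_zero ht)
  intro hb
  have h' : (i - m) + bad2 i j = 0 := hb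
  have h2 : bad2 i j = 0 := by omega
  rw [Model.bad2_eq_zero] at h2
  apply litP
  show M.Sem ht (enc 7 i j 0 0)
  rw [M.sem_enc ht (by omega) (by omega) (by omega) (by omega)]
  exact ⟨h2.1, h2.2, hn i (by omega) j h2.2 h2.1⟩

/-- Membership in `zall`. -/
theorem zall_mem {n m : Nat} (hm : m < n) (hb : bad3 (n0 m) (n1 m) (n2 m) = 0) :
    pos (3 + 64 * m) ∈ zall n := by
  induction n with
  | zero => omega
  | succ n ih =>
    have e : zall (n + 1) = sel (bad3 (n0 n) (n1 n) (n2 n)) (pos (3 + 64 * n) :: zall n) (zall n) := rfl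
    rw [e, sel_eq]
    rcases Nat.lt_succ_iff_lt_or_eq.1 hm with h | h
    · split_ifs
      · exact List.mem_cons_of_mem _ (ih h)
      · exact ih h
    · subst h
      rw [if_pos hb]
      exact List.mem_cons_self

theorem ok_zall {i j k : Nat} (hij : i < j) (hjk : j < k) (hk : k < 14) (h : M.X i j = M.X i k) :
    ClauseT (M.Sem ht) (zall 4096) := by
  have e0 : n0 (i + 16 * j + 256 * k) = i := by rw [Model.n0_mod]; omega
  have e1 : n1 (i + 16 * j + 256 * k) = j := by rw [Model.n1_mod]; omega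
  have e2 : n2 (i + 16 * j + 256 * k) = k := by rw [Model.n2_mod]; omega
  refine ⟨_, zall_mem (m := i + 16 * j + 256 * k) (by omega) ?_, ?_⟩
  · rw [e0, e1, e2, Model.bad3_eq_zero]
    exact ⟨hij, hjk, hk⟩
  · rw [litS_pos]
    have e : 3 + 64 * (i + 16 * j + 256 * k) = enc 3 i j k 0 := by rw [enc_eq]; omega
    rw [e, M.sem_enc ht (by omega) (by omega) (by omega) (by omega)]
    exact ⟨hij, hjk, hk, h⟩

theorem fi_zero : fi 0 = 0 := rfl
theorem fi_one : fi 1 = 1 := rfl

/-- Three concurrent lines in the order of the labels. -/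
theorem sorted {i j b : Nat} (hj : j < 14) (hb : b < 14) (hij : i < j) (hbi : b ≠ i)
    (hbj : b ≠ j) (h : M.X i j = M.X i b) :
    ∃ x y z : Nat, x < y ∧ y < z ∧ z < 14 ∧ M.X x y = M.X x z := by
  rcases lt_or_gt_of_ne hbi with h1 | h1
  · -- b < i < j
    refine ⟨b, i, j, h1, hij, hj, ?_⟩
    rcases M.btw3 h1 hij hj with ⟨p, q⟩ | ⟨p, q⟩ | ⟨p, q⟩
    · rw [M.X_symm i b] at h; linarith
    · exact p
    · rw [M.X_symm i b] at h; linarith
  · rcases lt_or_gt_of_ne hbj with h2 | h2
    · exact ⟨i, b, j, h1, h2, hj, h.symm⟩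
    · exact ⟨i, j, b, hij, h2, hb, h⟩

/-- The common part of the cases A. -/
theorem ok_exA (hs : Std M.S M.W M.c) (h : CaseA M.S M.W M.c) {sp : FT} (hsp : OkT (M.Sem ht) sp) :
    OkT (M.Sem ht) (exA ht sp) := by
  unfold exA
  refine okT_node (okT_node ?_ ?_) (okT_node ?_ (okT_node ?_ hsp))
  · exact okT_leaf fun p => ok_fNO4 M h.le _ _ _ _ (n0_lt p) (n1_lt p) (n2_lt p) (n3_lt p)
  · exact okT_leaf fun p => ok_fZW1 M (m := 0) h.zero _ _ _ (n0_lt p) (n1_lt p) (n2_lt p)
  · exact okT_leaf fun p => ok_fZW2 M (m := 0) (by omega) h.zero _ _ (n1_lt p)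
  · exact okT_leaf fun _ => ok_fTOP M hs (N := 1456) (by omega) (by omega)

theorem okT_one {P : Nat → Prop} (h0 : ¬ P 0) {c : List Nat} (h : ClauseT P c) :
    OkT P (FT.leaf (nthC [c])) := by
  refine okT_leaf (okT_nthC h0 ?_)
  intro l hl
  rw [List.mem_singleton] at hl
  rw [hl]
  exact h

end M1

open M1

variable (M : Model)

theorem ok_exA1 (hs : Std M.S M.W M.c) (h : CaseA1 M.S M.W M.c) : OkT (M.Sem ht) (exA1 ht) := by
  refine ok_exA M hs h.toCaseA (okT_one (M.sem_zero ht) (litP ?_))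
  show M.Sem ht (enc 9 0 1 1 0)
  rw [M.sem_enc ht (by omega) (by omega) (by omega) (by omega)]
  exact ⟨by omega, by omega, by omega, h.ty⟩

theorem ok_exA2 (hs : Std M.S M.W M.c) (h : CaseA2 M.S M.W M.c) : OkT (M.Sem ht) (exA2 ht) := by
  refine ok_exA M hs h.toCaseA (okT_node (okT_one (M.sem_zero ht) (litP ?_)) ?_)
  · show M.Sem ht (enc 8 0 1 0 0)
    rw [M.sem_enc ht (by omega) (by omega) (by omega) (by omega)]
    exact ⟨by omega, by omega, h.full⟩
  · refine okT_leaf fun p => ok_fNTY M (m := 0) ?_ _ _ _ (n0_lt p) (n1_lt p) (n2_lt p)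
    intro i hi f hf
    obtain rfl : i = 0 := by omega
    exact h.noty f hf

theorem ok_exA3 (hs : Std M.S M.W M.c) (h : CaseA3 M.S M.W M.c) : OkT (M.Sem ht) (exA3 ht) := by
  refine ok_exA M hs h.toCaseA (okT_node (okT_node ?_ ?_) ?_)
  · refine okT_leaf (okT_nthC (M.sem_zero ht) ?_)
    intro l hl
    simp only [List.mem_cons, List.not_mem_nil, or_false] at hl
    rcases hl with rfl | rfl
    · refine litP ?_
      show M.Sem ht (enc 7 0 1 0 0)
      rw [M.sem_enc ht (by omega) (by omega) (by omega) (by omega)]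
      exact ⟨by omega, by omega, h.two⟩
    · refine litN ?_
      show ¬ M.Sem ht (enc 7 0 13 0 0)
      rw [M.sem_enc ht (by omega) (by omega) (by omega) (by omega)]
      rintro ⟨-, -, h3⟩
      have h4 : M.S.mult (M.flag 0 13 0 0) = 3 := h.three
      omega
  · refine okT_leaf fun p => ok_fNTY M (m := 0) ?_ _ _ _ (n0_lt p) (n1_lt p) (n2_lt p)
    intro i hi f hf
    obtain rfl : i = 0 := by omega
    exact h.noty f hf
  · refine okT_leaf fun p => ok_fNFU M (m := 0) ?_ _ _ (n0_lt p) (n1_lt p)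
    intro i hi f hf
    obtain rfl : i = 0 := by omega
    exact h.nofull f hf

theorem M1.ok_exA5' (hs : Std M.S M.W M.c) (h : CaseA5 M.S M.W M.c) {sp : FT}
    (hsp : OkT (M.Sem ht) sp) : OkT (M.Sem ht) (exA5 ht sp) := by
  have hor : ∀ i ≤ 1, ∀ f, M.c.perm (fi i) ∈ M.S.vert f →
      M.c.perm 0 ∈ M.S.vert f ∨ M.c.perm 1 ∈ M.S.vert f := by
    intro i hi f hf
    have : i = 0 ∨ i = 1 := by omega
    rcases this with rfl | rfl
    · exact Or.inl hf
    · exact Or.inr hf
  refine ok_exA M hs h.toCaseA (okT_node (okT_node (okT_node (okT_one (M.sem_zero ht) (litP ?_)) ?_)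
    (okT_node ?_ ?_)) (okT_node (okT_node ?_ ?_) hsp))
  · show M.Sem ht (enc 5 0 1 0 0)
    rw [M.sem_enc ht (by omega) (by omega) (by omega) (by omega)]
    exact ⟨by omega, by omega, by omega, by omega, h.tri⟩
  · exact okT_leaf fun p => ok_fZW1 M (m := 1) h.zero' _ _ _ (n0_lt p) (n1_lt p) (n2_lt p)
  · exact okT_leaf fun p => ok_fZW2 M (m := 1) (by omega) h.zero' _ _ (n1_lt p)
  · refine okT_leaf fun p => ok_fDD M (m := 1) ?_ _ _
    intro i hi j hj hij
    exact h.two _ (hor i hi _ (mem_left M 0 (by omega) hj (by omega)))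
  · refine okT_leaf fun p => ok_fNTY M (m := 1) ?_ _ _ _ (n0_lt p) (n1_lt p) (n2_lt p)
    intro i hi f hf
    exact h.noty f (hor i hi f hf)
  · refine okT_leaf fun p => ok_fNFU M (m := 1) ?_ _ _ (n0_lt p) (n1_lt p)
    intro i hi f hf
    exact h.nofull f (hor i hi f hf)

theorem ok_exA5 (hs : Std M.S M.W M.c) (h : CaseA5 M.S M.W M.c) :
    OkT (M.Sem ht) (exA5s ht) ∨ OkT (M.Sem ht) (exA5n ht) := by
  by_cases hD : ∀ i ≤ 13, ∀ j < 14, i < j → M.S.mult (M.flag i j 0 0) = 2
  · left
    exact M1.ok_exA5' M hs h (okT_leaf fun p => ok_fDD M (m := 13) hD _ _)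
  · right
    push Not at hD
    obtain ⟨i, hi, j, hj, hij, hne⟩ := hD
    obtain ⟨b, hb, hbi, hbj, hX⟩ := K6.exists_third M (by omega) hj (by omega) hne
    obtain ⟨x, y, z, h1, h2, h3, h4⟩ := sorted M hj hb hij hbi hbj hX
    exact M1.ok_exA5' M hs h (okT_leaf fun _ => ok_zall M h1 h2 h3 h4)

end Pool.Agent.Helper58.PLK
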