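import Pool.Agent.Helper58.PLK.K11
import Pool.Agent.Helper58.PLK.Mode
import Pool.Agent.Helper15.PL.Total

/-!
# The cardinality constraint is true
-/

namespace Pool.Agent.Helper58.PLK

open Pool.Agent.Helper15.PL Pool.Agent.Helper15.PL.Halves

theorem cnt_mono (f : Nat → Prop) {l r r' : Nat} (h : r ≤ r') : cnt f l r ≤ cnt f l r' := by
  classical
  unfold cnt
  exact Finset.card_le_card (Finset.filter_subset_filter _ (Finset.Ico_subset_Ico_right h))

/-- At most four of the first `N` inputs are true. -/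
theorem ok_fTOP (M : Model) (h : ∑ f, (M.S.waste f : ℤ) + ∑ f, M.S.slack f ≤ 16) {N : Nat}
    (hN : N ≤ 1820) (hN' : 1 < N) : ClauseT (M.Sem ht) (fTOP ht N) := by
  have h1 := total_halves M h
  have h2 := cnt_mono (fun h => M.Sem0 (recv ht h)) (l := 0) hN
  have e : fTOP ht N = [neg (totv ht 0 N 4)] := rfl
  rw [e, clauseT_cons]
  left
  rw [litS_neg, sem_totv M ht ht_lt (by omega) (by omega) (by norm_num) (by omega)]
  omega

end Pool.Agent.Helper58.PLK
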