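import Pool.Agent.Helper58.PLK.Tree
import Pool.Agent.Helper58.PLK.Top
import Pool.Agent.Helper15.PL.Loads
import Pool.Agent.Helper54.PL.Split

/-!
# The assumptions of the case C
-/

namespace Pool.Agent.Helper58.PLK

open Pool.Agent.Helper15.PL Pool.Agent.Helper54.PL

variable (M : Model)

theorem ok_exC_aux (hs : Std M.S M.W M.c) (h : CaseC M.S M.W M.c)
    (hTOP : ClauseT (M.Sem ht) (fTOP ht 1460))
    (hLD : 20 ≤ cnt (fun h => M.Sem0 (ldin 1 0 0 0 h)) 0 74) : OkT (M.Sem ht) (exC ht) := by
  refine okT_node (okT_leaf fun _ => hTOP) (okT_leaf (okT_nthC (M.sem_zero ht) ?_))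
  have front : ∀ l : Fin 14, l ≠ 0 → (M.W.X 0 l = M.W.X 0 1 ↔ l.1 < 5) := by
    intro l hl
    rw [← h.five]
    exact hs.front l hl
  -- the lines 0, ..., 4 are concurrent
  have x0 : ∀ a : Nat, 0 < a → a < 5 → M.X 0 a = M.X 0 1 := by
    intro a ha ha5
    have : (fi a).val = a := by
      simp only [fi, Fin.ofNat_eq_cast, Fin.val_natCast]
      omega
    exact (front (fi a) (by
      intro h0
      rw [h0] at this
      simp at this
      omega)).2 (by omega)
  have x1 : ∀ a b : Nat, 0 < a → a < b → b < 5 → M.X a b = M.X 0 1 := by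
    intro a b ha hab hb
    have h1 : M.X 0 a = M.X 0 b := by rw [x0 a ha (by omega), x0 b (by omega) hb]
    rw [M.conc3 (by omega) (by omega) (by omega) (by omega) (by omega) (by omega)] at h1
    rw [← h1, x0 a ha (by omega)]
  have hz : ∀ a b c : Nat, a < b → b < c → c < 5 → M.SemK 3 a b c 0 := by
    intro a b c hab hbc hc
    refine ⟨hab, hbc, by omega, ?_⟩
    rcases Nat.eq_zero_or_pos a with rfl | ha
    · rw [x0 b (by omega) (by omega), x0 c (by omega) hc]
    · rw [x1 a b ha hab (by omega), x1 a c ha (by omega) hc]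
  have x5 : M.X 0 1 < M.X 0 5 := by
    have h1 : M.W.X 0 1 ≤ M.W.X 0 5 := hs.norm 1 5 (by decide) (by decide)
    have h2 : M.W.X 0 5 ≠ M.W.X 0 1 := fun he => by
      have := (front 5 (by decide)).1 he
      revert this
      decide
    exact lt_of_le_of_ne h1 h2.symm
  have p1 : M.SemK 1 0 1 5 0 := ⟨by omega, by omega, by omega, x5⟩
  have p4 : M.SemK 1 0 4 5 0 := ⟨by omega, by omega, by omega, by rw [x0 4 (by omega) (by omega)]; exact x5⟩
  have unit : ∀ k a b c : Nat, k < 29 → a < 16 → b < 16 → c < 16 → M.SemK k a b c 0 →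
      ClauseT (M.Sem ht) [pos (enc k a b c 0)] := by
    intro k a b c hk ha hb hc hS
    rw [clauseT_cons, litS_pos, M.sem_enc ht hk ha hb hc]
    exact Or.inl hS
  intro l hl
  simp only [List.mem_cons, List.not_mem_nil, or_false] at hl
  rcases hl with rfl | rfl | rfl | rfl | rfl | rfl | rfl | rfl | rfl | rfl | rfl | rfl | rfl
  · exact unit 3 0 1 2 (by omega) (by omega) (by omega) (by omega) (hz 0 1 2 (by omega) (by omega) (by omega))
  · exact unit 3 0 1 3 (by omega) (by omega) (by omega) (by omega) (hz 0 1 3 (by omega) (by omega) (by omega))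
  · exact unit 3 0 1 4 (by omega) (by omega) (by omega) (by omega) (hz 0 1 4 (by omega) (by omega) (by omega))
  · exact unit 3 0 2 3 (by omega) (by omega) (by omega) (by omega) (hz 0 2 3 (by omega) (by omega) (by omega))
  · exact unit 3 0 2 4 (by omega) (by omega) (by omega) (by omega) (hz 0 2 4 (by omega) (by omega) (by omega))
  · exact unit 3 0 3 4 (by omega) (by omega) (by omega) (by omega) (hz 0 3 4 (by omega) (by omega) (by omega))
  · exact unit 3 1 2 3 (by omega) (by omega) (by omega) (by omega) (hz 1 2 3 (by omega) (by omega) (by omega))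
  · exact unit 3 1 2 4 (by omega) (by omega) (by omega) (by omega) (hz 1 2 4 (by omega) (by omega) (by omega))
  · exact unit 3 1 3 4 (by omega) (by omega) (by omega) (by omega) (hz 1 3 4 (by omega) (by omega) (by omega))
  · exact unit 3 2 3 4 (by omega) (by omega) (by omega) (by omega) (hz 2 3 4 (by omega) (by omega) (by omega))
  · exact unit 1 0 4 5 (by omega) (by omega) (by omega) (by omega) p4
  · exact unit 1 0 1 5 (by omega) (by omega) (by omega) (by omega) p1
  · rw [clauseT_cons, litS_pos]
    left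
    refine (sem_ldv M ht (v := 1) (l := 0) (r := 74) (q := 19) (by omega) (by omega) (by omega) (by omega) (by omega)).2 ?_
    exact hLD

theorem ok_exC (hs : Std M.S M.W M.c) (h : CaseC M.S M.W M.c) : OkT (M.Sem ht) (exC ht) := by
  refine ok_exC_aux M hs h (ok_fTOP M hs.total (by omega) (by omega)) ?_
  have front : ∀ l : Fin 14, l ≠ 0 → (M.W.X 0 l = M.W.X 0 1 ↔ l.1 < 5) := by
    intro l hl
    rw [← h.five]
    exact hs.front l hl
  have h16 : Count.slackV M.S (M.c.Φ 0 1 true true) ≤ 16 := by
    have h1 : vslack M.S (M.c.Φ 0 1 true true) ≤ ∑ f, M.S.slack f := vslack_le hs.vs _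
    have h2 : (0 : ℤ) ≤ ∑ f, (M.S.waste f : ℤ) := Finset.sum_nonneg (fun _ _ => by positivity)
    have h3 := hs.total
    have h4 : Count.slackV M.S (M.c.Φ 0 1 true true) = vslack M.S (M.c.Φ 0 1 true true) := rfl
    rw [h4]
    linarith
  exact le_of_eq (Loads.load5 M h.five front h16).symm

end Pool.Agent.Helper58.PLK
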