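import Pool.Agent.Helper58.PLK.M1
import Pool.Agent.Helper58.PLK.Top
import Pool.Agent.Helper15.PL.Loads

/-!
# The assumptions of the cases are true: block M3, the case B
-/

namespace Pool.Agent.Helper58.PLK

open Pool.Agent.Helper15.PL Pool.Agent.Helper54.PL

namespace M3

open M1 (litN litP)

variable (M : Model)

theorem flag_symm {i j : Nat} (hij : i < j) (hj : j < 14) (d s : Nat) :
    M.S.mult (M.flag i j d s) = M.S.mult (M.flag i j 0 0) :=
  K6.mult_flag M (by omega) hj (by omega) _ _ _ _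

/-- Slack of a vertex. -/
theorem slackV_eq (f : M.S.F) : M.slackV f = vslack M.S f := rfl

theorem le16 (hs : Std M.S M.W M.c) (f : M.S.F) : Count.slackV M.S f ≤ 16 := by
  have h1 : vslack M.S f ≤ ∑ f, M.S.slack f := vslack_le hs.vs _
  have h2 : (0 : ℤ) ≤ ∑ f, (M.S.waste f : ℤ) := Finset.sum_nonneg (fun _ _ => by positivity)
  have h3 := hs.total
  have h4 : Count.slackV M.S f = vslack M.S f := rfl
  rw [h4]
  linarith

theorem ok_fNO5 (hle : ∀ f, M.S.mult f ≤ 4) (i j k l m : Nat) (hi : i < 16) (hj : j < 16)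
    (hk : k < 16) (hl : l < 16) (hm : m < 16) : ClauseT (M.Sem ht) (fNO5 i j k l m) := by
  apply clauseT_okc (M.sem_zero ht)
  intro hb
  have hb' : eqN k l + (eqN k m + eqN l m) = 0 := hb
  rw [eqN_eq, eqN_eq, eqN_eq] at hb'
  have hkl : k ≠ l := by
    intro h
    rw [if_pos h] at hb'
    omega
  have hkm : k ≠ m := by
    intro h
    rw [if_pos h] at hb'
    omega
  have hlm : l ≠ m := by
    intro h
    rw [if_pos h] at hb'
    omega
  rw [clauseT_cons, litS_neg, clauseT_cons, litS_neg, clauseT_cons, litS_neg]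
  by_contra hcon
  push Not at hcon
  obtain ⟨a1, a2, a3, -⟩ := hcon
  rw [M.sem_enc ht (by omega) hi hj hk] at a1
  rw [M.sem_enc ht (by omega) hi hj hl] at a2
  rw [M.sem_enc ht (by omega) hi hj hm] at a3
  obtain ⟨b1, b2, b3, b4⟩ : i < j ∧ j < k ∧ k < 14 ∧ M.X i j = M.X i k := a1
  obtain ⟨c1, c2, c3, c4⟩ : i < j ∧ j < l ∧ l < 14 ∧ M.X i j = M.X i l := a2
  obtain ⟨d1, d2, d3, d4⟩ : i < j ∧ j < m ∧ m < 14 ∧ M.X i j = M.X i m := a3
  have h1 := K6.card_le_mult M (i := i) (a := j) (by omega) (by omega) (by omega)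
    {fi i, fi j, fi k, fi l, fi m} (by
      intro x hx
      simp only [Finset.mem_insert, Finset.mem_singleton] at hx
      rcases hx with rfl | rfl | rfl | rfl | rfl
      · exact Or.inl rfl
      · exact Or.inr rfl
      · exact Or.inr b4.symm
      · exact Or.inr c4.symm
      · exact Or.inr d4.symm) 0 0
  rw [Finset.card_insert_of_notMem, Finset.card_insert_of_notMem, Finset.card_insert_of_notMem,
    Finset.card_pair (Model.fi_ne c3 d3 hlm)] at h1
  · have := hle (M.flag i j 0 0)
    omega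
  · simp only [Finset.mem_insert, Finset.mem_singleton, not_or]
    exact ⟨Model.fi_ne b3 c3 hkl, Model.fi_ne b3 d3 hkm⟩
  · simp only [Finset.mem_insert, Finset.mem_singleton, not_or]
    exact ⟨Model.fi_ne (by omega) b3 (by omega), Model.fi_ne (by omega) c3 (by omega),
      Model.fi_ne (by omega) d3 (by omega)⟩
  · simp only [Finset.mem_insert, Finset.mem_singleton, not_or]
    exact ⟨Model.fi_ne (by omega) (by omega) (by omega), Model.fi_ne (by omega) b3 (by omega),
      Model.fi_ne (by omega) c3 (by omega), Model.fi_ne (by omega) d3 (by omega)⟩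

theorem ok_fWSM (a b q : Nat) (ha : a < 16) (hb : b < 16) (hq : q < 16) :
    ClauseT (M.Sem ht) (fWSM a b q) := by
  apply clauseT_okc (M.sem_zero ht)
  intro hbad
  have hq1 : 1 ≤ q := by
    have h' : 1 - q = 0 := hbad
    omega
  rw [clauseT_cons, litS_neg, clauseT_cons, litS_pos]
  rw [M.sem_enc ht (k := 28) (by omega) ha hb hq]
  have e : M.Sem ht (enc 28 a b (q - 1) 0) ↔ M.SemK 28 a b (q - 1) 0 :=
    M.sem_enc ht (by omega) ha hb (by omega)
  by_cases h : M.SemK 28 a b q 0
  · right
    left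
    refine e.2 ?_
    obtain ⟨h1, h2, h3, h4, h5⟩ : a < b ∧ b < 14 ∧ 4 ≤ M.S.mult (M.flag a b 0 0) ∧
      (∀ l < b, l ≠ a → M.X a l ≠ M.X a b) ∧ (4 * q : ℤ) < M.slackV (M.flag a b 0 0) := h
    refine ⟨h1, h2, h3, h4, lt_of_le_of_lt ?_ h5⟩
    push_cast [hq1]
    linarith
  · exact Or.inl h

theorem fi_val {i : Nat} (h : i < 14) : (fi i).val = i := by
  simp only [fi, Fin.ofNat_eq_cast, Fin.val_natCast]
  omega

theorem bad4_eq {a b c d : Nat} (h : bad4 a b c d = 0) : a < b ∧ b < c ∧ c < d ∧ d < 14 := by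
  have h' : bad3 a b c + bad3 b c d = 0 := h
  have h1 : bad3 a b c = 0 := by omega
  have h2 : bad3 b c d = 0 := by omega
  rw [Model.bad3_eq_zero] at h1 h2
  exact ⟨h1.1, h1.2.1, h2.2.1, h2.2.2⟩

/-- A vertex on four lines. -/
theorem mult_four (hle : ∀ f, M.S.mult f ≤ 4) {a b c d : Nat} (hab : a < b) (hbc : b < c)
    (hcd : c < d) (hd : d < 14) (h1 : M.X a b = M.X a c) (h2 : M.X a b = M.X a d) :
    M.S.mult (M.flag a b 0 0) = 4 := by
  have h := K6.four_le M (i := a) (a := b) (b := c) (c := d) (by omega) (by omega) (by omega) hd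
    (by omega) (by omega) (by omega) (by omega) (by omega) (by omega) h1 h2 0 0
  have := hle (M.flag a b 0 0)
  omega

/-- The lines through a vertex on four lines. -/
theorem lines_four (hle : ∀ f, M.S.mult f ≤ 4) {a b c d : Nat} (hab : a < b) (hbc : b < c)
    (hcd : c < d) (hd : d < 14) (h1 : M.X a b = M.X a c) (h2 : M.X a b = M.X a d) {l : Nat}
    (hl : l < 14) (hla : l ≠ a) (h : M.X a l = M.X a b) : b ≤ l := by
  by_contra hlt
  have hle' := K6.card_le_mult M (i := a) (a := b) (by omega) (by omega) (by omega)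
    {fi a, fi b, fi c, fi d, fi l} (by
      intro x hx
      simp only [Finset.mem_insert, Finset.mem_singleton] at hx
      rcases hx with rfl | rfl | rfl | rfl | rfl
      · exact Or.inl rfl
      · exact Or.inr rfl
      · exact Or.inr h1.symm
      · exact Or.inr h2.symm
      · exact Or.inr h) 0 0
  rw [Finset.card_insert_of_notMem, Finset.card_insert_of_notMem, Finset.card_insert_of_notMem,
    Finset.card_pair (Model.fi_ne hd hl (by omega))] at hle'
  · have := hle (M.flag a b 0 0)
    omega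
  · simp only [Finset.mem_insert, Finset.mem_singleton, not_or]
    exact ⟨Model.fi_ne (by omega) hd (by omega), Model.fi_ne (by omega) hl (by omega)⟩
  · simp only [Finset.mem_insert, Finset.mem_singleton, not_or]
    exact ⟨Model.fi_ne (by omega) (by omega) (by omega), Model.fi_ne (by omega) hd (by omega),
      Model.fi_ne (by omega) hl (by omega)⟩
  · simp only [Finset.mem_insert, Finset.mem_singleton, not_or]
    exact ⟨Model.fi_ne (by omega) (by omega) (by omega),
      Model.fi_ne (by omega) (by omega) (by omega), Model.fi_ne (by omega) hd (by omega),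
      Model.fi_ne (by omega) hl (by omega)⟩

theorem load (hs : Std M.S M.W M.c) (hle : ∀ f, M.S.mult f ≤ 4) {a b c d : Nat} (hab : a < b)
    (hbc : b < c) (hcd : c < d) (hd : d < 14) (h1 : M.X a b = M.X a c) (h2 : M.X a b = M.X a d) :
    cnt (fun h => M.Sem0 (ldin a b c d h)) 0 60 = 8 := by
  have h := Loads.load4 M (a := fi a) (b := fi b) (c := fi c) (d := fi d)
    (Model.fi_lt (by omega) hab) (Model.fi_lt (by omega) hbc) (Model.fi_lt (by omega) hcd)
    (mult_four M hle hab hbc hcd hd h1 h2) h1.symm h2.symm (le16 M hs _)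
  rw [fi_val (by omega), fi_val (by omega), fi_val (by omega), fi_val (by omega)] at h
  exact h

theorem pack {a b c d : Nat} (ha : a < 16) (hb : b < 16) (hc : c < 16) (hd : d < 16) :
    (a + 16 * b + 256 * c + 4096 * d) % 16 = a ∧ (a + 16 * b + 256 * c + 4096 * d) / 16 % 16 = b ∧
    (a + 16 * b + 256 * c + 4096 * d) / 256 % 16 = c ∧
    (a + 16 * b + 256 * c + 4096 * d) / 4096 % 16 = d := by
  have h1 : (a + 16 * b + 256 * c + 4096 * d) / 16 = b + 16 * c + 256 * d := by omega
  have h2 : (a + 16 * b + 256 * c + 4096 * d) / 256 = c + 16 * d := by omega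
  have h3 : (a + 16 * b + 256 * c + 4096 * d) / 4096 = d := by omega
  rw [h1, h2, h3]
  refine ⟨by omega, by omega, by omega, by omega⟩

theorem ok_fLOD (hs : Std M.S M.W M.c) (hle : ∀ f, M.S.mult f ≤ 4) (a b c d : Nat) :
    ClauseT (M.Sem ht) (fLOD a b c d) := by
  apply clauseT_okc (M.sem_zero ht)
  intro hb
  obtain ⟨hab, hbc, hcd, hd⟩ := bad4_eq hb
  rw [clauseT_cons, clauseT_cons, clauseT_cons, litS_pos, litS_neg, litS_neg]
  rw [M.sem_enc ht (k := 3) (a := a) (b := b) (c := c) (by omega) (by omega) (by omega) (by omega),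
    M.sem_enc ht (k := 3) (a := a) (b := b) (c := d) (by omega) (by omega) (by omega) (by omega)]
  by_cases h1 : M.SemK 3 a b c 0
  · by_cases h2 : M.SemK 3 a b d 0
    · left
      have e1 : M.X a b = M.X a c := h1.2.2.2
      have e2 : M.X a b = M.X a d := h2.2.2.2
      have h3 := load M hs hle hab hbc hcd hd e1 e2
      have hv : Nat.add (pk3 a b c) (Nat.mul 4096 d) = a + 16 * b + 256 * c + 4096 * d := by
        show a + 16 * (b + 16 * c) + 4096 * d = _
        ring
      refine (sem_ldv M ht (v := Nat.add (pk3 a b c) (Nat.mul 4096 d)) (l := 0) (r := 60) (q := 7)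
        (by rw [hv]; omega) (by omega) (by omega) (by omega) (by omega)).2 ?_
      unfold ldF
      rw [hv, Model.n0_mod, Model.n1_mod, Model.n2_mod, Model.n3_mod,
        (pack (a := a) (b := b) (c := c) (d := d) (by omega) (by omega) (by omega) (by omega)).1,
        (pack (a := a) (b := b) (c := c) (d := d) (by omega) (by omega) (by omega) (by omega)).2.1,
        (pack (a := a) (b := b) (c := c) (d := d) (by omega) (by omega) (by omega) (by omega)).2.2.1,
        (pack (a := a) (b := b) (c := c) (d := d) (by omega) (by omega) (by omega) (by omega)).2.2.2,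
        h3]
      omega
    · exact Or.inr (Or.inr (Or.inl h2))
  · exact Or.inr (Or.inl h1)

theorem ok_fWSC (hle : ∀ f, M.S.mult f ≤ 4)
    (hmin : ∀ g, M.S.mult g = 4 → vslack M.S (M.c.Φ 0 1 true true) ≤ vslack M.S g) (a b c d q : Nat)
    (hq : q < 16) : ClauseT (M.Sem ht) (fWSC a b c d q) := by
  apply clauseT_okc (M.sem_zero ht)
  intro hb
  obtain ⟨hab, hbc, hcd, hd⟩ := bad4_eq hb
  rw [clauseT_cons, clauseT_cons, clauseT_cons, clauseT_cons, litS_neg, litS_pos, litS_neg, litS_neg]
  rw [M.sem_enc ht (k := 3) (a := a) (b := b) (c := c) (by omega) (by omega) (by omega) (by omega),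
    M.sem_enc ht (k := 3) (a := a) (b := b) (c := d) (by omega) (by omega) (by omega) (by omega),
    M.sem_enc ht (k := 28) (a := a) (b := b) (c := q) (by omega) (by omega) (by omega) hq]
  have e0 : M.Sem ht (enc 28 0 1 q 0) ↔ M.SemK 28 0 1 q 0 :=
    M.sem_enc ht (by omega) (by omega) (by omega) hq
  by_cases h1 : M.SemK 3 a b c 0
  · by_cases h2 : M.SemK 3 a b d 0
    · by_cases h3 : M.SemK 28 0 1 q 0
      · right
        left
        have e1 : M.X a b = M.X a c := h1.2.2.2
        have e2 : M.X a b = M.X a d := h2.2.2.2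
        have h4 := mult_four M hle hab hbc hcd hd e1 e2
        refine ⟨hab, by omega, by omega, ?_, ?_⟩
        · intro l hl hla he
          have := lines_four M hle hab hbc hcd hd e1 e2 (l := l) (by omega) hla he
          omega
        · refine lt_of_lt_of_le h3.2.2.2.2 ?_
          exact hmin _ h4
      · exact Or.inl fun h => h3 (e0.1 h)
    · exact Or.inr (Or.inr (Or.inr (Or.inl h2)))
  · exact Or.inr (Or.inr (Or.inl h1))

theorem ok_fPAT {p : Fin 8 → Bool} (hpat : ∀ q s, M.S.full (M.S.s0 (M.c.Φ (rayI q) (rayA q) (rayD q) s)) ↔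
    p q = true) {pat : Nat}
    (hp : ∀ q : Fin 8, Nat.land (Nat.shiftRight pat q.1) 1 = if p q = true then 1 else 0) (q : Nat) :
    ClauseT (M.Sem ht) (fPAT pat q) := by
  apply clauseT_okc (M.sem_zero ht)
  intro hb
  have hq : q < 8 := by
    have h' : q - 7 = 0 := hb
    omega
  have hq' := hp ⟨q, hq⟩
  have hw : Nat.sub 1 (Nat.land (Nat.shiftRight pat q) 1) = if p ⟨q, hq⟩ = true then 0 else 1 := by
    show 1 - Nat.land (Nat.shiftRight pat q) 1 = _
    rw [hq']
    split_ifs <;> rfl
  rw [clauseT_cons]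
  left
  rw [hw, litS_lit (by split_ifs <;> omega)]
  have hr : (if p ⟨q, hq⟩ = true then 0 else 1) = 0 ↔ p ⟨q, hq⟩ = true := by
    split_ifs with h <;> simp [h]
  rw [hr, ← hpat ⟨q, hq⟩ true]
  have hsem : ∀ i a d : Nat, i < 14 → a < 14 → d < 2 → i ≠ a →
      (M.Sem ht (ryN 11 i a d) ↔ M.S.full (M.S.s0 (M.c.Φ (fi i) (fi a) (bo d) true))) := by
    intro i a d hi ha hd hia
    have : ryN 11 i a d = enc 11 i a d 0 := rfl
    rw [this, M.sem_enc ht (by omega) (by omega) (by omega) (by omega)]
    show (i ≠ a ∧ i < 14 ∧ a < 14 ∧ d < 2 ∧ M.S.full (M.S.s0 (M.flag i a d 0))) ↔ _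
    constructor
    · rintro ⟨-, -, -, -, h⟩
      exact h
    · intro h
      exact ⟨hia, hi, ha, hd, h⟩
  interval_cases q
  · exact hsem 0 1 0 (by omega) (by omega) (by omega) (by omega)
  · exact hsem 1 0 0 (by omega) (by omega) (by omega) (by omega)
  · exact hsem 2 0 0 (by omega) (by omega) (by omega) (by omega)
  · exact hsem 3 0 0 (by omega) (by omega) (by omega) (by omega)
  · exact hsem 0 1 1 (by omega) (by omega) (by omega) (by omega)
  · exact hsem 1 0 1 (by omega) (by omega) (by omega) (by omega)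
  · exact hsem 2 0 1 (by omega) (by omega) (by omega) (by omega)
  · exact hsem 3 0 1 (by omega) (by omega) (by omega) (by omega)

theorem ok_fUB (hs : Std M.S M.W M.c) (hle : ∀ f, M.S.mult f ≤ 4)
    (h4 : M.S.mult (M.c.Φ 0 1 true true) = 4) : OkT (M.Sem ht) (FT.leaf fUB) := by
  refine okT_leaf (okT_nthC (M.sem_zero ht) ?_)
  have front : ∀ l : Fin 14, l ≠ 0 → (M.W.X 0 l = M.W.X 0 1 ↔ l.1 < 4) := by
    intro l hl
    rw [← h4]
    exact hs.front l hl
  have x0 : ∀ a : Nat, 0 < a → a < 4 → M.X 0 a = M.X 0 1 := by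
    intro a ha ha5
    have : (fi a).val = a := fi_val (by omega)
    exact (front (fi a) (by
      intro h0
      rw [h0] at this
      simp at this
      omega)).2 (by omega)
  have x12 : M.X 1 2 = M.X 0 1 := by
    have h1 : M.X 0 1 = M.X 0 2 := (x0 2 (by omega) (by omega)).symm
    rw [M.conc3 (by omega) (by omega) (by omega) (by omega) (by omega) (by omega)] at h1
    exact h1.symm
  have x13 : M.X 1 3 = M.X 0 1 := by
    have h1 : M.X 0 1 = M.X 0 3 := (x0 3 (by omega) (by omega)).symm
    rw [M.conc3 (by omega) (by omega) (by omega) (by omega) (by omega) (by omega)] at h1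
    exact h1.symm
  have x2 := x0 2 (by omega) (by omega)
  have x3 := x0 3 (by omega) (by omega)
  have x4 : M.X 0 1 < M.X 0 4 := by
    have h1 : M.W.X 0 1 ≤ M.W.X 0 4 := hs.norm 1 4 (by decide) (by decide)
    have h2 : M.W.X 0 4 ≠ M.W.X 0 1 := fun he => by
      have := (front 4 (by decide)).1 he
      revert this
      decide
    exact lt_of_le_of_ne h1 h2.symm
  have unit : ∀ k a b c : Nat, k < 29 → a < 16 → b < 16 → c < 16 → M.SemK k a b c 0 →
      ClauseT (M.Sem ht) [pos (enc k a b c 0)] := by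
    intro k a b c hk ha hb hc hS
    rw [clauseT_cons, litS_pos, M.sem_enc ht hk ha hb hc]
    exact Or.inl hS
  intro l hl
  simp only [List.mem_cons, List.not_mem_nil, or_false] at hl
  rcases hl with rfl | rfl | rfl | rfl | rfl | rfl | rfl
  · exact unit 3 0 1 2 (by omega) (by omega) (by omega) (by omega)
      ⟨by omega, by omega, by omega, x2.symm⟩
  · exact unit 3 0 1 3 (by omega) (by omega) (by omega) (by omega)
      ⟨by omega, by omega, by omega, x3.symm⟩
  · exact unit 3 0 2 3 (by omega) (by omega) (by omega) (by omega)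
      ⟨by omega, by omega, by omega, x2.trans x3.symm⟩
  · exact unit 3 1 2 3 (by omega) (by omega) (by omega) (by omega)
      ⟨by omega, by omega, by omega, x12.trans x13.symm⟩
  · exact unit 1 0 1 4 (by omega) (by omega) (by omega) (by omega)
      ⟨by omega, by omega, by omega, x4⟩
  · exact unit 1 0 3 4 (by omega) (by omega) (by omega) (by omega)
      ⟨by omega, by omega, by omega, lt_of_eq_of_lt x3 x4⟩
  · rw [clauseT_cons, litS_pos]
    left
    refine (sem_ldv M ht (v := 0x3210) (l := 0) (r := 60) (q := 7) (by omega) (by omega) (by omega)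
      (by omega) (by omega)).2 ?_
    have h3 := load M hs hle (a := 0) (b := 1) (c := 2) (d := 3) (by omega) (by omega) (by omega)
      (by omega) x2.symm x3.symm
    show 7 < cnt (fun h => M.Sem0 (ldin 0 1 2 3 h)) 0 60
    rw [h3]
    omega

end M3

open M3

variable (M : Model)

theorem ok_exB (hs : Std M.S M.W M.c) {p : Fin 8 → Bool} (h : CaseB M.S M.W M.c p) {pat : Nat}
    (hp : ∀ q : Fin 8, Nat.land (Nat.shiftRight pat q.1) 1 = if p q = true then 1 else 0) {sp : FT}
    (hsp : OkT (M.Sem ht) sp) : OkT (M.Sem ht) (exB ht pat sp) := by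
  unfold exB
  refine okT_node (okT_node ?_ ?_) (okT_node (okT_node ?_ ?_) (okT_node (okT_node ?_ ?_)
    (okT_node (ok_fUB M hs h.le h.four) hsp)))
  · exact okT_leaf fun p => ok_fNO5 M h.le _ _ _ _ _ (n0_lt p) (n1_lt p) (n2_lt p) (n3_lt p) (n4_lt p)
  · exact okT_leaf fun p => ok_fWSM M _ _ _ (n0_lt p) (n1_lt p) (n2_lt p)
  · exact okT_leaf fun p => ok_fLOD M hs h.le _ _ _ _
  · exact okT_leaf fun p => ok_fWSC M h.le h.min _ _ _ _ _ (n4_lt p)
  · exact okT_leaf fun _ => ok_fTOP M hs.total (N := 1820) (by omega) (by omega)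
  · exact okT_leaf fun q => ok_fPAT M h.pat hp q

end Pool.Agent.Helper58.PLK
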