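import Pool.Agent.Helper58.PLK.Tree
import Pool.Agent.Helper54.PL.Split
import Pool.Agent.Helper80.FP.Final

/-!
# Block M4: the clauses from the final polynomials
-/

namespace Pool.Agent.Helper58.PLK

open Pool.Agent.Helper15.PL Pool.Agent.Helper54.PL

namespace M4

/-- The clause of a configuration. -/
noncomputable def clauseOf (c : List (Fin 14 × Fin 14 × Fin 14) × List (Fin 14 × Fin 14 × Fin 14)) :
    List Nat :=
  (c.1.map fun t => neg (enc 3 t.1.1 t.2.1.1 t.2.2.1 0)) ++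
    (c.2.map fun t => pos (enc 3 t.1.1 t.2.1.1 t.2.2.1 0))

theorem fFP_eq : fFP = nthC (FP.fpData.map clauseOf) := by
  unfold fFP
  refine congrArg nthC ?_
  decide +kernel

theorem fi_val (i : Fin 14) : fi i.1 = i := by
  apply Fin.ext
  simp only [fi, Fin.ofNat_eq_cast, Fin.val_natCast]
  have := i.2
  omega


theorem lt_data' : (FP.fpData.all fun c => c.2.all fun t =>
    Nat.blt t.1.1 t.2.1.1 && Nat.blt t.2.1.1 t.2.2.1) = true := by
  decide +kernel

theorem lt_data : ∀ c ∈ FP.fpData, ∀ t ∈ c.2, t.1 < t.2.1 ∧ t.2.1 < t.2.2 := by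
  intro c hc t ht
  have h := List.all_eq_true.1 (List.all_eq_true.1 lt_data' c hc) t ht
  rw [Bool.and_eq_true, Nat.blt_eq, Nat.blt_eq] at h
  exact h

variable (M : Model)

theorem sem3 (i j k : Fin 14) : M.Sem ht (enc 3 i.1 j.1 k.1 0) ↔
    i < j ∧ j < k ∧ M.W.X i j = M.W.X i k := by
  rw [M.sem_enc ht (by omega) (by have := i.2; omega) (by have := j.2; omega)
    (by have := k.2; omega)]
  change (i.1 < j.1 ∧ j.1 < k.1 ∧ k.1 < 14 ∧ M.W.X (fi i.1) (fi j.1) = M.W.X (fi i.1) (fi k.1)) ↔ _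
  rw [fi_val, fi_val, fi_val]
  constructor
  · exact fun h => ⟨h.1, h.2.1, h.2.2.2⟩
  · exact fun h => ⟨h.1, h.2.1, k.2, h.2.2⟩

end M4

open M4

variable (M : Model)

theorem ok_fFP (hs : Std M.S M.W M.c) : OkT (M.Sem ht) (FT.leaf fFP) := by
  rw [fFP_eq]
  refine okT_leaf (okT_nthC (M.sem_zero ht) ?_)
  intro l hl
  obtain ⟨c, hc, rfl⟩ := List.mem_map.1 hl
  by_contra hcon
  obtain ⟨a, ha⟩ := hs.real
  refine FP.fpData_false ha c hc ?_ ?_
  · intro t htt
    by_contra hne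
    refine hcon ⟨neg (enc 3 t.1.1 t.2.1.1 t.2.2.1 0), ?_, ?_⟩
    · exact List.mem_append_left _ (List.mem_map.2 ⟨t, htt, rfl⟩)
    · rw [litS_neg, sem3]
      exact fun h => hne h.2.2
  · intro t htt he
    refine hcon ⟨pos (enc 3 t.1.1 t.2.1.1 t.2.2.1 0), ?_, ?_⟩
    · exact List.mem_append_right _ (List.mem_map.2 ⟨t, htt, rfl⟩)
    · rw [litS_pos, sem3]
      exact ⟨(lt_data c hc t htt).1, (lt_data c hc t htt).2, he⟩

end Pool.Agent.Helper58.PLK
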