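import Pool.Agent.Helper58.PLK.Base
import Pool.Agent.Helper58.PLK.Fam
import Pool.Agent.Helper15.PL.RF

/-!
# Meaning of the propositional variables
-/

namespace Pool.Agent.Helper58.PLK

open Pool.Agent.Helper15.PL

open Classical in
/-- Number of true values of `f` on `l, ..., r - 1`. -/
noncomputable def cnt (f : Nat → Prop) (l r : Nat) : Nat := ((Finset.Ico l r).filter f).card

/-- A flag system of 14 lines with a chart. -/
structure Model where
  S : FlagSys 14
  W : Wiring 14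
  c : Chart S W
  facts : S.Facts
  hne : ∀ f : S.F, ∃ l, l ∉ S.vert f
  hM : ∀ f, S.mult f ≤ 8
  norm : ∀ j k, 0 < j → j < k → W.X 0 j ≤ W.X 0 k

/-- Index as an element of `Fin 14`. -/
def fi (i : Nat) : Fin 14 := Fin.ofNat 14 i

/-- Direction and side as Booleans: `0` is right / above. -/
def bo (d : Nat) : Bool := d == 0

namespace Model

variable (M : Model)

/-- Abscissa of the intersection of two lines. -/
noncomputable def X (i j : Nat) : ℝ := M.W.X (fi i) (fi j)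

/-- The flag at the vertex of the lines `i`, `a`, on line `i`, direction `d`, side `s`. -/
def flag (i a d s : Nat) : M.S.F := M.c.Φ (fi i) (fi a) (bo d) (bo s)

/-- The flag with code `e = d + 2 * s`. -/
def flagE (i a e : Nat) : M.S.F := M.flag i a (e % 2) (e / 2 % 2)

/-- Corner number `q` at the vertex of `i < j`: right/above, left/below, left/above, right/below. -/
def corner (i j q : Nat) : M.S.F := M.flagE i j (match q with | 0 => 0 | 1 => 3 | 2 => 1 | _ => 2)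

/-- Lines of a triple. -/
def ln (i j k x : Nat) : Nat := match x with | 0 => i | 1 => j | _ => k

/-- The flag of the candidate triangle `(i, j, k)` of type `c` at the vertex of its lines number `x`, `y`,
on its line number `x`. -/
def cflag (i j k c x y : Nat) : M.S.F := M.flag (ln i j k x) (ln i j k y) (dirN c x y) (sideN c x y)

/-- The six flags of the candidate triangle are the flags of a face. -/
def Cand (i j k c : Nat) : Prop :=
  (if c < 4 then M.X i j < M.X i k else M.X i k < M.X i j) ∧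
  ∀ x y z : Nat, x < 3 → y < 3 → z < 3 → x ≠ y → x ≠ z → y ≠ z →
    M.S.s1 (M.cflag i j k c x y) = M.cflag i j k c y x ∧
    M.S.s0 (M.cflag i j k c x y) = M.cflag i j k c x z

/-- Slack of the vertex of a flag. -/
noncomputable def slackV (f : M.S.F) : ℤ :=
  ∑ g ∈ Finset.univ.filter (fun g => M.S.vert g = M.S.vert f), M.S.slack g

/-- Meaning of the variable of kind `k` with payload fields `a`, `b`, `c`, `e`. -/
def SemK (k a b c e : Nat) : Prop :=
  match k with
  | 1 => a < b ∧ b < c ∧ c < 14 ∧ M.X a b < M.X a c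
  | 2 => a < b ∧ b < c ∧ c < 14 ∧ M.X a c < M.X a b
  | 3 => a < b ∧ b < c ∧ c < 14 ∧ M.X a b = M.X a c
  | 4 => a < b ∧ b < c ∧ c < 14 ∧ e < 8 ∧ M.Cand a b c e
  | 5 => a ≠ b ∧ a < 14 ∧ b < 14 ∧ c < 4 ∧ M.S.tri (M.flagE a b c)
  | 6 => a ≠ b ∧ a < 14 ∧ b < 14 ∧ c < 4 ∧ ∃ i j k cc x y, i < j ∧ j < k ∧ k < 14 ∧ cc < 8 ∧
      x < 3 ∧ y < 3 ∧ x ≠ y ∧ ln i j k x = a ∧ ln i j k y = b ∧ dirN cc x y = c % 2 ∧
      sideN cc x y = c / 2 ∧ M.Cand i j k cc
  | 7 => a < b ∧ b < 14 ∧ M.S.mult (M.flag a b 0 0) = 2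
  | 8 => a < b ∧ b < 14 ∧ M.S.full (M.flag a b 0 0)
  | 9 => a < b ∧ b < 14 ∧ c < 4 ∧ M.S.ty21 (M.corner a b c)
  | 10 => a < b ∧ b < 14 ∧ M.S.mult (M.flag a b 0 0) = 3
  | 11 => a ≠ b ∧ a < 14 ∧ b < 14 ∧ c < 2 ∧ M.S.full (M.S.s0 (M.flag a b c 0))
  | 12 => a ≠ b ∧ a < 14 ∧ b < 14 ∧ c < 4 ∧ M.S.reqG (M.flagE a b c)
  | 13 => a ≠ b ∧ a < 14 ∧ b < 14 ∧ c < 4 ∧ M.S.reqA (M.flagE a b c)
  | 14 => a ≠ b ∧ a < 14 ∧ b < 14 ∧ c < 4 ∧ M.S.reqB (M.flagE a b c)
  | 15 => a ≠ b ∧ a < 14 ∧ b < 14 ∧ c < 4 ∧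
      (M.S.reqG (M.flagE a b c) ∨ M.S.reqA (M.flagE a b c) ∨ M.S.reqB (M.flagE a b c))
  | 16 => a ≠ b ∧ a < 14 ∧ b < 14 ∧ c < 4 ∧ (∀ l < b, l ≠ a → M.X a l ≠ M.X a b) ∧
      M.S.W1 (M.flagE a b c)
  | 17 => a ≠ b ∧ a < 14 ∧ b < 14 ∧ c < 4 ∧ M.S.ty21 (M.S.s2 (M.S.s1 (M.flagE a b c))) ∧
      M.S.mult (M.S.s0 (M.S.s2 (M.S.s1 (M.flagE a b c)))) = 2
  | 18 => a ≠ b ∧ a < 14 ∧ b < 14 ∧ c < 2 ∧ 4 ≤ M.S.mult (M.flag a b c 0) ∧
      M.S.full (M.S.s0 (M.flag a b c 0)) ∧ M.S.nX (M.S.s0 (M.flag a b c 0)) = 0 ∧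
      M.S.nBig (M.S.s0 (M.flag a b c 0)) = 1
  | 19 => a ≠ b ∧ a < 14 ∧ b < 14 ∧ c < 2 ∧ M.S.full (M.S.s0 (M.flag a b c 0)) ∧
      M.S.nX (M.S.s0 (M.flag a b c 0)) ≤ 1 ∧
      ¬ (4 ≤ M.S.mult (M.flag a b c 0) ∧ M.S.nX (M.S.s0 (M.flag a b c 0)) = 0 ∧
        M.S.nBig (M.S.s0 (M.flag a b c 0)) = 1)
  | 20 => a ≠ b ∧ a < 14 ∧ b < 14 ∧ c < 2 ∧ ∃ s < 2, M.S.ty21 (M.S.outer (M.flag a b c s)) ∧
      M.S.mult (M.S.s0 (M.S.outer (M.flag a b c s))) = 2
  | 21 => a ≠ b ∧ a < 14 ∧ b < 14 ∧ c < 2 ∧ M.S.full (M.flag a b c 0) ∧ M.S.nX (M.flag a b c 0) = 0 ∧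
      M.S.nBig (M.flag a b c 0) = 1 ∧ 4 ≤ M.S.mult (M.S.s0 (M.flag a b c 0))
  | 22 => a < b ∧ b < 14 ∧ c < 4 ∧ M.S.tri (M.S.outer (M.corner a b c))
  | 23 => a < b ∧ b < 14 ∧ ∀ q r, q < r → r < 4 →
      M.S.tri (M.S.outer (M.corner a b q)) ∨ M.S.tri (M.S.outer (M.corner a b r))
  | 24 => a < b ∧ b < 14 ∧ M.S.mult (M.flag a b 0 0) = 2 ∧ 3 ≤ M.S.nc (M.flag a b 0 0)
  | 25 => a < b ∧ b < 14 ∧ M.S.mult (M.flag a b 0 0) = 2 ∧ M.S.nc (M.flag a b 0 0) = 4
  | 26 => a < b ∧ b < 14 ∧ M.S.full (M.flag a b 0 0) ∧ 3 ≤ M.S.nX (M.flag a b 0 0)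
  | 27 => a < b ∧ b < 14 ∧ M.S.full (M.flag a b 0 0) ∧ M.S.nX (M.flag a b 0 0) = 4
  | 28 => a < b ∧ b < 14 ∧ 4 ≤ M.S.mult (M.flag a b 0 0) ∧
      (∀ l < b, l ≠ a → M.X a l ≠ M.X a b) ∧ (4 * c : ℤ) < M.slackV (M.flag a b 0 0)
  | _ => False

/-- Meaning of a descriptor that is not of the counting kinds. -/
def Sem0 (d : Nat) : Prop :=
  M.SemK (d % 64) (d / 64 % 16) (d / 1024 % 16) (d / 16384 % 16) (d / 262144)

/-- Meaning of a descriptor; `ht` is the table of the inputs of the cardinality constraint. Kind 29: more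
than `q` of the inputs `l, ..., r - 1` are true; kind 30: more than `q` of the load inputs of a vertex. -/
def Sem (ht : DT) (d : Nat) : Prop :=
  if d % 64 = 29 then
    d / 64 % 8 < cnt (fun h => M.Sem0 (recv ht h)) (d / 512 % 2048) (d / 1048576)
  else if d % 64 = 30 then
    d / 4194304 % 32 < cnt (fun h => M.Sem0 (ldin (n0 (d / 64 % 65536)) (n1 (d / 64 % 65536))
      (n2 (d / 64 % 65536)) (n3 (d / 64 % 65536)) h)) (d / 134217728 % 128) (d / 17179869184)
  else M.Sem0 d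

end Model

/-! ### Arithmetic -/

theorem mnN_eq (a b : Nat) : mnN a b = min a b := by
  unfold mnN; simp only [Nat.sub_eq]; omega
theorem mxN_eq (a b : Nat) : mxN a b = max a b := by
  unfold mxN; simp only [Nat.sub_eq, Nat.add_eq]; omega
theorem ltN_eq (a b : Nat) : ltN a b = if a < b then 1 else 0 := by
  unfold ltN; simp only [Nat.sub_eq]; split_ifs <;> omega
theorem eqN_eq (a b : Nat) : eqN a b = if a = b then 1 else 0 := by
  unfold eqN; simp only [Nat.sub_eq, Nat.add_eq]; split_ifs <;> omega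
theorem enc_eq (k a b c e : Nat) : enc k a b c e = k + 64 * a + 1024 * b + 16384 * c + 262144 * e := by
  unfold enc; simp only [Nat.add_eq, Nat.mul_eq]; ring
theorem n0_lt (p : Nat) : n0 p < 16 := Nat.lt_succ_of_le Nat.and_le_right
theorem n1_lt (p : Nat) : n1 p < 16 := Nat.lt_succ_of_le Nat.and_le_right
theorem n2_lt (p : Nat) : n2 p < 16 := Nat.lt_succ_of_le Nat.and_le_right
theorem n3_lt (p : Nat) : n3 p < 16 := Nat.lt_succ_of_le Nat.and_le_right
theorem n4_lt (p : Nat) : n4 p < 16 := Nat.lt_succ_of_le Nat.and_le_right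
theorem n5_lt (p : Nat) : n5 p < 16 := Nat.lt_succ_of_le Nat.and_le_right
theorem n6_lt (p : Nat) : n6 p < 16 := Nat.lt_succ_of_le Nat.and_le_right

/-! ### Clauses -/

variable {Se : Nat → Prop}

theorem clauseT_nil : ¬ ClauseT Se [] := by rintro ⟨g, hg, _⟩; exact absurd hg (List.not_mem_nil)

theorem clauseT_cons {g : Nat} {l : List Nat} : ClauseT Se (g :: l) ↔ LitS Se g ∨ ClauseT Se l := by
  unfold ClauseT; simp

theorem litS_pos {d : Nat} : LitS Se (pos d) ↔ Se d := by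
  unfold LitS pos; simp only [Nat.mul_eq]
  rw [if_pos (by omega), show 2 * d / 2 = d by omega]

theorem litS_neg {d : Nat} : LitS Se (neg d) ↔ ¬ Se d := by
  unfold LitS neg; simp only [Nat.mul_eq]
  rw [if_neg (by omega), show Nat.succ (2 * d) / 2 = d by omega]

theorem litS_lit {w d : Nat} (hw : w < 2) : LitS Se (lit w d) ↔ (Se d ↔ w = 0) := by
  unfold LitS lit; simp only [Nat.mul_eq, Nat.add_eq]
  have : w = 0 ∨ w = 1 := by omega
  rcases this with rfl | rfl
  · rw [if_pos (by omega), show (0 + 2 * d) / 2 = d by omega]; simp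
  · rw [if_neg (by omega), show (1 + 2 * d) / 2 = d by omega]; simp

/-- Use this to prove a guarded clause. -/
theorem clauseT_okc {bad : Nat} {l : List Nat} (h0 : ¬ Se 0) (h : bad = 0 → ClauseT Se l) :
    ClauseT Se (okc bad l) := by
  rcases bad with _ | b
  · exact h rfl
  · exact ⟨1, List.mem_singleton.2 rfl, by unfold LitS; simpa using h0⟩

theorem sel_zero (l m : List Nat) : sel 0 l m = l := rfl
theorem sel_succ (b : Nat) (l m : List Nat) : sel (b + 1) l m = m := rfl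
theorem sel_eq (b : Nat) (l m : List Nat) : sel b l m = if b = 0 then l else m := by
  rcases b with _ | b <;> rfl

namespace Model

variable (M : Model) (ht : DT)

theorem sem_zero : ¬ M.Sem ht 0 := by
  unfold Sem Sem0; simp [SemK]

/-- Meaning of an encoded descriptor. -/
theorem sem_enc {k a b c e : Nat} (hk : k < 29) (ha : a < 16) (hb : b < 16) (hc : c < 16) :
    M.Sem ht (enc k a b c e) ↔ M.SemK k a b c e := by
  rw [enc_eq]
  unfold Sem Sem0
  rw [if_neg (by omega), if_neg (by omega)]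
  rw [show (k + 64 * a + 1024 * b + 16384 * c + 262144 * e) % 64 = k by omega,
    show (k + 64 * a + 1024 * b + 16384 * c + 262144 * e) / 64 % 16 = a by omega,
    show (k + 64 * a + 1024 * b + 16384 * c + 262144 * e) / 1024 % 16 = b by omega,
    show (k + 64 * a + 1024 * b + 16384 * c + 262144 * e) / 16384 % 16 = c by omega,
    show (k + 64 * a + 1024 * b + 16384 * c + 262144 * e) / 262144 = e by omega]

theorem X_symm (i j : Nat) : M.X i j = M.X j i := M.W.symm _ _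

theorem fi_ne {i j : Nat} (hi : i < 14) (hj : j < 14) (h : i ≠ j) : fi i ≠ fi j := by
  intro he
  have := congrArg Fin.val he
  simp only [fi, Fin.ofNat_eq_cast, Fin.val_natCast] at this
  omega

theorem fi_lt {i j : Nat} (hj : j < 14) (h : i < j) : fi i < fi j := by
  rw [Fin.lt_def]
  simp only [fi, Fin.ofNat_eq_cast, Fin.val_natCast]
  omega

/-- Concurrency is symmetric. -/
theorem conc3 {i j k : Nat} (hi : i < 14) (hj : j < 14) (hk : k < 14) (hij : i ≠ j) (hjk : j ≠ k)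
    (hik : i ≠ k) : M.X i j = M.X i k ↔ M.X i j = M.X j k := by
  constructor
  · intro h
    exact RF.conc M.W (fi_ne hi hj hij) (fi_ne hj hk hjk) (fi_ne hi hk hik) h
  · intro h
    have h1 : M.X j i = M.X j k := by rw [M.X_symm j i]; exact h
    have h2 : M.X j i = M.X i k :=
      RF.conc M.W (fi_ne hj hi hij.symm) (fi_ne hi hk hik) (fi_ne hj hk hjk) h1
    rw [M.X_symm j i] at h2
    exact h2

theorem conc_swap {i j k : Nat} (hi : i < 14) (hj : j < 14) (hk : k < 14) (hij : i ≠ j) (hjk : j ≠ k)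
    (hik : i ≠ k) : M.X i j = M.X i k ↔ M.X j i = M.X j k := by
  rw [M.conc3 hi hj hk hij hjk hik, M.X_symm i j]

/-- The order of the three crossings of three lines. -/
theorem btw3 {i j k : Nat} (hij : i < j) (hjk : j < k) (hk : k < 14) :
    (M.X i j < M.X i k ∧ M.X i k < M.X j k) ∨ (M.X i j = M.X i k ∧ M.X i k = M.X j k) ∨
      (M.X j k < M.X i k ∧ M.X i k < M.X i j) :=
  M.W.btw _ _ _ (fi_lt (by omega) hij) (fi_lt hk hjk)

theorem tri3_eq (k a b c e : Nat) : tri3 k a b c e =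
    enc k (min a (min b c)) (a + b + c - (min a (min b c) + max a (max b c))) (max a (max b c)) e := by
  unfold tri3 mdN
  simp only [mnN_eq, mxN_eq, Nat.sub_eq, Nat.add_eq]

/-- Meaning of `zz`. -/
theorem sem_zz {a b c : Nat} (ha : a < 16) (hb : b < 16) (hc : c < 16) :
    M.Sem ht (zz a b c) ↔
      a ≠ b ∧ a ≠ c ∧ b ≠ c ∧ a < 14 ∧ b < 14 ∧ c < 14 ∧ M.X a b = M.X a c := by
  have hz : zz a b c = tri3 3 a b c 0 := rfl
  rw [hz, tri3_eq, M.sem_enc ht (by omega) (by omega) (by omega) (by omega)]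
  show (_ ∧ _ ∧ _ ∧ M.X _ _ = M.X _ _) ↔ _
  by_cases hd : a ≠ b ∧ a ≠ c ∧ b ≠ c ∧ a < 14 ∧ b < 14 ∧ c < 14
  · obtain ⟨h1, h2, h3, h4, h5, h6⟩ := hd
    have e : ∀ x y z : Nat, min a (min b c) = x → max a (max b c) = z → a + b + c = x + y + z →
        x < y → y < z → z < 14 → (M.X x y = M.X x z ↔ M.X a b = M.X a c) →
        ((min a (min b c) < a + b + c - (min a (min b c) + max a (max b c)) ∧
          a + b + c - (min a (min b c) + max a (max b c)) < max a (max b c) ∧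
          max a (max b c) < 14 ∧ M.X (min a (min b c)) (a + b + c - (min a (min b c) + max a (max b c))) =
            M.X (min a (min b c)) (max a (max b c))) ↔
        a ≠ b ∧ a ≠ c ∧ b ≠ c ∧ a < 14 ∧ b < 14 ∧ c < 14 ∧ M.X a b = M.X a c) := by
      intro x y z hx hz hs hxy hyz hz14 hX
      have hy : a + b + c - (min a (min b c) + max a (max b c)) = y := by omega
      rw [hy, hx, hz]
      constructor
      · rintro ⟨-, -, -, h⟩
        exact ⟨h1, h2, h3, h4, h5, h6, hX.1 h⟩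
      · rintro ⟨-, -, -, -, -, -, h⟩
        exact ⟨hxy, hyz, hz14, hX.2 h⟩
    have s12 := M.conc_swap h4 h5 h6 h1 h3 h2
    have s13 := M.conc_swap h4 h6 h5 h2 h3.symm h1
    rcases lt_or_gt_of_ne h1 with hab | hab <;> rcases lt_or_gt_of_ne h3 with hbc | hbc <;>
      rcases lt_or_gt_of_ne h2 with hac | hac
    · exact e a b c (by omega) (by omega) (by omega) hab hbc h6 Iff.rfl
    · omega
    · exact e a c b (by omega) (by omega) (by omega) hac hbc h5 eq_comm
    · exact e c a b (by omega) (by omega) (by omega) hac hab h5 (s13.symm.trans eq_comm)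
    · exact e b a c (by omega) (by omega) (by omega) hab hac h6 s12.symm
    · exact e b c a (by omega) (by omega) (by omega) hbc hac h4 (eq_comm.trans s12.symm)
    · omega
    · exact e c b a (by omega) (by omega) (by omega) hbc hab h4 (eq_comm.trans (s13.symm.trans eq_comm))
  · constructor
    · rintro ⟨h1, h2, h3, -⟩
      exact absurd ⟨by omega, by omega, by omega, by omega, by omega, by omega⟩ hd
    · rintro ⟨h1, h2, h3, h4, h5, h6, -⟩
      exact absurd ⟨h1, h2, h3, h4, h5, h6⟩ hd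

/-- Meaning of `ltd`. -/
theorem sem_ltd {i a b : Nat} (hi : i < 16) (ha : a < 16) (hb : b < 16) :
    M.Sem ht (ltd i a b) ↔
      i ≠ a ∧ i ≠ b ∧ a ≠ b ∧ i < 14 ∧ a < 14 ∧ b < 14 ∧ M.X i a < M.X i b := by
  have hk : ltd i a b = tri3 (if a < b then 1 else 2) i a b 0 := by
    unfold ltd
    rw [ltN_eq]
    split_ifs <;> rfl
  rw [hk, tri3_eq, M.sem_enc ht (by split_ifs <;> omega) (by omega) (by omega) (by omega)]
  by_cases hd : i ≠ a ∧ i ≠ b ∧ a ≠ b ∧ i < 14 ∧ a < 14 ∧ b < 14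
  · obtain ⟨h1, h2, h3, h4, h5, h6⟩ := hd
    have e : ∀ x y z : Nat, min i (min a b) = x → max i (max a b) = z → i + a + b = x + y + z →
        x < y → y < z → z < 14 →
        ((if a < b then M.X x y < M.X x z else M.X x z < M.X x y) ↔ M.X i a < M.X i b) →
        (M.SemK (if a < b then 1 else 2) (min i (min a b)) (i + a + b - (min i (min a b) + max i (max a b)))
          (max i (max a b)) 0 ↔
        i ≠ a ∧ i ≠ b ∧ a ≠ b ∧ i < 14 ∧ a < 14 ∧ b < 14 ∧ M.X i a < M.X i b) := by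
      intro x y z hx hz hs hxy hyz hz14 hX
      have hy : i + a + b - (min i (min a b) + max i (max a b)) = y := by omega
      rw [hy, hx, hz]
      by_cases hab : a < b
      · rw [if_pos hab] at hX ⊢
        constructor
        · rintro ⟨-, -, -, h⟩
          exact ⟨h1, h2, h3, h4, h5, h6, hX.1 h⟩
        · rintro ⟨-, -, -, -, -, -, h⟩
          exact ⟨hxy, hyz, hz14, hX.2 h⟩
      · rw [if_neg hab] at hX ⊢
        constructor
        · rintro ⟨-, -, -, h⟩
          exact ⟨h1, h2, h3, h4, h5, h6, hX.1 h⟩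
        · rintro ⟨-, -, -, -, -, -, h⟩
          exact ⟨hxy, hyz, hz14, hX.2 h⟩
    have sa := M.X_symm i a
    have sb := M.X_symm i b
    rcases lt_or_gt_of_ne h1 with hia | hia <;> rcases lt_or_gt_of_ne h3 with hab | hab <;>
      rcases lt_or_gt_of_ne h2 with hib | hib
    · exact e i a b (by omega) (by omega) (by omega) hia hab h6 (by rw [if_pos hab])
    · omega
    · exact e i b a (by omega) (by omega) (by omega) hib hab h5 (by rw [if_neg (by omega)])
    · refine e b i a (by omega) (by omega) (by omega) hib hia h5 ?_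
      rw [if_neg (by omega)]
      rcases M.btw3 hib hia h5 with ⟨p, q⟩ | ⟨p, q⟩ | ⟨p, q⟩ <;>
        constructor <;> intro h <;> linarith
    · refine e a i b (by omega) (by omega) (by omega) hia hib h6 ?_
      rw [if_pos hab]
      rcases M.btw3 hia hib h6 with ⟨p, q⟩ | ⟨p, q⟩ | ⟨p, q⟩ <;>
        constructor <;> intro h <;> linarith
    · refine e a b i (by omega) (by omega) (by omega) hab hib h4 ?_
      rw [if_pos hab]
      rcases M.btw3 hab hib h4 with ⟨p, q⟩ | ⟨p, q⟩ | ⟨p, q⟩ <;>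
        constructor <;> intro h <;> linarith
    · omega
    · refine e b a i (by omega) (by omega) (by omega) hab hia h4 ?_
      rw [if_neg (by omega)]
      rcases M.btw3 hab hia h4 with ⟨p, q⟩ | ⟨p, q⟩ | ⟨p, q⟩ <;>
        constructor <;> intro h <;> linarith
  · constructor
    · intro h
      have h' : min i (min a b) < i + a + b - (min i (min a b) + max i (max a b)) ∧
          i + a + b - (min i (min a b) + max i (max a b)) < max i (max a b) ∧ max i (max a b) < 14 := by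
        by_cases hab : a < b
        · rw [if_pos hab] at h
          exact ⟨h.1, h.2.1, h.2.2.1⟩
        · rw [if_neg hab] at h
          exact ⟨h.1, h.2.1, h.2.2.1⟩
      obtain ⟨h1, h2, h3⟩ := h'
      exact absurd ⟨by omega, by omega, by omega, by omega, by omega, by omega⟩ hd
    · rintro ⟨h1, h2, h3, h4, h5, h6, -⟩
      exact absurd ⟨h1, h2, h3, h4, h5, h6⟩ hd

/-! ### Candidate triangles -/

theorem lnN_lt (t x : Nat) : lnN t x < 16 := Nat.lt_succ_of_le Nat.and_le_right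

theorem n0_mod (t : Nat) : n0 t = t % 16 := by
  show t &&& (2 ^ 4 - 1) = _
  rw [Nat.and_two_pow_sub_one_eq_mod]
theorem n1_mod (t : Nat) : n1 t = t / 16 % 16 := by
  show (t >>> 4) &&& (2 ^ 4 - 1) = _
  rw [Nat.and_two_pow_sub_one_eq_mod, Nat.shiftRight_eq_div_pow]
theorem n2_mod (t : Nat) : n2 t = t / 256 % 16 := by
  show (t >>> 8) &&& (2 ^ 4 - 1) = _
  rw [Nat.and_two_pow_sub_one_eq_mod, Nat.shiftRight_eq_div_pow]
theorem n3_mod (t : Nat) : n3 t = t / 4096 % 16 := by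
  show (t >>> 12) &&& (2 ^ 4 - 1) = _
  rw [Nat.and_two_pow_sub_one_eq_mod, Nat.shiftRight_eq_div_pow]

theorem lnN_ln (t : Nat) {x : Nat} (hx : x < 3) : lnN t x = ln (n0 t) (n1 t) (n2 t) x := by
  interval_cases x <;> rfl

theorem bad3_eq_zero {i j k : Nat} : bad3 i j k = 0 ↔ i < j ∧ j < k ∧ k < 14 := by
  show (Nat.succ i - j) + ((Nat.succ j - k) + (Nat.succ k - 14)) = 0 ↔ _
  omega
theorem bad2_eq_zero {i j : Nat} : bad2 i j = 0 ↔ i < j ∧ j < 14 := by
  show (Nat.succ i - j) + (Nat.succ j - 14) = 0 ↔ _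
  omega
theorem badp_eq_zero {i a : Nat} : badp i a = 0 ↔ i ≠ a ∧ i < 14 ∧ a < 14 := by
  show eqN i a + ((Nat.succ i - 14) + (Nat.succ a - 14)) = 0 ↔ _
  rw [eqN_eq]
  split_ifs <;> omega
theorem badc_eq_zero {x y : Nat} : badc x y = 0 ↔ x ≠ y ∧ x < 3 ∧ y < 3 := by
  show eqN x y + ((x - 2) + (y - 2)) = 0 ↔ _
  rw [eqN_eq]
  split_ifs <;> omega

theorem thN_spec {x y : Nat} (hx : x < 3) (hy : y < 3) (hxy : x ≠ y) :
    thN x y < 3 ∧ thN x y ≠ x ∧ thN x y ≠ y ∧ thN y x = thN x y := by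
  have h : ∀ a b : Nat, thN a b = 3 - (a + b) := fun _ _ => rfl
  rw [h, h]
  omega

theorem dirN_lt (c x y : Nat) : dirN c x y < 2 := Nat.lt_succ_of_le Nat.and_le_right
theorem sideN_lt (c x y : Nat) : sideN c x y < 2 := Nat.lt_succ_of_le Nat.and_le_right

/-- The literal `ncd` is the negation of the candidate triangle. -/
theorem litS_ncd {t c : Nat} (htt : t < 4096) :
    LitS (M.Sem ht) (ncd t c) ↔ ¬ (n0 t < n1 t ∧ n1 t < n2 t ∧ n2 t < 14 ∧ c < 8 ∧
      M.Cand (n0 t) (n1 t) (n2 t) c) := by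
  have h : ncd t c = neg (enc 4 (n0 t) (n1 t) (n2 t) c) := by
    unfold ncd
    rw [enc_eq, n0_mod, n1_mod, n2_mod]
    congr 1
    show 4 + 64 * (t + 4096 * c) = _
    omega
  rw [h, litS_neg, M.sem_enc ht (by omega) (n0_lt t) (n1_lt t) (n2_lt t)]
  rfl

/-- To prove a clause on a candidate triangle assume that it is one. -/
theorem clauseT_ncd {t c : Nat} {l : List Nat} (htt : t < 4096)
    (h : n0 t < n1 t → n1 t < n2 t → n2 t < 14 → c < 8 → M.Cand (n0 t) (n1 t) (n2 t) c →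
      ClauseT (M.Sem ht) l) : ClauseT (M.Sem ht) (ncd t c :: l) := by
  rw [clauseT_cons, M.litS_ncd ht htt]
  by_cases hc : n0 t < n1 t ∧ n1 t < n2 t ∧ n2 t < 14 ∧ c < 8 ∧ M.Cand (n0 t) (n1 t) (n2 t) c
  · exact Or.inr (h hc.1 hc.2.1 hc.2.2.1 hc.2.2.2.1 hc.2.2.2.2)
  · exact Or.inl hc

theorem ln_lt {i j k x : Nat} (hi : i < j) (hj : j < k) (hk : k < 14) : ln i j k x < 14 := by
  unfold ln
  split <;> omega

theorem ln_ne {i j k x y : Nat} (hi : i < j) (hj : j < k) (hx : x < 3) (hy : y < 3) (hxy : x ≠ y) :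
    ln i j k x ≠ ln i j k y := by
  interval_cases x <;> interval_cases y <;> simp_all [ln] <;> omega

section cand

variable {M}
variable {i j k c : Nat}

theorem cand_s1 (h : M.Cand i j k c) {x y : Nat} (hx : x < 3) (hy : y < 3) (hxy : x ≠ y) :
    M.S.s1 (M.cflag i j k c x y) = M.cflag i j k c y x := by
  have h3 := thN_spec hx hy hxy
  exact (h.2 x y (thN x y) hx hy h3.1 hxy h3.2.1.symm h3.2.2.1.symm).1

theorem cand_s0 (h : M.Cand i j k c) {x y : Nat} (hx : x < 3) (hy : y < 3) (hxy : x ≠ y) :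
    M.S.s0 (M.cflag i j k c x y) = M.cflag i j k c x (thN x y) := by
  have h3 := thN_spec hx hy hxy
  exact (h.2 x y (thN x y) hx hy h3.1 hxy h3.2.1.symm h3.2.2.1.symm).2

/-- The face of the flags of a candidate triangle is a triangle. -/
theorem cand_tri (h : M.Cand i j k c) {x y : Nat} (hx : x < 3) (hy : y < 3) (hxy : x ≠ y) :
    M.S.tri (M.cflag i j k c x y) := by
  have h3 := thN_spec hx hy hxy
  obtain ⟨hz, hzx, hzy, -⟩ := h3
  have e1 := (h.2 x y (thN x y) hx hy hz hxy hzx.symm hzy.symm)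
  have e2 := (h.2 y x (thN x y) hy hx hz hxy.symm hzy.symm hzx.symm)
  have e3 := (h.2 y (thN x y) x hy hz hx hzy.symm hxy.symm hzx)
  have e4 := (h.2 (thN x y) y x hz hy hx hzy hzx hxy.symm)
  have e5 := (h.2 (thN x y) x y hz hx hy hzx hzy hxy)
  have e6 := (h.2 x (thN x y) y hx hz hy hzx.symm hxy hzy)
  unfold FlagSys.tri
  rw [e1.1, e2.2, e3.1, e4.2, e5.1, e6.2]

theorem cflag_eq (M : Model) (i j k c x y : Nat) : M.cflag i j k c x y =
    M.flagE (ln i j k x) (ln i j k y) (dirN c x y + 2 * sideN c x y) := by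
  unfold cflag flagE
  have h1 := dirN_lt c x y
  have h2 := sideN_lt c x y
  rw [show (dirN c x y + 2 * sideN c x y) % 2 = dirN c x y by omega,
    show (dirN c x y + 2 * sideN c x y) / 2 % 2 = sideN c x y by omega]

end cand

end Model

end Pool.Agent.Helper58.PLK
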