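import Pool.Agent.Helper58.PLK.Check
import Mathlib.Data.Nat.Bitwise
import Mathlib.Tactic

/-!
# Soundness of the chain checker
-/

namespace Pool.Agent.Helper58.PLK

/-- Truth of the literal with code `b` under the assignment `v`; variable `0` counts as false. -/
def LitT (v : Nat → Prop) (b : Nat) : Prop :=
  if b % 2 = 0 then (b / 2 ≠ 0 ∧ v (b / 2)) else ¬ (b / 2 ≠ 0 ∧ v (b / 2))

/-- Truth of the clause with mask `m`: some literal of the mask is true. -/
def Holds (v : Nat → Prop) (m : Nat) : Prop := ∃ b, m.testBit b = true ∧ LitT v b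

theorem not_litT_zero (v : Nat → Prop) : ¬ LitT v 0 := by simp [LitT]

theorem litT_one (v : Nat → Prop) : LitT v 1 := by simp [LitT]

theorem litT_xor_one (v : Nat → Prop) (b : Nat) : LitT v (b ^^^ 1) ↔ ¬ LitT v b := by
  have h2 : (b ^^^ 1) / 2 = b / 2 := by
    apply Nat.eq_of_testBit_eq
    intro i
    rw [Nat.testBit_div_two, Nat.testBit_div_two, Nat.testBit_xor]
    have : (1 : Nat).testBit (i + 1) = false := by
      rw [Nat.testBit_succ]; simp
    rw [this]; simp
  have h1 : (b ^^^ 1) % 2 = 1 - b % 2 := by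
    have := Nat.testBit_xor b 1 0
    simp only [Nat.testBit_zero] at this
    rcases Nat.mod_two_eq_zero_or_one b with h | h <;>
      rcases Nat.mod_two_eq_zero_or_one (b ^^^ 1) with h' | h' <;> simp_all
  unfold LitT
  rw [h2, h1]
  rcases Nat.mod_two_eq_zero_or_one b with h | h <;> simp [h]

theorem holds_lor {v : Nat → Prop} {a b : Nat} : Holds v (a ||| b) ↔ Holds v a ∨ Holds v b := by
  unfold Holds
  constructor
  · rintro ⟨i, hi, hl⟩
    rw [Nat.testBit_or, Bool.or_eq_true] at hi
    rcases hi with hi | hi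
    · exact Or.inl ⟨i, hi, hl⟩
    · exact Or.inr ⟨i, hi, hl⟩
  · rintro (⟨i, hi, hl⟩ | ⟨i, hi, hl⟩)
    · exact ⟨i, by rw [Nat.testBit_or, hi]; simp, hl⟩
    · exact ⟨i, by rw [Nat.testBit_or, hi]; simp, hl⟩

theorem holds_shl {v : Nat → Prop} {u : Nat} : Holds v (1 <<< u) ↔ LitT v u := by
  unfold Holds
  constructor
  · rintro ⟨i, hi, hl⟩
    have : u = i := by
      have h := hi
      rw [Nat.one_shiftLeft, Nat.testBit_two_pow] at h
      simpa using h
    rwa [this]
  · intro h
    exact ⟨u, by rw [Nat.one_shiftLeft, Nat.testBit_two_pow]; simp, h⟩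

/-- One resolution step. -/
theorem holds_step {v : Nat → Prop} {R u c : Nat} (hR : Holds v R) (hc : Holds v ((1 <<< u) ||| c)) :
    Holds v ((R ^^^ (1 <<< (u ^^^ 1))) ||| c) := by
  rw [holds_lor] at hc ⊢
  rcases hc with hc | hc
  · left
    rw [holds_shl] at hc
    obtain ⟨i, hi, hl⟩ := hR
    refine ⟨i, ?_, hl⟩
    have hne : u ^^^ 1 ≠ i := by
      rintro rfl
      exact (litT_xor_one v u).1 hl hc
    rw [Nat.testBit_xor, hi, Nat.one_shiftLeft, Nat.testBit_two_pow]
    simp [hne]
  · exact Or.inr hc

theorem holds_mono {v : Nat → Prop} {R F : Nat} (h : (((R ||| F) ^^^ F) >>> 1) = 0) (hR : Holds v R) :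
    Holds v F := by
  obtain ⟨i, hi, hl⟩ := hR
  rcases Nat.eq_zero_or_pos i with h0 | h0
  · subst h0; exact absurd hl (not_litT_zero v)
  · refine ⟨i, ?_, hl⟩
    by_contra hF
    have hF' : F.testBit i = false := by simpa using hF
    have : (((R ||| F) ^^^ F) >>> 1).testBit (i - 1) = true := by
      rw [Nat.testBit_shiftRight, show 1 + (i - 1) = i by omega, Nat.testBit_xor, Nat.testBit_or, hi, hF']
      rfl
    rw [h] at this
    simp at this

/-- All clauses with number less than `x` hold. -/
def Inv (v : Nat → Prop) (t u : DT) (x : Nat) : Prop := ∀ i < x, Holds v (full t u i)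

theorem full_eq (t u : DT) (i : Nat) : full t u i = (1 <<< (recd t i &&& 65535)) ||| tail t u i := rfl

theorem pb_eq (t : DT) (i : Nat) : pb t i = 1 <<< ((recd t i &&& 65535) ^^^ 1) := rfl

theorem holds_chain {v : Nat → Prop} {t u : DT} {R i : Nat} (hR : Holds v R)
    (hi : Holds v (full t u i)) : Holds v ((R ^^^ pb t i) ||| tail t u i) := by
  rw [full_eq] at hi
  rw [pb_eq]
  exact holds_step hR hi

section

variable {v : Nat → Prop} {t u : DT}

theorem fin_sound {ih : Nat → Nat → Nat → Nat}
    (hih : ∀ D k R, 0 < k → Inv v t u k → Holds v R → Inv v t u (ih D k R))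
    (D k R : Nat) (hk : Inv v t u k) (hR : Holds v R) : Inv v t u (fin t u ih D k R) := by
  have hfail : Inv v t u 0 := fun i hi => absurd hi (Nat.not_lt_zero i)
  unfold fin
  have key : ∀ x : Nat, x = ((R ||| full t u k) ^^^ full t u k) >>> 1 →
      Inv v t u (Nat.rec (motive := fun _ => Nat)
        (Nat.rec (motive := fun _ => Nat) 0
          (fun k1 _ =>
            Nat.rec (motive := fun _ => Nat)
              (ih (Nat.shiftRight D 40) (Nat.succ k1) (full t u 0))
              (fun m _ => ih (Nat.shiftRight D 40) (Nat.succ k1) (full t u (Nat.succ m)))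
              (Nat.mod (Nat.land (Nat.shiftRight D 20) 1048575) (Nat.succ k1)))
          (Nat.succ k))
        (fun _ _ => 0) x) := by
    intro x hx
    rcases x with _ | x
    · have hF : Holds v (full t u k) := holds_mono hx.symm hR
      have hk' : Inv v t u (k + 1) := by
        intro i hi
        rcases Nat.lt_succ_iff_lt_or_eq.1 hi with h | h
        · exact hk i h
        · rw [h]; exact hF
      have hstep : ∀ y : Nat, y < k + 1 → Inv v t u (Nat.rec (motive := fun _ => Nat)
              (ih (Nat.shiftRight D 40) (Nat.succ k) (full t u 0))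
              (fun m _ => ih (Nat.shiftRight D 40) (Nat.succ k) (full t u (Nat.succ m))) y) := by
        intro y hy
        rcases y with _ | y
        · exact hih _ _ _ (Nat.succ_pos k) hk' (hk' 0 hy)
        · exact hih _ _ _ (Nat.succ_pos k) hk' (hk' (y + 1) hy)
      exact hstep _ (Nat.mod_lt _ (Nat.succ_pos k))
    · exact hfail
  exact key _ rfl

theorem tok_sound {K : Nat → Nat → Nat}
    (hK : ∀ k R, 0 < k → Inv v t u k → Holds v R → Inv v t u (K k R)) (n : Nat) :
    ∀ D k R, 0 < k → Inv v t u k → Holds v R → Inv v t u (tok t u K n D k R) := by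
  induction n with
  | zero => intro D k R h0 hk hR; exact hK k R h0 hk hR
  | succ n ihn =>
    intro D k R h0 hk hR
    have key : ∀ y : Nat, y < k → Inv v t u (Nat.rec (motive := fun _ => Nat) (fin t u (tok t u K n) D k R)
        (fun m _ => tok t u K n (Nat.shiftRight D 20) k
          (Nat.lor (Nat.xor R (pb t (Nat.succ m))) (tail t u (Nat.succ m)))) y) := by
      intro y hy
      rcases y with _ | y
      · exact fin_sound ihn D k R hk hR
      · exact ihn _ _ _ h0 hk (holds_chain hR (hk (y + 1) hy))
    exact key _ (Nat.mod_lt _ h0)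

theorem chunks_sound {K : Nat → Nat → Nat}
    (hK : ∀ k R, 0 < k → Inv v t u k → Holds v R → Inv v t u (K k R)) (n : Nat) :
    ∀ D k R, 0 < k → Inv v t u k → Holds v R → Inv v t u (chunks t u K n D k R) := by
  induction n with
  | zero => intro D k R h0 hk hR; exact hK k R h0 hk hR
  | succ n ihn =>
    intro D k R h0 hk hR
    exact tok_sound (fun k R h0 hk hR => ihn _ k R h0 hk hR) _ _ _ _ h0 hk hR

theorem run_sound (l : List Nat) :
    ∀ k R, 0 < k → Inv v t u k → Holds v R → Inv v t u (run t u l k R) := by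
  induction l with
  | nil => intro k R _ hk _; exact hk
  | cons D l ihl =>
    intro k R h0 hk hR
    show Inv v t u (chunks t u (run t u l) 24 D k R)
    exact chunks_sound (fun k R h0 hk hR => ihl k R h0 hk hR) _ _ _ _ h0 hk hR

end

/-- Soundness of one segment of the certificate. -/
theorem seg_sound {t u : DT} {l : List Nat} {k0 k1 : Nat} (hk : 0 < k0)
    (h : Nat.beq (run t u l k0 (full t u k0)) k1 = true) {v : Nat → Prop}
    (hI : Inv v t u (k0 + 1)) : Inv v t u k1 := by
  have h1 : run t u l k0 (full t u k0) = k1 := Nat.eq_of_beq_eq_true h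
  rw [← h1]
  exact run_sound l k0 _ hk (fun i hi => hI i (Nat.lt_succ_of_lt hi)) (hI k0 (Nat.lt_succ_self k0))

/-- The end of a refutation: clause `k` has only literal codes `0`. -/
theorem false_of_inv {t u : DT} {k : Nat} (h : Nat.beq (full t u k) 1 = true) {v : Nat → Prop}
    (hI : Inv v t u (k + 1)) : False := by
  have h1 : full t u k = 1 := Nat.eq_of_beq_eq_true h
  obtain ⟨i, hi, hl⟩ := hI k (Nat.lt_succ_self k)
  rw [h1, Nat.testBit_one_eq_true_iff_self_eq_zero] at hi
  subst hi
  exact not_litT_zero v hl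

end Pool.Agent.Helper58.PLK
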