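import Pool.Agent.Helper58.PLK.Model
import Pool.Agent.Helper58.PLK.Halves
import Pool.Agent.Helper58.PLK.Mode

/-!
# Truth of all clauses of a tree of families
-/

namespace Pool.Agent.Helper58.PLK

/-- All clauses of the tree are true. -/
def OkT (Se : Nat → Prop) (T : FT) : Prop := ∀ p, ClauseT Se (T.eval p)

variable {Se : Nat → Prop}

theorem okT_leaf {f : Nat → List Nat} (h : ∀ p, ClauseT Se (f p)) : OkT Se (FT.leaf f) := h

theorem okT_node {l r : FT} (hl : OkT Se l) (hr : OkT Se r) : OkT Se (FT.node l r) := by
  intro p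
  have key : ∀ x : Nat, ClauseT Se (Nat.rec (motive := fun _ => List Nat) (l.eval (Nat.shiftRight p 1))
      (fun _ _ => r.eval (Nat.shiftRight p 1)) x) := by
    intro x
    rcases x with _ | x
    · exact hl _
    · exact hr _
  exact key _

/-- An explicit list of clauses. -/
theorem okT_nthC (h0 : ¬ Se 0) {L : List (List Nat)} (h : ∀ l ∈ L, ClauseT Se l) :
    ∀ p, ClauseT Se (nthC L p) := by
  induction L with
  | nil =>
    intro p
    exact ⟨1, List.mem_singleton.2 rfl, by unfold LitS; simpa using h0⟩
  | cons c L ih =>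
    intro p
    rcases p with _ | p
    · exact h c List.mem_cons_self
    · exact ih (fun l hl => h l (List.mem_cons_of_mem _ hl)) p

/-- The empty family. -/
theorem okT_triv (h0 : ¬ Se 0) : OkT Se (FT.leaf fun _ => [1]) :=
  okT_leaf fun _ => ⟨1, List.mem_singleton.2 rfl, by unfold LitS; simpa using h0⟩

end Pool.Agent.Helper58.PLK
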