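import Pool.Agent.Helper58.PLK.GenSound
import Pool.Agent.Helper58.PLK.M1
import Pool.Agent.Helper58.PLK.M2
import Pool.Agent.Helper58.PLK.M3
import Pool.Agent.Helper58.PLK.M4
import Pool.Agent.Helper58.PLK.C.Fin
import Pool.Agent.Helper58.PLK.A1.Fin
import Pool.Agent.Helper58.PLK.A2.Fin
import Pool.Agent.Helper58.PLK.A3.Fin
import Pool.Agent.Helper58.PLK.A5s.Fin
import Pool.Agent.Helper58.PLK.A5n.Fin
import Pool.Agent.Helper58.PLK.B0.Fin
import Pool.Agent.Helper58.PLK.B1.Fin
import Pool.Agent.Helper58.PLK.B2.Fin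
import Pool.Agent.Helper58.PLK.B3.Fin
import Pool.Agent.Helper58.PLK.B4.Fin
import Pool.Agent.Helper58.PLK.B5.Fin
import Pool.Agent.Helper58.PLK.B6.Fin
import Pool.Agent.Helper58.PLK.B7.Fin
import Pool.Agent.Helper54.PL.Split
import Pool.Agent.Helper15.PL.Main

/-!
# The finite part: fewer than 360 triangular flags
-/

namespace Pool.Agent.Helper58.PLK

open Pool.Agent.Helper15.PL Pool.Agent.Helper54.PL

/-- The finite part of the proof: a flag system on 14 lines with charts has fewer than 360 triangular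
flags. -/
theorem tri_lt : TriLt := by
  intro S hne hc
  by_contra hlt
  obtain ⟨W, c, hs, h⟩ := case_split S hne hc (not_lt.mp hlt)
  let M : Model := ⟨S, W, c, hs.facts, hs.nonfull, hs.le8, hs.norm⟩
  rcases h with h | ⟨p, hp, h⟩ | h | h | h | h
  · exact C.unsat (gen_sound M (ok_exC M hs h))
  · have key : ∀ {pat : Nat}, (∀ q : Fin 8, Nat.land (Nat.shiftRight pat q.1) 1 =
        if p q = true then 1 else 0) → ∀ {sp : FT}, OkT (M.Sem ht) sp →
        ∀ a, ClauseT (M.Sem ht) (gen (exB ht pat sp) ht a) :=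
      fun hpat _ hsp => gen_sound M (ok_exB M hs h hpat hsp)
    have h0 : OkT (M.Sem ht) (FT.leaf fun _ => [1]) := okT_triv (M.sem_zero ht)
    simp only [pats, List.mem_cons, List.not_mem_nil, or_false] at hp
    rcases hp with hp | hp | hp | hp | hp | hp | hp | hp
    · exact B0.unsat (key (by rw [hp]; decide) h0)
    · exact B1.unsat (key (by rw [hp]; decide) h0)
    · exact B2.unsat (key (by rw [hp]; decide) h0)
    · exact B3.unsat (key (by rw [hp]; decide) h0)
    · exact B4.unsat (key (by rw [hp]; decide) (ok_fFP M hs))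
    · exact B5.unsat (key (by rw [hp]; decide) h0)
    · exact B6.unsat (key (by rw [hp]; decide) h0)
    · exact B7.unsat (key (by rw [hp]; decide) h0)
  · exact A1.unsat (gen_sound M (ok_exA1 M hs h))
  · exact A2.unsat (gen_sound M (ok_exA2 M hs h))
  · exact A3.unsat (gen_sound M (ok_exA3 M hs h))
  · rcases ok_exA5 M hs h with h5 | h5
    · exact A5s.unsat (gen_sound M h5)
    · exact A5n.unsat (gen_sound M h5)

end Pool.Agent.Helper58.PLK
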